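import Pool.Agent.Lib.FMM.Defs

/-!
# Module FMM.FnB: partial functions with small domain

`p ≤ q` for `p q : Fn κ I V` is `∀ i v, q.1 i = some v → p.1 i = some v` (definition).

PROOFS.
* single: `fun j => if j = i then some v else none`; the domain is contained in `{i}`.
* glb: `g.1 = PF.sup (Subtype.val '' C)`; the value: if `p ∈ C`, `p.1 i = some v` then the `choose`
  agrees with `v` by compatibility. The domain is `⋃ p ∈ C, dom p`, of size `< κ`
  (`card_iUnion_lt_iff_forall_of_isRegular`, see `directed_AddC` in WkD/AddP.lean for the same proof).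
* glb2: `fun i => if p.1 i ≠ none then p.1 i else q.1 i` (see `AddC.compat_iff` in WkD/AddP.lean),
  `add_lt_of_lt`.
* rs: `rs_val` is rfl. union_rs: glb2 of `p` and `a.1`; they are compatible: for `j ∈ A` with
  `p.1 j = some v` also `(rs A p).1.1 j = some v`, so `a.1.1 j = some v` by `h`; for `j ∉ A` `a.1.1 j = none`
  (domain of `a`).
* proj_rs: union_rs. proj_rs': the same; the union has domain in `B`.
* FnOn.glb: glb for the image in `Fn κ J Z`; the domain of the union is contained in `A`.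
* cg_*: in a chain the elements are pairwise compatible.
-/

set_option autoImplicit false

namespace Pool.Agent.Lib.FMM

open Set Cardinal Classical

variable {κ : Cardinal.{0}}

namespace Fn

variable {I V : Type}

theorem ext' {p q : Fn κ I V} (h : ∀ i, p.1 i = q.1 i) : p = q :=
  Subtype.ext (funext h)

theorem agree {r p q : Fn κ I V} (h1 : r ≤ p) (h2 : r ≤ q) {i : I} {v w : V}
    (hp : p.1 i = some v) (hq : q.1 i = some w) : v = w := by
  have e1 : r.1 i = some v := h1 i v hp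
  have e2 : r.1 i = some w := h2 i w hq
  rw [e1] at e2
  exact Option.some.inj e2

theorem single (hκ : ℵ₀ ≤ κ) (i : I) (v : V) :
    ∃ p : Fn κ I V, ∀ j w, p.1 j = some w ↔ j = i ∧ w = v := by
  refine ⟨⟨fun j => if j = i then some v else none, ?_⟩, ?_⟩
  · refine lt_of_le_of_lt (mk_le_mk_of_subset (t := {i}) ?_)
      (by rw [mk_singleton]; exact one_lt_aleph0.trans_le hκ)
    intro j hj
    by_contra h
    exact hj (if_neg h)
  · intro j w
    show (if j = i then some v else none) = some w ↔ _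
    by_cases h : j = i
    · simp [h, eq_comm]
    · simp [h]

theorem glb (hκ : κ.IsRegular) (C : Set (Fn κ I V)) (hC : #C < κ)
    (hcomp : ∀ p ∈ C, ∀ q ∈ C, ∀ i v w, p.1 i = some v → q.1 i = some w → v = w) :
    ∃ g : Fn κ I V, IsGLB C g ∧ ∀ i v, g.1 i = some v ↔ ∃ p ∈ C, p.1 i = some v := by
  have hval : ∀ i v, PF.sup (Subtype.val '' C) i = some v ↔ ∃ p ∈ C, p.1 i = some v := by
    intro i v
    unfold PF.sup
    split_ifs with h
    · obtain ⟨p', ⟨p, hp, rfl⟩, hpi⟩ := h.choose_spec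
      constructor
      · intro e
        exact ⟨p, hp, by rw [← e]; exact hpi⟩
      · rintro ⟨q, hq, hqi⟩
        rw [hcomp p hp q hq i _ _ hpi hqi]
    · constructor
      · intro e
        cases e
      · rintro ⟨q, hq, hqi⟩
        exact absurd ⟨v, q.1, ⟨q, hq, rfl⟩, hqi⟩ h
  have hdom : PF.dom (PF.sup (Subtype.val '' C)) ⊆ ⋃ p : C, PF.dom p.1.1 := by
    intro i hi
    obtain ⟨v, hv⟩ := Option.ne_none_iff_exists'.1 hi
    obtain ⟨p, hp, hpi⟩ := (hval i v).1 hv
    refine mem_iUnion.2 ⟨⟨p, hp⟩, ?_⟩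
    show p.1 i ≠ none
    rw [hpi]
    simp
  refine ⟨⟨PF.sup (Subtype.val '' C), (mk_le_mk_of_subset hdom).trans_lt
    ((card_iUnion_lt_iff_forall_of_isRegular hκ hC).2 (fun p => p.1.2))⟩, ⟨?_, ?_⟩, hval⟩
  · intro p hp i v h
    exact (hval i v).2 ⟨p, hp, h⟩
  · intro r hr i v h
    obtain ⟨p, hp, hpi⟩ := (hval i v).1 h
    exact hr hp i v hpi

theorem glb2 (hκ : ℵ₀ ≤ κ) (p q : Fn κ I V)
    (hcomp : ∀ i v w, p.1 i = some v → q.1 i = some w → v = w) :
    ∃ g : Fn κ I V, g ≤ p ∧ g ≤ q ∧ (∀ i v, g.1 i = some v ↔ p.1 i = some v ∨ q.1 i = some v) ∧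
      ∀ r, r ≤ p → r ≤ q → r ≤ g := by
  have hval : ∀ i v, (if p.1 i ≠ none then p.1 i else q.1 i) = some v ↔
      p.1 i = some v ∨ q.1 i = some v := by
    intro i v
    by_cases h : p.1 i = none
    · rw [if_neg (by simpa using h), h]
      simp
    · rw [if_pos h]
      obtain ⟨w, hw⟩ := Option.ne_none_iff_exists'.1 h
      constructor
      · exact Or.inl
      · rintro (h1 | h1)
        · exact h1
        · rw [hw, hcomp i w v hw h1]
  have hdom : PF.dom (fun i => if p.1 i ≠ none then p.1 i else q.1 i) ⊆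
      PF.dom p.1 ∪ PF.dom q.1 := by
    intro i hi
    by_cases hp : p.1 i = none
    · right
      have hi' : (if p.1 i ≠ none then p.1 i else q.1 i) ≠ none := hi
      rw [if_neg (by simpa using hp)] at hi'
      exact hi'
    · exact Or.inl hp
  refine ⟨⟨fun i => if p.1 i ≠ none then p.1 i else q.1 i, (mk_le_mk_of_subset hdom).trans_lt
    ((mk_union_le _ _).trans_lt (add_lt_of_lt hκ p.2 q.2))⟩, ?_, ?_, hval, ?_⟩
  · intro i v h
    exact (hval i v).2 (Or.inl h)
  · intro i v h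
    exact (hval i v).2 (Or.inr h)
  · intro r h1 h2 i v h
    rcases (hval i v).1 h with h | h
    · exact h1 i v h
    · exact h2 i v h

/-- extension of a condition by a small partial function on new coordinates -/
theorem exists_ext (hκ : ℵ₀ ≤ κ) (p : Fn κ I V) (f : PF I V) (hf : #f.dom < κ)
    (hd : ∀ i, p.1 i ≠ none → f i = none) :
    ∃ g : Fn κ I V, g ≤ p ∧ (∀ i, p.1 i = none → g.1 i = f i) ∧
      ∀ i v, g.1 i = some v ↔ p.1 i = some v ∨ f i = some v := by
  obtain ⟨g, h1, -, h2, -⟩ := glb2 hκ p ⟨f, hf⟩ (by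
    intro i v w hp hq
    have h3 : f i = none := hd i (by rw [hp]; simp)
    have h4 : f i = some w := hq
    rw [h3] at h4
    cases h4)
  refine ⟨g, h1, ?_, h2⟩
  intro i hi
  refine Option.ext fun v => ?_
  show g.1 i = some v ↔ f i = some v
  rw [h2 i v, hi]
  simp

end Fn

variable {J Z : Type} {A B : Set J}

theorem rs_val (p : Fn κ J Z) (j : J) : (rs A p).1.1 j = if j ∈ A then p.1 j else none := rfl

theorem le_rs (A : Set J) (p : Fn κ J Z) : p ≤ (rs A p).1 := by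
  intro j v h
  rw [rs_val] at h
  by_cases hj : j ∈ A
  · rwa [if_pos hj] at h
  · rw [if_neg hj] at h
    cases h

theorem rs_mono (A : Set J) : Monotone (rs A : Fn κ J Z → FnOn κ J Z A) := by
  intro p q hpq j v h
  show (rs A p).1.1 j = some v
  have h' : (rs A q).1.1 j = some v := h
  rw [rs_val] at h' ⊢
  by_cases hj : j ∈ A
  · rw [if_pos hj] at h' ⊢
    exact hpq j v h'
  · rw [if_neg hj] at h'
    cases h'

private theorem FnOn.none_of (p : FnOn κ J Z A) {j : J} (hj : j ∉ A) : p.1.1 j = none := by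
  by_contra h
  exact hj (p.2 h)

theorem rs_eq (p : FnOn κ J Z A) : rs A p.1 = p := by
  refine Subtype.ext (Fn.ext' fun j => ?_)
  rw [rs_val]
  by_cases hj : j ∈ A
  · rw [if_pos hj]
  · rw [if_neg hj, FnOn.none_of p hj]

theorem rs_rs (h : A ⊆ B) (p : Fn κ J Z) : rs A (rs B p).1 = rs A p := by
  refine Subtype.ext (Fn.ext' fun j => ?_)
  by_cases hj : j ∈ A
  · rw [rs_val, if_pos hj, rs_val, if_pos (h hj), rs_val, if_pos hj]
  · rw [rs_val, if_neg hj, rs_val, if_neg hj]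

theorem union_rs (hκ : ℵ₀ ≤ κ) (p : Fn κ J Z) (a : FnOn κ J Z A) (h : a ≤ rs A p) :
    ∃ g : Fn κ J Z, g ≤ p ∧ g ≤ a.1 ∧ rs A g = a ∧ (∀ j, j ∉ A → g.1 j = p.1 j) ∧
      ∀ r, r ≤ p → r ≤ a.1 → r ≤ g := by
  have hpa : ∀ j ∈ A, ∀ v, p.1 j = some v → a.1.1 j = some v := by
    intro j hj v hv
    have h1 : (rs A p).1.1 j = some v := by
      rw [rs_val, if_pos hj]
      exact hv
    exact h j v h1
  obtain ⟨g, h1, h2, h3, h4⟩ := Fn.glb2 hκ p a.1 (by
    intro j v w hp ha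
    have hj : j ∈ A := a.2 (by show a.1.1 j ≠ none; rw [ha]; simp)
    have h1 := hpa j hj v hp
    rw [ha] at h1
    exact (Option.some.inj h1).symm)
  refine ⟨g, h1, h2, ?_, ?_, h4⟩
  · refine Subtype.ext (Fn.ext' fun j => ?_)
    rw [rs_val]
    by_cases hj : j ∈ A
    · rw [if_pos hj]
      refine Option.ext fun v => ?_
      show g.1 j = some v ↔ a.1.1 j = some v
      rw [h3 j v]
      exact ⟨fun h => h.elim (hpa j hj v) id, Or.inr⟩
    · rw [if_neg hj, FnOn.none_of a hj]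
  · intro j hj
    refine Option.ext fun v => ?_
    show g.1 j = some v ↔ p.1 j = some v
    rw [h3 j v, FnOn.none_of a hj]
    simp

theorem proj_rs (hκ : ℵ₀ ≤ κ) (A : Set J) : Proj (rs A : Fn κ J Z → FnOn κ J Z A) := by
  refine ⟨rs_mono A, ?_⟩
  intro w p hp
  obtain ⟨g, h1, -, h2, -, -⟩ := union_rs hκ w p hp
  exact ⟨g, h1, h2.le⟩

theorem proj_rs' (hκ : ℵ₀ ≤ κ) (h : A ⊆ B) :
    Proj (fun p : FnOn κ J Z B => (rs A p.1 : FnOn κ J Z A)) := by
  refine ⟨fun p q hpq => rs_mono A hpq, ?_⟩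
  intro w p hp
  obtain ⟨g, h1, -, h2, h3, -⟩ := union_rs hκ w.1 p hp
  refine ⟨⟨g, ?_⟩, h1, h2.le⟩
  intro j hj
  by_cases hjA : j ∈ A
  · exact h hjA
  · have hj' : g.1 j ≠ none := hj
    rw [h3 j hjA] at hj'
    exact w.2 hj'

theorem FnOn.glb (hκ : κ.IsRegular) (C : Set (FnOn κ J Z A)) (hC : #C < κ)
    (hcomp : ∀ p ∈ C, ∀ q ∈ C, ∀ i v w, p.1.1 i = some v → q.1.1 i = some w → v = w) :
    ∃ g : FnOn κ J Z A, IsGLB C g ∧ ∀ i v, g.1.1 i = some v ↔ ∃ p ∈ C, p.1.1 i = some v := by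
  obtain ⟨g, hg, hval⟩ := Fn.glb hκ (Subtype.val '' C) (mk_image_le.trans_lt hC) (by
    rintro _ ⟨p, hp, rfl⟩ _ ⟨q, hq, rfl⟩ i v w h1 h2
    exact hcomp p hp q hq i v w h1 h2)
  have hval' : ∀ i v, g.1 i = some v ↔ ∃ p ∈ C, p.1.1 i = some v := by
    intro i v
    rw [hval i v]
    constructor
    · rintro ⟨_, ⟨p, hp, rfl⟩, h⟩
      exact ⟨p, hp, h⟩
    · rintro ⟨p, hp, h⟩
      exact ⟨p.1, ⟨p, hp, rfl⟩, h⟩
  refine ⟨⟨g, ?_⟩, ⟨?_, ?_⟩, hval'⟩
  · intro j hj
    obtain ⟨v, hv⟩ := Option.ne_none_iff_exists'.1 (hj : g.1 j ≠ none)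
    obtain ⟨p, -, hpj⟩ := (hval' j v).1 hv
    exact p.2 (by show p.1.1 j ≠ none; rw [hpj]; simp)
  · intro p hp
    exact hg.1 ⟨p, hp, rfl⟩
  · intro r hr
    have hr' : r.1 ∈ lowerBounds (Subtype.val '' C) := by
      rintro _ ⟨p, hp, rfl⟩
      exact hr hp
    exact hg.2 hr'

theorem cg_fn (hκ : κ.IsRegular) (I V : Type) : CG κ (Fn κ I V) := by
  intro C _ hC hch
  obtain ⟨g, hg, -⟩ := Fn.glb hκ C hC (by
    intro p hp q hq i v w h1 h2
    rcases hch p hp q hq with h | h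
    · exact Fn.agree le_rfl h h1 h2
    · exact Fn.agree h le_rfl h1 h2)
  exact ⟨g, hg⟩

theorem cg_fnOn (hκ : κ.IsRegular) (A : Set J) : CG κ (FnOn κ J Z A) := by
  intro C _ hC hch
  obtain ⟨g, hg, -⟩ := FnOn.glb hκ C hC (by
    intro p hp q hq i v w h1 h2
    rcases hch p hp q hq with h | h
    · exact Fn.agree (r := p.1) le_rfl h h1 h2
    · exact Fn.agree (r := q.1) h le_rfl h1 h2)
  exact ⟨g, hg⟩

end Pool.Agent.Lib.FMM
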