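import Pool.Agent.Lib.FMM.NdB
import Pool.Agent.Lib.FMM.FnB

/-!
# Module FMM.Climb: transfinite recursion, distributivity

PROOFS.
* climb: Zorn in the form `exists_maximal_of_chains_bounded` for the relation `r y y' := y = y' ∨ lt y y'`
  on the subtype `Y = {y // ρ y ≤ γ ∧ (y = x₀ ∨ lt x₀ y)}`. Bound of a chain `c`: empty chain: `x₀`. If `c` has an
  element `m` with `y = m ∨ lt y m` for all `y ∈ c`: `m`. Otherwise every `x ∈ c` has `y ∈ c` with `lt x y`
  (as `c` is a chain), `ρ` is injective on `c` with values in `Iic γ` so `#c ≤ #(Iic γ)`; hlim for the image of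
  `c` gives `z` (it is above `x₀`: take `x ∈ c`, transitivity). A maximal `m` has `ρ m = γ`: otherwise
  hstep gives `y` with `lt m y`, `ρ y ≤ γ`, so `r y m`, i.e. `y = m` or `lt y m`: `ρ y < ρ y` or
  `ρ y ≤ ρ m < ρ y`.
* dist: (`P` with glb of chains `< κ`, `I` of size `< κ`, for every `i` the supremum of the `x i j` is above
  `em p`; then some `q ≤ p` decides all `i`.) Let `g : I → K` be injective (`#I < κ = #K`), `γ` a strict
  bound of its values (`bdd`). `X = {(a, q) : K × P | a ≤ γ ∧ q ≤ p ∧ ∀ i, g i < a → ∃ j, em q ≤ x i j}`, `lt (a, q)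
  (a', q')` iff `a < a'` and `q' ≤ q`, `ρ = fst`. Start: `(⊥, p)` (the least element of `K`). Step: `a < γ`, let
  `a'` be the successor of `a` (least element above `a`), `a' ≤ γ`; the only new `i` has `g i = a` (at most
  one, `g` injective): exists_em_iSup for it. Limit: `C` without maximum, `#C ≤ #(Iic γ) < κ`; `q` the glb of the
  second components (a chain, `CG`; size at most `#C`), `a` the supremum of the first components
  (least `a` above all); if `g i < a` then `g i < b` for some `(b, q') ∈ C`. `(a, q)` is strictly above all of `C`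
  as `C` has no maximum. The element with `ρ = γ` is as required (`g i < γ` for all `i`; choose `f`).
* omega: sequences of length omega: `s : ℕ → P` decreasing has a glb (CG with the range, countable,
  `ℵ₀ < κ`).
-/

set_option autoImplicit false

namespace Pool.Agent.Lib.FMM

open Set Cardinal Pool.Agent.Lib.WkD

theorem climb {X Θ : Type} [LinearOrder Θ] [WellFoundedLT Θ] (lt : X → X → Prop)
    (htr : ∀ x y z, lt x y → lt y z → lt x z) (ρ : X → Θ) (hρ : ∀ x y, lt x y → ρ x < ρ y) (γ : Θ)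
    (hstep : ∀ x, ρ x < γ → ∃ y, lt x y ∧ ρ y ≤ γ)
    (hlim : ∀ C : Set X, C.Nonempty → #C ≤ #(Iic γ) →
      (∀ x ∈ C, ∀ y ∈ C, x = y ∨ lt x y ∨ lt y x) → (∀ x ∈ C, ∃ y ∈ C, lt x y) →
      (∀ x ∈ C, ρ x < γ) → ∃ z, (∀ x ∈ C, lt x z) ∧ ρ z ≤ γ)
    (x₀ : X) (h₀ : ρ x₀ ≤ γ) : ∃ y, (y = x₀ ∨ lt x₀ y) ∧ ρ y = γ := by
  classical
  let Y : Type := {y : X // ρ y ≤ γ ∧ (y = x₀ ∨ lt x₀ y)}
  let r : Y → Y → Prop := fun y y' => y = y' ∨ lt y.1 y'.1
  have hup : ∀ y : Y, ∀ z : X, lt y.1 z → lt x₀ z := by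
    intro y z hz
    rcases y.2.2 with h | h
    · rw [h] at hz; exact hz
    · exact htr _ _ _ h hz
  obtain ⟨m, hm⟩ : ∃ m : Y, ∀ a, r m a → r a m := by
    apply exists_maximal_of_chains_bounded
    · intro c hc
      rcases c.eq_empty_or_nonempty with rfl | hne
      · exact ⟨⟨x₀, h₀, Or.inl rfl⟩, fun a ha => absurd ha (notMem_empty a)⟩
      by_cases hmax : ∃ m ∈ c, ∀ y ∈ c, r y m
      · obtain ⟨m, _, h⟩ := hmax
        exact ⟨m, h⟩
      push Not at hmax
      have hcomp : ∀ x ∈ c, ∀ y ∈ c, x = y ∨ lt x.1 y.1 ∨ lt y.1 x.1 := by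
        intro x hx y hy
        by_cases hxy : x = y
        · exact Or.inl hxy
        rcases hc hx hy hxy with h | h
        · rcases h with h | h
          · exact Or.inl h
          · exact Or.inr (Or.inl h)
        · rcases h with h | h
          · exact Or.inl h.symm
          · exact Or.inr (Or.inr h)
      have hno : ∀ x ∈ c, ∃ y ∈ c, lt x.1 y.1 := by
        intro x hx
        obtain ⟨y, hy, hyx⟩ := hmax x hx
        refine ⟨y, hy, ?_⟩
        rcases hcomp x hx y hy with h | h | h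
        · exact absurd (Or.inl h.symm) hyx
        · exact h
        · exact absurd (Or.inr h) hyx
      let C : Set X := Subtype.val '' c
      obtain ⟨z, hz, hzγ⟩ := hlim C (hne.image _) (by
          have hinj : Function.Injective (fun x : C => (⟨ρ x.1, by
              obtain ⟨y, _, hy⟩ := x.2
              rw [← hy]
              exact y.2.1⟩ : Iic γ)) := by
            rintro ⟨x, x', hx', rfl⟩ ⟨y, y', hy', rfl⟩ hxy
            have hxy : ρ x'.1 = ρ y'.1 := congrArg Subtype.val hxy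
            rcases hcomp x' hx' y' hy' with h | h | h
            · subst h; rfl
            · exact absurd hxy (hρ _ _ h).ne
            · exact absurd hxy (hρ _ _ h).ne'
          exact mk_le_of_injective hinj)
        (by
          rintro x ⟨x', hx', rfl⟩ y ⟨y', hy', rfl⟩
          rcases hcomp x' hx' y' hy' with h | h | h
          · exact Or.inl (congrArg Subtype.val h)
          · exact Or.inr (Or.inl h)
          · exact Or.inr (Or.inr h))
        (by
          rintro x ⟨x', hx', rfl⟩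
          obtain ⟨y, hy, hxy⟩ := hno x' hx'
          exact ⟨y.1, ⟨y, hy, rfl⟩, hxy⟩)
        (by
          rintro x ⟨x', hx', rfl⟩
          obtain ⟨y, hy, hxy⟩ := hno x' hx'
          exact (hρ _ _ hxy).trans_le y.2.1)
      obtain ⟨x, hx⟩ := hne
      refine ⟨⟨z, hzγ, Or.inr (hup x z (hz x.1 ⟨x, hx, rfl⟩))⟩, ?_⟩
      intro a ha
      exact Or.inr (hz a.1 ⟨a, ha, rfl⟩)
    · intro a b c hab hbc
      rcases hab with rfl | hab
      · exact hbc
      rcases hbc with rfl | hbc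
      · exact Or.inr hab
      · exact Or.inr (htr _ _ _ hab hbc)
  refine ⟨m.1, m.2.2, ?_⟩
  by_contra hne
  obtain ⟨y, hy, hyγ⟩ := hstep m.1 (lt_of_le_of_ne m.2.1 hne)
  have h1 : r ⟨y, hyγ, Or.inr (hup m y hy)⟩ m := hm _ (Or.inr hy)
  rcases h1 with h1 | h1
  · have h2 : y = m.1 := congrArg Subtype.val h1
    rw [h2] at hy
    exact lt_irrefl _ (hρ _ _ hy)
  · exact lt_irrefl _ ((hρ _ _ hy).trans (hρ _ _ h1))

variable {κ : Cardinal.{0}} {K : Type} [LinearOrder K] [WellFoundedLT K]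

/-- `Iic γ` is small -/
theorem card_Iic (hK : RegK κ K) (γ : K) : #(Iic γ) < κ := by
  obtain ⟨b, hb⟩ := hK.bdd {γ} (by
    rw [mk_singleton]
    exact one_lt_aleph0.trans hK.unc)
  refine lt_of_le_of_lt (mk_le_mk_of_subset ?_) (hK.small b)
  intro x hx
  exact lt_of_le_of_lt hx (hb γ rfl)

theorem dist (hK : RegK κ K) {P : Type} [PartialOrder P] (hP : CG κ P) {I : Type} (hI : #I < κ)
    {Y : I → Type} (x : (i : I) → Y i → ROP P) (p : P) (h : ∀ i, em p ≤ ⨆ j, x i j) :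
    ∃ q, q ≤ p ∧ ∃ f : (i : I) → Y i, ∀ i, em q ≤ x i (f i) := by
  classical
  obtain ⟨g⟩ : Nonempty (I ↪ K) := by
    have h1 : #I ≤ #K := by rw [hK.card]; exact hI.le
    exact h1
  obtain ⟨γ, hγ⟩ := hK.bdd (range g) (mk_range_le.trans_lt hI)
  have wf := wellFounded_lt (α := K)
  let X : Type := {y : K × P // y.1 ≤ γ ∧ y.2 ≤ p ∧ ∀ i, g i < y.1 → ∃ j, em y.2 ≤ x i j}
  let lt : X → X → Prop := fun y y' => y.1.1 < y'.1.1 ∧ y'.1.2 ≤ y.1.2
  let ρ : X → K := fun y => y.1.1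
  have hK0 : (univ : Set K).Nonempty := ⟨γ, mem_univ _⟩
  let x₀ : X := ⟨(wf.min univ hK0, p), not_lt.1 (wf.not_lt_min _ (mem_univ γ)), le_rfl,
    fun i hi => absurd hi (wf.not_lt_min _ (mem_univ (g i)))⟩
  suffices hmain : ∃ y : X, (y = x₀ ∨ lt x₀ y) ∧ ρ y = γ by
    obtain ⟨y, _, hy⟩ := hmain
    have h1 : ∀ i, ∃ j, em y.1.2 ≤ x i j := fun i => y.2.2.2 i (by
      have h2 : y.1.1 = γ := hy
      rw [h2]
      exact hγ _ (mem_range_self i))
    choose f hf using h1
    exact ⟨y.1.2, y.2.2.1, f, hf⟩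
  refine climb lt (fun a b c hab hbc => ⟨hab.1.trans hbc.1, hbc.2.trans hab.2⟩) ρ
    (fun a b hab => hab.1) γ ?_ ?_ x₀ x₀.2.1
  · intro y hy
    have hne : {b | y.1.1 < b}.Nonempty := ⟨γ, hy⟩
    have h1 : y.1.1 < wf.min _ hne := wf.min_mem _ hne
    have h2 : wf.min _ hne ≤ γ := not_lt.1 (wf.not_lt_min _ (show γ ∈ {b | y.1.1 < b} from hy))
    have h3 : ∀ i, g i < wf.min _ hne → g i ≤ y.1.1 := by
      intro i hi
      by_contra hcon
      exact wf.not_lt_min _ (show g i ∈ {b | y.1.1 < b} from not_le.1 hcon) hi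
    by_cases hi : ∃ i, g i = y.1.1
    · obtain ⟨i, hi⟩ := hi
      obtain ⟨q, hq, j, hj⟩ := exists_em_iSup ((em_mono y.2.2.1).trans (h i))
      refine ⟨⟨(wf.min _ hne, q), h2, hq.trans y.2.2.1, ?_⟩, ⟨h1, hq⟩, h2⟩
      intro i' hi'
      rcases lt_or_eq_of_le (h3 i' hi') with h4 | h4
      · obtain ⟨j', hj'⟩ := y.2.2.2 i' h4
        exact ⟨j', (em_mono hq).trans hj'⟩
      · have h5 : i' = i := g.injective (h4.trans hi.symm)
        subst h5
        exact ⟨j, hj⟩
    · refine ⟨⟨(wf.min _ hne, y.1.2), h2, y.2.2.1, ?_⟩, ⟨h1, le_rfl⟩, h2⟩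
      intro i' hi'
      rcases lt_or_eq_of_le (h3 i' hi') with h4 | h4
      · exact y.2.2.2 i' h4
      · exact absurd ⟨i', h4⟩ hi
  · intro C hCne hCcard hchain hnomax hlt
    have hQ : #((fun y : X => y.1.2) '' C) < κ :=
      (mk_image_le.trans hCcard).trans_lt (card_Iic hK γ)
    obtain ⟨q, hq⟩ := hP ((fun y : X => y.1.2) '' C) (hCne.image _) hQ (by
      rintro a ⟨y, hy, rfl⟩ b ⟨z, hz, rfl⟩
      rcases hchain y hy z hz with h1 | h1 | h1
      · subst h1; exact Or.inl le_rfl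
      · exact Or.inr h1.2
      · exact Or.inl h1.2)
    have hq' : ∀ y ∈ C, q ≤ y.1.2 := fun y hy => hq.1 ⟨y, hy, rfl⟩
    have hne : {b | ∀ y ∈ C, y.1.1 < b}.Nonempty := ⟨γ, fun y hy => hlt y hy⟩
    have h1 : ∀ y ∈ C, y.1.1 < wf.min _ hne := wf.min_mem _ hne
    have h2 : wf.min _ hne ≤ γ := not_lt.1 (wf.not_lt_min _
      (show γ ∈ {b | ∀ y ∈ C, y.1.1 < b} from fun y hy => hlt y hy))
    obtain ⟨y₀, hy₀⟩ := hCne
    refine ⟨⟨(wf.min _ hne, q), h2, (hq' y₀ hy₀).trans y₀.2.2.1, ?_⟩, ?_, h2⟩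
    · intro i hi
      have h3 : ∃ y ∈ C, g i ≤ y.1.1 := by
        by_contra hcon
        push Not at hcon
        exact wf.not_lt_min _ (show g i ∈ {b | ∀ y ∈ C, y.1.1 < b} from hcon) hi
      obtain ⟨y, hy, hyi⟩ := h3
      obtain ⟨z, hz, hyz⟩ := hnomax y hy
      obtain ⟨j, hj⟩ := z.2.2.2 i (hyi.trans_lt hyz.1)
      exact ⟨j, (em_mono (hq' z hz)).trans hj⟩
    · intro y hy
      exact ⟨h1 y hy, hq' y hy⟩

theorem omega_glb (hκ : ℵ₀ < κ) {P : Type} [PartialOrder P] (hP : CG κ P) (s : ℕ → P)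
    (hs : Antitone s) : ∃ g, IsGLB (range s) g := by
  refine hP (range s) (range_nonempty s) ((mk_range_le.trans mk_nat.le).trans_lt hκ) ?_
  rintro _ ⟨m, rfl⟩ _ ⟨n, rfl⟩
  rcases le_total m n with h | h
  · exact Or.inr (hs h)
  · exact Or.inl (hs h)

end Pool.Agent.Lib.FMM
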