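import Pool.Agent.Lib.FMM.AbStep
import Pool.Agent.Lib.FMM.Climb

/-!
# Module FMM.AbCu: the current element of a path

`cu ω i` is the greatest lower bound of `⊤` and the `x.2.2` for the entries `x` of `ω` before `i`.

PROOFS. `hab : Ab κ π`, `hM : Mac dec z₀ M`, `hK : RegK κ K`.
* cu_congr: same sets.
* cu_glb: (for a path) by strong induction on `i ≤ ω.len`: for `j < i` with entry `x` we have
  `x.2.2 ≤ cu ω j` (step_mem, Mac.le) and `cu ω j ≤ ` all entries before `j` (induction hypothesis), so the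
  entries form a chain with `⊤`; the set has size `< κ` (`hK.small`, plus one); `hab.cgD` gives a glb and
  `gl` chooses it.
* cu_anti: `i ≤ j ≤ ω.len`: bigger set. cu_succ: entry `x` at `i`: `x.2.2 ≤ cu ω i ≤ ` all earlier entries, so
  the glb of the entries before the successor of `i` is `x.2.2`; stated for `snoc`: cu_snoc.
* path_snoc: entries of `snoc ω x` at `i < ω.len` are those of `ω` and `cu` is the same (cu_congr).
* ww_snoc: from path_snoc, cu_snoc, step_le.
* path_ini: an initial segment of a path is a path, `cu` the same.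
-/

set_option autoImplicit false

namespace Pool.Agent.Lib.FMM

open Set Cardinal Classical

variable {κ : Cardinal.{0}} {K D R Z : Type} [LinearOrder K] [WellFoundedLT K] [NoMaxOrder K]
  [PartialOrder D] [OrderTop D] [PartialOrder R] [OrderTop R]
  {π : D → R} {dec : Z → Option D} {z₀ : Z} {M : D → Z → Set D}

private theorem gl_eq {D : Type} [PartialOrder D] [OrderTop D] {C : Set D} {g : D}
    (h : IsGLB C g) : gl C = g := by
  unfold gl
  have h' : ∃ g, IsGLB C g := ⟨g, h⟩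
  rw [dif_pos h']
  exact h'.choose_spec.unique h

private theorem gl_glb {D : Type} [PartialOrder D] [OrderTop D] {C : Set D}
    (h : ∃ g, IsGLB C g) : IsGLB C (gl C) := by
  unfold gl
  rw [dif_pos h]
  exact h.choose_spec

theorem cu_congr {ω ω' : Nd K (Lam Z D)} {i : K} (h : ∀ j, j < i → ω.1 j = ω'.1 j) :
    cu ω i = cu ω' i := by
  unfold cu
  congr 2
  ext m
  constructor
  · rintro ⟨j, hj, x, hx, rfl⟩
    exact ⟨j, hj, x, by rw [← h j hj]; exact hx, rfl⟩
  · rintro ⟨j, hj, x, hx, rfl⟩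
    exact ⟨j, hj, x, by rw [h j hj]; exact hx, rfl⟩

theorem cu_glb (hK : RegK κ K) (hab : Ab κ π) (hM : Mac dec z₀ M) {r : R}
    {ω : Nd K (Lam Z D)} (hω : Path π z₀ M r ω) {i : K} (hi : i ≤ ω.len) :
    IsGLB (insert ⊤ {m | ∃ j, j < i ∧ ∃ x, ω.1 j = some x ∧ x.2.2 = m}) (cu ω i) := by
  induction i using WellFoundedLT.induction with
  | ind i ih =>
  have key : ∀ j j' x x', j < i → j' < i → ω.1 j = some x → ω.1 j' = some x' → j < j' →
      x'.2.2 ≤ x.2.2 := by
    intro j j' x x' _ hj' hx hx' hlt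
    have h1 := hM.le _ _ _ (step_mem hM (hω j' x' hx'))
    exact h1.trans ((ih j' hj' (hj'.le.trans hi)).1
      (mem_insert_of_mem _ ⟨j, hlt, x, hx, rfl⟩))
  refine gl_glb (hab.cgD _ (insert_nonempty _ _) ?_ ?_)
  · set f : K → D := fun j => if j < i then (match ω.1 j with
      | some x => x.2.2
      | none => ⊤) else ⊤ with hf
    have hsub : insert ⊤ {m | ∃ j, j < i ∧ ∃ x, ω.1 j = some x ∧ x.2.2 = m} ⊆ f '' Iic i := by
      intro m hm
      rcases hm with hm | ⟨j, hj, x, hx, hm⟩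
      · refine ⟨i, le_refl i, ?_⟩
        rw [hm, hf]
        exact if_neg (lt_irrefl i)
      · refine ⟨j, hj.le, ?_⟩
        rw [hf]
        simp only [if_pos hj, hx]
        exact hm
    exact lt_of_le_of_lt ((mk_le_mk_of_subset hsub).trans mk_image_le) (card_Iic hK i)
  · rintro a ha b hb
    rcases ha with ha | ⟨j, hj, x, hx, rfl⟩
    · right
      rw [ha]
      exact le_top
    rcases hb with hb | ⟨j', hj', x', hx', rfl⟩
    · left
      rw [hb]
      exact le_top
    rcases lt_trichotomy j j' with h | h | h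
    · right
      exact key j j' x x' hj hj' hx hx' h
    · subst h
      rw [hx] at hx'
      left
      rw [Option.some.inj hx']
    · left
      exact key j' j x' x hj' hj hx' hx h

theorem cu_anti (hK : RegK κ K) (hab : Ab κ π) (hM : Mac dec z₀ M) {r : R}
    {ω : Nd K (Lam Z D)} (hω : Path π z₀ M r ω) {i j : K} (hij : i ≤ j) (hj : j ≤ ω.len) :
    cu ω j ≤ cu ω i := by
  refine (cu_glb hK hab hM hω (hij.trans hj)).2 ?_
  rintro m (hm | ⟨l, hl, x, hx, rfl⟩)
  · rw [hm]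
    exact le_top
  · exact (cu_glb hK hab hM hω hj).1 (mem_insert_of_mem _ ⟨l, lt_of_lt_of_le hl hij, x, hx, rfl⟩)

theorem cu_snoc (hK : RegK κ K) (hab : Ab κ π) (hM : Mac dec z₀ M) {r : R}
    {ω : Nd K (Lam Z D)} (hω : Path π z₀ M r ω) {x : Lam Z D}
    (hx : Step π z₀ M r (cu ω ω.len) x) : cu (ω.snoc x) (ω.snoc x).len = x.2.2 := by
  refine gl_eq (IsLeast.isGLB ⟨?_, ?_⟩)
  · exact mem_insert_of_mem _ ⟨ω.len, Nd.lt_snoc_len.2 (le_refl _), x, Nd.snoc_val ω x, rfl⟩
  · rintro m (hm | ⟨j, hj, y, hy, rfl⟩)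
    · rw [hm]
      exact le_top
    · rcases lt_or_eq_of_le (Nd.lt_snoc_len.1 hj) with h | h
      · rw [Nd.snoc_val_lt h] at hy
        exact (hM.le _ _ _ (step_mem hM hx)).trans ((cu_glb hK hab hM hω (le_refl _)).1
          (mem_insert_of_mem _ ⟨j, h, y, hy, rfl⟩))
      · subst h
        rw [Nd.snoc_val] at hy
        rw [Option.some.inj hy]

theorem path_mono {r r' : R} (h : r' ≤ r) {ω : Nd K (Lam Z D)} (hω : Path π z₀ M r ω) :
    Path π z₀ M r' ω :=
  fun i x hx => step_mono h (hω i x hx)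

theorem path_snoc {r : R} {ω : Nd K (Lam Z D)} (hω : Path π z₀ M r ω) {x : Lam Z D}
    (hx : Step π z₀ M r (cu ω ω.len) x) : Path π z₀ M r (ω.snoc x) := by
  intro i y hy
  have hcu : ∀ i, i ≤ ω.len → cu (ω.snoc x) i = cu ω i := fun i hi =>
    cu_congr fun j hj => Nd.snoc_val_lt (lt_of_lt_of_le hj hi)
  rcases lt_or_eq_of_le (Nd.lt_snoc_len.1 (Nd.lt_len hy)) with h | h
  · rw [Nd.snoc_val_lt h] at hy
    rw [hcu i h.le]
    exact hω i y hy
  · subst h
    rw [Nd.snoc_val] at hy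
    rw [hcu _ (le_refl _), ← Option.some.inj hy]
    exact hx

/-- extension of an element of `WW` by one step -/
theorem ww_snoc (hK : RegK κ K) (hab : Ab κ π) (hM : Mac dec z₀ M) (w : WW π z₀ M K) {r : R}
    (hr : r ≤ w.1.1) {x : Lam Z D} (hx : Step π z₀ M r (cu w.1.2 w.1.2.len) x) :
    ∃ w' : WW π z₀ M K, w' ≤ w ∧ w'.1.1 = r ∧ w'.1.2 = w.1.2.snoc x ∧
      cu w'.1.2 w'.1.2.len = x.2.2 := by
  have hp : Path π z₀ M r w.1.2 := path_mono hr w.2.1
  have hc := cu_snoc hK hab hM hp hx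
  refine ⟨⟨(r, w.1.2.snoc x), path_snoc hp hx, ?_⟩, ⟨hr, Nd.snoc_le _ _⟩, rfl, rfl, hc⟩
  show r ≤ π (cu (w.1.2.snoc x) (w.1.2.snoc x).len)
  rw [hc]
  exact step_le hM hx (hr.trans w.2.2)

/-- shrinking the first component -/
theorem ww_shrink (hab : Ab κ π) (w : WW π z₀ M K) {r : R} (hr : r ≤ w.1.1) :
    ∃ w' : WW π z₀ M K, w' ≤ w ∧ w'.1.1 = r ∧ w'.1.2 = w.1.2 :=
  ⟨⟨(r, w.1.2), path_mono hr w.2.1, hr.trans w.2.2⟩, ⟨hr, le_refl _⟩, rfl, rfl⟩

end Pool.Agent.Lib.FMM
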