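import Pool.Agent.Lib.FMM.AbPath

/-!
# Module FMM.AbD: the side of D

THEOREM. `eD (r, ω) = ((current element of ω, r), letters k of ω)` is a dense embedding of `WW` into
`DR π × Nd K (Z × (ℕ → Z × D))`.

PROOF. mono: cu_anti. inc: let `((e, r''), k'')` be below `eD w` and `eD w'`, assume
`w.1.2.len ≤ w'.1.2.len`; path_uniq2 (with `e` below both current elements; the k-letters of `w'` extend those of
`w` by Nd.comp): `w'.1.2 ≤ w.1.2`; take ww_shrink of `w'` to `r''`.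
lift: let `((d', r'), k') ≤ eD w`, so `d' ≤ cu w`, `r' ≤ π d'`, `r' ≤ w.1.1`, `k'` extends the k-letters of `w`.
STAGE 1: reach the length of `k'`. Use `climb` with
`X = {(w₁, g) : WW × D | w₁ ≤ w ∧ w₁.1.1 ≤ r' ∧ k' ≤ k-letters of w₁ ∧ g ≤ d' ∧ g ≤ cu w₁.1.2 len ∧ w₁.1.1 ≤ π g}`,
`ρ = w₁.1.2.len`, `γ = k'.len`, `lt (w₁, g) (w₂, g₂) := w₂ ≤ w₁ ∧ g₂ ≤ g ∧ ρ < ρ₂`. Start: ww_shrink of `w` to `r'`, `g = d'`.
Step (`w₁.1.2.len < k'.len`, `(z, v)` the value of `k'` there, `d = cu w₁.1.2 len`): projection: `g₁ ≤ g` with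
`π g₁ ≤ w₁.1.1`; Mac.max: `m ∈ M d z` and `g₂ ≤ g₁, m`; step_ex2 for `r = π g₂` (`≤ π m`): `r₂ ≤ π g₂` and `ℓ` with
`Step r₂ d (ℓ, (z, v), m)`; projection: `g₃ ≤ g₂` with `π g₃ ≤ r₂`; step_mono to `π g₃`; ww_snoc with `r = π g₃`
(`≤ w₁.1.1`) and the entry `(ℓ, (z, v), m)`: new `w₂`, `cu = m ≥ g₃`. Limit: ww_glb for the first components,
`g` the glb of the second components (hab.cgD); `w.1.1 ≤ π g` for the glb: the first component `r₀` is below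
`π g'` for each `g'` in the chain, and `π g` is the glb of these (hab.cont); `g ≤ cu` of the glb: `cu` is the
glb of the entries (cu_glb), each entry belongs to a member `(w₁, g₁)` of `C` with `g ≤ g₁ ≤ cu w₁ ≤ ` the entry
(entries at `i < w₁.1.2.len`).
STAGE 2: `(w₁, g)` with `w₁.1.2.len = k'.len`, so the k-letters of `w₁` are `k'`. Let `z` be with
`dec z = some g`, `v` arbitrary (`fun _ => (z, g)`). One more step as before: `g₁ ≤ g` with `π g₁ ≤ w₁.1.1`, `m ∈ M d z` with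
`g₂ ≤ g₁, m`; as `m` is compatible with `g`, `m ≤ g` (Mac.spec). The new `w₂` has `cu = m ≤ g ≤ d'`,
`w₂.1.1 ≤ r'`, k-letters `snoc k' (z, v) ≤ k'`. So `eD w₂ ≤ ((d', r'), k')`.
dense: lift for the root `w = (⊤, nil)` (Path is trivial, `cu nil _ = ⊤`, `π ⊤ = ⊤`); `eD` of the root is above
everything (`DR`: `x.1 ≤ ⊤`, `x.2 ≤ ⊤`; `Nd.le_nil`). `nil` needs a least element of `K`: use the sequence
of length the least element (Nd.ofFun, or obtain OrderBot from well-foundedness and `hK`).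
-/

set_option autoImplicit false

namespace Pool.Agent.Lib.FMM

open Set Cardinal Classical

variable {κ : Cardinal.{0}} {K D R Z : Type} [LinearOrder K] [WellFoundedLT K] [NoMaxOrder K]
  [PartialOrder D] [OrderTop D] [PartialOrder R] [OrderTop R]
  {π : D → R} {dec : Z → Option D} {z₀ : Z} {M : D → Z → Set D}

namespace AbDAux

/-- the letters on the side of `D` -/
noncomputable abbrev ml (ω : Nd K (Lam Z D)) : Nd K (Z × (ℕ → Z × D)) := Nd.map (fun x : Lam Z D => x.2.1) ω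

theorem cu_mono (hK : RegK κ K) (hab : Ab κ π) (hM : Mac dec z₀ M) {w w' : WW π z₀ M K}
    (h : w ≤ w') : cu w.1.2 w.1.2.len ≤ cu w'.1.2 w'.1.2.len := by
  have h1 : cu w.1.2 w'.1.2.len = cu w'.1.2 w'.1.2.len := cu_congr fun j hj =>
    Nd.val_eq h.2 hj
  rw [← h1]
  exact cu_anti hK hab hM w.2.1 (Nd.len_mono h.2) (le_refl _)

theorem inc_aux (hK : RegK κ K) (hab : Ab κ π) (hM : Mac dec z₀ M) (w w' : WW π z₀ M K)
    (p : DR π × Nd K (Z × (ℕ → Z × D))) (h : p ≤ eD π z₀ M K w) (h' : p ≤ eD π z₀ M K w')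
    (hl : w.1.2.len ≤ w'.1.2.len) : ∃ w'', w'' ≤ w ∧ w'' ≤ w' := by
  have a1 : p.1.1.1 ≤ cu w.1.2 w.1.2.len := h.1.1
  have a2 : p.1.1.2 ≤ w.1.1 := h.1.2
  have a3 : p.2 ≤ ml w.1.2 := h.2
  have b1 : p.1.1.1 ≤ cu w'.1.2 w'.1.2.len := h'.1.1
  have b2 : p.1.1.2 ≤ w'.1.1 := h'.1.2
  have b3 : p.2 ≤ ml w'.1.2 := h'.2
  have hle : w'.1.2 ≤ w.1.2 := path_uniq2 hK hab hM a2 b2 w.2.1 w'.2.1 hl a1 b1
    (Nd.comp a3 b3 (by rw [Nd.len_map, Nd.len_map]; exact hl))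
  obtain ⟨w'', h1, h2, h3⟩ := ww_shrink hab w' b2
  refine ⟨w'', ⟨?_, ?_⟩, h1⟩
  · show w''.1.1 ≤ w.1.1
    rw [h2]
    exact a2
  · show w''.1.2 ≤ w.1.2
    rw [h3]
    exact hle

theorem one_step (hK : RegK κ K) (hab : Ab κ π) (hM : Mac dec z₀ M) (w : WW π z₀ M K) {g : D}
    (hg : g ≤ cu w.1.2 w.1.2.len) (hr : w.1.1 ≤ π g) (z : Z) (v : ℕ → Z × D) :
    ∃ (w₂ : WW π z₀ M K) (ℓ : ℕ → Z × D) (m g₃ : D), w₂ ≤ w ∧
      w₂.1.2 = w.1.2.snoc (ℓ, (z, v), m) ∧ m ∈ M (cu w.1.2 w.1.2.len) z ∧ g₃ ≤ g ∧ g₃ ≤ m ∧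
      w₂.1.1 = π g₃ ∧ cu w₂.1.2 w₂.1.2.len = m := by
  obtain ⟨g₁, h1, h2⟩ := hab.lift g w.1.1 hr
  obtain ⟨m, hm, g₂, h3, h4⟩ := hM.max (cu w.1.2 w.1.2.len) z g₁ (h1.trans hg)
  obtain ⟨r₂, h5, ℓ, h6⟩ := step_ex2 (π := π) (w := v) hM hm (hab.mono h4)
  obtain ⟨g₃, h7, h8⟩ := hab.lift g₂ r₂ h5
  have h9 : π g₃ ≤ w.1.1 := (h8.trans h5).trans ((hab.mono h3).trans h2)
  obtain ⟨w₂, k1, k2, k3, k4⟩ := ww_snoc hK hab hM w h9 (step_mono h8 h6)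
  exact ⟨w₂, ℓ, m, g₃, k1, k3, hm, h7.trans (h3.trans h1), h7.trans h4, k2, k4⟩

theorem lift_aux (hK : RegK κ K) (hab : Ab κ π) (hM : Mac dec z₀ M) (w : WW π z₀ M K)
    (p : DR π × Nd K (Z × (ℕ → Z × D))) (h : p ≤ eD π z₀ M K w) :
    ∃ w', w' ≤ w ∧ eD π z₀ M K w' ≤ p := by
  have a1 : p.1.1.1 ≤ cu w.1.2 w.1.2.len := h.1.1
  have a2 : p.1.1.2 ≤ w.1.1 := h.1.2
  have a3 : p.2 ≤ ml w.1.2 := h.2
  have a4 : p.1.1.2 ≤ π p.1.1.1 := p.1.2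
  let X : Type := {q : WW π z₀ M K × D // q.1 ≤ w ∧ q.1.1.1 ≤ p.1.1.2 ∧ p.2 ≤ ml q.1.1.2 ∧
    q.2 ≤ p.1.1.1 ∧ q.2 ≤ cu q.1.1.2 q.1.1.2.len ∧ q.1.1.1 ≤ π q.2}
  let ρ : X → K := fun q => q.1.1.1.2.len
  let lt : X → X → Prop := fun q q' => q'.1.1 ≤ q.1.1 ∧ q'.1.2 ≤ q.1.2 ∧ ρ q < ρ q'
  have hρle : ∀ q : X, ρ q ≤ p.2.len := by
    intro q
    have h1 := Nd.len_mono q.2.2.2.1
    rwa [Nd.len_map] at h1
  obtain ⟨w₀, c1, c2, c3⟩ := ww_shrink hab w a2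
  let x₀ : X := ⟨(w₀, p.1.1.1), c1, c2.le, by
    show p.2 ≤ ml w₀.1.2
    rw [c3]
    exact a3, le_rfl, by
    show p.1.1.1 ≤ cu w₀.1.2 w₀.1.2.len
    rw [c3]
    exact a1, by
    show w₀.1.1 ≤ π p.1.1.1
    rw [c2]
    exact a4⟩
  have main : ∃ y : X, (y = x₀ ∨ lt x₀ y) ∧ ρ y = p.2.len := by
    refine climb lt (fun a b c hab hbc => ⟨hbc.1.trans hab.1, hbc.2.1.trans hab.2.1,
      hab.2.2.trans hbc.2.2⟩) ρ (fun a b hab => hab.2.2) p.2.len ?_ ?_ x₀ (hρle x₀)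
    · intro q hq
      obtain ⟨zv, hzv⟩ := Nd.exists_val hq
      obtain ⟨w₂, ℓ, m, g₃, k1, k2, -, k4, k5, k6, k7⟩ :=
        one_step hK hab hM q.1.1 q.2.2.2.2.2.1 q.2.2.2.2.2.2 zv.1 zv.2
      refine ⟨⟨(w₂, g₃), k1.trans q.2.1, k1.1.trans q.2.2.1, ?_, k4.trans q.2.2.2.2.1, ?_, ?_⟩,
        ⟨k1, k4, ?_⟩, hρle _⟩
      · show p.2 ≤ ml w₂.1.2
        rw [k2, ml, Nd.map_snoc]
        refine Nd.le_snoc.2 ⟨q.2.2.2.1, ?_⟩
        rw [Nd.len_map]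
        exact hzv
      · show g₃ ≤ cu w₂.1.2 w₂.1.2.len
        rw [k7]
        exact k5
      · show w₂.1.1 ≤ π g₃
        rw [k6]
      · show q.1.1.1.2.len < w₂.1.2.len
        rw [k2]
        exact Nd.lt_snoc_len.2 le_rfl
    · intro C hne hC hch hno _
      have hCκ : #C < κ := lt_of_le_of_lt hC (card_Iic hK _)
      obtain ⟨g, hg1, -, hg3, -⟩ := ww_glb hK hab hM ((fun q : X => q.1.1) '' C) (hne.image _)
        (lt_of_le_of_lt mk_image_le hCκ) (by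
          rintro _ ⟨x, hx, rfl⟩ _ ⟨y, hy, rfl⟩
          rcases hch x hx y hy with h | h | h
          · rw [h]
            exact Or.inl le_rfl
          · exact Or.inr h.1
          · exact Or.inl h.1)
      have hchD : ∀ x ∈ ((fun q : X => q.1.2) '' C), ∀ y ∈ ((fun q : X => q.1.2) '' C),
          x ≤ y ∨ y ≤ x := by
        rintro _ ⟨x, hx, rfl⟩ _ ⟨y, hy, rfl⟩
        rcases hch x hx y hy with h | h | h
        · rw [h]
          exact Or.inl le_rfl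
        · exact Or.inr h.2.1
        · exact Or.inl h.2.1
      obtain ⟨gD, hgD⟩ := hab.cgD _ (hne.image _) (lt_of_le_of_lt mk_image_le hCκ) hchD
      have hcont := hab.cont _ (hne.image _) (lt_of_le_of_lt mk_image_le hCκ) hchD gD hgD
      have e1 : ∀ q ∈ C, g ≤ q.1.1 := fun q hq => hg1.1 ⟨q, hq, rfl⟩
      have e2 : ∀ q ∈ C, gD ≤ q.1.2 := fun q hq => hgD.1 ⟨q, hq, rfl⟩
      obtain ⟨y, hy⟩ := hne
      refine ⟨⟨(g, gD), (e1 y hy).trans y.2.1, (e1 y hy).1.trans y.2.2.1, ?_,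
        (e2 y hy).trans y.2.2.2.2.1, ?_, ?_⟩, ?_, hρle _⟩
      · intro i v hv
        have hv : (g.1.2.1 i).map (fun x : Lam Z D => x.2.1) = some v := hv
        obtain ⟨x, hx, rfl⟩ := Option.map_eq_some_iff.1 hv
        obtain ⟨_, ⟨q, hq, rfl⟩, hqx⟩ := (hg3 i x).1 hx
        refine q.2.2.2.1 i x.2.1 ?_
        rw [ml, Nd.map_val, hqx]
        rfl
      · refine (cu_glb hK hab hM g.2.1 (le_refl _)).2 ?_
        rintro m (hm | ⟨j, _, x, hx, rfl⟩)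
        · rw [hm]
          exact le_top
        · obtain ⟨_, ⟨q, hq, rfl⟩, hqx⟩ := (hg3 j x).1 hx
          refine (e2 q hq).trans (q.2.2.2.2.2.1.trans ?_)
          exact (cu_glb hK hab hM q.1.1.2.1 (le_refl _)).1
            (mem_insert_of_mem _ ⟨j, Nd.lt_len hqx, x, hqx, rfl⟩)
      · refine hcont.2 ?_
        rintro _ ⟨_, ⟨q, hq, rfl⟩, rfl⟩
        exact (e1 q hq).1.trans q.2.2.2.2.2.2
      · intro q hq
        refine ⟨e1 q hq, e2 q hq, ?_⟩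
        obtain ⟨q', hq', hlt⟩ := hno q hq
        exact lt_of_lt_of_le hlt.2.2 (Nd.len_mono (e1 q' hq').2)
  obtain ⟨y, -, hy⟩ := main
  have hk : p.2 = ml y.1.1.1.2 := Nd.eq_of_le y.2.2.2.1 (by
    rw [Nd.len_map]
    exact hy.ge)
  obtain ⟨z, hz⟩ := hM.surj (some y.1.2)
  obtain ⟨w₂, ℓ, m, g₃, k1, k2, k3, k4, k5, k6, k7⟩ :=
    one_step hK hab hM y.1.1 y.2.2.2.2.2.1 y.2.2.2.2.2.2 z (fun _ => (z, y.1.2))
  have hm : m ≤ y.1.2 := by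
    rcases hM.spec _ z y.1.2 hz m k3 with h1 | h1
    · exact h1
    · exact absurd ⟨g₃, k5, k4⟩ h1
  refine ⟨w₂, k1.trans y.2.1, ⟨?_, ?_⟩, ?_⟩
  · show cu w₂.1.2 w₂.1.2.len ≤ p.1.1.1
    rw [k7]
    exact hm.trans y.2.2.2.2.1
  · show w₂.1.1 ≤ p.1.1.2
    exact k1.1.trans y.2.2.1
  · show ml w₂.1.2 ≤ p.2
    rw [hk]
    exact Nd.map_mono _ k1.2

theorem exists_root (hK : RegK κ K) (hab : Ab κ π) (hM : Mac dec z₀ M) :
    ∃ w : WW π z₀ M K, ∀ p, p ≤ eD π z₀ M K w := by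
  have hne : Nonempty K := by
    rw [← mk_ne_zero_iff, hK.card]
    exact (zero_lt_one.trans (one_lt_aleph0.trans hK.unc)).ne'
  obtain ⟨a, ha⟩ : ∃ a : K, ∀ i, ¬ i < a := by
    refine ⟨(wellFounded_lt (α := K)).min univ ⟨hne.some, mem_univ _⟩, fun i hi => ?_⟩
    exact (wellFounded_lt (α := K)).not_lt_min _ (mem_univ i) hi
  let x : Lam Z D := (fun _ => (z₀, ⊤), (z₀, fun _ => (z₀, ⊤)), ⊤)
  let ω : Nd K (Lam Z D) := Nd.ofFun a (fun _ => x)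
  have hω : ∀ i, ω.1 i = none := by
    intro i
    show (if i < a then some x else none) = none
    exact if_neg (ha i)
  have hp : Path π z₀ M (⊤ : R) ω := by
    intro i y hy
    rw [hω i] at hy
    exact absurd hy (by simp)
  have hc : ⊤ ≤ cu ω ω.len := by
    refine (cu_glb hK hab hM hp (le_refl _)).2 ?_
    rintro m (hm | ⟨j, _, y, hy, rfl⟩)
    · rw [hm]
    · rw [hω j] at hy
      exact absurd hy (by simp)
  have hπ : (⊤ : R) ≤ π (cu ω ω.len) := by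
    rw [← hab.top]
    exact hab.mono hc
  refine ⟨⟨(⊤, ω), hp, hπ⟩, fun p => ⟨⟨?_, ?_⟩, ?_⟩⟩
  · exact le_top.trans hc
  · exact le_top
  · intro i v hv
    have hv : (ω.1 i).map (fun x : Lam Z D => x.2.1) = some v := hv
    rw [hω i] at hv
    exact absurd hv (by simp)

end AbDAux

theorem dEmb_eD (hK : RegK κ K) (hab : Ab κ π) (hM : Mac dec z₀ M) : DEmb (eD π z₀ M K) where
  mono := fun w w' h => ⟨⟨AbDAux.cu_mono hK hab hM h, h.1⟩, Nd.map_mono _ h.2⟩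
  lift := AbDAux.lift_aux hK hab hM
  inc := by
    intro w w' p h h'
    rcases le_total w.1.2.len w'.1.2.len with hl | hl
    · exact AbDAux.inc_aux hK hab hM w w' p h h' hl
    · obtain ⟨w'', h1, h2⟩ := AbDAux.inc_aux hK hab hM w' w p h' h hl
      exact ⟨w'', h2, h1⟩
  dense := by
    intro p
    obtain ⟨w, hw⟩ := AbDAux.exists_root hK hab hM
    obtain ⟨w', _, h⟩ := AbDAux.lift_aux hK hab hM w p (hw p)
    exact ⟨w', h⟩

end Pool.Agent.Lib.FMM
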