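import Pool.Agent.Lib.FMM.Defs

/-!
# Project FMM: the absorption theorem, definitions

`D` projects onto `R` by `π`. Over the generic filter of `R` we build a dense tree in (quotient of `D`) ×
(sequences of letters `Z × (ℕ → Z × D)`), indexed by sequences of letters `ℓ : ℕ → Z × D`. An element
`x : Lam Z D` is a triple `(ℓ, k, m)`: the letter `ℓ`, the letter `k` on the side of `D` and the next
element `m` of `D`.

At the current element `d` let `N` be the set of the pairs `(z, m)`, `m ∈ M d z` with `π m` in the generic filter; it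
contains `n₀ = (z₀, d)`. The map `ℓ ↦ ℓ` if `ℓ` is constant `n₀` or its first letter different from `n₀` is in `N`,
and `ℓ ↦ n₀ ℓ` otherwise, is a bijection of all sequences with the sequences with first letter in
`N`; `ℓ` is sent to `(k.1, m)` followed by `k.2`.
-/

set_option autoImplicit false

namespace Pool.Agent.Lib.FMM

open Set Cardinal Classical

/-- triples: a letter, a letter on the side of `D`, an element of `D` -/
abbrev Lam (Z D : Type) : Type := (ℕ → Z × D) × (Z × (ℕ → Z × D)) × D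

/-- the greatest lower bound -/
noncomputable def gl {D : Type} [PartialOrder D] [OrderTop D] (C : Set D) : D :=
  if h : ∃ g, IsGLB C g then h.choose else ⊤

/-- the first letter different from `n₀` -/
noncomputable def fdl {Y : Type} (n₀ : Y) (ℓ : ℕ → Y) : Option Y :=
  if h : ∃ n, ℓ n ≠ n₀ then some (ℓ (Nat.find h)) else none

section

variable {K D R Z : Type} [LinearOrder K] [PartialOrder D] [OrderTop D] [PartialOrder R]
  [OrderTop R]

/-- a system of maximal antichains `M d z` below `d`; if `dec z = some g` the elements of `M d z` are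
below `g` or incompatible with `g`. -/
structure Mac (dec : Z → Option D) (z₀ : Z) (M : D → Z → Set D) : Prop where
  surj : Function.Surjective dec
  le : ∀ d z m, m ∈ M d z → m ≤ d
  anti : ∀ d z m m', m ∈ M d z → m' ∈ M d z → (∃ e, e ≤ m ∧ e ≤ m') → m = m'
  max : ∀ d z e, e ≤ d → ∃ m ∈ M d z, ∃ e', e' ≤ e ∧ e' ≤ m
  spec : ∀ d z g, dec z = some g → ∀ m ∈ M d z, m ≤ g ∨ ¬ ∃ e, e ≤ m ∧ e ≤ g
  triv : ∀ d, M d z₀ = {d}

variable (π : D → R) (z₀ : Z) (M : D → Z → Set D)

/-- `r` decides that the first letter different from `n₀` is in `N` (or there is none). -/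
def Good (r : R) (d : D) (ℓ : ℕ → Z × D) : Prop :=
  ∀ y, fdl (z₀, d) ℓ = some y → y.2 ∈ M d y.1 ∧ r ≤ π y.2

/-- `r` decides that the first letter different from `n₀` is not in `N`. -/
def Bad (r : R) (d : D) (ℓ : ℕ → Z × D) : Prop :=
  ∃ y, fdl (z₀, d) ℓ = some y ∧ (y.2 ∉ M d y.1 ∨ ¬ ∃ r', r' ≤ r ∧ r' ≤ π y.2)

/-- `r` decides that the letter `x.1` at `d` corresponds to the letter `x.2.1` and the next element
`x.2.2`. -/
def Step (r : R) (d : D) (x : Lam Z D) : Prop :=
  (Good π z₀ M r d x.1 ∧ x.2.1 = ((x.1 0).1, fun n => x.1 (n + 1)) ∧ x.2.2 = (x.1 0).2) ∨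
  (Bad π z₀ M r d x.1 ∧ x.2.1 = (z₀, x.1) ∧ x.2.2 = d)

/-- the current element of `D` before stage `i` -/
noncomputable def cu (ω : Nd K (Lam Z D)) (i : K) : D :=
  gl (insert ⊤ {m | ∃ j, j < i ∧ ∃ x, ω.1 j = some x ∧ x.2.2 = m})

/-- `ω` is a path, decided by `r`. -/
def Path (r : R) (ω : Nd K (Lam Z D)) : Prop :=
  ∀ i x, ω.1 i = some x → Step π z₀ M r (cu ω i) x

/-- the common dense order -/
def WW (K : Type) [LinearOrder K] : Type :=
  {w : R × Nd K (Lam Z D) // Path π z₀ M w.1 w.2 ∧ w.1 ≤ π (cu w.2 w.2.len)}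

instance (K : Type) [LinearOrder K] : PartialOrder (WW π z₀ M K) := Subtype.partialOrder _

/-- the map to the side of `D` -/
noncomputable def eD (K : Type) [LinearOrder K] (w : WW π z₀ M K) :
    DR π × Nd K (Z × (ℕ → Z × D)) :=
  (⟨(cu w.1.2 w.1.2.len, w.1.1), w.2.2⟩, Nd.map (fun x : Lam Z D => x.2.1) w.1.2)

/-- the map to the side of `R` -/
noncomputable def eR (K : Type) [LinearOrder K] (w : WW π z₀ M K) : R × Nd K (ℕ → Z × D) :=
  (w.1.1, Nd.map (fun x : Lam Z D => x.1) w.1.2)

end

end Pool.Agent.Lib.FMM
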