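import Pool.Agent.Lib.FMM.AbCu

/-!
# Module FMM.AbPath: limits and uniqueness of paths

PROOFS. `hab : Ab κ π`, `hM : Mac dec z₀ M`, `hK : RegK κ K`; see AbCu.lean for `cu`.
* ww_glb: a chain `C` of elements of `WW`, `#C < κ`, nonempty: let `r` be the glb of the first components
  (`hab.cgR`, chain of size `≤ #C`), `ω` the union of the second components (Nd.glb). Path: an entry of `ω`
  at `i` is an entry of some `w.1.2`, `w ∈ C`; `cu` at `i` is the same for `w.1.2` and `ω` (cu_congr, `i < w.1.2.len`);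
  step_mono with `r ≤ w.1.1`. `r ≤ π (cu ω ω.len)`: the set `S` defining `cu ω ω.len` (with `⊤`) is a chain of
  size `< κ` with glb `cu ω ω.len` (cu_glb), so `π (cu ω ω.len)` is the glb of `π '' S` (hab.cont); for
  an entry `x` at `i`, `x` is an entry of some `w ∈ C`, `r ≤ w.1.1 ≤ π (cu w.1.2 len) ≤ π x.2.2`
  (cu_glb); `π ⊤ = ⊤`. The glb property: componentwise.
* uniq1: show by strong induction on `i` that `ω'.1 i = ω.1 i` for `i < ω.len`: `cu ω i = cu ω' i` by cu_congr,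
  entries `x = ω i`, `x' = ω' i` (exists as `ω.len ≤ ω'.len`), `x.1 = x'.1` by the hypothesis on the maps,
  step_uniq1. Then `ω' ≤ ω` (Nd.le_of_val).
* uniq2: the same; `x.2.1 = x'.2.1` by hypothesis; `x.2.2` and `x'.2.2` are both in `M d z` (step_mem) and above `e`
  (cu_glb), so they are equal (Mac.anti); step_uniq2.
-/

set_option autoImplicit false

namespace Pool.Agent.Lib.FMM

open Set Cardinal Classical

variable {κ : Cardinal.{0}} {K D R Z : Type} [LinearOrder K] [WellFoundedLT K] [NoMaxOrder K]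
  [PartialOrder D] [OrderTop D] [PartialOrder R] [OrderTop R]
  {π : D → R} {dec : Z → Option D} {z₀ : Z} {M : D → Z → Set D}

theorem ww_glb (hK : RegK κ K) (hab : Ab κ π) (hM : Mac dec z₀ M) (C : Set (WW π z₀ M K))
    (hne : C.Nonempty) (hC : #C < κ) (hch : ∀ x ∈ C, ∀ y ∈ C, x ≤ y ∨ y ≤ x) :
    ∃ g : WW π z₀ M K, IsGLB C g ∧ IsGLB ((fun w : WW π z₀ M K => w.1.1) '' C) g.1.1 ∧
      (∀ i v, g.1.2.1 i = some v ↔ ∃ p ∈ C, p.1.2.1 i = some v) ∧
      ∀ i, i < g.1.2.len ↔ ∃ p ∈ C, i < p.1.2.len := by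
  obtain ⟨r, hr⟩ := hab.cgR ((fun w : WW π z₀ M K => w.1.1) '' C) (hne.image _)
    (lt_of_le_of_lt mk_image_le hC) (by
      rintro _ ⟨x, hx, rfl⟩ _ ⟨y, hy, rfl⟩
      rcases hch x hx y hy with h | h
      · exact Or.inl h.1
      · exact Or.inr h.1)
  obtain ⟨g, hg, hgv, hgl⟩ := Nd.glb hK ((fun w : WW π z₀ M K => w.1.2) '' C) (hne.image _)
    (lt_of_le_of_lt mk_image_le hC) (by
      rintro _ ⟨x, hx, rfl⟩ _ ⟨y, hy, rfl⟩
      rcases hch x hx y hy with h | h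
      · exact Or.inl h.2
      · exact Or.inr h.2)
  have hrw : ∀ w ∈ C, r ≤ w.1.1 := fun w hw => hr.1 ⟨w, hw, rfl⟩
  have hgw : ∀ w ∈ C, g ≤ w.1.2 := fun w hw => hg.1 ⟨w, hw, rfl⟩
  have hcu : ∀ w ∈ C, ∀ i, i ≤ w.1.2.len → cu g i = cu w.1.2 i := fun w hw i hi =>
    cu_congr fun j hj => Nd.val_eq (hgw w hw) (lt_of_lt_of_le hj hi)
  have hp : Path π z₀ M r g := by
    intro i x hx
    obtain ⟨_, ⟨w, hw, rfl⟩, hwx⟩ := (hgv i x).1 hx
    rw [hcu w hw i (Nd.lt_len hwx).le]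
    exact step_mono (hrw w hw) (w.2.1 i x hwx)
  have hlen : ∀ w ∈ C, w.1.2.len ≤ g.len := fun w hw => Nd.len_mono (hgw w hw)
  have hS : IsGLB ((fun w : WW π z₀ M K => cu w.1.2 w.1.2.len) '' C) (cu g g.len) := by
    constructor
    · rintro _ ⟨w, hw, rfl⟩
      show cu g g.len ≤ cu w.1.2 w.1.2.len
      rw [← hcu w hw _ (le_refl _)]
      exact cu_anti hK hab hM hp (hlen w hw) (le_refl _)
    · intro b hb
      refine (cu_glb hK hab hM hp (le_refl _)).2 ?_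
      rintro m (hm | ⟨j, _, x, hx, rfl⟩)
      · rw [hm]
        exact le_top
      · obtain ⟨_, ⟨w, hw, rfl⟩, hwx⟩ := (hgv j x).1 hx
        exact (hb ⟨w, hw, rfl⟩).trans ((cu_glb hK hab hM w.2.1 (le_refl _)).1
          (mem_insert_of_mem _ ⟨j, Nd.lt_len hwx, x, hwx, rfl⟩))
  have hπ : r ≤ π (cu g g.len) := by
    refine (hab.cont _ (hne.image _) (lt_of_le_of_lt mk_image_le hC) ?_ _ hS).2 ?_
    · have key : ∀ x ∈ C, ∀ y ∈ C, x ≤ y → cu x.1.2 x.1.2.len ≤ cu y.1.2 y.1.2.len := by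
        intro x hx y hy hxy
        have h1 : cu x.1.2 y.1.2.len = cu y.1.2 y.1.2.len := cu_congr fun j hj =>
          Nd.val_eq hxy.2 hj
        rw [← h1]
        exact cu_anti hK hab hM x.2.1 (Nd.len_mono hxy.2) (le_refl _)
      rintro _ ⟨x, hx, rfl⟩ _ ⟨y, hy, rfl⟩
      rcases hch x hx y hy with h | h
      · exact Or.inl (key x hx y hy h)
      · exact Or.inr (key y hy x hx h)
    · rintro _ ⟨_, ⟨w, hw, rfl⟩, rfl⟩
      exact (hrw w hw).trans w.2.2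
  refine ⟨⟨(r, g), hp, hπ⟩, ⟨fun w hw => ⟨hrw w hw, hgw w hw⟩, fun b hb => ?_⟩, hr, ?_, ?_⟩
  · refine ⟨hr.2 ?_, hg.2 ?_⟩
    · rintro _ ⟨w, hw, rfl⟩
      exact (hb hw).1
    · rintro _ ⟨w, hw, rfl⟩
      exact (hb hw).2
  · intro i v
    refine (hgv i v).trans ⟨?_, ?_⟩
    · rintro ⟨_, ⟨w, hw, rfl⟩, h⟩
      exact ⟨w, hw, h⟩
    · rintro ⟨w, hw, h⟩
      exact ⟨_, ⟨w, hw, rfl⟩, h⟩
  · intro i
    refine (hgl i).trans ⟨?_, ?_⟩
    · rintro ⟨_, ⟨w, hw, rfl⟩, h⟩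
      exact ⟨w, hw, h⟩
    · rintro ⟨w, hw, h⟩
      exact ⟨_, ⟨w, hw, rfl⟩, h⟩

theorem path_uniq1 (hK : RegK κ K) {r r' r'' : R} (h : r'' ≤ r) (h' : r'' ≤ r')
    {ω ω' : Nd K (Lam Z D)} (hω : Path π z₀ M r ω) (hω' : Path π z₀ M r' ω')
    (hl : ω.len ≤ ω'.len)
    (he : Nd.map (fun x : Lam Z D => x.1) ω' ≤ Nd.map (fun x : Lam Z D => x.1) ω) : ω' ≤ ω := by
  have key : ∀ i, i < ω.len → ω'.1 i = ω.1 i := by
    intro i
    induction i using WellFoundedLT.induction with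
    | ind i ih =>
    intro hi
    obtain ⟨x, hx⟩ := Nd.exists_val hi
    obtain ⟨x', hx'⟩ := Nd.exists_val (lt_of_lt_of_le hi hl)
    have h1 : (Nd.map (fun x : Lam Z D => x.1) ω).1 i = some x.1 := by
      rw [Nd.map_val, hx]
      rfl
    have h2 : (Nd.map (fun x : Lam Z D => x.1) ω').1 i = some x'.1 := by
      rw [Nd.map_val, hx']
      rfl
    have h3 : x.1 = x'.1 := by
      have h4 := he i _ h1
      rw [h2] at h4
      exact (Option.some.inj h4).symm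
    have hcu : cu ω' i = cu ω i := cu_congr fun j hj => ih j hj (hj.trans hi)
    have s' := hω' i x' hx'
    rw [hcu] at s'
    rw [hx, hx', step_uniq1 h h' (hω i x hx) s' h3]
  exact Nd.le_of_val key

theorem path_uniq2 (hK : RegK κ K) (hab : Ab κ π) (hM : Mac dec z₀ M) {r r' r'' : R}
    (h : r'' ≤ r) (h' : r'' ≤ r') {ω ω' : Nd K (Lam Z D)} (hω : Path π z₀ M r ω)
    (hω' : Path π z₀ M r' ω') (hl : ω.len ≤ ω'.len) {e : D} (h1 : e ≤ cu ω ω.len)
    (h2 : e ≤ cu ω' ω'.len)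
    (he : Nd.map (fun x : Lam Z D => x.2.1) ω' ≤ Nd.map (fun x : Lam Z D => x.2.1) ω) :
    ω' ≤ ω := by
  have key : ∀ i, i < ω.len → ω'.1 i = ω.1 i := by
    intro i
    induction i using WellFoundedLT.induction with
    | ind i ih =>
    intro hi
    obtain ⟨x, hx⟩ := Nd.exists_val hi
    obtain ⟨x', hx'⟩ := Nd.exists_val (lt_of_lt_of_le hi hl)
    have h3 : (Nd.map (fun x : Lam Z D => x.2.1) ω).1 i = some x.2.1 := by
      rw [Nd.map_val, hx]
      rfl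
    have h4 : (Nd.map (fun x : Lam Z D => x.2.1) ω').1 i = some x'.2.1 := by
      rw [Nd.map_val, hx']
      rfl
    have h5 : x.2.1 = x'.2.1 := by
      have h6 := he i _ h3
      rw [h4] at h6
      exact (Option.some.inj h6).symm
    have hcu : cu ω' i = cu ω i := cu_congr fun j hj => ih j hj (hj.trans hi)
    have s := hω i x hx
    have s' := hω' i x' hx'
    rw [hcu] at s'
    have m1 := step_mem hM s
    have m2 := step_mem hM s'
    rw [← h5] at m2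
    have e1 : e ≤ x.2.2 := h1.trans ((cu_glb hK hab hM hω (le_refl _)).1
      (mem_insert_of_mem _ ⟨i, hi, x, hx, rfl⟩))
    have e2 : e ≤ x'.2.2 := h2.trans ((cu_glb hK hab hM hω' (le_refl _)).1
      (mem_insert_of_mem _ ⟨i, lt_of_lt_of_le hi hl, x', hx', rfl⟩))
    have h7 : x.2.2 = x'.2.2 := hM.anti _ _ _ _ m1 m2 ⟨e, e1, e2⟩
    have h8 : x.2 = x'.2 := Prod.ext h5 h7
    rw [hx, hx', step_uniq2 h h' s s' h8]
  exact Nd.le_of_val key

end Pool.Agent.Lib.FMM
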