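import Pool.Agent.Lib.FMM.AbPath

/-!
# Module FMM.AbR: the side of R

THEOREM. `eR (r, ω) = (r, letters of ω)` is an embedding of `WW` into `R × Nd K (ℕ → Z × D)`.

PROOF. mono: Nd.map_mono. inc: let `(r'', s'')` be below `eR w` and `eR w'`; the letter sequences of `w` and `w'`
are initial segments of `s''`, assume `w.1.2.len ≤ w'.1.2.len` (symmetric); by `Nd.comp` (with
Nd.len_map) the letters of `w'` extend those of `w`; path_uniq1: `w'.1.2 ≤ w.1.2`. Then `(r'', w'.1.2)` (ww_shrink of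
`w'`) is below `w` and `w'`.
lift: let `(r', s') ≤ eR w`. Use `climb` (FMM/Climb.lean) with `Θ = K`, `γ = s'.len`,
`X = {w₁ : WW | w₁ ≤ w ∧ w₁.1.1 ≤ r' ∧ s' ≤ letters of w₁}` (so `w₁.1.2.len ≤ γ`), `ρ w₁ = w₁.1.2.len`,
`lt w₁ w₂ := w₂ ≤ w₁ ∧ w₁.1.2.len < w₂.1.2.len`. Start: ww_shrink of `w` to `r'`. Step: `w₁.1.2.len < s'.len`, let `ℓ` be the
value of `s'` at `w₁.1.2.len`; step_ex1 for `w₁.1.1`, `cu`, `ℓ` gives `r₂ ≤ w₁.1.1` and the step; ww_snoc; the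
letters are `snoc (letters of w₁) ℓ`, below which is `s'` (Nd.map_snoc, Nd.le_snoc). Limit: ww_glb (`C` is a chain of
size `≤ #(Iic γ) < κ`, card_Iic); the letters of the glb: every value is a value of a member, so
`s'` extends them; strictly above: `C` has no maximum. The result has `w₁.1.2.len = s'.len`, so its letters
are `s'` (Nd.eq_of_le) and `eR w₁ ≤ (r', s')`.
-/

set_option autoImplicit false

namespace Pool.Agent.Lib.FMM

open Set Cardinal Classical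

variable {κ : Cardinal.{0}} {K D R Z : Type} [LinearOrder K] [WellFoundedLT K] [NoMaxOrder K]
  [PartialOrder D] [OrderTop D] [PartialOrder R] [OrderTop R]
  {π : D → R} {dec : Z → Option D} {z₀ : Z} {M : D → Z → Set D}

namespace AbRAux

/-- the letters on the side of `R` -/
noncomputable abbrev ll (ω : Nd K (Lam Z D)) : Nd K (ℕ → Z × D) := Nd.map (fun x : Lam Z D => x.1) ω

theorem inc_aux (hK : RegK κ K) (hab : Ab κ π) (w w' : WW π z₀ M K)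
    (p : R × Nd K (ℕ → Z × D)) (h : p ≤ eR π z₀ M K w) (h' : p ≤ eR π z₀ M K w')
    (hl : w.1.2.len ≤ w'.1.2.len) : ∃ w'', w'' ≤ w ∧ w'' ≤ w' := by
  have a1 : p.1 ≤ w.1.1 := h.1
  have a2 : p.2 ≤ ll w.1.2 := h.2
  have b1 : p.1 ≤ w'.1.1 := h'.1
  have b2 : p.2 ≤ ll w'.1.2 := h'.2
  have hle : w'.1.2 ≤ w.1.2 := path_uniq1 hK a1 b1 w.2.1 w'.2.1 hl
    (Nd.comp a2 b2 (by rw [Nd.len_map, Nd.len_map]; exact hl))
  obtain ⟨w'', h1, h2, h3⟩ := ww_shrink hab w' b1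
  refine ⟨w'', ⟨?_, ?_⟩, h1⟩
  · show w''.1.1 ≤ w.1.1
    rw [h2]
    exact a1
  · show w''.1.2 ≤ w.1.2
    rw [h3]
    exact hle

theorem lift_aux (hK : RegK κ K) (hab : Ab κ π) (hM : Mac dec z₀ M) (w : WW π z₀ M K)
    (p : R × Nd K (ℕ → Z × D)) (h : p ≤ eR π z₀ M K w) :
    ∃ w', w' ≤ w ∧ eR π z₀ M K w' ≤ p := by
  have a1 : p.1 ≤ w.1.1 := h.1
  have a2 : p.2 ≤ ll w.1.2 := h.2
  let X : Type := {q : WW π z₀ M K // q ≤ w ∧ q.1.1 ≤ p.1 ∧ p.2 ≤ ll q.1.2}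
  let ρ : X → K := fun q => q.1.1.2.len
  let lt : X → X → Prop := fun q q' => q'.1 ≤ q.1 ∧ ρ q < ρ q'
  have hρle : ∀ q : X, ρ q ≤ p.2.len := by
    intro q
    have h1 := Nd.len_mono q.2.2.2
    rwa [Nd.len_map] at h1
  obtain ⟨w₀, c1, c2, c3⟩ := ww_shrink hab w a1
  let x₀ : X := ⟨w₀, c1, c2.le, by
    rw [c3]
    exact a2⟩
  have main : ∃ y : X, (y = x₀ ∨ lt x₀ y) ∧ ρ y = p.2.len := by
    refine climb lt (fun a b c hab hbc => ⟨hbc.1.trans hab.1, hab.2.trans hbc.2⟩) ρ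
      (fun a b hab => hab.2) p.2.len ?_ ?_ x₀ (hρle x₀)
    · intro q hq
      obtain ⟨ℓ, hℓ⟩ := Nd.exists_val hq
      obtain ⟨r₂, h1, y, h2⟩ := step_ex1 (π := π) (z₀ := z₀) (M := M) q.1.1.1
        (cu q.1.1.2 q.1.1.2.len) ℓ
      obtain ⟨w₂, k1, k2, k3, -⟩ := ww_snoc hK hab hM q.1 h1 h2
      refine ⟨⟨w₂, k1.trans q.2.1, k1.1.trans q.2.2.1, ?_⟩, ⟨k1, ?_⟩, hρle _⟩
      · rw [k3, ll, Nd.map_snoc]
        refine Nd.le_snoc.2 ⟨q.2.2.2, ?_⟩
        rw [Nd.len_map]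
        exact hℓ
      · show q.1.1.2.len < w₂.1.2.len
        rw [k3]
        exact Nd.lt_snoc_len.2 le_rfl
    · intro C hne hC hch hno _
      have hCκ : #C < κ := lt_of_le_of_lt hC (card_Iic hK _)
      obtain ⟨g, hg1, -, hg3, -⟩ := ww_glb hK hab hM ((fun q : X => q.1) '' C) (hne.image _)
        (lt_of_le_of_lt mk_image_le hCκ) (by
          rintro _ ⟨x, hx, rfl⟩ _ ⟨y, hy, rfl⟩
          rcases hch x hx y hy with h | h | h
          · rw [h]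
            exact Or.inl le_rfl
          · exact Or.inr h.1
          · exact Or.inl h.1)
      have e1 : ∀ q ∈ C, g ≤ q.1 := fun q hq => hg1.1 ⟨q, hq, rfl⟩
      obtain ⟨y, hy⟩ := hne
      refine ⟨⟨g, (e1 y hy).trans y.2.1, (e1 y hy).1.trans y.2.2.1, ?_⟩, ?_, hρle _⟩
      · intro i v hv
        have hv : (g.1.2.1 i).map (fun x : Lam Z D => x.1) = some v := hv
        obtain ⟨x, hx, rfl⟩ := Option.map_eq_some_iff.1 hv
        obtain ⟨_, ⟨q, hq, rfl⟩, hqx⟩ := (hg3 i x).1 hx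
        refine q.2.2.2 i x.1 ?_
        rw [ll, Nd.map_val, hqx]
        rfl
      · intro q hq
        refine ⟨e1 q hq, ?_⟩
        obtain ⟨q', hq', hlt⟩ := hno q hq
        exact lt_of_lt_of_le hlt.2 (Nd.len_mono (e1 q' hq').2)
  obtain ⟨y, -, hy⟩ := main
  have hk : p.2 = ll y.1.1.2 := Nd.eq_of_le y.2.2.2 (by
    rw [Nd.len_map]
    exact hy.ge)
  refine ⟨y.1, y.2.1, y.2.2.1, ?_⟩
  exact le_of_eq hk.symm

end AbRAux

theorem emb_eR (hK : RegK κ K) (hab : Ab κ π) (hM : Mac dec z₀ M) : Emb (eR π z₀ M K) where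
  mono := fun _ _ h => ⟨h.1, Nd.map_mono _ h.2⟩
  lift := AbRAux.lift_aux hK hab hM
  inc := by
    intro w w' p h h'
    rcases le_total w.1.2.len w'.1.2.len with hl | hl
    · exact AbRAux.inc_aux hK hab w w' p h h' hl
    · obtain ⟨w'', h1, h2⟩ := AbRAux.inc_aux hK hab w' w p h' h hl
      exact ⟨w'', h2, h1⟩

end Pool.Agent.Lib.FMM
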