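import Pool.Agent.Lib.FMM.Defs

/-!
# Module FMM.PB: pullbacks along projections, embeddings

`ROP P` are the regular open (lower) sets of the preorder `P`, `em p` the element given by `p`.
Tools in WkD/RO.lean: `em_mono`, `em_ne_bot`, `exists_em`, `compat_of`, `exists_em_le`,
`exists_em_iSup`, `le_of_em`, `em_le_of_dense`, `em_le_compl_iff`, `em_le_himp_iff`, `exists_decide`.

PROOFS. Let `e : W → P` be a projection.
* em_le_pb: `←` is `le_iSup`. `→`: by em_le_of_dense for `em (e w) ≤ b`: let `p ≤ e w`; lift: `w' ≤ w` with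
  `e w' ≤ p`. As `em w' ≤ em w ≤ pb e b`, exists_em_iSup gives `w'' ≤ w'` and `w₁` with
  `em w'' ≤ em w₁.1`, `em (e w₁) ≤ b`. compat_of (`em w'' ⊓ em w₁ = em w'' ≠ ⊥`): `w₃ ≤ w'', w₁`. Then
  `e w₃ ≤ e w'' ≤ e w' ≤ p` and `em (e w₃) ≤ em (e w₁) ≤ b`.
* ch_pb. compl: le_antisymm with le_of_em; `em w ≤ pb e bᶜ` iff `em (e w) ≤ bᶜ` iff no `p ≤ e w` has
  `em p ≤ b`; `em w ≤ (pb e b)ᶜ` iff no `w' ≤ w` has `em (e w') ≤ b`; equivalent by `lift` and
  `mono`. sup: `≥` by monotonicity; `≤` by le_of_em: `em w ≤ pb e (⨆ x i)`, so `em (e w) ≤ ⨆ x i`,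
  exists_em_iSup: `p ≤ e w`, `i` with `em p ≤ x i`, lift `w' ≤ w`, `e w' ≤ p`, so `em w' ≤ pb e (x i)`.
* CH.*: formal consequences: `F ⊥ = ⊥` (empty supremum), `F ⊤ = ⊤`, binary sup from `sup` with `ι = Bool`
  (`iSup_bool_eq`), inf by complements, `iInf` by `compl_iInf`/`compl_iSup`, himp by `himp_eq`,
  monotone from sup.
* pb_comp: ext by em_le_pb (le_of_em or le_antisymm).
* pb_surj: given `c : ROP W` let `b = ⨆ w : {w // em w ≤ c}, em (e w)`. If `em w ≤ c` then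
  `em (e w) ≤ b`, so `em w ≤ pb e b`. Conversely let `em w ≤ pb e b`, i.e. `em (e w) ≤ b`. em_le_of_dense
  for `em w ≤ c`: let `w' ≤ w`; `em (e w') ≤ b`, exists_em_iSup: `p ≤ e w'`, `w₁` with `em w₁ ≤ c`,
  `em p ≤ em (e w₁)`; compat_of: `p' ≤ p, e w₁`. By `inc` (`p' ≤ e w'`, `p' ≤ e w₁`) there is
  `w'' ≤ w', w₁`, and `em w'' ≤ c`.
* pb_inj: if `pb e b ≤ pb e b'` then `b ≤ b'`: le_of_em: `em p ≤ b`, dense: `w` with `e w ≤ p`, so
  `em w ≤ pb e b ≤ pb e b'`, `em (e w) ≤ b'`.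
* exists_push: `carrier := {c | ∃ b ∈ V, F b = c}`; for injective and surjective `F`.
* gm_pb: `≤`: let `em w ≤ pb e (gm ν i j)`, i.e. `em (e w) ≤ gm ν i j`. em_le_of_dense: let `w' ≤ w`; take
  `w'' ≤ w'` with `i < (ν (e w'')).len`, so `(ν (e w'')).1 i = some j'` for some `j'` (dom_eq). By
  exists_em_iSup (`em (e w'') ≤ gm ν i j`) there are `p ≤ e w''` and `p₁` with `(ν p₁).1 i = some j`,
  `em p ≤ em p₁`; compat_of: `p₂ ≤ p, p₁`; `ν p₂ ≤ ν (e w'')` and `ν p₂ ≤ ν p₁` give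
  `j = j'`; so `em w'' ≤ gm (ν ∘ e) i j` (le_iSup). `≥`: iSup_le; if `(ν (e w)).1 i = some j` then
  `em (e w) ≤ gm ν i j` (le_iSup), use em_le_pb.
* the remaining statements: direct.
-/

set_option autoImplicit false

namespace Pool.Agent.Lib.FMM

open Set Cardinal Pool.Agent.Lib.WkD Pool.Agent.Lib.BVM

variable {W P Q : Type} [Preorder W] [Preorder P] [Preorder Q]

theorem em_le_pb {e : W → P} (he : Proj e) {w : W} {b : ROP P} :
    em w ≤ pb e b ↔ em (e w) ≤ b := by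
  constructor
  · intro h
    apply em_le_of_dense
    intro p hp
    obtain ⟨w', hw', hp'⟩ := he.lift w p hp
    obtain ⟨w'', hw'', w₁, h1⟩ := exists_em_iSup (p := w')
      (t := fun x : {w : W // em (e w) ≤ b} => em x.1) ((em_mono hw').trans h)
    have h2 : em w'' ⊓ em w₁.1 ≠ ⊥ := by
      rw [inf_eq_left.2 h1]; exact em_ne_bot _
    obtain ⟨w₃, h3, h4⟩ := compat_of h2
    exact ⟨e w₃, (he.mono (h3.trans hw'')).trans hp', (em_mono (he.mono h4)).trans w₁.2⟩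
  · intro h
    exact le_iSup (fun x : {w : W // em (e w) ≤ b} => em x.1) ⟨w, h⟩

theorem ch_pb {e : W → P} (he : Proj e) : CH (pb e) := by
  refine ⟨fun {ι} x => ?_, fun x => ?_⟩
  · apply le_antisymm
    · apply le_of_em
      intro w hw
      rw [em_le_pb he] at hw
      obtain ⟨p, hp, i, hi⟩ := exists_em_iSup hw
      obtain ⟨w', hw', h1⟩ := he.lift w p hp
      refine ⟨w', hw', le_trans ?_ (le_iSup _ i)⟩
      rw [em_le_pb he]
      exact (em_mono h1).trans hi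
    · apply iSup_le
      intro i
      apply le_of_em
      intro w hw
      refine ⟨w, le_rfl, ?_⟩
      rw [em_le_pb he] at hw ⊢
      exact hw.trans (le_iSup x i)
  · apply le_antisymm
    · apply le_of_em
      intro w hw
      refine ⟨w, le_rfl, ?_⟩
      rw [em_le_pb he, em_le_compl_iff] at hw
      rw [em_le_compl_iff]
      intro w' hw' h
      rw [em_le_pb he] at h
      exact hw _ (he.mono hw') h
    · apply le_of_em
      intro w hw
      refine ⟨w, le_rfl, ?_⟩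
      rw [em_le_compl_iff] at hw
      rw [em_le_pb he, em_le_compl_iff]
      intro p hp h
      obtain ⟨w', hw', h1⟩ := he.lift w p hp
      exact hw w' hw' ((em_le_pb he).2 ((em_mono h1).trans h))

namespace PBAux

theorem supr {B C : Type} [CompleteBooleanAlgebra B] [CompleteBooleanAlgebra C] {F : B → C}
    (hF : CH F) (x y : B) : F (x ⊔ y) = F x ⊔ F y := by
  have h1 := hF.sup (fun b : Bool => cond b x y)
  rw [iSup_bool_eq, iSup_bool_eq] at h1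
  exact h1

end PBAux

section CH

variable {B C : Type} [CompleteBooleanAlgebra B] [CompleteBooleanAlgebra C] {F : B → C}

theorem CH.mono (hF : CH F) : Monotone F := by
  intro x y h
  have h1 := PBAux.supr hF x y
  rw [sup_eq_right.2 h] at h1
  rw [h1]
  exact le_sup_left

theorem CH.top (hF : CH F) : F ⊤ = ⊤ := by
  have h1 := PBAux.supr hF ⊤ ⊤ᶜ
  rw [sup_compl_eq_top, hF.compl, sup_compl_eq_top] at h1
  exact h1

theorem CH.bot (hF : CH F) : F ⊥ = ⊥ := by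
  have h1 := hF.compl ⊤
  rw [compl_top, hF.top, compl_top] at h1
  exact h1

theorem CH.inf (hF : CH F) (x y : B) : F (x ⊓ y) = F x ⊓ F y := by
  have h1 : x ⊓ y = (xᶜ ⊔ yᶜ)ᶜ := by rw [compl_sup, compl_compl, compl_compl]
  rw [h1, hF.compl, PBAux.supr hF, hF.compl, hF.compl, compl_sup, compl_compl, compl_compl]

theorem CH.supr (hF : CH F) (x y : B) : F (x ⊔ y) = F x ⊔ F y := by
  exact PBAux.supr hF x y

theorem CH.himp (hF : CH F) (x y : B) : F (x ⇨ y) = F x ⇨ F y := by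
  rw [himp_eq, himp_eq, hF.supr, hF.compl]

theorem CH.iInf (hF : CH F) {ι : Type} (x : ι → B) : F (⨅ i, x i) = ⨅ i, F (x i) := by
  have h1 : ⨅ i, x i = (⨆ i, (x i)ᶜ)ᶜ := by
    rw [compl_iSup]
    simp
  rw [h1, hF.compl, hF.sup, compl_iSup]
  refine iInf_congr fun i => ?_
  rw [hF.compl, compl_compl]

theorem CH.comp {D : Type} [CompleteBooleanAlgebra D] {G : C → D} (hG : CH G) (hF : CH F) :
    CH (G ∘ F) := by
  refine ⟨fun {ι} x => ?_, fun x => ?_⟩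
  · simp only [Function.comp]
    rw [hF.sup, hG.sup]
  · simp only [Function.comp]
    rw [hF.compl, hG.compl]

theorem exists_push (hF : CH F) (hi : Function.Injective F) (hs : Function.Surjective F)
    (V : Ultra B) : ∃ U : Ultra C, pullU F hF.top hF.inf hF.compl U = V := by
  have hmem : ∀ b : B, (∃ b' ∈ V, F b' = F b) ↔ b ∈ V := by
    intro b
    constructor
    · rintro ⟨b', h1, h2⟩
      rw [← hi h2]
      exact h1
    · intro h
      exact ⟨b, h, rfl⟩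
  refine ⟨⟨{c | ∃ b ∈ V, F b = c}, ⟨⊤, V.top_mem, hF.top⟩, ?_, ?_, ?_⟩, ?_⟩
  · rintro x y ⟨b, hb, rfl⟩ ⟨b', hb', rfl⟩
    exact ⟨b ⊓ b', V.inf_mem hb hb', hF.inf b b'⟩
  · rintro x y ⟨b, hb, rfl⟩ h
    obtain ⟨b', rfl⟩ := hs y
    refine ⟨b ⊔ b', V.up hb le_sup_left, ?_⟩
    rw [hF.supr, sup_eq_right.2 h]
  · intro x
    obtain ⟨b, rfl⟩ := hs x
    have h1 : (F b)ᶜ = F bᶜ := (hF.compl b).symm
    show (∃ b' ∈ V, F b' = (F b)ᶜ) ↔ ¬ ∃ b' ∈ V, F b' = F b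
    rw [h1]
    exact (hmem bᶜ).trans (V.compl_iff.trans (not_congr (hmem b)).symm)
  · have hext : ∀ U₁ U₂ : Ultra B, U₁.carrier = U₂.carrier → U₁ = U₂ := by
      rintro ⟨c1, _, _, _, _⟩ ⟨c2, _, _, _, _⟩ h
      cases h
      rfl
    apply hext
    ext b
    exact hmem b

end CH

theorem Proj.comp {e : W → P} {f : P → Q} (hf : Proj f) (he : Proj e) : Proj (f ∘ e) := by
  refine ⟨fun x y h => hf.mono (he.mono h), fun w p hp => ?_⟩
  obtain ⟨q, hq, hqp⟩ := hf.lift (e w) p hp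
  obtain ⟨w', hw', hw'q⟩ := he.lift w q hq
  exact ⟨w', hw', (hf.mono hw'q).trans hqp⟩

theorem Emb.comp {e : W → P} {f : P → Q} (hf : Emb f) (he : Emb e) : Emb (f ∘ e) := by
  refine ⟨Proj.comp hf.toProj he.toProj, fun w w' p h h' => ?_⟩
  obtain ⟨q, hq, hqp⟩ := hf.lift (e w) p h
  obtain ⟨q', h1, h2⟩ := hf.inc q (e w') (f q) le_rfl (hqp.trans h')
  exact he.inc w w' q' (h1.trans hq) h2

theorem DEmb.comp {e : W → P} {f : P → Q} (hf : DEmb f) (he : DEmb e) : DEmb (f ∘ e) := by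
  refine ⟨Emb.comp hf.toEmb he.toEmb, fun p => ?_⟩
  obtain ⟨q, hq⟩ := hf.dense p
  obtain ⟨w, hw⟩ := he.dense q
  exact ⟨w, (hf.mono hw).trans hq⟩

theorem pb_comp {e : W → P} {f : P → Q} (hf : Proj f) (he : Proj e) (b : ROP Q) :
    pb (f ∘ e) b = pb e (pb f b) := by
  apply le_antisymm
  · apply le_of_em
    intro w hw
    refine ⟨w, le_rfl, ?_⟩
    rw [em_le_pb (Proj.comp hf he)] at hw
    rw [em_le_pb he, em_le_pb hf]
    exact hw
  · apply le_of_em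
    intro w hw
    refine ⟨w, le_rfl, ?_⟩
    rw [em_le_pb he, em_le_pb hf] at hw
    rw [em_le_pb (Proj.comp hf he)]
    exact hw

theorem pb_surj {e : W → P} (he : Emb e) : Function.Surjective (pb e) := by
  intro c
  refine ⟨⨆ w : {w : W // em w ≤ c}, em (e w.1), ?_⟩
  apply le_antisymm
  · apply le_of_em
    intro w hw
    rw [em_le_pb he.toProj] at hw
    obtain ⟨p, hp, w₁, h1⟩ := exists_em_iSup hw
    have h2 : em p ⊓ em (e w₁.1) ≠ ⊥ := by
      rw [inf_eq_left.2 h1]; exact em_ne_bot _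
    obtain ⟨p', h3, h4⟩ := compat_of h2
    obtain ⟨w'', h5, h6⟩ := he.inc w w₁.1 p' (h3.trans hp) h4
    exact ⟨w'', h5, (em_mono h6).trans w₁.2⟩
  · apply le_of_em
    intro w hw
    refine ⟨w, le_rfl, ?_⟩
    rw [em_le_pb he.toProj]
    exact le_iSup (fun w : {w : W // em w ≤ c} => em (e w.1)) ⟨w, hw⟩

theorem pb_inj {e : W → P} (he : DEmb e) : Function.Injective (pb e) := by
  have key : ∀ b b' : ROP P, pb e b ≤ pb e b' → b ≤ b' := by
    intro b b' h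
    apply le_of_em
    intro p hp
    obtain ⟨w, hw⟩ := he.dense p
    refine ⟨e w, hw, ?_⟩
    rw [← em_le_pb he.toProj]
    exact ((em_le_pb he.toProj).2 ((em_mono hw).trans hp)).trans h
  intro b b' h
  exact le_antisymm (key b b' h.le) (key b' b h.ge)

theorem Emb.prod {W' P' : Type} [Preorder W'] [Preorder P'] {e : W → P} {e' : W' → P'}
    (he : Emb e) (he' : Emb e') : Emb (Prod.map e e') := by
  refine ⟨⟨fun x y h => ⟨he.mono h.1, he'.mono h.2⟩, fun w p hp => ?_⟩, fun w w' p h h' => ?_⟩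
  · obtain ⟨a, ha, ha'⟩ := he.lift w.1 p.1 hp.1
    obtain ⟨b, hb, hb'⟩ := he'.lift w.2 p.2 hp.2
    exact ⟨(a, b), ⟨ha, hb⟩, ⟨ha', hb'⟩⟩
  · obtain ⟨a, ha, ha'⟩ := he.inc w.1 w'.1 p.1 h.1 h'.1
    obtain ⟨b, hb, hb'⟩ := he'.inc w.2 w'.2 p.2 h.2 h'.2
    exact ⟨(a, b), ⟨ha, hb⟩, ⟨ha', hb'⟩⟩

theorem DEmb.prod {W' P' : Type} [Preorder W'] [Preorder P'] {e : W → P} {e' : W' → P'}
    (he : DEmb e) (he' : DEmb e') : DEmb (Prod.map e e') := by
  refine ⟨Emb.prod he.toEmb he'.toEmb, fun p => ?_⟩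
  obtain ⟨a, ha⟩ := he.dense p.1
  obtain ⟨b, hb⟩ := he'.dense p.2
  exact ⟨(a, b), ⟨ha, hb⟩⟩

theorem dEmb_id : DEmb (fun w : W => w) := by
  exact ⟨⟨⟨fun _ _ h => h, fun _ p hp => ⟨p, hp, le_rfl⟩⟩, fun _ _ p h h' => ⟨p, h, h'⟩⟩,
    fun p => ⟨p, le_rfl⟩⟩

theorem dEmb_assoc : DEmb (fun x : (W × P) × Q => (x.1.1, (x.1.2, x.2))) := by
  refine ⟨⟨⟨fun _ _ h => ⟨h.1.1, h.1.2, h.2⟩, fun w p hp => ?_⟩, fun w w' p h h' => ?_⟩, fun p => ?_⟩
  · exact ⟨((p.1, p.2.1), p.2.2), ⟨⟨hp.1, hp.2.1⟩, hp.2.2⟩, le_rfl⟩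
  · exact ⟨((p.1, p.2.1), p.2.2), ⟨⟨h.1, h.2.1⟩, h.2.2⟩, ⟨⟨h'.1, h'.2.1⟩, h'.2.2⟩⟩
  · exact ⟨((p.1, p.2.1), p.2.2), le_rfl⟩

theorem proj_fst : Proj (fun x : W × P => x.1) := by
  exact ⟨fun _ _ h => h.1, fun w p hp => ⟨(p, w.2), ⟨hp, le_rfl⟩, le_rfl⟩⟩

/-- the inclusion of a cone -/
theorem emb_cone (p : P) : Emb (fun x : Iic p => x.1) := by
  exact ⟨⟨fun _ _ h => h, fun w q hq => ⟨⟨q, hq.trans w.2⟩, hq, le_rfl⟩⟩,
    fun w w' q h h' => ⟨⟨q, h.trans w.2⟩, h, h'⟩⟩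

/-- the embedding of `D` into the pairs -/
theorem dEmb_DR {D R : Type} [PartialOrder D] [PartialOrder R] {π : D → R} (hπ : Proj π) :
    DEmb (fun d : D => (⟨(d, π d), le_rfl⟩ : DR π)) := by
  refine ⟨⟨⟨fun d d' h => ⟨h, hπ.mono h⟩, fun d p hp => ?_⟩, fun w w' p h h' => ?_⟩, fun p => ?_⟩
  · obtain ⟨d', h1, h2⟩ := hπ.lift p.1.1 p.1.2 p.2
    exact ⟨d', h1.trans hp.1, ⟨h1, h2⟩⟩
  · exact ⟨p.1.1, h.1, h'.1⟩
  · obtain ⟨d', h1, h2⟩ := hπ.lift p.1.1 p.1.2 p.2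
    exact ⟨d', ⟨h1, h2⟩⟩

theorem gm_pb {K : Type} [LinearOrder K] {e : W → P} (he : Proj e)
    {ν : P → Nd K K} (hν : Monotone ν) (hc : ∀ w i, ∃ w', w' ≤ w ∧ i < (ν (e w')).len) (i j : K) :
    pb e (gm ν i j) = gm (fun w => ν (e w)) i j := by
  apply le_antisymm
  · apply le_of_em
    intro w hw
    rw [em_le_pb he] at hw
    obtain ⟨w', hw', hl⟩ := hc w i
    have h1 : i ∈ (ν (e w')).1.dom := by
      rw [Nd.dom_eq]; exact hl
    obtain ⟨j', hj'⟩ := Option.ne_none_iff_exists'.1 h1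
    obtain ⟨p, hp, p₁, h2⟩ := exists_em_iSup (p := e w')
      (t := fun p : {p : P // (ν p).1 i = some j} => em p.1) ((em_mono (he.mono hw')).trans hw)
    have h3 : em p ⊓ em p₁.1 ≠ ⊥ := by
      rw [inf_eq_left.2 h2]; exact em_ne_bot _
    obtain ⟨p₂, h4, h5⟩ := compat_of h3
    have h6 : (ν p₂).1 i = some j' := hν (h4.trans hp) i j' hj'
    have h7 : (ν p₂).1 i = some j := hν h5 i j p₁.2
    have h8 : j' = j := by
      rw [h6] at h7
      exact Option.some.inj h7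
    refine ⟨w', hw', ?_⟩
    exact le_iSup (fun w : {w : W // (ν (e w)).1 i = some j} => em w.1) ⟨w', by rw [← h8]; exact hj'⟩
  · apply iSup_le
    rintro ⟨w, hw⟩
    rw [em_le_pb he]
    exact le_iSup (fun p : {p : P // (ν p).1 i = some j} => em p.1) ⟨e w, hw⟩

end Pool.Agent.Lib.FMM
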