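import Pool.Agent.Lib.FMM.Card
import Pool.Agent.Lib.FMM.FnB
import Pool.Agent.Lib.FMM.PB

/-!
# Module FMM.CC: antichains and supports

PROOFS.
* cc: as in WkD/AddCC.lean (theorem ccle_AddC, read it: the same proof with `#Z` in place of κ for the
  bounds, and RegK for the regularity of `K`). Let `𝒜` be the antichain. For `X ⊆ J` with `#X ≤ #Z` there
  are at most `#Z` conditions with domain in `X` (card_FnOn). For `X ⊆ J` and `s : FnOn κ J Z X` let `g X s ∈ 𝒜`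
  be an element with `rs X g = s` if there is one; `N X = X ∪ ⋃ s, dom (g X s)`; `#(N X) ≤ #Z` if
  `#X ≤ #Z`. By well-founded recursion `M ξ = ⋃ η < ξ, N (M η)` (`ξ : K`), `M* = ⋃ ξ, M ξ`, `#M* ≤ #Z`.
  CLAIM: `dom q ⊆ M*` for `q ∈ 𝒜`; then `#𝒜 ≤ #(FnOn κ J Z M*) ≤ #Z` (injective map). Proof: `dom q ∩ M*` has
  size `< κ`, so it is contained in `M ξ` for some `ξ` (`bdd`, `M` is monotone). Let `s = rs (M ξ) q` and
  `g = g (M ξ) s`, so `rs (M ξ) g = s`, `dom g ⊆ N (M ξ) ⊆ M*`. `q` and `g` are compatible (for `j` in both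
  domains `j ∈ dom q ∩ M* ⊆ M ξ`, both values are the value of `s`; Fn.glb2), so `q = g`.
* exists_maxAnti: Zorn (`zorn_subset`) for antichains contained in `S`; every element of a maximal one.
* exists_supp: let `𝒜 ⊆ {p | em p ≤ b}` be a maximal antichain (exists_maxAnti), `A = ⋃ p ∈ 𝒜, dom p`,
  `#A ≤ #Z` (cc, domains of size `< κ ≤ #Z`). `b' = ⨆ p : 𝒜, em (rs A p)`. By em_le_pb and density: if
  `em q ≤ b` then for every `q' ≤ q` there is `p ∈ 𝒜` compatible with `q'` (maximality), `r ≤ q', p`, and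
  `em r ≤ pb (rs A) b'` because `em (rs A r) ≤ em (rs A p) ≤ b'`. Conversely let `em (rs A q) ≤ b'` and
  `q' ≤ q`; exists_em_iSup for `rs A q'`: `a ≤ rs A q'` with `em a ≤ em (rs A p)`, compat_of: `a' ≤ a, rs A p`;
  union_rs for `q'` and `a'`: `g ≤ q'`, `g ≤ a'.1 ≤ p` (`dom p ⊆ A`), so `em g ≤ em p ≤ b`.
* supp_mono: `b'' = pb (fun p : FnOn κ J Z B => rs A p.1) b'` (proj_rs', pb_comp, rs_rs).
* exists_supps: union of the sets of exists_supp, supp_mono.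
* em_rs_le: `em d ≤ pb (rs B) b'` iff `em (rs B d) ≤ b'` iff `em (rs B (rs B d).1) ≤ b'` (rs_eq).
-/

set_option autoImplicit false

namespace Pool.Agent.Lib.FMM

open Set Cardinal Pool.Agent.Lib.WkD

variable {κ : Cardinal.{0}} {K J Z : Type} [LinearOrder K] [WellFoundedLT K]

namespace CCAux

open Classical in
/-- the domain of the chosen element with a given restriction -/
private noncomputable def ch (s : Set (Fn κ J Z)) (X : Set J) (t : FnOn κ J Z X) : Set J :=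
  if h : ∃ g, g ∈ s ∧ rs X g = t then h.choose.1.dom else ∅

private theorem card_ch (s : Set (Fn κ J Z)) (X : Set J) (t : FnOn κ J Z X) :
    #(ch s X t) ≤ κ := by
  unfold ch
  split_ifs with h
  · exact h.choose.2.le
  · simp

private theorem ch_spec (s : Set (Fn κ J Z)) (X : Set J) (t : FnOn κ J Z X)
    (h : ∃ g, g ∈ s ∧ rs X g = t) : ∃ g, g ∈ s ∧ rs X g = t ∧ g.1.dom = ch s X t := by
  refine ⟨h.choose, h.choose_spec.1, h.choose_spec.2, ?_⟩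
  unfold ch
  rw [dif_pos h]

/-- one step of the closure -/
private noncomputable def N (s : Set (Fn κ J Z)) (X : Set J) : Set J :=
  X ∪ ⋃ t : FnOn κ J Z X, ch s X t

private theorem card_iU {Z : Type} (h0 : ℵ₀ ≤ #Z) {ι : Type} (hι : #ι ≤ #Z) {J : Type}
    (f : ι → Set J) (hf : ∀ i, #(f i) ≤ #Z) : #(⋃ i, f i) ≤ #Z :=
  (mk_iUnion_le _).trans (mul_le_of_le h0 hι (ciSup_le' hf))

private theorem card_N (hK : RegK κ K) (hZ : ZC κ Z) (s : Set (Fn κ J Z)) (X : Set J)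
    (hX : #X ≤ #Z) : #(N s X) ≤ #Z := by
  have h0 : ℵ₀ ≤ #Z := hK.unc.le.trans hZ.le
  unfold N
  refine (mk_union_le _ _).trans (add_le_of_le h0 hX ?_)
  exact card_iU h0 (card_FnOn hK hZ hX) _ (fun t => (card_ch s X t).trans hZ.le)

/-- the increasing sequence of closures -/
private noncomputable def M (K : Type) [LinearOrder K] [WellFoundedLT K] (s : Set (Fn κ J Z)) :
    K → Set J :=
  WellFounded.fix (wellFounded_lt (α := K))
    (fun ξ ih => ⋃ η : Set.Iio ξ, N s (ih η.1 η.2))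

private theorem M_eq (s : Set (Fn κ J Z)) (ξ : K) :
    M K s ξ = ⋃ η : Set.Iio ξ, N s (M K s η.1) := by
  unfold M
  rw [WellFounded.fix_eq]

private theorem card_M (hK : RegK κ K) (hZ : ZC κ Z) (s : Set (Fn κ J Z)) (ξ : K) :
    #(M K s ξ) ≤ #Z := by
  have h0 : ℵ₀ ≤ #Z := hK.unc.le.trans hZ.le
  induction ξ using WellFoundedLT.induction with
  | ind ξ ih =>
    rw [M_eq]
    exact card_iU h0 ((hK.small ξ).le.trans hZ.le) _ (fun η => card_N hK hZ s _ (ih η.1 η.2))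

private theorem N_subset_M (s : Set (Fn κ J Z)) {η ξ : K} (h : η < ξ) :
    N s (M K s η) ⊆ M K s ξ := by
  rw [M_eq s ξ]
  exact subset_iUnion (fun η : Set.Iio ξ => N s (M K s η.1)) ⟨η, h⟩

private theorem M_mono (s : Set (Fn κ J Z)) {η ξ : K} (h : η < ξ) :
    M K s η ⊆ M K s ξ :=
  subset_union_left.trans (N_subset_M s h)

/-- a set of size `< κ` in the union lies in one of the sets -/
private theorem exists_bound (hK : RegK κ K) (s : Set (Fn κ J Z)) (D : Set J)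
    (hD : #D < κ) (hsub : D ⊆ ⋃ ξ, M K s ξ) : ∃ ξ, D ⊆ M K s ξ := by
  have h1 : ∀ j : D, ∃ ξ, j.1 ∈ M K s ξ := fun j => by simpa using hsub j.2
  choose f hf using h1
  obtain ⟨ξ, hξ⟩ := hK.bdd (range f) (lt_of_le_of_lt mk_range_le hD)
  exact ⟨ξ, fun j hj => M_mono s (hξ _ ⟨⟨j, hj⟩, rfl⟩) (hf ⟨j, hj⟩)⟩

end CCAux

theorem exists_maxAnti {P : Type} [Preorder P] (S : Set P) (hS : ∀ p ∈ S, ∀ q, q ≤ p → q ∈ S) :
    ∃ A : Set P, A ⊆ S ∧ (∀ p ∈ A, ∀ q ∈ A, p ≠ q → ¬ ∃ r, r ≤ p ∧ r ≤ q) ∧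
      ∀ p ∈ S, ∃ q ∈ A, ∃ r, r ≤ p ∧ r ≤ q := by
  have hz := zorn_subset {A : Set P | A ⊆ S ∧ ∀ p ∈ A, ∀ q ∈ A, p ≠ q → ¬ ∃ r, r ≤ p ∧ r ≤ q} (by
    intro c hc hch
    refine ⟨⋃₀ c, ⟨sUnion_subset fun A hA => (hc hA).1, ?_⟩, fun A hA => subset_sUnion_of_mem hA⟩
    rintro p ⟨A, hA, hp⟩ q ⟨B, hB, hq⟩ hpq
    rcases hch.total hA hB with h | h
    · exact (hc hB).2 p (h hp) q hq hpq
    · exact (hc hA).2 p hp q (h hq) hpq)
  obtain ⟨A, hA⟩ := hz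
  refine ⟨A, hA.prop.1, hA.prop.2, ?_⟩
  intro p hp
  by_contra hcon
  push Not at hcon
  have hins : insert p A ∈
      {A : Set P | A ⊆ S ∧ ∀ p ∈ A, ∀ q ∈ A, p ≠ q → ¬ ∃ r, r ≤ p ∧ r ≤ q} := by
    refine ⟨insert_subset hp hA.prop.1, ?_⟩
    intro a ha b hb hab
    rcases ha with rfl | ha <;> rcases hb with rfl | hb
    · exact absurd rfl hab
    · rintro ⟨r, h1, h2⟩
      exact hcon b hb r h1 h2
    · rintro ⟨r, h1, h2⟩
      exact hcon a ha r h2 h1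
    · exact hA.prop.2 a ha b hb hab
  have hpA : p ∈ A := hA.le_of_ge hins (subset_insert p A) (mem_insert p A)
  exact hcon p hpA p le_rfl le_rfl

theorem cc (hK : RegK κ K) (hZ : ZC κ Z) (s : Set (Fn κ J Z))
    (hs : ∀ p ∈ s, ∀ q ∈ s, p ≠ q → ¬ ∃ r, r ≤ p ∧ r ≤ q) : #s ≤ #Z := by
  have h0 : ℵ₀ ≤ #Z := hK.unc.le.trans hZ.le
  set Ms : Set J := ⋃ ξ, CCAux.M K s ξ with hMs
  have hcard : #Ms ≤ #Z := by
    rw [hMs]
    exact CCAux.card_iU h0 (hK.card.le.trans hZ.le) _ (fun ξ => CCAux.card_M hK hZ s ξ)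
  have hsub : ∀ q ∈ s, q.1.dom ⊆ Ms := by
    intro q hq
    have h1 : #(↑(q.1.dom ∩ Ms)) < κ :=
      lt_of_le_of_lt (mk_le_mk_of_subset inter_subset_left) q.2
    obtain ⟨ξ, hξ⟩ := CCAux.exists_bound hK s _ h1 inter_subset_right
    obtain ⟨g, hgA, hgres, hgdom⟩ := CCAux.ch_spec s (CCAux.M K s ξ)
      (rs (CCAux.M K s ξ) q) ⟨q, hq, rfl⟩
    have hN : g.1.dom ⊆ CCAux.N s (CCAux.M K s ξ) := by
      rw [hgdom]
      refine subset_trans ?_ subset_union_right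
      exact subset_iUnion
        (fun t : FnOn κ J Z (CCAux.M K s ξ) => CCAux.ch s (CCAux.M K s ξ) t) _
    have hgM : g.1.dom ⊆ Ms := by
      obtain ⟨ζ, hζ⟩ := hK.bdd {ξ} (by
        rw [mk_singleton]; exact one_lt_aleph0.trans hK.unc)
      exact hN.trans ((CCAux.N_subset_M s (hζ ξ rfl)).trans (subset_iUnion (CCAux.M K s) ζ))
    by_cases hqg : q = g
    · rw [hqg]; exact hgM
    · exfalso
      apply hs q hq g hgA hqg
      obtain ⟨r, h2, h3, -⟩ := Fn.glb2 hK.unc.le q g (by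
        intro j v w hqj hgj
        have hjM : j ∈ CCAux.M K s ξ := hξ ⟨by
          show q.1 j ≠ none
          rw [hqj]; simp, hgM (by
          show g.1 j ≠ none
          rw [hgj]; simp)⟩
        have h4 : (rs (CCAux.M K s ξ) g).1.1 j = (rs (CCAux.M K s ξ) q).1.1 j := by rw [hgres]
        rw [rs_val, rs_val, if_pos hjM, if_pos hjM, hqj, hgj] at h4
        exact (Option.some.inj h4).symm)
      exact ⟨r, h2, h3⟩
  refine le_trans ?_ (card_FnOn hK hZ hcard)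
  exact mk_le_of_injective (f := fun q : s => (⟨q.1, hsub q.1 q.2⟩ : FnOn κ J Z Ms))
    (fun p q h => Subtype.ext (congrArg (fun t : FnOn κ J Z Ms => t.1) h))

theorem exists_supp (hK : RegK κ K) (hZ : ZC κ Z) (b : ROP (Fn κ J Z)) :
    ∃ A : Set J, #A ≤ #Z ∧ ∃ b' : ROP (FnOn κ J Z A), pb (rs A) b' = b := by
  have h0 : ℵ₀ ≤ #Z := hK.unc.le.trans hZ.le
  have hκ : ℵ₀ ≤ κ := hK.unc.le
  obtain ⟨𝒜, h1, h2, h3⟩ := exists_maxAnti {p : Fn κ J Z | em p ≤ b}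
    (fun p hp q hq => (em_mono hq).trans hp)
  set A : Set J := ⋃ p : 𝒜, p.1.1.dom with hA
  have hdom : ∀ p ∈ 𝒜, p.1.dom ⊆ A := fun p hp =>
    subset_iUnion (fun p : 𝒜 => p.1.1.dom) ⟨p, hp⟩
  refine ⟨A, CCAux.card_iU h0 (cc hK hZ 𝒜 h2) _ (fun p => p.1.2.le.trans hZ.le),
    ⨆ p : 𝒜, em (rs A p.1), ?_⟩
  apply le_antisymm
  · apply le_of_em
    intro q hq
    rw [em_le_pb (proj_rs hκ A)] at hq
    obtain ⟨a, ha, p, hp⟩ := exists_em_iSup hq
    have h4 : em a ⊓ em (rs A p.1) ≠ ⊥ := by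
      rw [inf_eq_left.2 hp]; exact em_ne_bot _
    obtain ⟨a', h5, h6⟩ := compat_of h4
    obtain ⟨g, h7, h8, -⟩ := union_rs hκ q a' (h5.trans ha)
    refine ⟨g, h7, ?_⟩
    have h9 : a'.1 ≤ p.1 := by
      have h10 : a'.1 ≤ (rs A p.1).1 := h6
      have h11 : (rs A p.1).1 = p.1 := congrArg Subtype.val (rs_eq ⟨p.1, hdom p.1 p.2⟩)
      rw [h11] at h10
      exact h10
    exact (em_mono (h8.trans h9)).trans (h1 p.2)
  · apply le_of_em
    intro q hq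
    obtain ⟨p, hp, r, h4, h5⟩ := h3 q hq
    refine ⟨r, h4, ?_⟩
    rw [em_le_pb (proj_rs hκ A)]
    exact (em_mono (rs_mono A h5)).trans (le_iSup (fun p : 𝒜 => em (rs A p.1)) ⟨p, hp⟩)

theorem supp_mono (hκ : ℵ₀ ≤ κ) {A B : Set J} (h : A ⊆ B) (b' : ROP (FnOn κ J Z A)) :
    ∃ b'' : ROP (FnOn κ J Z B), pb (rs B) b'' = pb (rs A) b' := by
  refine ⟨pb (fun p : FnOn κ J Z B => (rs A p.1 : FnOn κ J Z A)) b', ?_⟩
  rw [← pb_comp (proj_rs' hκ h) (proj_rs hκ B)]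
  congr 1
  funext p
  exact rs_rs h p

theorem exists_supps (hK : RegK κ K) (hZ : ZC κ Z) {ι : Type} (hι : #ι ≤ #Z)
    (b : ι → ROP (Fn κ J Z)) :
    ∃ A : Set J, #A ≤ #Z ∧ ∀ i, ∃ b' : ROP (FnOn κ J Z A), pb (rs A) b' = b i := by
  have h0 : ℵ₀ ≤ #Z := hK.unc.le.trans hZ.le
  choose A hA b' hb' using fun i => exists_supp hK hZ (b i)
  refine ⟨⋃ i, A i, CCAux.card_iU h0 hι A hA, fun i => ?_⟩
  obtain ⟨b'', hb''⟩ := supp_mono hK.unc.le (subset_iUnion A i) (b' i)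
  exact ⟨b'', hb''.trans (hb' i)⟩

theorem em_rs_le (hκ : ℵ₀ ≤ κ) {B : Set J} (b' : ROP (FnOn κ J Z B)) {d : Fn κ J Z}
    (h : em d ≤ pb (rs B) b') : em (rs B d).1 ≤ pb (rs B) b' := by
  rw [em_le_pb (proj_rs hκ B)] at h ⊢
  rwa [rs_eq]

end Pool.Agent.Lib.FMM
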