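import Pool.Agent.Lib.FMM.AbDefs
import Pool.Agent.Lib.FMM.CC

/-!
# Module FMM.AbStep: one step of the absorption

Read the header of AbDefs.lean. `n₀ = (z₀, d)`, `cons y w : ℕ → Y` is the sequence `y` followed by `w`
(`fun n => Nat.casesOn n y w`), `fdl n₀ ℓ` the first letter of `ℓ` different from `n₀`.

PROOFS.
* exists_mac: `dec : Z → Option D` surjective; `z₀` with `dec z₀ = none`. `M d z = {d}` for `z = z₀`; otherwise a
  maximal antichain (exists_maxAnti of CC.lean) inside the lower set `S = {m ≤ d | m ≤ g ∨ ¬ ∃ e, e ≤ m ∧ e ≤ g}`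
  if `dec z = some g` and `S = {m | m ≤ d}` if `dec z = none`. max: for `e ≤ d` there is `e₁ ≤ e` in `S` (if `e` is
  compatible with `g` a common extension, otherwise `e`).
* fdl_cons: `fdl n₀ (cons y w)` is `some y` if `y ≠ n₀` and `fdl n₀ w` if `y = n₀` (`Nat.find` shifts by one).
* good_bad: Good and Bad with compatible `r`, `r'` contradict (same `y`).
* step_mono: Good and Bad are inherited by `r' ≤ r`.
* step_mem: Good: if there is no `y` then `x.1 0 = (z₀, d)`, `M d z₀ = {d}`. If `x.1 0 ≠ n₀` then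
  `fdl n₀ x.1 = some (x.1 0)`, so `(x.1 0).2 ∈ M d (x.1 0).1`; if `x.1 0 = n₀` again `M d z₀ = {d}`. Bad: triv.
* step_le: `x.2.2 = d` or, in the case Good with `x.1 0 ≠ n₀`, `r ≤ π (x.1 0).2`.
* step_uniq1: same letter `x.1 = x'.1`; both Good or both Bad by good_bad.
* step_uniq2: `x.2.1 = x'.2.1 = (z, w)`, `x.2.2 = x'.2.2 = m`. Good: `x.1 = cons (z, m) w`. Bad: `x.1 = w`,
  `(z, m) = n₀`. If `x` is Good and `x'` is Bad: `x.1 = cons n₀ w` and `x'.1 = w` have the same `fdl`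
  (fdl_cons), contradiction as in good_bad.
* step_ex1: if `fdl = none` Good. If `fdl = some y`, `y.2 ∈ M d y.1` and some `r' ≤ r` is `≤ π y.2`: Good for `r'`.
  Otherwise Bad for `r`.
* step_ex2: let `ℓ = cons (z, m) w`. If `fdl n₀ ℓ = none`: `(ℓ, (z, w), m)` is Good. If it is `some y` with
  `y.2 ∈ M d y.1` and some `r' ≤ r`, `r' ≤ π y.2`: Good for `r'`. Otherwise `y ≠ (z, m)` (because `m ∈ M d z`,
  `r ≤ π m`), so `(z, m) = n₀` (otherwise `fdl_cons` gives `y = (z, m)`), `fdl n₀ w = some y`, and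
  `(w, (z, w), m)` is Bad for `r`.
-/

set_option autoImplicit false

namespace Pool.Agent.Lib.FMM

open Set Cardinal Classical

variable {D R Z : Type} [PartialOrder D] [OrderTop D] [PartialOrder R] [OrderTop R]

namespace AbStepAux

theorem fdl_some_iff {Y : Type} {n₀ y : Y} {ℓ : ℕ → Y} :
    fdl n₀ ℓ = some y ↔ ∃ n, ℓ n = y ∧ y ≠ n₀ ∧ ∀ k, k < n → ℓ k = n₀ := by
  unfold fdl
  by_cases h : ∃ n, ℓ n ≠ n₀
  · rw [dif_pos h]
    constructor
    · intro he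
      have he' : ℓ (Nat.find h) = y := Option.some.inj he
      refine ⟨Nat.find h, he', ?_, ?_⟩
      · rw [← he']; exact Nat.find_spec h
      · intro k hk
        by_contra hc
        exact Nat.find_min h hk hc
    · rintro ⟨n, hn, hy, hk⟩
      have hfn : Nat.find h = n := by
        rw [Nat.find_eq_iff]
        refine ⟨by rw [hn]; exact hy, ?_⟩
        intro k hkn hc
        exact hc (hk k hkn)
      rw [hfn, hn]
  · rw [dif_neg h]
    constructor
    · intro he; exact absurd he (by simp)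
    · rintro ⟨n, hn, hy, -⟩
      exact absurd ⟨n, by rw [hn]; exact hy⟩ h

theorem fdl_none_iff {Y : Type} {n₀ : Y} {ℓ : ℕ → Y} :
    fdl n₀ ℓ = none ↔ ∀ n, ℓ n = n₀ := by
  unfold fdl
  by_cases h : ∃ n, ℓ n ≠ n₀
  · rw [dif_pos h]
    constructor
    · intro he; exact absurd he (by simp)
    · intro hn
      obtain ⟨n, hne⟩ := h
      exact absurd (hn n) hne
  · rw [dif_neg h]
    constructor
    · intro _ n
      by_contra hc
      exact h ⟨n, hc⟩
    · intro _; rfl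

theorem fdl_head_ne {Y : Type} {n₀ : Y} {ℓ : ℕ → Y} (h : ℓ 0 ≠ n₀) : fdl n₀ ℓ = some (ℓ 0) :=
  fdl_some_iff.2 ⟨0, rfl, h, fun k hk => absurd hk (Nat.not_lt_zero k)⟩

theorem fdl_head_eq {Y : Type} {n₀ : Y} {ℓ : ℕ → Y} (h : ℓ 0 = n₀) :
    fdl n₀ ℓ = fdl n₀ (fun n => ℓ (n + 1)) := by
  rcases hf : fdl n₀ (fun n => ℓ (n + 1)) with _ | y
  · rw [fdl_none_iff] at hf ⊢
    intro n
    rcases n with _ | n
    · exact h
    · exact hf n
  · rw [fdl_some_iff] at hf ⊢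
    obtain ⟨n, hn, hy, hk⟩ := hf
    refine ⟨n + 1, hn, hy, ?_⟩
    intro k hkn
    rcases k with _ | k
    · exact h
    · exact hk k (Nat.lt_of_succ_lt_succ hkn)

end AbStepAux

open AbStepAux

theorem exists_mac (hs : ∃ f : Z → Option D, Function.Surjective f) :
    ∃ (dec : Z → Option D) (z₀ : Z) (M : D → Z → Set D), Mac dec z₀ M := by
  obtain ⟨dec, hdec⟩ := hs
  obtain ⟨z₀, hz₀⟩ := hdec none
  have key : ∀ (d : D) (z : Z), ∃ A : Set D,
      (∀ m ∈ A, m ≤ d) ∧ (∀ m ∈ A, ∀ m' ∈ A, (∃ e, e ≤ m ∧ e ≤ m') → m = m') ∧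
      (∀ e, e ≤ d → ∃ m ∈ A, ∃ e', e' ≤ e ∧ e' ≤ m) ∧
      (∀ g, dec z = some g → ∀ m ∈ A, m ≤ g ∨ ¬ ∃ e, e ≤ m ∧ e ≤ g) := by
    intro d z
    obtain ⟨A, hA, hanti, hmax⟩ := exists_maxAnti
      {m : D | m ≤ d ∧ ∀ g, dec z = some g → m ≤ g ∨ ¬ ∃ e, e ≤ m ∧ e ≤ g} (by
        rintro p ⟨hp, hp'⟩ q hq
        refine ⟨hq.trans hp, ?_⟩
        intro g hg
        rcases hp' g hg with h | h
        · exact Or.inl (hq.trans h)
        · right
          rintro ⟨e, he, he'⟩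
          exact h ⟨e, he.trans hq, he'⟩)
    refine ⟨A, fun m hm => (hA hm).1, ?_, ?_, fun g hg m hm => (hA hm).2 g hg⟩
    · intro m hm m' hm' hc
      by_contra hne
      exact hanti m hm m' hm' hne hc
    · intro e he
      have h1 : ∃ e₁, e₁ ≤ e ∧ ∀ g, dec z = some g → e₁ ≤ g ∨ ¬ ∃ e, e ≤ e₁ ∧ e ≤ g := by
        by_cases hc : ∃ g, dec z = some g ∧ ∃ c, c ≤ e ∧ c ≤ g
        · obtain ⟨g, hg, c, hce, hcg⟩ := hc
          refine ⟨c, hce, ?_⟩
          intro g' hg'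
          left
          have : g = g' := Option.some.inj (hg.symm.trans hg')
          rw [← this]; exact hcg
        · refine ⟨e, le_refl e, ?_⟩
          intro g hg
          right
          rintro ⟨c, hce, hcg⟩
          exact hc ⟨g, hg, c, hce, hcg⟩
      obtain ⟨e₁, he₁, he₁'⟩ := h1
      obtain ⟨q, hq, r, hr, hr'⟩ := hmax e₁ ⟨he₁.trans he, he₁'⟩
      exact ⟨q, hq, r, hr.trans he₁, hr'⟩
  choose A hA1 hA2 hA3 hA4 using key
  refine ⟨dec, z₀, fun d z => if z = z₀ then {d} else A d z, hdec, ?_, ?_, ?_, ?_, ?_⟩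
  · intro d z m hm
    by_cases hz : z = z₀
    · simp only [if_pos hz, mem_singleton_iff] at hm
      exact le_of_eq hm
    · simp only [if_neg hz] at hm
      exact hA1 d z m hm
  · intro d z m m' hm hm' hc
    by_cases hz : z = z₀
    · simp only [if_pos hz, mem_singleton_iff] at hm hm'
      rw [hm, hm']
    · simp only [if_neg hz] at hm hm'
      exact hA2 d z m hm m' hm' hc
  · intro d z e he
    by_cases hz : z = z₀
    · simp only [if_pos hz]
      exact ⟨d, rfl, e, le_refl e, he⟩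
    · simp only [if_neg hz]
      exact hA3 d z e he
  · intro d z g hg m hm
    by_cases hz : z = z₀
    · rw [hz, hz₀] at hg
      exact absurd hg (by simp)
    · simp only [if_neg hz] at hm
      exact hA4 d z g hg m hm
  · intro d
    simp

variable {π : D → R} {dec : Z → Option D} {z₀ : Z} {M : D → Z → Set D}

theorem AbStepAux.good_bad {r r' r'' : R} {d : D} {ℓ ℓ' : ℕ → Z × D} (h : r'' ≤ r) (h' : r'' ≤ r')
    (he : fdl (z₀, d) ℓ = fdl (z₀, d) ℓ')
    (hg : Good π z₀ M r d ℓ) (hb : Bad π z₀ M r' d ℓ') : False := by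
  obtain ⟨y, hy, hb⟩ := hb
  obtain ⟨h1, h2⟩ := hg y (he.trans hy)
  rcases hb with hb | hb
  · exact hb h1
  · exact hb ⟨r'', h', h.trans h2⟩

theorem step_mono {r r' : R} {d : D} {x : Lam Z D} (h : r' ≤ r) (hx : Step π z₀ M r d x) :
    Step π z₀ M r' d x := by
  rcases hx with ⟨hg, h1⟩ | ⟨⟨y, hy, hb⟩, h1⟩
  · refine Or.inl ⟨?_, h1⟩
    intro y hy
    exact ⟨(hg y hy).1, h.trans (hg y hy).2⟩
  · refine Or.inr ⟨⟨y, hy, ?_⟩, h1⟩
    rcases hb with hb | hb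
    · exact Or.inl hb
    · right
      rintro ⟨r₁, h1, h2⟩
      exact hb ⟨r₁, h1.trans h, h2⟩

theorem step_mem (hM : Mac dec z₀ M) {r : R} {d : D} {x : Lam Z D} (hx : Step π z₀ M r d x) :
    x.2.2 ∈ M d x.2.1.1 := by
  rcases hx with ⟨hg, h1, h2⟩ | ⟨hb, h1, h2⟩
  · rw [h2, h1]
    show (x.1 0).2 ∈ M d (x.1 0).1
    by_cases h0 : x.1 0 = (z₀, d)
    · rw [h0]
      show d ∈ M d z₀
      rw [hM.triv d]
      exact mem_singleton d
    · exact (hg _ (fdl_head_ne h0)).1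
  · rw [h2, h1]
    show d ∈ M d z₀
    rw [hM.triv d]
    exact mem_singleton d

theorem step_le (hM : Mac dec z₀ M) {r : R} {d : D} {x : Lam Z D} (hx : Step π z₀ M r d x)
    (hr : r ≤ π d) : r ≤ π x.2.2 := by
  rcases hx with ⟨hg, h1, h2⟩ | ⟨hb, h1, h2⟩
  · rw [h2]
    by_cases h0 : x.1 0 = (z₀, d)
    · rw [h0]
      exact hr
    · exact (hg _ (fdl_head_ne h0)).2
  · rw [h2]
    exact hr

theorem step_uniq1 {r r' r'' : R} {d : D} {x x' : Lam Z D} (h : r'' ≤ r) (h' : r'' ≤ r')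
    (hx : Step π z₀ M r d x) (hx' : Step π z₀ M r' d x') (he : x.1 = x'.1) : x = x' := by
  rcases hx with ⟨hg, h1, h2⟩ | ⟨hb, h1, h2⟩
  · rcases hx' with ⟨hg', h1', h2'⟩ | ⟨hb', h1', h2'⟩
    · refine Prod.ext he (Prod.ext ?_ ?_)
      · rw [h1, h1', he]
      · rw [h2, h2', he]
    · exact (AbStepAux.good_bad h h' (by rw [he]) hg hb').elim
  · rcases hx' with ⟨hg', h1', h2'⟩ | ⟨hb', h1', h2'⟩
    · exact (AbStepAux.good_bad h' h (by rw [he]) hg' hb).elim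
    · refine Prod.ext he (Prod.ext ?_ ?_)
      · rw [h1, h1', he]
      · rw [h2, h2']

theorem AbStepAux.uniq_aux {r r' r'' : R} {d : D} {x x' : Lam Z D} (h : r'' ≤ r) (h' : r'' ≤ r')
    (he : x.2 = x'.2)
    (hg : Good π z₀ M r d x.1) (h1 : x.2.1 = ((x.1 0).1, fun n => x.1 (n + 1)))
    (h2 : x.2.2 = (x.1 0).2) (hb' : Bad π z₀ M r' d x'.1) (h1' : x'.2.1 = (z₀, x'.1))
    (h2' : x'.2.2 = d) : False := by
  have e1 : ((x.1 0).1, fun n => x.1 (n + 1)) = (z₀, x'.1) := by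
    rw [← h1, ← h1', he]
  have e2 : (x.1 0).2 = d := by rw [← h2, ← h2', he]
  have e3 : (x.1 0).1 = z₀ := congrArg Prod.fst e1
  have e4 : (fun n => x.1 (n + 1)) = x'.1 := congrArg Prod.snd e1
  have e5 : x.1 0 = (z₀, d) := Prod.ext e3 e2
  refine AbStepAux.good_bad h h' ?_ hg hb'
  rw [fdl_head_eq e5, e4]

theorem step_uniq2 {r r' r'' : R} {d : D} {x x' : Lam Z D} (h : r'' ≤ r) (h' : r'' ≤ r')
    (hx : Step π z₀ M r d x) (hx' : Step π z₀ M r' d x') (he : x.2 = x'.2) : x = x' := by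
  rcases hx with ⟨hg, h1, h2⟩ | ⟨hb, h1, h2⟩
  · rcases hx' with ⟨hg', h1', h2'⟩ | ⟨hb', h1', h2'⟩
    · refine Prod.ext ?_ he
      have e1 : ((x.1 0).1, fun n => x.1 (n + 1)) = ((x'.1 0).1, fun n => x'.1 (n + 1)) := by
        rw [← h1, ← h1', he]
      have e2 : (x.1 0).2 = (x'.1 0).2 := by rw [← h2, ← h2', he]
      have e3 : (x.1 0).1 = (x'.1 0).1 := (Prod.mk.inj e1).1
      have e4 : (fun n => x.1 (n + 1)) = fun n => x'.1 (n + 1) := (Prod.mk.inj e1).2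
      funext n
      rcases n with _ | n
      · exact Prod.ext e3 e2
      · exact congrFun e4 n
    · exact (AbStepAux.uniq_aux h h' he hg h1 h2 hb' h1' h2').elim
  · rcases hx' with ⟨hg', h1', h2'⟩ | ⟨hb', h1', h2'⟩
    · exact (AbStepAux.uniq_aux h' h he.symm hg' h1' h2' hb h1 h2).elim
    · refine Prod.ext ?_ he
      have e1 : (z₀, x.1) = (z₀, x'.1) := by
        rw [← h1, ← h1', he]
      exact congrArg Prod.snd e1

theorem step_ex1 (r : R) (d : D) (ℓ : ℕ → Z × D) :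
    ∃ r', r' ≤ r ∧ ∃ y, Step π z₀ M r' d (ℓ, y) := by
  rcases hf : fdl (z₀, d) ℓ with _ | y
  · refine ⟨r, le_refl r, (((ℓ 0).1, fun n => ℓ (n + 1)), (ℓ 0).2), Or.inl ⟨?_, rfl, rfl⟩⟩
    intro y hy
    rw [hf] at hy
    exact absurd hy (by simp)
  · by_cases hc : y.2 ∈ M d y.1 ∧ ∃ r', r' ≤ r ∧ r' ≤ π y.2
    · obtain ⟨hm, r', hr', hr''⟩ := hc
      refine ⟨r', hr', (((ℓ 0).1, fun n => ℓ (n + 1)), (ℓ 0).2), Or.inl ⟨?_, rfl, rfl⟩⟩
      intro y' hy'
      have hyy : y = y' := Option.some.inj (hf.symm.trans hy')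
      rw [← hyy]
      exact ⟨hm, hr''⟩
    · refine ⟨r, le_refl r, ((z₀, ℓ), d), Or.inr ⟨⟨y, hf, ?_⟩, rfl, rfl⟩⟩
      by_cases hm : y.2 ∈ M d y.1
      · exact Or.inr fun hr => hc ⟨hm, hr⟩
      · exact Or.inl hm

theorem step_ex2 (hM : Mac dec z₀ M) {r : R} {d : D} {z : Z} {w : ℕ → Z × D} {m : D}
    (hm : m ∈ M d z) (hr : r ≤ π m) : ∃ r', r' ≤ r ∧ ∃ ℓ, Step π z₀ M r' d (ℓ, (z, w), m) := by
  let ℓ : ℕ → Z × D := fun n => Nat.casesOn n (z, m) w
  have hℓ0 : ℓ 0 = (z, m) := rfl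
  have hℓs : (fun n => ℓ (n + 1)) = w := rfl
  rcases hf : fdl (z₀, d) ℓ with _ | y
  · refine ⟨r, le_refl r, ℓ, Or.inl ⟨?_, rfl, rfl⟩⟩
    intro y hy
    have hy' : fdl (z₀, d) ℓ = some y := hy
    rw [hf] at hy'
    exact absurd hy' (by simp)
  · by_cases hc : y.2 ∈ M d y.1 ∧ ∃ r', r' ≤ r ∧ r' ≤ π y.2
    · obtain ⟨hm', r', hr', hr''⟩ := hc
      refine ⟨r', hr', ℓ, Or.inl ⟨?_, rfl, rfl⟩⟩
      intro y' hy'
      have hyy : y = y' := Option.some.inj (hf.symm.trans hy')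
      rw [← hyy]
      exact ⟨hm', hr''⟩
    · have hzm : ℓ 0 = (z₀, d) := by
        by_contra hne
        have h1 : some (ℓ 0) = some y := (fdl_head_ne hne).symm.trans hf
        have h2 : (z, m) = y := Option.some.inj h1
        apply hc
        rw [← h2]
        exact ⟨hm, r, le_refl r, hr⟩
      have hfw : fdl (z₀, d) w = some y := by
        rw [← hf, fdl_head_eq hzm, hℓs]
      have hz : z = z₀ := congrArg Prod.fst (hℓ0.symm.trans hzm)
      have hmd : m = d := congrArg Prod.snd (hℓ0.symm.trans hzm)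
      refine ⟨r, le_refl r, w, Or.inr ⟨⟨y, hfw, ?_⟩, ?_, hmd⟩⟩
      · by_cases hm' : y.2 ∈ M d y.1
        · exact Or.inr fun hr => hc ⟨hm', hr⟩
        · exact Or.inl hm'
      · show (z, w) = (z₀, w)
        rw [hz]

end Pool.Agent.Lib.FMM
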