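import Pool.Agent.Lib.FMM.AbR
import Pool.Agent.Lib.FMM.AbD

/-!
# FMM.Absorb: the absorption theorem
-/

set_option autoImplicit false

namespace Pool.Agent.Lib.FMM

open Set Cardinal Classical

theorem absorb {κ : Cardinal.{0}} {K D R Z : Type} [LinearOrder K] [WellFoundedLT K]
    [NoMaxOrder K] [PartialOrder D] [OrderTop D] [PartialOrder R] [OrderTop R] {π : D → R}
    (hK : RegK κ K) (hab : Ab κ π) (hs : ∃ f : Z → Option D, Function.Surjective f) :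
    ∃ (W : Type) (_ : PartialOrder W) (e₁ : W → DR π × Nd K (Z × (ℕ → Z × D)))
      (e₂ : W → R × Nd K (ℕ → Z × D)), DEmb e₁ ∧ Emb e₂ ∧ ∀ w, (e₁ w).1.1.2 = (e₂ w).1 := by
  obtain ⟨dec, z₀, M, hM⟩ := exists_mac (Z := Z) hs
  exact ⟨WW π z₀ M K, inferInstance, eD π z₀ M K, eR π z₀ M K, dEmb_eD hK hab hM,
    emb_eR hK hab hM, fun _ => rfl⟩

end Pool.Agent.Lib.FMM
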