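import Pool.Agent.Lib.FMM.TreeA
import Pool.Agent.Lib.FMM.PB

/-!
# Module FMM.BranchM: branches of the model

`xm X i j` is the Boolean value of `X (ck i) = ck j`.

PROOFS. Let `b` be such that the hypothesis holds for all `U ∋ b`. `App (E U) (q X) (ck i) (ck j) ↔ xm X i j ∈ U`
(BVM.app_iff, E_q).
* tot: Ultra.le_of_forall: `U ∋ b`: `X` is a function on lamN, has a value `y` at `ck i`, `y ∈ lamN`; of_mem_lamN with
  `P U = ((⨆ j, xm X i j) ∈ U)`, `Q U = App X (ck i) y`.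
* uniq: if `b ⊓ xm X i j ⊓ xm X i j' ≠ ⊥` take `U` containing it (Ultra.exists_mem); app_unique, ck_inj.
* br: `U ∋ b ⊓ ⨅ p, ..`: `Sub (ndN u) X` (sub_ndN_of), `ndN u` is a node, so `ndN u ∈ trN t`, E_trN.
* eq: for `U ∋ b`: `q U X = q U (fnName (xm X))`: ext_mod: `z ∈ X`: a pair `(x, y)` with `x ∈ lamN`, `y ∈ lamN`: cases `x = ck i`,
  `y = ck j`: `z = bpair (ck i) (ck j)`, and it is in `fnName (xm X)` iff `xm X i j ∈ U` (app_graph, beq_ck_ne, as in
  `app_fnN`). Conversely of_mem for `fnName` (index `(i, j)`, weight `xm X i j`). See `fun_repr` in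
  BVM/Facts.lean for the same proof with ω.
-/

set_option autoImplicit false

namespace Pool.Agent.Lib.FMM

open Set Cardinal Pool.Agent.Lib.WkD Pool.Agent.Lib.BVM Pool.Agent.Lib.BVM.bSet

variable {B K : Type} [CompleteBooleanAlgebra B] [LinearOrder K] [WellFoundedLT K]

/-- the Boolean value of `X (ck i) = ck j` -/
noncomputable def xm (X : bSet B) (i j : K) : B := bmem (bpair (ck B i) (ck B j)) X

namespace BranchMAux

theorem app_xm {X : bSet B} {U : Ultra B} {i j : K} :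
    App (E U) (q U X) (q U (ck B i)) (q U (ck B j)) ↔ xm X i j ∈ U := by
  rw [app_iff, E_q]
  rfl

theorem app_fnName {U : Ultra B} {x : K → K → B} {i j : K} :
    App (E U) (q U (fnName x)) (q U (ck B i)) (q U (ck B j)) ↔ x i j ∈ U := by
  unfold fnName
  rw [app_graph]
  have h : (⨆ p : K × K, x p.1 p.2 ⊓ (beq (ck B i) (ck B p.1) ⊓ beq (ck B j) (ck B p.2))) =
      x i j := by
    apply le_antisymm
    · refine iSup_le fun p => ?_
      by_cases h1 : i = p.1
      · by_cases h2 : j = p.2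
        · rw [h1, h2]
          exact inf_le_left
        · rw [beq_ck_ne h2]
          simp
      · rw [beq_ck_ne h1]
        simp
    · refine le_iSup_of_le (i, j) ?_
      simp only
      rw [beq_refl, beq_refl, inf_top_eq, inf_top_eq]
  rw [h]

end BranchMAux

open BranchMAux

theorem branch_tot {X : bSet B} {t : Nd K K → B} {b : B}
    (h : ∀ U : Ultra B, b ∈ U → Branch (E U) (q U (lamN B K)) (q U (trN t)) (q U X)) (i : K) :
    b ≤ ⨆ j, xm X i j := by
  refine Ultra.le_of_forall fun U hU => ?_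
  obtain ⟨hf, -⟩ := h U hU
  obtain ⟨y, hy, -⟩ := hf.1.2 _ (E_lamN i U)
  have hy' := hf.2 _ _ hy
  obtain ⟨Y, rfl⟩ := q_surj y
  refine of_mem_lamN (Z := Y) (P := fun U => (⨆ j, xm X i j) ∈ U)
    (Q := fun U => App (E U) (q U X) (q U (ck B i)) (q U Y)) (BV.of_mem _) (BV.app _ _ _)
    (fun j U hY hQ => ?_) hy' hy
  rw [hY] at hQ
  exact Ultra.mono (app_xm.1 hQ) (le_iSup (xm X i) j)

theorem branch_uniq {X : bSet B} {t : Nd K K → B} {b : B}
    (h : ∀ U : Ultra B, b ∈ U → Branch (E U) (q U (lamN B K)) (q U (trN t)) (q U X))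
    (i j j' : K) (hj : j ≠ j') : b ⊓ xm X i j ⊓ xm X i j' = ⊥ := by
  refine le_bot_iff.1 (Ultra.le_of_forall fun U hU => ?_)
  obtain ⟨h1, h2⟩ := Ultra.inf_iff.1 hU
  obtain ⟨h3, h4⟩ := Ultra.inf_iff.1 h1
  exact absurd (ck_inj (app_unique (h U h3).1.1 (E_lamN i U) (app_xm.2 h4) (app_xm.2 h2))) hj

theorem branch_br {X : bSet B} {t : Nd K K → B} {b : B}
    (h : ∀ U : Ultra B, b ∈ U → Branch (E U) (q U (lamN B K)) (q U (trN t)) (q U X))
    (u : Nd K K) :
    b ⊓ (⨅ p : {p : K × K // u.1 p.1 = some p.2}, xm X p.1.1 p.1.2) ≤ t u := by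
  refine Ultra.le_of_forall fun U hU => ?_
  obtain ⟨h1, h2⟩ := Ultra.inf_iff.1 hU
  exact E_trN.1 ((h U h1).2 _ (isNode_ndN U u) (sub_ndN_of h2))

theorem branch_eq {X : bSet B} {t : Nd K K → B} {U : Ultra B}
    (h : Branch (E U) (q U (lamN B K)) (q U (trN t)) (q U X)) :
    q U X = q U (fnName (xm X : K → K → B)) := by
  apply ext_mod
  intro z
  obtain ⟨Z, rfl⟩ := q_surj z
  constructor
  · intro hz
    obtain ⟨x, y', hx, hp⟩ := h.1.1.1 _ hz
    have hy' := h.1.2 _ _ ⟨_, hp, hz⟩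
    obtain ⟨X', rfl⟩ := q_surj x
    obtain ⟨Y', rfl⟩ := q_surj y'
    refine of_mem_lamN (Z := X') (P := fun U => E U (q U Z) (q U (fnName (xm X : K → K → B))))
      (Q := fun U => E U (q U Y') (q U (lamN B K)) ∧
        IsPair (E U) (q U X') (q U Y') (q U Z) ∧ E U (q U Z) (q U X)) (BV.mem _ _)
      ((BV.mem _ _).and ((BV.isPair _ _ _).and (BV.mem _ _)))
      (fun n U hn hQ => ?_) hx ⟨hy', hp, hz⟩
    obtain ⟨hy', hp, hz⟩ := hQ
    rw [hn] at hp
    refine of_mem_lamN (Z := Y') (P := fun U => E U (q U Z) (q U (fnName (xm X : K → K → B))))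
      (Q := fun U => IsPair (E U) (q U (ck B n)) (q U Y') (q U Z) ∧
        E U (q U Z) (q U X)) (BV.mem _ _)
      ((BV.isPair _ _ _).and (BV.mem _ _))
      (fun m U hm hQ => ?_) hy' ⟨hp, hz⟩
    obtain ⟨hp, hz⟩ := hQ
    rw [hm] at hp
    have h3 : xm X n m ∈ U := app_xm.1 ⟨_, hp, hz⟩
    rw [isPair_iff.1 hp, ← app_iff, app_fnName]
    exact h3
  · intro hz
    refine of_mem (X := fnName (xm X : K → K → B)) (P := fun U => E U (q U Z) (q U X))
      (Q := fun _ => True) (BV.mem _ _) (BV.const True) (fun p U hn hZ _ => ?_) hz trivial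
    have hZ : q U Z = q U (bpair (ck B p.1) (ck B p.2)) := hZ
    rw [hZ, ← app_iff]
    exact app_xm.2 hn

end Pool.Agent.Lib.FMM
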