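import Pool.Agent.Lib.FMM.Defs

/-!
# Module FMM.Card: cardinal arithmetic

`hZ : ZC κ Z` says `κ ≤ #Z` and `#Z ^ ν ≤ #Z` for `ν < κ`. So `ℵ₀ < #Z`, `#Z ^ ℵ₀ = #Z`, `#K = κ ≤ #Z`.

PROOFS.
* card_FnOn: let `#A ≤ #Z`. A condition in `FnOn κ J Z A` is determined by the set of the pairs
  `(j, z)`, `p j = some z`, a subset of `A × Z` of size `< κ`; `#(A × Z) ≤ #Z`, so it is enough that the number of
  subsets of `Z` of size `< κ` is at most `#Z`: such a nonempty set is the range of a function from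
  `Iio a` (`a : K`) to `Z` (its size is `< κ = #K`; there is `a : K` with `#(Iio a) = ` this size, or use
  an injection of the set into `K`, bounded by `a` by `bdd`, and a left inverse), and the number of
  pairs `(a, f : Iio a → Z)` is at most `∑_{a : K} #Z ^ #(Iio a) ≤ κ * #Z ≤ #Z` (mk_sigma,
  `sum_le`..., `hK.small`, `hZ.pow`).
* card_nd: a node is determined by its length and a function from `Iio len` to `K ↪ Z`; same count.
* exists_equiv_L: `D` nonempty, `#D ≤ #Z`: `#(Z × D) = #Z`, `#(ℕ → Z × D) = #Z ^ ℵ₀ ≤ #Z`, `≥` clear.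
* exists_equiv_compl: `#J ≥ ℵ₀`, `#B < #J`, so `#(Bᶜ) = #J` (`mk_compl_of_infinite`), `#K ≤ #Z < #J`.
* exists_c: `#(Nd K K) ≤ #Z < #J = #(Aᶜ)`, an injection into `Aᶜ`.
* exists_dc: `#(Option K) ≤ #Z` (infinite), `Option K` nonempty: a left inverse of an injection.
* regK_ord: for `K = κ.ord.ToType`: `mk_Iio_toType_ord_lt`, `#K = κ`, regularity for `bdd` (a set
  of size `< κ` is bounded: `card_iUnion_lt_iff_forall_of_isRegular`, see `exists_bound` in
  WkD/AddCC.lean).
-/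

set_option autoImplicit false

namespace Pool.Agent.Lib.FMM

open Set Cardinal Pool.Agent.Lib.WkD

variable {κ : Cardinal.{0}} {K J Z : Type} [LinearOrder K] [WellFoundedLT K]

namespace CardAux

omit [WellFoundedLT K] in
theorem al0 (hK : RegK κ K) (hZ : ZC κ Z) : ℵ₀ ≤ #Z := hK.unc.le.trans hZ.le

theorem card_opt {X Y : Type} (hY : ℵ₀ ≤ #Y) (hX : #X ≤ #Y) : #(Option X) ≤ #Y := by
  rw [mk_option]
  exact (add_le_add hX (one_le_aleph0.trans hY)).trans (add_eq_self hY).le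

theorem card_prod {X Y W : Type} (hY : ℵ₀ ≤ #Y) (hX : #X ≤ #Y) (hW : #W ≤ #Y) :
    #(X × W) ≤ #Y := by
  rw [← mul_def]
  exact (mul_le_mul' hX hW).trans (mul_eq_self hY).le

/-- sets of size `< κ` -/
theorem card_small {K Z : Type} [LinearOrder K] (hK : RegK κ K) (hZ : ZC κ Z) {X : Type}
    (hX : #X ≤ #Z) : #{S : Set X // #S < κ} ≤ #Z := by
  classical
  have h1 : ∀ S : {S : Set X // #S < κ}, ∃ g : (Σ a : K, (Iio a → Option X)),
      S.1 = {x | ∃ i, g.2 i = some x} := by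
    intro S
    have h2 : #S.1 ≤ #K := by rw [hK.card]; exact S.2.le
    obtain ⟨e⟩ := (Cardinal.le_def _ _).1 h2
    obtain ⟨b, hb⟩ := hK.bdd (range e) (lt_of_le_of_lt mk_range_le S.2)
    refine ⟨⟨b, fun i => if h : ∃ d : S.1, e d = i.1 then some h.choose.1 else none⟩, ?_⟩
    ext x
    constructor
    · intro hx
      refine ⟨⟨e ⟨x, hx⟩, hb _ (mem_range_self _)⟩, ?_⟩
      have h : ∃ d : S.1, e d = e ⟨x, hx⟩ := ⟨_, rfl⟩
      have h3 : h.choose = ⟨x, hx⟩ := e.injective h.choose_spec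
      change (if h : ∃ d : S.1, e d = e ⟨x, hx⟩ then some h.choose.1 else none) = some x
      rw [dif_pos h, h3]
    · rintro ⟨i, hi⟩
      change (if h : ∃ d : S.1, e d = i.1 then some h.choose.1 else none) = some x at hi
      split_ifs at hi with h
      rw [← Option.some.inj hi]
      exact h.choose.2
  choose g hg using h1
  have hinj : Function.Injective g := fun S T h => Subtype.ext (by rw [hg S, hg T, h])
  refine (mk_le_of_injective hinj).trans ?_
  rw [mk_sigma]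
  have h4 : ∀ a : K, #(Iio a → Option X) ≤ #Z := by
    intro a
    rw [← power_def]
    exact (power_le_power_right (card_opt (al0 hK hZ) hX)).trans (hZ.pow _ (hK.small a))
  refine (sum_le_sum _ (fun _ : K => #Z) h4).trans ?_
  rw [sum_const']
  refine (mul_le_mul_left (hK.card.le.trans hZ.le) _).trans (mul_eq_self (al0 hK hZ)).le

end CardAux

open CardAux

theorem card_FnOn (hK : RegK κ K) (hZ : ZC κ Z) {A : Set J} (hA : #A ≤ #Z) :
    #(FnOn κ J Z A) ≤ #Z := by
  have hX : #(A × Z) ≤ #Z := card_prod (al0 hK hZ) hA le_rfl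
  refine le_trans ?_ (card_small hK hZ hX)
  have hs : ∀ p : FnOn κ J Z A, #{x : A × Z | p.1.1 x.1.1 = some x.2} < κ := by
    intro p
    refine lt_of_le_of_lt ?_ p.1.2
    refine mk_le_of_injective (f := fun x : {x : A × Z | p.1.1 x.1.1 = some x.2} =>
      (⟨x.1.1.1, by
        change p.1.1 x.1.1.1 ≠ none
        rw [show p.1.1 x.1.1.1 = some x.1.2 from x.2]
        simp⟩ : p.1.1.dom)) ?_
    intro x y h
    have h1 : x.1.1.1 = y.1.1.1 := congrArg (fun t : p.1.1.dom => t.1) h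
    have h2 : p.1.1 x.1.1.1 = some x.1.2 := x.2
    have h3 : p.1.1 y.1.1.1 = some y.1.2 := y.2
    rw [h1, h3] at h2
    exact Subtype.ext (Prod.ext (Subtype.ext h1) (Option.some.inj h2).symm)
  refine mk_le_of_injective (f := fun p : FnOn κ J Z A =>
    (⟨{x : A × Z | p.1.1 x.1.1 = some x.2}, hs p⟩ : {S : Set (A × Z) // #S < κ})) ?_
  intro p q h
  have h1 : {x : A × Z | p.1.1 x.1.1 = some x.2} = {x : A × Z | q.1.1 x.1.1 = some x.2} :=
    congrArg Subtype.val h
  refine Subtype.ext (Subtype.ext (funext fun j => ?_))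
  by_cases hj : j ∈ A
  · refine Option.ext fun z => ?_
    have h2 := Set.ext_iff.1 h1 (⟨j, hj⟩, z)
    exact h2
  · have h2 : p.1.1 j = none := by
      by_contra h3
      exact hj (p.2 h3)
    have h4 : q.1.1 j = none := by
      by_contra h3
      exact hj (q.2 h3)
    rw [h2, h4]

theorem card_nd (hK : RegK κ K) (hZ : ZC κ Z) : #(Nd K K) ≤ #Z := by
  have hKZ : #K ≤ #Z := hK.card.le.trans hZ.le
  have hX : #(K × K) ≤ #Z := card_prod (al0 hK hZ) hKZ hKZ
  refine le_trans ?_ (card_small hK hZ hX)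
  have hs : ∀ p : Nd K K, #{x : K × K | p.1 x.1 = some x.2} < κ := by
    intro p
    obtain ⟨a, ha⟩ := p.2
    refine lt_of_le_of_lt ?_ (hK.small a)
    rw [← ha]
    refine mk_le_of_injective (f := fun x : {x : K × K | p.1 x.1 = some x.2} =>
      (⟨x.1.1, by
        change p.1 x.1.1 ≠ none
        rw [show p.1 x.1.1 = some x.1.2 from x.2]
        simp⟩ : p.1.dom)) ?_
    intro x y h
    have h1 : x.1.1 = y.1.1 := congrArg Subtype.val h
    have h2 : p.1 x.1.1 = some x.1.2 := x.2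
    have h3 : p.1 y.1.1 = some y.1.2 := y.2
    rw [h1, h3] at h2
    exact Subtype.ext (Prod.ext h1 (Option.some.inj h2).symm)
  refine mk_le_of_injective (f := fun p : Nd K K =>
    (⟨{x : K × K | p.1 x.1 = some x.2}, hs p⟩ : {S : Set (K × K) // #S < κ})) ?_
  intro p q h
  have h1 : {x : K × K | p.1 x.1 = some x.2} = {x : K × K | q.1 x.1 = some x.2} :=
    congrArg Subtype.val h
  refine Subtype.ext (funext fun j => ?_)
  refine Option.ext fun z => ?_
  have h2 := Set.ext_iff.1 h1 (j, z)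
  exact h2

theorem exists_equiv_L (hK : RegK κ K) (hZ : ZC κ Z) (D : Type) [Nonempty D] (hD : #D ≤ #Z) :
    Nonempty ((ℕ → Z × D) ≃ Z) ∧ Nonempty ((Z × (ℕ → Z × D)) ≃ Z) := by
  have h0 := al0 hK hZ
  have h1 : #(ℕ → Z × D) = #Z := by
    rw [← power_def, mk_nat, ← mul_def, mul_eq_left h0 hD (mk_ne_zero D)]
    exact le_antisymm (hZ.pow _ hK.unc) (self_le_power _ one_le_aleph0)
  refine ⟨Cardinal.eq.1 h1, Cardinal.eq.1 ?_⟩
  rw [← mul_def, h1, mul_eq_self h0]

theorem exists_equiv_compl (hK : RegK κ K) (hZ : ZC κ Z) (hJ : #Z < #J) {B : Set J}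
    (hB : #B ≤ #Z) : Nonempty (K ⊕ J ≃ ↥Bᶜ) := by
  have h0 : ℵ₀ ≤ #J := (al0 hK hZ).trans hJ.le
  have : Infinite J := infinite_iff.2 h0
  refine Cardinal.eq.1 ?_
  rw [mk_compl_of_infinite B (lt_of_le_of_lt hB hJ), ← add_def]
  exact add_eq_right h0 ((hK.card.le.trans hZ.le).trans hJ.le)

theorem exists_equiv_J (hK : RegK κ K) (hZ : ZC κ Z) (hJ : #Z < #J) : Nonempty (K ⊕ J ≃ J) := by
  have h0 : ℵ₀ ≤ #J := (al0 hK hZ).trans hJ.le
  refine Cardinal.eq.1 ?_
  rw [← add_def]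
  exact add_eq_right h0 ((hK.card.le.trans hZ.le).trans hJ.le)

theorem exists_c (hK : RegK κ K) (hZ : ZC κ Z) (hJ : #Z < #J) {A : Set J} (hA : #A ≤ #Z) :
    ∃ c : Nd K K → J, Function.Injective c ∧ ∀ s, c s ∉ A := by
  have h0 : ℵ₀ ≤ #J := (al0 hK hZ).trans hJ.le
  have : Infinite J := infinite_iff.2 h0
  have h1 : #(Nd K K) ≤ #(↥Aᶜ) := by
    rw [mk_compl_of_infinite A (lt_of_le_of_lt hA hJ)]
    exact (card_nd hK hZ).trans hJ.le
  obtain ⟨e⟩ := (Cardinal.le_def _ _).1 h1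
  exact ⟨fun s => (e s).1, fun s t h => e.injective (Subtype.ext h), fun s => (e s).2⟩

theorem exists_dc (hK : RegK κ K) (hZ : ZC κ Z) : ∃ dc : Z → Option K, Function.Surjective dc := by
  have h1 : #(Option K) ≤ #Z := card_opt (al0 hK hZ) (hK.card.le.trans hZ.le)
  obtain ⟨e⟩ := (Cardinal.le_def _ _).1 h1
  exact ⟨Function.invFun e, Function.invFun_surjective e.injective⟩

theorem regK_ord (h1 : κ.IsRegular) (h2 : ℵ₀ < κ) : RegK κ κ.ord.ToType where
  reg := h1
  unc := h2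
  card := mk_ord_toType κ
  small a := mk_Iio_toType_ord_lt a
  bdd s hs := by
    have h3 : #(⋃ j : s, Set.Iic j.1) < κ := by
      rw [card_iUnion_lt_iff_forall_of_isRegular h1 hs]
      intro j
      have : Set.Iic j.1 = Set.Iio j.1 ∪ {j.1} := by
        ext x; simp [le_iff_lt_or_eq, or_comm]
      rw [this]
      refine lt_of_le_of_lt (mk_union_le _ _) ?_
      refine add_lt_of_lt h2.le (mk_Iio_toType_ord_lt _) ?_
      rw [mk_singleton]
      exact one_lt_aleph0.trans h2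
    have h4 : (⋃ j : s, Set.Iic j.1) ≠ Set.univ := by
      intro h
      rw [h, mk_univ] at h3
      simp at h3
    obtain ⟨b, hb⟩ := (Set.ne_univ_iff_exists_notMem _).1 h4
    refine ⟨b, fun a ha => ?_⟩
    by_contra h
    exact hb (mem_iUnion.2 ⟨⟨a, ha⟩, not_lt.1 h⟩)

end Pool.Agent.Lib.FMM
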