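import Pool.Agent.Lib.WkD.RO
import Pool.Agent.Lib.WkD.MDefs

/-!
# Project FMM: definitions

Partial functions are ordered by reverse extension: `p ≤ q` means that `p` extends `q`.
-/

set_option autoImplicit false

namespace Pool.Agent.Lib.FMM

open Set Cardinal Classical Pool.Agent.Lib.WkD Pool.Agent.Lib.BVM

/-! ### partial functions -/

/-- partial functions from `I` to `V` -/
def PF (I V : Type) : Type := I → Option V

namespace PF

variable {I V : Type}

/-- the domain -/
def dom (p : PF I V) : Set I := {i | p i ≠ none}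

instance : PartialOrder (PF I V) where
  le p q := ∀ i v, q i = some v → p i = some v
  le_refl _ _ _ h := h
  le_trans _ _ _ h1 h2 i v h := h1 i v (h2 i v h)
  le_antisymm p q h1 h2 := by
    funext i
    cases hp : p i with
    | none =>
      cases hq : q i with
      | none => rfl
      | some v =>
        rw [h1 i v hq] at hp
        exact absurd hp (by simp)
    | some v => exact (h2 i v hp).symm

/-- the union of a set of partial functions (pairwise compatible) -/
noncomputable def sup (C : Set (PF I V)) : PF I V := fun i =>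
  if h : ∃ v, ∃ p ∈ C, p i = some v then some h.choose else none

/-- the restriction to a set -/
noncomputable def res (A : Set I) (p : PF I V) : PF I V := fun i => if i ∈ A then p i else none

end PF

/-- partial functions with domain of size `< κ` -/
def Fn (κ : Cardinal.{0}) (I V : Type) : Type := {p : PF I V // #p.dom < κ}

instance (κ : Cardinal.{0}) (I V : Type) : PartialOrder (Fn κ I V) := Subtype.partialOrder _

/-- the conditions with domain in `A` -/
def FnOn (κ : Cardinal.{0}) (J Z : Type) (A : Set J) : Type := {p : Fn κ J Z // p.1.dom ⊆ A}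

instance (κ : Cardinal.{0}) (J Z : Type) (A : Set J) : PartialOrder (FnOn κ J Z A) :=
  Subtype.partialOrder _

/-- restriction of a condition to `A` -/
noncomputable def rs {κ : Cardinal.{0}} {J Z : Type} (A : Set J) (p : Fn κ J Z) :
    FnOn κ J Z A :=
  ⟨⟨PF.res A p.1, by
    refine lt_of_le_of_lt (mk_le_mk_of_subset ?_) p.2
    intro i hi h
    apply hi
    unfold PF.res
    split_ifs
    · exact h
    · rfl⟩, by
    intro i hi
    by_contra h
    exact hi (by simp [PF.res, h])⟩

/-! ### the well-order and the nodes -/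

/-- `K` is a well-order of uncountable regular type `κ`. -/
structure RegK (κ : Cardinal.{0}) (K : Type) [LinearOrder K] : Prop where
  reg : κ.IsRegular
  unc : ℵ₀ < κ
  card : #K = κ
  small : ∀ a : K, #(Iio a) < κ
  bdd : ∀ s : Set K, #s < κ → ∃ b, ∀ a ∈ s, a < b

/-- `|Z|^{<κ} = |Z| ≥ κ` -/
structure ZC (κ : Cardinal.{0}) (Z : Type) : Prop where
  le : κ ≤ #Z
  pow : ∀ ν < κ, #Z ^ ν ≤ #Z

/-- sequences of elements of `V` with a length in `K`; `u ≤ v` means that `u` extends `v`. -/
def Nd (K V : Type) [LinearOrder K] : Type := {p : PF K V // ∃ a : K, p.dom = Iio a}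

instance (K V : Type) [LinearOrder K] : PartialOrder (Nd K V) := Subtype.partialOrder _

namespace Nd

variable {K V : Type} [LinearOrder K]

/-- the length -/
noncomputable def len (u : Nd K V) : K := u.2.choose

theorem dom_eq (u : Nd K V) : u.1.dom = Iio u.len := u.2.choose_spec

/-- the sequence of length `a` with values `f` -/
noncomputable def ofFun (a : K) (f : K → V) : Nd K V :=
  ⟨fun i => if i < a then some (f i) else none, a, by
    ext i
    simp [PF.dom]⟩

/-- the empty sequence -/
def nil [OrderBot K] : Nd K V := ⟨fun _ => none, ⊥, by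
  ext i
  simp [PF.dom]⟩

/-- the sequence `u` followed by `v` -/
noncomputable def snoc [WellFoundedLT K] [NoMaxOrder K] (u : Nd K V) (v : V) : Nd K V :=
  ⟨fun i => if i < u.len then u.1 i else if i = u.len then some v else none, by
    have hne : {a | u.len < a}.Nonempty := exists_gt u.len
    refine ⟨(wellFounded_lt (α := K)).min _ hne, ?_⟩
    have h1 : u.len < (wellFounded_lt (α := K)).min _ hne := (wellFounded_lt (α := K)).min_mem _ hne
    ext i
    have h2 : i < u.len → u.1 i ≠ none := fun h => by
      have : i ∈ u.1.dom := by rw [dom_eq]; exact h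
      exact this
    simp only [PF.dom, mem_setOf_eq, mem_Iio]
    constructor
    · intro h
      by_cases hi : i < u.len
      · exact hi.trans h1
      · by_cases hi' : i = u.len
        · rw [hi']; exact h1
        · simp [hi, hi'] at h
    · intro h
      have h3 : ¬ u.len < i := fun h3 => (wellFounded_lt (α := K)).not_lt_min _ h3 h
      rcases lt_or_eq_of_le (not_lt.1 h3) with h4 | h4
      · simp [h4, h2 h4]
      · simp [h4]⟩

/-- the initial segment of length `a` (or `u` if `u` is shorter) -/
noncomputable def ini (u : Nd K V) (a : K) : Nd K V :=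
  ⟨fun i => if i < a then u.1 i else none, min a u.len, by
    ext i
    have h2 : i < u.len ↔ u.1 i ≠ none := by
      have := Set.ext_iff.1 (dom_eq u) i
      exact this.symm
    simp only [PF.dom, mem_setOf_eq, mem_Iio, lt_min_iff]
    by_cases hi : i < a
    · simp [hi, h2]
    · simp [hi]⟩

/-- the image of a sequence -/
noncomputable def map {V' : Type} (f : V → V') (u : Nd K V) : Nd K V' :=
  ⟨fun i => (u.1 i).map f, u.len, by
    rw [← dom_eq u]
    ext i
    simp [PF.dom]⟩

/-- `u` is not of the form `snoc v x`: its length is zero or a limit. -/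
def Lim [WellFoundedLT K] [NoMaxOrder K] (u : Nd K V) : Prop := ∀ v x, u ≠ snoc v x

end Nd

/-! ### Boolean valued full Miller trees -/

section miller

variable {K V B : Type} [LinearOrder K] [WellFoundedLT K] [NoMaxOrder K] [CompleteBooleanAlgebra B]

/-- Boolean value of: `v` is a splitting node of `t`. -/
noncomputable def sp (t : Nd K V → B) (v : Nd K V) : B :=
  ⨆ p : {p : V × V // p.1 ≠ p.2}, t (v.snoc p.1.1) ⊓ t (v.snoc p.1.2)

/-- Boolean value of: `t` is a full Miller tree. -/
noncomputable def BFM (t : Nd K V → B) : B :=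
  (⨆ u, t u) ⊓ (⨅ p : {p : Nd K V × Nd K V // p.1 ≤ p.2}, t p.1.1 ⇨ t p.1.2) ⊓
  (⨅ u : {u : Nd K V // u.Lim}, (⨅ v : {v : Nd K V // u.1 < v}, t v.1) ⇨ t u.1) ⊓
  (⨅ u, t u ⇨ ⨆ v : {v : Nd K V // v ≤ u}, sp t v.1) ⊓
  (⨅ p : Nd K V × V, sp t p.1 ⇨ t (p.1.snoc p.2))

end miller

/-! ### maps between orders -/

/-- projections -/
structure Proj {W P : Type} [Preorder W] [Preorder P] (e : W → P) : Prop where
  mono : Monotone e
  lift : ∀ w p, p ≤ e w → ∃ w', w' ≤ w ∧ e w' ≤ p

/-- embeddings: projections which preserve incompatibility -/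
structure Emb {W P : Type} [Preorder W] [Preorder P] (e : W → P) : Prop extends Proj e where
  inc : ∀ w w' p, p ≤ e w → p ≤ e w' → ∃ w'', w'' ≤ w ∧ w'' ≤ w'

/-- dense embeddings -/
structure DEmb {W P : Type} [Preorder W] [Preorder P] (e : W → P) : Prop extends Emb e where
  dense : ∀ p, ∃ w, e w ≤ p

/-- the pullback of a regular open set -/
noncomputable def pb {W P : Type} [Preorder W] [Preorder P] (e : W → P) (b : ROP P) : ROP W :=
  ⨆ w : {w : W // em (e w) ≤ b}, em w.1

/-- complete homomorphisms -/
structure CH {B C : Type} [CompleteBooleanAlgebra B] [CompleteBooleanAlgebra C] (F : B → C) :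
    Prop where
  sup : ∀ {ι : Type} (x : ι → B), F (⨆ i, x i) = ⨆ i, F (x i)
  compl : ∀ x, F xᶜ = (F x)ᶜ

/-! ### names -/

/-- the image of a name under a map of the algebras -/
def mapN {B C : Type} (F : B → C) : bSet B → bSet C
  | .mk α A w => .mk α (fun a => mapN F (A a)) (fun a => F (w a))

/-- the pullback of an ultrafilter -/
def pullU {B C : Type} [CompleteBooleanAlgebra B] [CompleteBooleanAlgebra C] (F : B → C)
    (h1 : F ⊤ = ⊤) (h2 : ∀ x y, F (x ⊓ y) = F x ⊓ F y) (h3 : ∀ x, F xᶜ = (F x)ᶜ) (U : Ultra C) :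
    Ultra B where
  carrier := {b | F b ∈ U}
  top_mem := by
    show F ⊤ ∈ U
    rw [h1]
    exact Ultra.top
  inf_mem := by
    intro x y hx hy
    show F (x ⊓ y) ∈ U
    rw [h2]
    exact Ultra.inf_iff.2 ⟨hx, hy⟩
  up := by
    intro x y hx hxy
    show F y ∈ U
    have hx : F x ∈ U := hx
    rw [← inf_eq_left.2 hxy, h2] at hx
    exact (Ultra.inf_iff.1 hx).2
  compl_iff := by
    intro x
    show F xᶜ ∈ U ↔ ¬ F x ∈ U
    rw [h3]
    exact Ultra.not_iff

section names

variable {K B : Type} [LinearOrder K] [WellFoundedLT K] [CompleteBooleanAlgebra B]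

/-- the name of a relation on `K` -/
noncomputable def fnName (x : K → K → B) : bSet B :=
  graphName (ι := K × K) (fun p => ck B p.1) (fun p => ck B p.2) (fun p => x p.1 p.2)

/-- the check name of a sequence -/
noncomputable def ndN (B : Type) [CompleteBooleanAlgebra B] (u : Nd K K) : bSet B :=
  graphName (ι := {p : K × K // u.1 p.1 = some p.2}) (fun p => ck B p.1.1) (fun p => ck B p.1.2)
    (fun _ => ⊤)

end names

/-! ### the absorption theorem -/

/-- all chains of size `< κ` have a greatest lower bound -/
def CG (κ : Cardinal.{0}) (D : Type) [PartialOrder D] : Prop :=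
  ∀ C : Set D, C.Nonempty → #C < κ → (∀ x ∈ C, ∀ y ∈ C, x ≤ y ∨ y ≤ x) → ∃ g, IsGLB C g

/-- the projection `π` of `D` onto `R` -/
structure Ab (κ : Cardinal.{0}) {D R : Type} [PartialOrder D] [OrderTop D] [PartialOrder R]
    [OrderTop R] (π : D → R) : Prop extends Proj π where
  top : π ⊤ = ⊤
  cgD : CG κ D
  cgR : CG κ R
  cont : ∀ C : Set D, C.Nonempty → #C < κ → (∀ x ∈ C, ∀ y ∈ C, x ≤ y ∨ y ≤ x) →
    ∀ g, IsGLB C g → IsGLB (π '' C) (π g)

/-- the pairs `(d, r)` with `r ≤ π d` -/
def DR {D R : Type} [PartialOrder R] (π : D → R) : Type := {x : D × R // x.2 ≤ π x.1}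

instance {D R : Type} [PartialOrder D] [PartialOrder R] (π : D → R) : PartialOrder (DR π) :=
  Subtype.partialOrder _

/-! ### the orders of the proof -/

section orders

variable {κ : Cardinal.{0}} {K J Z : Type} [LinearOrder K] [WellFoundedLT K] [NoMaxOrder K]

/-- the order `P_A * T` -/
def RR {A : Set J} (t : Nd K K → ROP (FnOn κ J Z A)) : Type :=
  {r : FnOn κ J Z A × Nd K K // em r.1 ≤ t r.2}

instance {A : Set J} (t : Nd K K → ROP (FnOn κ J Z A)) : PartialOrder (RR t) :=
  Subtype.partialOrder _

/-- Boolean value of: the generic value at the coordinate `c s` is decoded to `o`. -/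
noncomputable def hh (c : Nd K K → J) (dc : Z → Option K) (s : Nd K K) (o : Option K) :
    ROP (Fn κ J Z) :=
  ⨆ p : {p : Fn κ J Z // ∃ z, p.1 (c s) = some z ∧ dc z = o}, em p.1

/-- the generic subtree: `v` is in `T'` if `v` is in `T`, comparable with `σ`, and for every
splitting node `s` of `T` with `σ ⊆ s ⊂ v` the generic value at `c s` is decoded to `none` or
to the value of `v` at the length of `s`. -/
noncomputable def tp {A : Set J} (t : Nd K K → ROP (FnOn κ J Z A)) (σ : Nd K K)
    (c : Nd K K → J) (dc : Z → Option K) (v : Nd K K) : ROP (Fn κ J Z) :=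
  if v ≤ σ ∨ σ ≤ v then pb (rs A) (t v) ⊓
    ⨅ s : {s : Nd K K // s ≤ σ ∧ v < s},
      (pb (rs A) (sp t s.1) ⇨ (hh c dc s.1 none ⊔ hh c dc s.1 (v.1 s.1.len)))
  else ⊥

/-- the conditions which decide an initial segment `u` of the branch `x` and do not decide the
generic values at nodes extending `u` -/
def DD (B : Set J) (x : K → K → ROP (Fn κ J Z)) (c : Nd K K → J) : Type :=
  {d : FnOn κ J Z B × Nd K K // (∀ i j, d.2.1 i = some j → em d.1.1 ≤ x i j) ∧
    ∀ v, c v ∈ d.1.1.1.dom → ¬ v ≤ d.2}

instance (B : Set J) (x : K → K → ROP (Fn κ J Z)) (c : Nd K K → J) :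
    PartialOrder (DD B x c) := Subtype.partialOrder _

/-- the generic branch given by a monotone map `ν` into the nodes -/
noncomputable def gm {P : Type} [Preorder P] (ν : P → Nd K K) (i j : K) : ROP P :=
  ⨆ p : {p : P // (ν p).1 i = some j}, em p.1

end orders

end Pool.Agent.Lib.FMM
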