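import Pool.Agent.Lib.FMM.MapN

/-!
# Project FMM: truth in the quotients, the data of a branch (definitions)
-/

set_option autoImplicit false

namespace Pool.Agent.Lib.FMM

open Set Cardinal Pool.Agent.Lib.WkD Pool.Agent.Lib.BVM

variable {κ : Cardinal.{0}} {K J Z : Type} [LinearOrder K] [WellFoundedLT K]

/-- truth of `φ` at the branch given by `X` and the parameter `y` in the quotient by `U` -/
def Tr {P : Type} [Preorder P] {A : Set J} (φ : Fml) (y : bSet (ROP (FnOn κ J Z A)))
    (α : P → FnOn κ J Z A) (X : K → K → ROP P) (U : Ultra (ROP P)) : Prop :=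
  Sat (E U) φ (fun n => if n = 0 then q U (fnName X) else q U (mapN (pb α) y))

/-- `q` forces that `x` is a branch of the generic subtree `tp t σ c dc`; everything is supported
by `B`. -/
structure Br [NoMaxOrder K] {A : Set J} (t : Nd K K → ROP (FnOn κ J Z A)) (σ : Nd K K)
    (c : Nd K K → J) (dc : Z → Option K) (B : Set J) (x : K → K → ROP (Fn κ J Z))
    (q : Fn κ J Z) : Prop where
  AB : A ⊆ B
  cB : ∀ s, c s ∈ B
  cA : ∀ s, c s ∉ A
  cinj : Function.Injective c
  dcs : Function.Surjective dc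
  dom : q.1.dom ⊆ B
  bfm : em q ≤ pb (rs A) (BFM t)
  supp : ∀ i j, ∃ b : ROP (FnOn κ J Z B), pb (rs B) b = x i j
  tot : ∀ i, em q ≤ ⨆ j, x i j
  uniq : ∀ i j j', j ≠ j' → em q ⊓ x i j ⊓ x i j' = ⊥
  br : ∀ u : Nd K K, em q ⊓ (⨅ p : {p : K × K // u.1 p.1 = some p.2}, x p.1.1 p.1.2) ≤
    tp t σ c dc u

theorem tr_pb {W P : Type} [Preorder W] [Preorder P] {A : Set J} {e : W → P} (he : Emb e)
    {α : P → FnOn κ J Z A} (hα : Proj α) (φ : Fml) (y : bSet (ROP (FnOn κ J Z A)))
    (X : K → K → ROP P) (U : Ultra (ROP W)) :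
    Tr φ y α X (pullU (pb e) (ch_pb he.toProj).top (ch_pb he.toProj).inf
      (ch_pb he.toProj).compl U) ↔ Tr φ y (fun w => α (e w)) (fun i j => pb e (X i j)) U := by
  unfold Tr
  have h1 : ∀ (V : Ultra (ROP P)), (fun n : ℕ => if n = 0 then q V (fnName X) else
      q V (mapN (pb α) y)) = fun n : ℕ => q V (if n = 0 then fnName X else mapN (pb α) y) := by
    intro V
    funext n
    split_ifs <;> rfl
  rw [h1, sat_mapN (ch_pb he.toProj) (pb_surj he)]
  have h2 : (fun n : ℕ => q U (mapN (pb e) (if n = 0 then fnName X else mapN (pb α) y))) =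
      fun n : ℕ => if n = 0 then q U (fnName (fun i j => pb e (X i j))) else
        q U (mapN (pb (fun w => α (e w))) y) := by
    funext n
    split_ifs
    · rw [mapN_fnName (ch_pb he.toProj)]
    · rw [mapN_comp]
      congr 2
      funext b
      exact (pb_comp hα he.toProj b).symm
  rw [h2]

end Pool.Agent.Lib.FMM
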