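import Pool.Agent.Lib.FMM.RRb
import Pool.Agent.Lib.FMM.TDefs
import Pool.Agent.Lib.FMM.Card

/-!
# Module FMM.Dich: homogeneity

PROOFS.
* exists_shift: `g : Fn κ J Z`; `#(dom g) < κ ≤ #Z < #J`, so there is a bijection `ι : J ≃ {j // j ∉ g.1.dom}`
  (`mk_compl_of_infinite` or cardinal equality). `e g' j = g.1 j` if `j ∈ dom g`, otherwise `g'.1 (ι.symm j)`. The
  domain is small. Monotone; lift: `p ≤ e g'`, take `g'' = (fun i => p.1 (ι i))`, `g'' ≤ g'` and `e g'' ≤ p`. inc: the same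
  for a common `p`. `e g' ≤ g`.
* dich: Let `Q = Iic r₁ × Fn κ J Z`, `α x = x.1.1.1.1`, `ν x = x.1.1.1.2`, `X = gm ν`. `P U := Tr φ y α X U` has a Boolean value
  (`BV.sat`; rewrite `Tr` as in the proof of tr_pb so that the valuation has the form
  `fun n => q U (if n = 0 then .. else ..)`); `β : ROP Q` with `P U ↔ β ∈ U`. `Q` is nonempty (`(⊤, g)`), exists_decide:
  `q₀ = (r₂, g₀)` with `em q₀ ≤ β` or `em q₀ ≤ βᶜ`. Let `ε := em q₀ ≤ β`. Claim (case `ε`): `pb Prod.fst (em r₂) ≤ β`. Otherwise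
  `pb Prod.fst (em r₂) ⊓ βᶜ ≠ ⊥`, exists_em: `(r₃, g₃)` with `em (r₃, g₃)` below both; `em r₃ ≤ em r₂` (em_le_pb, proj_fst),
  compat_of: `r₄ ≤ r₃, r₂`. Let `e₀ (r, g) = (r, shift g₀ g)`, `e₃ (r, g) = (r, shift g₃ g)` on `W = Iic r₄ × Fn κ J Z` (for
  `Iic r₄ → Iic r₁` the inclusion; Emb.prod, emb_cone). Take any `U : Ultra (ROP W)` (Ultra.exists_mem,
  em_ne_bot). `em q₀ ∈ pullU (pb e₀) U` since `e₀ w ≤ (r₂, g₀)` for all `w`, i.e. `pb e₀ (em q₀) = ⊤`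
  (eq_top_of_em, em_le_pb). So `Tr` holds at this pullback, and by tr_pb `Tr φ y (α ∘ e₀) (pb e₀ ∘ X) U`. Similarly
  `βᶜ ∈ pullU (pb e₃) U`, so not `Tr φ y (α ∘ e₃) (pb e₃ ∘ X) U`. But `α ∘ e₀ = α ∘ e₃` (rfl) and
  `pb e₀ (X i j) = gm (ν ∘ e₀) i j = gm (ν ∘ e₃) i j = pb e₃ (X i j)` by gm_pb (cofinality from rr_cof: the elements `r` of
  `Iic r₄` have `em r.1.1 ≤ em r₁.1.1 ≤ BFM t`). Contradiction. Case not `ε`: the same with `βᶜ`. The conclusion for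
  `U` with `pb Prod.fst (em r₂) ∈ U`. `α` is a projection: `x ↦ x.1.1.1.1`: `Iic r₁ → FnOn`: for `a ≤ r.1.1` the pair `(a, r.1.2)` is in
  `RR t` (proj_rr).
-/

set_option autoImplicit false

namespace Pool.Agent.Lib.FMM

open Set Cardinal Classical Pool.Agent.Lib.WkD Pool.Agent.Lib.BVM

variable {κ : Cardinal.{0}} {K J Z : Type} [LinearOrder K] [WellFoundedLT K] [NoMaxOrder K]
  {A : Set J} {t : Nd K K → ROP (FnOn κ J Z A)}

namespace DichAux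

omit [WellFoundedLT K] [NoMaxOrder K] in
theorem exists_bij (hK : RegK κ K) (hZ : ZC κ Z) (hJ : #Z < #J) {B : Set J}
    (hB : #B < κ) : Nonempty (J ≃ ↥Bᶜ) := by
  have h0 : ℵ₀ ≤ #J := (CardAux.al0 hK hZ).trans hJ.le
  have : Infinite J := infinite_iff.2 h0
  refine Cardinal.eq.1 ?_
  rw [mk_compl_of_infinite B ((hB.trans_le hZ.le).trans hJ)]

/-- the shift of `g'` along `ι`, together with `g` -/
noncomputable def sh (g : Fn κ J Z) (ι : J ≃ ↥(g.1.dom)ᶜ) (f : PF J Z) : PF J Z := fun j =>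
  if h : j ∈ (g.1.dom)ᶜ then f (ι.symm ⟨j, h⟩) else g.1 j

theorem sh_dom (g : Fn κ J Z) (ι : J ≃ ↥(g.1.dom)ᶜ) (f : PF J Z) :
    (sh g ι f).dom ⊆ g.1.dom ∪ (fun x : J => (ι x).1) '' f.dom := by
  intro j hj
  by_cases h : j ∈ (g.1.dom)ᶜ
  · right
    refine ⟨ι.symm ⟨j, h⟩, ?_, by simp⟩
    have h1 : sh g ι f j ≠ none := hj
    unfold sh at h1
    rw [dif_pos h] at h1
    exact h1
  · left
    simpa using h

theorem sh_val (g : Fn κ J Z) (ι : J ≃ ↥(g.1.dom)ᶜ) (f : PF J Z) (x : J) :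
    sh g ι f (ι x).1 = f x := by
  unfold sh
  rw [dif_pos (ι x).2]
  simp

theorem sh_val' (g : Fn κ J Z) (ι : J ≃ ↥(g.1.dom)ᶜ) (f : PF J Z) {j : J} (h : j ∈ g.1.dom) :
    sh g ι f j = g.1 j := by
  unfold sh
  rw [dif_neg (by simpa using h)]

end DichAux

open DichAux

theorem exists_shift (hK : RegK κ K) (hZ : ZC κ Z) (hJ : #Z < #J) (g : Fn κ J Z) :
    ∃ e : Fn κ J Z → Fn κ J Z, Emb e ∧ ∀ g', e g' ≤ g := by
  obtain ⟨ι⟩ := exists_bij hK hZ hJ g.2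
  have hd : ∀ f : Fn κ J Z, #(sh g ι f.1).dom < κ := by
    intro f
    refine (mk_le_mk_of_subset (sh_dom g ι f.1)).trans_lt ?_
    refine (mk_union_le _ _).trans_lt (add_lt_of_lt hK.unc.le g.2 ?_)
    exact mk_image_le.trans_lt f.2
  -- the pull back
  have hp : ∀ p : Fn κ J Z, #(PF.dom (fun x : J => p.1 (ι x).1)) < κ := by
    intro p
    refine lt_of_le_of_lt ?_ p.2
    refine mk_le_of_injective (f := fun x : PF.dom (fun x : J => p.1 (ι x).1) =>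
      (⟨(ι x.1).1, x.2⟩ : p.1.dom)) ?_
    intro x y h
    have h1 : (ι x.1).1 = (ι y.1).1 := congrArg (fun q : p.1.dom => q.1) h
    exact Subtype.ext (ι.injective (Subtype.ext h1))
  have hle : ∀ f : Fn κ J Z, (⟨sh g ι f.1, hd f⟩ : Fn κ J Z) ≤ g := by
    intro f j v hv
    show sh g ι f.1 j = some v
    rw [sh_val' g ι f.1 (by show g.1 j ≠ none; rw [hv]; simp)]
    exact hv
  -- a condition below the shift of `f` is pulled back below `f`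
  have hpf : ∀ (f p : Fn κ J Z), p ≤ (⟨sh g ι f.1, hd f⟩ : Fn κ J Z) →
      (⟨fun x : J => p.1 (ι x).1, hp p⟩ : Fn κ J Z) ≤ f := by
    intro f p h x v hv
    show p.1 (ι x).1 = some v
    apply h
    show sh g ι f.1 (ι x).1 = some v
    rw [sh_val]
    exact hv
  refine ⟨fun f => ⟨sh g ι f.1, hd f⟩, ⟨⟨?_, ?_⟩, ?_⟩, hle⟩
  · intro f f' h j v hv
    show sh g ι f.1 j = some v
    have hv' : sh g ι f'.1 j = some v := hv
    by_cases hj : j ∈ g.1.dom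
    · rw [sh_val' g ι _ hj] at hv' ⊢
      exact hv'
    · have h1 : j = (ι (ι.symm ⟨j, hj⟩)).1 := by simp
      rw [h1, sh_val] at hv' ⊢
      exact h _ v hv'
  · intro f p h
    refine ⟨⟨fun x : J => p.1 (ι x).1, hp p⟩, hpf f p h, ?_⟩
    intro j v hv
    show sh g ι (fun x : J => p.1 (ι x).1) j = some v
    by_cases hj : j ∈ g.1.dom
    · rw [sh_val' g ι _ hj]
      obtain ⟨v', hv'⟩ := Option.ne_none_iff_exists'.1 (hj : g.1 j ≠ none)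
      have h1 : p.1 j = some v' := (h.trans (hle f)) j v' hv'
      have h2 : some v = some v' := hv.symm.trans h1
      exact hv'.trans h2.symm
    · have h1 : j = (ι (ι.symm ⟨j, hj⟩)).1 := by simp
      rw [h1, sh_val, ← h1]
      exact hv
  · intro f f' p h h'
    exact ⟨⟨fun x : J => p.1 (ι x).1, hp p⟩, hpf f p h, hpf f' p h'⟩

theorem proj_rr (r₁ : RR t) (P : Type) [Preorder P] :
    Proj (fun x : Iic r₁ × P => (x.1.1.1.1 : FnOn κ J Z A)) := by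
  refine ⟨fun x y h => h.1.1, ?_⟩
  rintro ⟨r, p⟩ a ha
  have h1 : a ≤ r.1.1.1 := ha
  have h2 : (⟨(a, r.1.1.2), (em_mono h1).trans r.1.2⟩ : RR t) ≤ r.1 := ⟨h1, le_rfl⟩
  exact ⟨(⟨⟨(a, r.1.1.2), (em_mono h1).trans r.1.2⟩, h2.trans r.2⟩, p), ⟨h2, le_rfl⟩, le_rfl⟩

namespace DichAux

omit [NoMaxOrder K] in
theorem bv_tr {P : Type} [Preorder P] {A : Set J} (φ : Fml) (y : bSet (ROP (FnOn κ J Z A)))
    (α : P → FnOn κ J Z A) (X : K → K → ROP P) :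
    ∃ β : ROP P, ∀ U, Tr φ y α X U ↔ β ∈ U := by
  obtain ⟨β, hβ⟩ := BV.sat (B := ROP P) φ
    (fun n => if n = 0 then fnName X else mapN (pb α) y)
  refine ⟨β, fun U => ?_⟩
  rw [← hβ U]
  unfold Tr
  have h1 : (fun n : ℕ => if n = 0 then q U (fnName X) else q U (mapN (pb α) y)) =
      fun n : ℕ => q U (if n = 0 then fnName X else mapN (pb α) y) := by
    funext n
    split_ifs <;> rfl
  rw [h1]

omit [WellFoundedLT K] [NoMaxOrder K] in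
theorem mono_nu (r₁ : RR t) (P : Type) [Preorder P] :
    Monotone (fun x : Iic r₁ × P => (x.1.1.1.2 : Nd K K)) := fun _ _ h => h.1.2

theorem tr_shift (hK : RegK κ K) (r₁ : RR t) (hr₁ : em r₁.1.1 ≤ BFM t) (φ : Fml)
    (y : bSet (ROP (FnOn κ J Z A))) (r₄ : Iic r₁) {s : Fn κ J Z → Fn κ J Z} (hs : Emb s)
    (U : Ultra (ROP (Iic r₄ × Fn κ J Z))) :
    Tr φ y (fun x : Iic r₁ × Fn κ J Z => x.1.1.1.1)
      (gm (fun x : Iic r₁ × Fn κ J Z => x.1.1.1.2))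
      (pullU (pb (Prod.map (fun x : Iic r₄ => x.1) s))
        (ch_pb (Emb.prod (emb_cone r₄) hs).toProj).top
        (ch_pb (Emb.prod (emb_cone r₄) hs).toProj).inf
        (ch_pb (Emb.prod (emb_cone r₄) hs).toProj).compl U) ↔
    Tr φ y (fun x : Iic r₄ × Fn κ J Z => x.1.1.1.1.1)
      (gm (fun x : Iic r₄ × Fn κ J Z => x.1.1.1.1.2)) U := by
  rw [tr_pb (Emb.prod (emb_cone r₄) hs) (proj_rr r₁ _)]
  have h1 : (fun i j => pb (Prod.map (fun x : Iic r₄ => x.1) s)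
      (gm (fun x : Iic r₁ × Fn κ J Z => x.1.1.1.2) i j)) =
      gm (fun x : Iic r₄ × Fn κ J Z => x.1.1.1.1.2) := by
    funext i j
    refine gm_pb (Emb.prod (emb_cone r₄) hs).toProj (mono_nu r₁ _) ?_ i j
    rintro ⟨r, g⟩ i
    have h2 : em r.1.1.1.1 ≤ BFM t := (em_mono (r.1.2 : r.1.1 ≤ r₁).1).trans hr₁
    obtain ⟨r', h3, h4⟩ := rr_cof hK h2 i
    exact ⟨(⟨⟨r', h3.trans r.1.2⟩, (h3 : r' ≤ r.1.1).trans r.2⟩, g), ⟨h3, le_rfl⟩, h4⟩
  rw [h1]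
  rfl

section abs

variable {R F : Type} [Preorder R] [Preorder F]

/-- the pullback along the product of the inclusion of a cone and `s` -/
noncomputable def pl (r₄ : R) {s : F → F} (hs : Emb s) (U : Ultra (ROP (Iic r₄ × F))) :
    Ultra (ROP (R × F)) :=
  pullU (pb (Prod.map (fun x : Iic r₄ => x.1) s))
    (ch_pb (Emb.prod (emb_cone r₄) hs).toProj).top
    (ch_pb (Emb.prod (emb_cone r₄) hs).toProj).inf
    (ch_pb (Emb.prod (emb_cone r₄) hs).toProj).compl U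

theorem mem_pl {r₄ : R} {s : F → F} (hs : Emb s) (U : Ultra (ROP (Iic r₄ × F)))
    {w : R × F} (h1 : r₄ ≤ w.1) (h2 : ∀ g, s g ≤ w.2) {b : ROP (R × F)} (hb : em w ≤ b) :
    b ∈ pl r₄ hs U := by
  have h8 : pb (Prod.map (fun x : Iic r₄ => x.1) s) (em w) = ⊤ := by
    refine eq_top_of_em fun v => ⟨v, le_rfl, ?_⟩
    rw [em_le_pb (Emb.prod (emb_cone r₄) hs).toProj]
    exact em_mono ⟨le_trans v.1.2 h1, h2 _⟩
  have h10 : pb (Prod.map (fun x : Iic r₄ => x.1) s) b = ⊤ :=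
    top_le_iff.1 (h8.ge.trans ((ch_pb (Emb.prod (emb_cone r₄) hs).toProj).mono hb))
  show pb (Prod.map (fun x : Iic r₄ => x.1) s) b ∈ U
  rw [h10]
  exact Ultra.top

theorem em_fst {w : R × F} {r : R} (h : em w ≤ pb (fun x : R × F => x.1) (em r)) :
    em w.1 ≤ em r := by
  rwa [em_le_pb (e := fun x : R × F => x.1) proj_fst] at h

theorem abs (b : ROP (R × F)) {w : R × F} (h0 : em w ≤ b)
    (hs : ∀ g : F, ∃ s : F → F, Emb s ∧ ∀ g', s g' ≤ g)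
    (hinv : ∀ (r₄ : R) (s s' : F → F) (h : Emb s) (h' : Emb s')
      (U : Ultra (ROP (Iic r₄ × F))), b ∈ pl r₄ h U ↔ b ∈ pl r₄ h' U) :
    pb (fun x : R × F => x.1) (em w.1) ≤ b := by
  by_contra hcon
  have h1 : pb (fun x : R × F => x.1) (em w.1) ⊓ bᶜ ≠ ⊥ := by
    intro h2
    exact hcon (by rwa [← disjoint_iff, disjoint_compl_right_iff] at h2)
  obtain ⟨v, h3⟩ := exists_em h1
  have h4 : em v.1 ≤ em w.1 := em_fst (h3.trans inf_le_left)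
  have h5 : em v.1 ⊓ em w.1 ≠ ⊥ := by
    rw [inf_eq_left.2 h4]
    exact em_ne_bot _
  obtain ⟨r₄, h6, h7⟩ := compat_of h5
  obtain ⟨s₀, hs₀, hl₀⟩ := hs w.2
  obtain ⟨s₃, hs₃, hl₃⟩ := hs v.2
  obtain ⟨U, -⟩ := Ultra.exists_mem (em_ne_bot ((⟨r₄, le_refl r₄⟩, w.2) : Iic r₄ × F))
  have h8 : b ∈ pl r₄ hs₀ U := mem_pl hs₀ U h7 hl₀ h0
  have h9 : bᶜ ∈ pl r₄ hs₃ U := mem_pl hs₃ U h6 hl₃ (h3.trans inf_le_right)
  exact Ultra.not_iff.1 h9 ((hinv r₄ s₀ s₃ hs₀ hs₃ U).1 h8)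

end abs

end DichAux

theorem dich (hK : RegK κ K) (hZ : ZC κ Z) (hJ : #Z < #J) (r₁ : RR t)
    (hr₁ : em r₁.1.1 ≤ BFM t) (φ : Fml) (y : bSet (ROP (FnOn κ J Z A))) :
    ∃ (r₂ : Iic r₁) (ε : Prop), ∀ U : Ultra (ROP (Iic r₁ × Fn κ J Z)),
      pb (fun x : Iic r₁ × Fn κ J Z => x.1) (em r₂) ∈ U →
      (Tr φ y (fun x : Iic r₁ × Fn κ J Z => x.1.1.1.1)
        (gm (fun x : Iic r₁ × Fn κ J Z => x.1.1.1.2)) U ↔ ε) := by
  obtain ⟨β, hβ⟩ := bv_tr φ y (fun x : Iic r₁ × Fn κ J Z => x.1.1.1.1)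
    (gm (fun x : Iic r₁ × Fn κ J Z => x.1.1.1.2))
  have g1 : Fn κ J Z := ⟨fun _ => none, by
    have h1 : PF.dom (fun _ : J => (none : Option Z)) = ∅ := by
      ext i
      simp [PF.dom]
    rw [h1, mk_eq_zero]
    exact aleph0_pos.trans hK.unc⟩
  obtain ⟨w, -, h0⟩ := exists_decide
    ((⟨r₁, le_refl r₁⟩, g1) : Iic r₁ × Fn κ J Z) β
  have hinv : ∀ (r₄ : Iic r₁) (s s' : Fn κ J Z → Fn κ J Z) (h : Emb s) (h' : Emb s')
      (U : Ultra (ROP (Iic r₄ × Fn κ J Z))), β ∈ pl r₄ h U ↔ β ∈ pl r₄ h' U := by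
    intro r₄ s s' h h' U
    rw [← hβ, ← hβ]
    exact (tr_shift hK r₁ hr₁ φ y r₄ h U).trans (tr_shift hK r₁ hr₁ φ y r₄ h' U).symm
  rcases h0 with h0 | h0
  · refine ⟨w.1, True, fun U hU => ?_⟩
    rw [hβ U, iff_true]
    exact U.up hU (abs β h0 (exists_shift hK hZ hJ) hinv)
  · refine ⟨w.1, False, fun U hU => ?_⟩
    rw [hβ U, iff_false, ← Ultra.not_iff]
    refine U.up hU (abs βᶜ h0 (exists_shift hK hZ hJ) ?_)
    intro r₄ s s' h h' U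
    rw [Ultra.not_iff, Ultra.not_iff]
    exact not_congr (hinv r₄ s s' h h' U)

end Pool.Agent.Lib.FMM
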