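import Pool.Agent.Lib.FMM.QuotA

/-!
# Module FMM.EP: conditions as pairs

THEOREM. Let `h : Br t σ c dc B x q`, `d₀ : DD B x c`, `d₀.1.1.1 ≤ q`. The map `e (d, g) = d ∪ g` (the value at `j ∈ B` is the
value of `d`, at `j ∉ B` that of `g`) is an embedding of `Iic d₀ × Fn κ ↥Bᶜ Z` into `Fn κ J Z`.

PROOF. The domain is small. `rs B (e (d, g)) = d.1.1.1` (rs_eq-like ext). mono: clear. inc: let `p` be below
`e (d, g)` and `e (d', g')`. `rs B p` extends `d.1.1.1`, `d'.1.1.1`; the nodes `d.1.1.2`, `d'.1.1.2` are both decided by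
`rs B p` (em_mono), `rs B p ≤ d ≤ q`; by br_comp they are comparable, let `u` be the longer one. dd_dense' for
`rs B p`, `u`: `e' ≤` both. `g''` = the restriction of `p` to `Bᶜ`. lift: let `p ≤ e (d, g)`: dd_dense' for `rs B p` and the
node of `d`: `d' ≤ d` with `d'.1.1 ≤ rs B p`; `g'` the restriction of `p` to `Bᶜ`; `e (d', g') ≤ p`.
`rs A (e w) = rs A w.1..`: `A ⊆ B`. `e w ≤ w.1.1.1.1.1`: clear.
`pb e (x i j) = gm ν i j`: `≥`: iSup_le, em_le_pb, if `(ν w).1 i = some j` then `em (e w) ≤ em d ≤ x i j` (DD). `≤`: le_of_em: let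
`em (d, g) ≤ pb e (x i j)`, so `em (e (d, g)) ≤ x i j`. dd_dense' (with `i`): `d' ≤ d` with `i < d'.1.1.2.len`; the
entry `j'` of `d'` at `i`: `em (e (d', g)) ≤ x i j'` and `≤ x i j`, br_uniq: `j' = j`; so `em (d', g) ≤ gm ν i j` (le_iSup).
-/

set_option autoImplicit false

namespace Pool.Agent.Lib.FMM

open Set Cardinal Classical Pool.Agent.Lib.WkD

variable {κ : Cardinal.{0}} {K J Z : Type} [LinearOrder K] [WellFoundedLT K] [NoMaxOrder K]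
  {A B : Set J} {t : Nd K K → ROP (FnOn κ J Z A)} {σ : Nd K K} {c : Nd K K → J}
  {dc : Z → Option K} {x : K → K → ROP (Fn κ J Z)} {q : Fn κ J Z}

namespace EPAux

/-- the union of a condition on `B` and a condition on the complement -/
noncomputable def glue {B : Set J} (hκ : ℵ₀ ≤ κ) (d : FnOn κ J Z B) (g : Fn κ ↥Bᶜ Z) :
    Fn κ J Z :=
  ⟨fun j => if h : j ∈ B then d.1.1 j else g.1 ⟨j, h⟩, by
    have h1 : PF.dom (fun j => if h : j ∈ B then d.1.1 j else g.1 ⟨j, h⟩) ⊆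
        PF.dom d.1.1 ∪ Subtype.val '' PF.dom g.1 := by
      intro j hj
      have hj' : (if h : j ∈ B then d.1.1 j else g.1 ⟨j, h⟩) ≠ none := hj
      by_cases h : j ∈ B
      · rw [dif_pos h] at hj'
        exact Or.inl hj'
      · rw [dif_neg h] at hj'
        exact Or.inr ⟨⟨j, h⟩, hj', rfl⟩
    exact (mk_le_mk_of_subset h1).trans_lt
      ((mk_union_le _ _).trans_lt (add_lt_of_lt hκ d.1.2 (mk_image_le.trans_lt g.2)))⟩

/-- the restriction to the complement -/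
noncomputable def rc (B : Set J) (p : Fn κ J Z) : Fn κ ↥Bᶜ Z :=
  ⟨fun j => p.1 j.1, by
    refine lt_of_le_of_lt ?_ p.2
    refine mk_le_of_injective (f := fun j : PF.dom (fun j : ↥Bᶜ => p.1 j.1) =>
      (⟨j.1.1, j.2⟩ : PF.dom p.1)) ?_
    intro a b hab
    have h1 : a.1.1 = b.1.1 := congrArg (fun j : PF.dom p.1 => j.1) hab
    exact Subtype.ext (Subtype.ext h1)⟩

theorem glue_in (hκ : ℵ₀ ≤ κ) (d : FnOn κ J Z B) (g : Fn κ ↥Bᶜ Z) {j : J} (h : j ∈ B) :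
    (glue hκ d g).1 j = d.1.1 j := dif_pos h

theorem glue_out (hκ : ℵ₀ ≤ κ) (d : FnOn κ J Z B) (g : Fn κ ↥Bᶜ Z) {j : J} (h : j ∉ B) :
    (glue hκ d g).1 j = g.1 ⟨j, h⟩ := dif_neg h

theorem none_of (d : FnOn κ J Z B) {j : J} (h : j ∉ B) : d.1.1 j = none := by
  by_contra h1
  exact h (d.2 h1)

theorem rs_glue (hκ : ℵ₀ ≤ κ) (d : FnOn κ J Z B) (g : Fn κ ↥Bᶜ Z) :
    rs B (glue hκ d g) = d := by
  refine Subtype.ext (Fn.ext' fun j => ?_)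
  rw [rs_val]
  by_cases hj : j ∈ B
  · rw [if_pos hj, glue_in hκ d g hj]
  · rw [if_neg hj, none_of d hj]

theorem glue_le (hκ : ℵ₀ ≤ κ) (d : FnOn κ J Z B) (g : Fn κ ↥Bᶜ Z) : glue hκ d g ≤ d.1 := by
  have h := le_rs B (glue hκ d g)
  rwa [rs_glue] at h

theorem le_glue_iff (hκ : ℵ₀ ≤ κ) {p : Fn κ J Z} {d : FnOn κ J Z B} {g : Fn κ ↥Bᶜ Z} :
    p ≤ glue hκ d g ↔ rs B p ≤ d ∧ rc B p ≤ g := by
  constructor
  · intro h
    constructor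
    · have h1 := rs_mono B h
      rwa [rs_glue] at h1
    · intro j v hv
      have h1 : (glue hκ d g).1 j.1 = some v := by
        rw [glue_out hκ d g j.2]
        exact hv
      exact h j.1 v h1
  · rintro ⟨h1, h2⟩ j v hv
    by_cases hj : j ∈ B
    · rw [glue_in hκ d g hj] at hv
      have h3 : (rs B p).1.1 j = some v := h1 j v hv
      rw [rs_val, if_pos hj] at h3
      exact h3
    · rw [glue_out hκ d g hj] at hv
      exact h2 ⟨j, hj⟩ v hv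

theorem rc_glue (hκ : ℵ₀ ≤ κ) (d : FnOn κ J Z B) (g : Fn κ ↥Bᶜ Z) :
    rc B (glue hκ d g) = g := by
  refine Fn.ext' fun j => ?_
  show (glue hκ d g).1 j.1 = g.1 j
  rw [glue_out hκ d g j.2]

theorem glue_mono (hκ : ℵ₀ ≤ κ) {d d' : FnOn κ J Z B} {g g' : Fn κ ↥Bᶜ Z} (h1 : d ≤ d')
    (h2 : g ≤ g') : glue hκ d g ≤ glue hκ d' g' := by
  rw [le_glue_iff, rs_glue, rc_glue]
  exact ⟨h1, h2⟩

theorem glue_rs_le (hκ : ℵ₀ ≤ κ) (p : Fn κ J Z) : glue hκ (rs B p) (rc B p) ≤ p := by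
  intro j v hv
  by_cases hj : j ∈ B
  · rw [glue_in hκ _ _ hj, rs_val, if_pos hj]
    exact hv
  · rw [glue_out hκ _ _ hj]
    exact hv

end EPAux

open EPAux in
theorem exists_eP (hK : RegK κ K) (h : Br t σ c dc B x q) (d₀ : DD B x c) (hd : d₀.1.1.1 ≤ q) :
    ∃ e : Iic d₀ × Fn κ ↥Bᶜ Z → Fn κ J Z, Emb e ∧ (∀ w, rs A (e w) = rs A w.1.1.1.1.1) ∧
      (∀ w, e w ≤ w.1.1.1.1.1) ∧
      ∀ i j, pb e (x i j) = gm (fun w : Iic d₀ × Fn κ ↥Bᶜ Z => w.1.1.1.2) i j := by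
  have hκ : ℵ₀ ≤ κ := hK.unc.le
  have hq : ∀ w : Iic d₀, w.1.1.1.1 ≤ q := fun w => le_trans (show w.1.1.1.1 ≤ d₀.1.1.1 from
    (show w.1.1 ≤ d₀.1 from w.2).1) hd
  have hlift : ∀ (w : Iic d₀) (d : FnOn κ J Z B) (i : K), d ≤ w.1.1.1 →
      ∃ w' : Iic d₀, w' ≤ w ∧ w'.1.1.1 ≤ d ∧ i < w'.1.1.2.len := by
    intro w d i hd1
    have h1 : d.1 ≤ w.1.1.1.1 := hd1
    obtain ⟨e', he1, he2, he3⟩ := dd_dense' hK h d (h1.trans (hq w)) (u := w.1.1.2)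
      (fun i j hij => (em_mono h1).trans (w.1.2.1 i j hij)) i
    have h2 : e' ≤ w.1 := (show e'.1 ≤ w.1.1 from ⟨he1.trans hd1, he2⟩)
    exact ⟨⟨e', h2.trans w.2⟩, h2, he1, he3⟩
  have hproj : Proj (fun w : Iic d₀ × Fn κ ↥Bᶜ Z => glue hκ w.1.1.1.1 w.2) := by
    refine ⟨?_, ?_⟩
    · intro w w' hw
      have h1 : w.1.1.1 ≤ w'.1.1.1 := hw.1
      exact glue_mono hκ h1.1 hw.2
    · intro w p hp
      have hp' : p ≤ glue hκ w.1.1.1.1 w.2 := hp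
      rw [le_glue_iff] at hp'
      obtain ⟨w', h1, h2, -⟩ := hlift w.1 (rs B p) w.1.1.1.2.len hp'.1
      exact ⟨(w', rc B p), ⟨h1, hp'.2⟩, (glue_mono hκ h2 le_rfl).trans (glue_rs_le hκ p)⟩
  refine ⟨fun w => glue hκ w.1.1.1.1 w.2, ⟨hproj, ?_⟩, ?_, ?_, ?_⟩
  · intro w w' p hp hp'
    have h1 : p ≤ glue hκ w.1.1.1.1 w.2 := hp
    have h1' : p ≤ glue hκ w'.1.1.1.1 w'.2 := hp'
    rw [le_glue_iff] at h1 h1'
    have h2 : (rs B p).1 ≤ q := le_trans (show (rs B p).1 ≤ w.1.1.1.1.1 from h1.1) (hq w.1)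
    have h3 : ∀ i j, w.1.1.1.2.1 i = some j → em (rs B p).1 ≤ x i j := fun i j hij =>
      (em_mono (show (rs B p).1 ≤ w.1.1.1.1.1 from h1.1)).trans (w.1.1.2.1 i j hij)
    have h3' : ∀ i j, w'.1.1.1.2.1 i = some j → em (rs B p).1 ≤ x i j := fun i j hij =>
      (em_mono (show (rs B p).1 ≤ w'.1.1.1.1.1 from h1'.1)).trans (w'.1.1.2.1 i j hij)
    rcases le_total w'.1.1.1.2.len w.1.1.1.2.len with hl | hl
    · have h4 : w.1.1.1.2 ≤ w'.1.1.1.2 := br_comp h h2 h3 h3' hl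
      obtain ⟨v, hv1, hv2, -⟩ := hlift w.1 (rs B p) w.1.1.1.2.len h1.1
      have h5 : v.1.1.2 ≤ w.1.1.1.2 := (show v.1.1 ≤ w.1.1.1 from hv1).2
      refine ⟨(v, rc B p), ⟨hv1, h1.2⟩, ⟨?_, h1'.2⟩⟩
      show v.1.1 ≤ w'.1.1.1
      exact ⟨hv2.trans h1'.1, h5.trans h4⟩
    · have h4 : w'.1.1.1.2 ≤ w.1.1.1.2 := br_comp h h2 h3' h3 hl
      obtain ⟨v, hv1, hv2, -⟩ := hlift w'.1 (rs B p) w.1.1.1.2.len h1'.1
      have h5 : v.1.1.2 ≤ w'.1.1.1.2 := (show v.1.1 ≤ w'.1.1.1 from hv1).2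
      refine ⟨(v, rc B p), ⟨?_, h1.2⟩, ⟨hv1, h1'.2⟩⟩
      show v.1.1 ≤ w.1.1.1
      exact ⟨hv2.trans h1.1, h5.trans h4⟩
  · intro w
    rw [← rs_rs h.AB, rs_glue]
  · intro w
    exact glue_le hκ _ _
  · intro i j
    apply le_antisymm
    · apply le_of_em
      intro w hw
      rw [em_le_pb hproj] at hw
      obtain ⟨v, hv1, hv2, hv3⟩ := hlift w.1 w.1.1.1.1 i le_rfl
      obtain ⟨j', hj'⟩ := Nd.exists_val hv3
      have h1 : ((v, w.2) : Iic d₀ × Fn κ ↥Bᶜ Z) ≤ w := ⟨hv1, le_rfl⟩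
      refine ⟨(v, w.2), h1, ?_⟩
      have h2 : em (glue hκ v.1.1.1 w.2) ≤ x i j := (em_mono (glue_mono hκ hv2 le_rfl)).trans hw
      have h3 : em (glue hκ v.1.1.1 w.2) ≤ x i j' :=
        (em_mono (glue_le hκ _ _)).trans (v.1.2.1 i j' hj')
      have h4 : j = j' := br_uniq h ((glue_le hκ v.1.1.1 w.2).trans (hq v)) h2 h3
      rw [← h4] at hj'
      exact le_iSup (fun p : {p : Iic d₀ × Fn κ ↥Bᶜ Z // p.1.1.1.2.1 i = some j} => em p.1)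
        ⟨(v, w.2), hj'⟩
    · apply iSup_le
      rintro ⟨w, hw⟩
      rw [em_le_pb hproj]
      exact (em_mono (glue_le hκ _ _)).trans (w.1.1.2.1 i j hw)

end Pool.Agent.Lib.FMM
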