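import Pool.Agent.Lib.FMM.TreeA
import Pool.Agent.Lib.FMM.Card
import Pool.Agent.Lib.FMM.FnB
import Pool.Agent.Lib.WkD.MReg
import Pool.Agent.Lib.WkD.MOmega

/-!
# Module FMM.KapM: k is regular uncountable and k^{<k} = k

PROOFS. `k = lamN`, `B = ROP (Fn κ J Z)`, `hB : BDist B K` from bDist_of and cg_fn.
* regUnc: isOrd_lamN; omega is `ck a` for some `a : K` (WkD/MOmega.lean, read its final theorem; it needs
  uncountability of `K`, `hK.unc`, `hK.card`), E_lamN; regular_mod with bRegular_of.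
* powLt: `N = trN (fun _ => ⊤)` is the set of all nodes (of_mem_trN, isNode_ndN; of_node, E_trN). Let `c : K → J` be
  injective (`#K ≤ #Z < #J`) and `δ : Z → Nd K K` surjective (`card_nd`, `Nd K K` nonempty). Let
  `w (i, u) = ⨆ p : {p : Fn κ J Z // ∃ z, p.1 (c i) = some z ∧ δ z = u}, em p` and
  `f = graphName (ι := K × Nd K K) (ck ·.1) (ndN ·.2) w`. For fixed `i`: `⨆ u, w (i, u) = ⊤` (eq_top_of_em: extend `p` at `c i`, or its value
  is already there), `w (i, u) ⊓ w (i, u') = ⊥` for `u ≠ u'` (exists_em, exists_em_iSup twice, compat_of). So `f` is a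
  function from `k` to `N` (pattern: `isFun_fnN` in BVM/Facts.lean; app_graph with beq_ck_ne and ndN_inj gives
  `App f (ck i) (ndN u) ↔ w (i, u) ∈ U`). Onto: `y ∈ N`, case `y = ndN u`; `⨆ i, w (i, u) = ⊤` (eq_top_of_em: given `p` there is
  `i` with `c i ∉ dom p` since `#(dom p) < κ = #K`; extend `p` at `c i` by `z` with `δ z = u`), of_iSup.
-/

set_option autoImplicit false

namespace Pool.Agent.Lib.FMM

open Set Cardinal Pool.Agent.Lib.WkD Pool.Agent.Lib.BVM Pool.Agent.Lib.BVM.bSet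

variable {κ : Cardinal.{0}} {K J Z : Type} [LinearOrder K] [WellFoundedLT K]

namespace KapMAux

section names

variable {B : Type} [CompleteBooleanAlgebra B]

/-- the name of the relation between `K` and the nodes with matrix `w` -/
noncomputable def gN (w : K → Nd K K → B) : bSet B :=
  graphName (ι := K × Nd K K) (fun p => ck B p.1) (fun p => ndN B p.2) (fun p => w p.1 p.2)

theorem beq_ndN_ne {u v : Nd K K} (h : u ≠ v) : beq (ndN B u) (ndN B v) = ⊥ :=
  le_bot_iff.1 (Ultra.le_of_forall fun _ hU => absurd (ndN_inj (q_eq.2 hU)) h)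

theorem app_gN {U : Ultra B} {w : K → Nd K K → B} {i : K} {u : Nd K K} :
    App (E U) (q U (gN w)) (q U (ck B i)) (q U (ndN B u)) ↔ w i u ∈ U := by
  unfold gN
  rw [app_graph]
  have h : (⨆ p : K × Nd K K, w p.1 p.2 ⊓ (beq (ck B i) (ck B p.1) ⊓ beq (ndN B u) (ndN B p.2))) =
      w i u := by
    apply le_antisymm
    · refine iSup_le fun p => ?_
      by_cases h1 : i = p.1
      · by_cases h2 : u = p.2
        · rw [h1, h2]
          exact inf_le_left
        · rw [beq_ndN_ne h2]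
          simp
      · rw [beq_ck_ne h1]
        simp
    · refine le_iSup_of_le (i, u) ?_
      simp only
      rw [beq_refl, beq_refl, inf_top_eq, inf_top_eq]
  rw [h]

theorem of_mem_gN {w : K → Nd K K → B} {Y : bSet B} {P Q : Ultra B → Prop} (hP : BV P)
    (hQ : BV Q) (h : ∀ i u U, w i u ∈ U → q U Y = q U (bpair (ck B i) (ndN B u)) → Q U → P U)
    {U : Ultra B} (h1 : E U (q U Y) (q U (gN w))) (h2 : Q U) : P U :=
  of_mem (X := gN w) hP hQ (fun p U hp hZ hQ => h p.1 p.2 U hp hZ hQ) h1 h2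

theorem isSurj_gN {w : K → Nd K K → B} (h1 : ∀ i, ⨆ u, w i u = ⊤)
    (h2 : ∀ i u u', u ≠ u' → w i u ⊓ w i u' = ⊥) (h3 : ∀ u, ⨆ i, w i u = ⊤) (U : Ultra B) :
    IsSurj (E U) (q U (gN w)) (q U (lamN B K)) (q U (trN (fun _ : Nd K K => (⊤ : B)))) := by
  refine ⟨⟨⟨?_, ?_⟩, ?_⟩, ?_⟩
  · intro p hp
    obtain ⟨Y, rfl⟩ := q_surj p
    refine of_mem_gN (P := fun U => ∃ x y', E U x (q U (lamN B K)) ∧ IsPair (E U) x y' (q U Y))
      (BV.ex fun x => BV.ex fun y' => (BV.mem _ _).and (BV.isPair x y' Y)) (BV.const True)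
      (fun i u U _ hY _ => ?_) hp trivial
    exact ⟨q U (ck B i), q U (ndN B u), E_lamN i U, isPair_iff.2 hY⟩
  · intro x hx
    obtain ⟨X, rfl⟩ := q_surj x
    refine of_mem_lamN (P := fun U => ∃! y', App (E U) (q U (gN w)) (q U X) y')
      (Q := fun _ => True) (BV.exUnique fun y' => BV.app _ X y') (BV.const True)
      (fun i U hX _ => ?_) hx trivial
    rw [hX]
    refine of_iSup (t := fun u => w i u)
      (P := fun U => ∃! y', App (E U) (q U (gN w)) (q U (ck B i)) y')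
      (Q := fun _ => True) (BV.exUnique fun y' => BV.app _ _ y') (BV.const True)
      (fun u U hu _ => ?_) (by rw [h1 i]; exact Ultra.top) trivial
    refine ⟨q U (ndN B u), app_gN.2 hu, fun y' hy' => ?_⟩
    obtain ⟨Y, rfl⟩ := q_surj y'
    rw [app_iff] at hy'
    refine of_mem_gN (Y := bpair (ck B i) Y) (P := fun U => q U Y = q U (ndN B u))
      (Q := fun U => w i u ∈ U) (BV.eq _ _) (BV.of_mem _) (fun i' u' U hn hZ hQ => ?_) hy' hu
    obtain ⟨h4, h5⟩ := bpair_inj.1 hZ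
    obtain rfl := ck_inj h4
    by_cases huu : u = u'
    · rw [h5, huu]
    · exfalso
      have h6 : w i u ⊓ w i u' ∈ U := Ultra.inf_iff.2 ⟨hQ, hn⟩
      rw [h2 i u u' huu] at h6
      exact Ultra.bot h6
  · intro x y' hxy
    obtain ⟨X, rfl⟩ := q_surj x
    obtain ⟨Y, rfl⟩ := q_surj y'
    rw [app_iff] at hxy
    refine of_mem_gN (Y := bpair X Y)
      (P := fun U => E U (q U Y) (q U (trN (fun _ : Nd K K => (⊤ : B))))) (BV.mem _ _)
      (BV.const True) (fun i u U _ hZ _ => ?_) hxy trivial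
    rw [(bpair_inj.1 hZ).2]
    exact E_trN.2 Ultra.top
  · intro y hy
    obtain ⟨Y, rfl⟩ := q_surj y
    refine of_mem_trN (Z := Y) (P := fun U => ∃ x, E U x (q U (lamN B K)) ∧
        App (E U) (q U (gN w)) x (q U Y)) (Q := fun _ => True)
      (BV.ex fun x => (BV.mem _ _).and (BV.app _ x Y)) (BV.const True)
      (fun u U _ hY _ => ?_) hy trivial
    rw [hY]
    refine of_iSup (t := fun i => w i u)
      (P := fun U => ∃ x, E U x (q U (lamN B K)) ∧ App (E U) (q U (gN w)) x (q U (ndN B u)))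
      (Q := fun _ => True) (BV.ex fun x => (BV.mem _ _).and (BV.app _ x _)) (BV.const True)
      (fun i U hi _ => ?_) (by rw [h3 u]; exact Ultra.top) trivial
    exact ⟨q U (ck B i), E_lamN i U, app_gN.2 hi⟩

theorem mem_allN (hB : BDist B K) (U : Ultra B) (s : Mod U) :
    E U s (q U (trN (fun _ : Nd K K => (⊤ : B)))) ↔ IsNode (E U) (q U (lamN B K)) s := by
  obtain ⟨S, rfl⟩ := q_surj s
  constructor
  · intro h
    refine of_mem_trN (Z := S) (P := fun U => IsNode (E U) (q U (lamN B K)) (q U S))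
      (Q := fun _ => True) (BV_isNode _ _) (BV.const True) (fun u U _ hY _ => ?_) h trivial
    rw [hY]
    exact isNode_ndN U u
  · intro h
    refine of_node (X := S) hB (P := fun U => E U (q U S) (q U (trN (fun _ : Nd K K => (⊤ : B)))))
      (Q := fun _ => True) (BV.mem _ _) (BV.const True) (fun u U hY _ => ?_) h trivial
    rw [hY]
    exact E_trN.2 Ultra.top

end names

/-- the matrix: the generic value at `c i` is decoded to `u` -/
noncomputable def wm (c : K → J) (δ : Z → Nd K K) (i : K) (u : Nd K K) : ROP (Fn κ J Z) :=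
  ⨆ p : {p : Fn κ J Z // ∃ z, p.1 (c i) = some z ∧ δ z = u}, em p.1

theorem em_le_wm {c : K → J} {δ : Z → Nd K K} {i : K} {p : Fn κ J Z} {z : Z}
    (h : p.1 (c i) = some z) : em p ≤ wm c δ i (δ z) :=
  le_iSup (fun p : {p : Fn κ J Z // ∃ z', p.1 (c i) = some z' ∧ δ z' = δ z} => em p.1)
    ⟨p, z, h, rfl⟩

/-- extend a condition by a value at a new coordinate -/
theorem exists_at (hκ : ℵ₀ ≤ κ) (p : Fn κ J Z) (j : J) (z : Z) (hj : p.1 j = none) :
    ∃ q : Fn κ J Z, q ≤ p ∧ q.1 j = some z := by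
  obtain ⟨s, hs⟩ := Fn.single (κ := κ) hκ j z
  obtain ⟨g, h1, h2, -, -⟩ := Fn.glb2 hκ p s (by
    intro i v w' hp hq
    obtain ⟨h3, -⟩ := (hs i w').1 hq
    rw [h3, hj] at hp
    cases hp)
  exact ⟨g, h1, h2 j z ((hs j z).2 ⟨rfl, rfl⟩)⟩

theorem iSup_wm (hκ : ℵ₀ ≤ κ) [Nonempty Z] (c : K → J) (δ : Z → Nd K K) (i : K) :
    ⨆ u, wm (κ := κ) c δ i u = ⊤ := by
  refine eq_top_of_em fun p => ?_
  cases h : p.1 (c i) with
  | none =>
    obtain ⟨q, hq, hqz⟩ := exists_at hκ p (c i) (Classical.arbitrary Z) h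
    exact ⟨q, hq, (em_le_wm hqz).trans (le_iSup (wm (κ := κ) c δ i) _)⟩
  | some z => exact ⟨p, le_rfl, (em_le_wm h).trans (le_iSup (wm (κ := κ) c δ i) _)⟩

theorem wm_disj (c : K → J) (δ : Z → Nd K K) (i : K) (u u' : Nd K K) (h : u ≠ u') :
    wm (κ := κ) c δ i u ⊓ wm c δ i u' = ⊥ := by
  by_contra hne
  obtain ⟨p, hp⟩ := exists_em hne
  obtain ⟨q, hq, ⟨a, z, haz, hz⟩, hqa⟩ := exists_em_iSup (hp.trans inf_le_left)
  obtain ⟨r, hr, ⟨b, z', hbz, hz'⟩, hrb⟩ :=
    exists_em_iSup ((em_mono hq).trans (hp.trans inf_le_right))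
  have h1 : em a ⊓ em b ≠ ⊥ := by
    intro h2
    apply em_ne_bot r
    rw [← le_bot_iff, ← h2]
    exact le_inf ((em_mono hr).trans hqa) hrb
  obtain ⟨t, ht1, ht2⟩ := compat_of h1
  apply h
  rw [← hz, ← hz', Fn.agree ht1 ht2 haz hbz]

theorem iSup_wm' (hK : RegK κ K) {c : K → J} (hc : Function.Injective c) {δ : Z → Nd K K}
    (hδ : Function.Surjective δ) (u : Nd K K) : ⨆ i, wm (κ := κ) c δ i u = ⊤ := by
  refine eq_top_of_em fun p => ?_
  obtain ⟨z, rfl⟩ := hδ u
  obtain ⟨i, hi⟩ : ∃ i, p.1 (c i) = none := by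
    by_contra hcon
    push Not at hcon
    have h1 : #K ≤ #p.1.dom :=
      mk_le_of_injective (f := fun i => (⟨c i, hcon i⟩ : p.1.dom))
        (fun i i' h => hc (congrArg Subtype.val h))
    exact absurd (lt_of_le_of_lt h1 p.2) (by rw [hK.card]; exact lt_irrefl _)
  obtain ⟨q, hq, hqz⟩ := exists_at hK.unc.le p (c i) z hi
  exact ⟨q, hq, (em_le_wm hqz).trans (le_iSup (fun i => wm (κ := κ) c δ i (δ z)) i)⟩

theorem exists_inf (hK : RegK κ K) : ∃ a : K, (Iio a).Infinite := by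
  have h1 : #ℕ ≤ #K := by
    rw [mk_nat, hK.card]
    exact hK.unc.le
  obtain ⟨e⟩ := (Cardinal.le_def _ _).1 h1
  obtain ⟨b, hb⟩ := hK.bdd (range e) (by
    refine lt_of_le_of_lt mk_range_le ?_
    rw [mk_nat]
    exact hK.unc)
  refine ⟨b, (infinite_range_of_injective e.injective).mono ?_⟩
  intro a ha
  exact hb a ha

end KapMAux

open KapMAux

theorem regUnc (hK : RegK κ K) (U : Ultra (ROP (Fn κ J Z))) :
    RegUnc (E U) (q U (lamN (ROP (Fn κ J Z)) K)) := by
  refine ⟨isOrd_lamN U, ?_, ?_⟩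
  · obtain ⟨a, ha⟩ := isOmega_ck (B := ROP (Fn κ J Z)) (exists_inf hK)
    exact ⟨_, ha U, E_lamN a U⟩
  · exact regular_mod (bRegular_of hK (bDist_of hK (cg_fn hK.reg J Z))) U

theorem powLt (hK : RegK κ K) (hZ : ZC κ Z) (hJ : #Z < #J) (U : Ultra (ROP (Fn κ J Z))) :
    PowLt (E U) (q U (lamN (ROP (Fn κ J Z)) K)) := by
  have hB : BDist (ROP (Fn κ J Z)) K := bDist_of hK (cg_fn hK.reg J Z)
  have hKne : Nonempty K := by
    rw [← mk_ne_zero_iff, hK.card]
    exact (aleph0_pos.trans hK.unc).ne'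
  have hZne : Nonempty Z := by
    rw [← mk_ne_zero_iff]
    exact (aleph0_pos.trans (hK.unc.trans_le hZ.le)).ne'
  obtain ⟨c⟩ := (Cardinal.le_def _ _).1 ((hK.card.le.trans hZ.le).trans hJ.le)
  obtain ⟨e⟩ := (Cardinal.le_def _ _).1 (card_nd hK hZ)
  have hNne : Nonempty (Nd K K) := ⟨Nd.ofFun (Classical.arbitrary K) id⟩
  refine ⟨q U (trN (fun _ : Nd K K => (⊤ : ROP (Fn κ J Z)))),
    q U (gN (wm c (Function.invFun e))), mem_allN hB U, ?_⟩
  exact isSurj_gN (iSup_wm hK.unc.le c _) (wm_disj c _)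
    (iSup_wm' hK c.injective (Function.invFun_surjective e.injective)) U

end Pool.Agent.Lib.FMM
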