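import Pool.Agent.Lib.FMM.PB

/-!
# Module FMM.MapN: complete homomorphisms and the models

`F : B → C` a complete homomorphism (`CH F`). All statements about names by induction on names;
`U : Ultra C`, `pullU F .. U` the ultrafilter `{b | F b ∈ U}`.

PROOFS.
* beq_mapN: induction on `x`, cases on `y`, `beq_mk`, `hF.inf`, `hF.iInf`, `hF.himp`, `hF.sup`
  (statement for all `y`).
* bmem_mapN: cases `y`, `bmem_mk`, hF.sup, hF.inf, beq_mapN.
* mapN_surj: induction on the name of `bSet C`: preimages of the weights (`choose`).
* mapN_comp: induction.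
* mapN_ck: well-founded induction with `ck_eq`, `hF.top`. mapN_bpair: mapN commutes with `bSet.ins`
  and `bSet.emp` (unfold; the index type of `ins` is `Option`, funext and cases). mapN_graph: unfold
  graphName, mapN. mapN_fnName follows.
* sat_mapN: let `Φ : Mod (pullU ..) → Mod U` be the map `q x ↦ q (mapN F x)` (Quotient.lift, well
  defined and injective by q_eq and beq_mapN: `beq x y ∈ pullU` iff `F (beq x y) ∈ U` iff
  `beq (mapN F x) (mapN F y) ∈ U`); it preserves `E` (E_q, bmem_mapN) and is surjective (mapN_surj,
  q_surj). A bijection which preserves the relation preserves `Sat` (induction on the formula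
  `φ : Fml`, see the definition of `Sat` in BVM/ZFC.lean; for the quantifier use surjectivity and
  `Function.update`).
-/

set_option autoImplicit false

namespace Pool.Agent.Lib.FMM

open Set Cardinal Pool.Agent.Lib.WkD Pool.Agent.Lib.BVM Pool.Agent.Lib.BVM.bSet

variable {B C D : Type} [CompleteBooleanAlgebra B] [CompleteBooleanAlgebra C]
  [CompleteBooleanAlgebra D] {F : B → C}

omit [CompleteBooleanAlgebra B] [CompleteBooleanAlgebra C] in
private theorem mapN_mk {α : Type} (A : α → bSet B) (w : α → B) :
    mapN F (bSet.mk α A w) = bSet.mk α (fun a => mapN F (A a)) (fun a => F (w a)) := rfl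

theorem beq_mapN (hF : CH F) (x y : bSet B) : beq (mapN F x) (mapN F y) = F (beq x y) := by
  revert y
  induction x with
  | mk α A w ih =>
    rintro ⟨α', A', w'⟩
    rw [mapN_mk, mapN_mk, beq_mk, beq_mk, hF.inf, hF.iInf, hF.iInf]
    simp only [hF.himp, hF.sup, hF.inf, ih]

theorem bmem_mapN (hF : CH F) (x y : bSet B) : bmem (mapN F x) (mapN F y) = F (bmem x y) := by
  obtain ⟨α, A, w⟩ := y
  rw [mapN_mk, bmem_mk, bmem_mk, hF.sup]
  simp only [hF.inf, beq_mapN hF]

theorem mapN_surj (hs : Function.Surjective F) : Function.Surjective (mapN F) := by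
  intro y
  induction y with
  | mk α A w ih =>
    choose A' hA' using ih
    choose w' hw' using fun a => hs (w a)
    refine ⟨bSet.mk α A' w', ?_⟩
    rw [mapN_mk]
    simp only [hA', hw']

theorem mapN_comp (G : C → D) (x : bSet B) : mapN G (mapN F x) = mapN (fun b => G (F b)) x := by
  induction x with
  | mk α A w ih =>
    rw [mapN_mk, mapN_mk, mapN_mk]
    simp only [ih]

theorem mapN_ck {K : Type} [LinearOrder K] [WellFoundedLT K] (hF : CH F) (a : K) :
    mapN F (ck B a) = ck C a := by
  induction a using WellFoundedLT.induction with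
  | ind a ih =>
    rw [ck_eq B a, ck_eq C a, mapN_mk]
    congr 1
    · funext x
      exact ih x.1 x.2
    · funext x
      exact hF.top

private theorem mapN_emp : mapN F (bSet.emp : bSet B) = bSet.emp := by
  unfold bSet.emp
  rw [mapN_mk]
  congr 1
  · funext x
    exact x.elim
  · funext x
    exact x.elim

private theorem mapN_ins (hF : CH F) (y x : bSet B) :
    mapN F (bSet.ins y x) = bSet.ins (mapN F y) (mapN F x) := by
  obtain ⟨α, A, w⟩ := x
  unfold bSet.ins
  rw [mapN_mk, mapN_mk]
  have h1 : (fun o : Option (bSet.mk α A w).type =>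
      mapN F (o.elim y (bSet.mk α A w).func)) =
      fun o => o.elim (mapN F y)
        (bSet.mk α (fun a => mapN F (A a)) (fun a => F (w a))).func := by
    funext o
    cases o <;> rfl
  have h2 : (fun o : Option (bSet.mk α A w).type =>
      F (o.elim ⊤ (bSet.mk α A w).val)) =
      fun o => o.elim ⊤
        (bSet.mk α (fun a => mapN F (A a)) (fun a => F (w a))).val := by
    funext o
    cases o
    · exact hF.top
    · rfl
  rw [h1, h2]
  rfl

theorem mapN_bpair (hF : CH F) (x y : bSet B) : mapN F (bpair x y) = bpair (mapN F x) (mapN F y) := by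
  unfold bpair
  rw [mapN_ins hF, mapN_ins hF, mapN_ins hF, mapN_ins hF, mapN_ins hF, mapN_ins hF, mapN_emp]

theorem mapN_graph (hF : CH F) {ι : Type} (x y : ι → bSet B) (w : ι → B) :
    mapN F (graphName x y w) =
      graphName (fun i => mapN F (x i)) (fun i => mapN F (y i)) (fun i => F (w i)) := by
  unfold graphName
  rw [mapN_mk]
  simp only [mapN_bpair hF]

theorem mapN_fnName {K : Type} [LinearOrder K] [WellFoundedLT K] (hF : CH F) (x : K → K → B) :
    mapN F (fnName x) = fnName (fun i j => F (x i j)) := by
  unfold fnName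
  rw [mapN_graph hF]
  simp only [mapN_ck hF]

private theorem update_q {U : Ultra B} (v : ℕ → bSet B) (i : ℕ) (x : bSet B) :
    Function.update (fun j => q U (v j)) i (q U x) = fun j => q U (Function.update v i x j) := by
  funext j
  by_cases hj : j = i
  · subst hj
    simp
  · simp [hj]

theorem sat_mapN (hF : CH F) (hs : Function.Surjective F) (U : Ultra C) (φ : Fml)
    (v : ℕ → bSet B) : Sat (E (pullU F hF.top hF.inf hF.compl U)) φ (fun i => q _ (v i)) ↔
      Sat (E U) φ (fun i => q U (mapN F (v i))) := by
  revert v
  induction φ with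
  | mem i j =>
    intro v
    show E _ (q _ (v i)) (q _ (v j)) ↔ E U (q U (mapN F (v i))) (q U (mapN F (v j)))
    rw [E_q, E_q, bmem_mapN hF]
    rfl
  | eq i j =>
    intro v
    show q _ (v i) = q _ (v j) ↔ q U (mapN F (v i)) = q U (mapN F (v j))
    rw [q_eq, q_eq, beq_mapN hF]
    rfl
  | neg φ ih => exact fun v => not_congr (ih v)
  | and φ ψ ih1 ih2 => exact fun v => and_congr (ih1 v) (ih2 v)
  | all i φ ih =>
    intro v
    have h3 : ∀ x : bSet B, Function.update (fun j => mapN F (v j)) i (mapN F x) =
        fun j => mapN F (Function.update v i x j) := by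
      intro x
      funext j
      by_cases hj : j = i
      · subst hj
        simp
      · simp [hj]
    have h4 : ∀ x : bSet B, Sat (E (pullU F hF.top hF.inf hF.compl U)) φ
        (Function.update (fun j => q _ (v j)) i (q _ x)) ↔
        Sat (E U) φ (Function.update (fun j => q U (mapN F (v j))) i (q U (mapN F x))) := by
      intro x
      rw [update_q, update_q (fun j => mapN F (v j)), h3]
      exact ih _
    constructor
    · intro h m
      obtain ⟨y, rfl⟩ := q_surj m
      obtain ⟨x, rfl⟩ := mapN_surj hs y
      exact (h4 x).1 (h (q _ x))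
    · intro h m
      obtain ⟨x, rfl⟩ := q_surj m
      exact (h4 x).2 (h (q U (mapN F x)))

end Pool.Agent.Lib.FMM
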