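import Pool.Agent.Lib.FMM.Defs

/-!
# Module FMM.NdB: sequences of length in K

`u : Nd K V` is a partial function `u.1 : K → Option V` with domain `Iio u.len`; `u ≤ v` means that `u`
extends `v` (`∀ i x, v.1 i = some x → u.1 i = some x`, this is the definition, `Iff.rfl`).

PROOFS. Everything follows from `Nd.dom_eq` (`i ∈ u.1.dom ↔ i < u.len`, `u.1.dom = {i | u.1 i ≠ none}`).
* len_eq: `Iio u.len = Iio a` (Iio_injective / le_antisymm).
* val_eq: `v.1 i = some x` for some `x`. eq_of_le: `ext'`, cases `i < v.len`.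
* comp: `w.1 i = some x`? Let `v.1 i = some x`, `i < v.len ≤ w.len`, so `w.1 i = some y`, `u.1 i = some x`
  and `= some y`.
* snoc: unfold; the length of `snoc u x` is the least element above `u.len`; lt_snoc_len: by `dom_eq`
  and the values.
* le_snoc: `→` le_trans with snoc_le, and the value. `←` values of `snoc u x` at `i < u.len` and
  `i = u.len`.
* exists_snoc: `w < u` gives `u.len < w.len` (lt_iff_len), take `x` with `w.1 u.len = some x`.
* lim_or: by cases. Lim.between: `u` extends `v` properly, `x` with `u ≤ snoc v x` (exists_snoc), and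
  `u ≠ snoc v x` as `u` is Lim; `w = snoc v x`.
* glb: the chain `C` is bounded: the set of the `p.len`, `p ∈ C`, has size `< κ`, so the set of the `i`
  with `∃ p ∈ C, i < p.len` is `Iio a` for the least upper bound `a` of the `p.len` (exists by `bdd` and
  well-foundedness: the least `a` with `∀ p ∈ C, p.len ≤ a`; if `i < a` then `i` is not an upper bound,
  so `i < p.len` for some `p`). `g.1 = PF.sup` of the values. Values agree in a chain.
* cg_nd: from glb.
-/

set_option autoImplicit false

namespace Pool.Agent.Lib.FMM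

open Set Cardinal Classical

namespace Nd

variable {K V : Type} [LinearOrder K]

theorem mem_iff {u : Nd K V} {i : K} : u.1 i ≠ none ↔ i < u.len := by
  exact Set.ext_iff.1 (dom_eq u) i

theorem exists_val {u : Nd K V} {i : K} (h : i < u.len) : ∃ x, u.1 i = some x :=
  Option.ne_none_iff_exists'.1 (mem_iff.2 h)

theorem lt_len {u : Nd K V} {i : K} {x : V} (h : u.1 i = some x) : i < u.len :=
  mem_iff.1 (by rw [h]; exact Option.some_ne_none x)

theorem len_eq {u : Nd K V} {a : K} (h : ∀ i, u.1 i ≠ none ↔ i < a) : u.len = a := by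
  have h' : ∀ i, i < u.len ↔ i < a := fun i => mem_iff.symm.trans (h i)
  apply le_antisymm
  · by_contra hc
    exact lt_irrefl a ((h' a).1 (not_le.1 hc))
  · by_contra hc
    exact lt_irrefl _ ((h' u.len).2 (not_le.1 hc))

theorem ext' {u v : Nd K V} (h : ∀ i, u.1 i = v.1 i) : u = v :=
  Subtype.ext (funext h)

theorem le_iff {u v : Nd K V} : u ≤ v ↔ ∀ i x, v.1 i = some x → u.1 i = some x := Iff.rfl

theorem len_mono {u v : Nd K V} (h : u ≤ v) : v.len ≤ u.len := by
  by_contra hc
  obtain ⟨x, hx⟩ := exists_val (not_le.1 hc)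
  exact lt_irrefl _ (lt_len (h _ _ hx))

theorem val_eq {u v : Nd K V} (h : u ≤ v) {i : K} (hi : i < v.len) : u.1 i = v.1 i := by
  obtain ⟨x, hx⟩ := exists_val hi
  rw [hx]
  exact h _ _ hx

theorem le_of_val {u v : Nd K V} (h : ∀ i, i < v.len → u.1 i = v.1 i) : u ≤ v := by
  intro i x hx
  rw [h i (lt_len hx)]
  exact hx

theorem eq_of_le {u v : Nd K V} (h : u ≤ v) (hl : u.len ≤ v.len) : u = v := by
  apply ext'
  intro i
  by_cases hi : i < v.len
  · exact val_eq h hi
  · have h1 : v.1 i = none := by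
      by_contra hc
      exact hi (mem_iff.1 hc)
    have h2 : u.1 i = none := by
      by_contra hc
      exact hi (lt_of_lt_of_le (mem_iff.1 hc) hl)
    rw [h1, h2]

theorem lt_iff_len {u v : Nd K V} (h : u ≤ v) : u < v ↔ v.len < u.len := by
  constructor
  · intro hlt
    refine lt_of_le_of_ne (len_mono h) (fun he => ?_)
    exact hlt.ne (eq_of_le h he.ge)
  · intro hl
    refine lt_of_le_of_ne h ?_
    rintro rfl
    exact lt_irrefl _ hl

theorem comp {u v w : Nd K V} (h1 : u ≤ v) (h2 : u ≤ w) (hl : v.len ≤ w.len) : w ≤ v :=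
  le_of_val fun _ hi => (val_eq h2 (lt_of_lt_of_le hi hl)).symm.trans (val_eq h1 hi)

theorem comp' {u v w : Nd K V} (h1 : u ≤ v) (h2 : u ≤ w) : v ≤ w ∨ w ≤ v := by
  rcases le_total v.len w.len with hl | hl
  · exact Or.inr (comp h1 h2 hl)
  · exact Or.inl (comp h2 h1 hl)

theorem len_ofFun (a : K) (f : K → V) : (ofFun a f).len = a := by
  apply len_eq
  intro i
  by_cases hi : i < a
  · simp [ofFun, hi]
  · simp [ofFun, hi]

theorem ofFun_val {a : K} {f : K → V} {i : K} (h : i < a) : (ofFun a f).1 i = some (f i) := by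
  simp [ofFun, h]

theorem le_nil [OrderBot K] (u : Nd K V) : u ≤ nil := by
  intro i x hx
  exact absurd hx (by simp [nil])

theorem len_nil [OrderBot K] : (nil : Nd K V).len = ⊥ := by
  apply len_eq
  intro i
  simp [nil]

theorem le_ini (u : Nd K V) (a : K) : u ≤ ini u a := by
  intro i x hx
  by_cases hi : i < a
  · simpa [ini, hi] using hx
  · exact absurd hx (by simp [ini, hi])

theorem len_ini {u : Nd K V} {a : K} (h : a ≤ u.len) : (ini u a).len = a := by
  apply len_eq
  intro i
  by_cases hi : i < a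
  · have : (ini u a).1 i = u.1 i := by simp [ini, hi]
    rw [this, mem_iff]
    exact ⟨fun _ => hi, fun _ => lt_of_lt_of_le hi h⟩
  · simp [ini, hi]

theorem ini_val {u : Nd K V} {a i : K} (h : i < a) : (ini u a).1 i = u.1 i := by
  simp [ini, h]

theorem eq_ini {u v : Nd K V} (h : u ≤ v) : v = ini u v.len := by
  apply ext'
  intro i
  by_cases hi : i < v.len
  · rw [ini_val hi, val_eq h hi]
  · have h1 : v.1 i = none := by
      by_contra hc
      exact hi (mem_iff.1 hc)
    rw [h1]
    simp [ini, hi]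

theorem len_map {V' : Type} (f : V → V') (u : Nd K V) : (map f u).len = u.len := by
  apply len_eq
  intro i
  rw [← mem_iff]
  show (u.1 i).map f ≠ none ↔ _
  cases u.1 i <;> simp

theorem map_val {V' : Type} (f : V → V') (u : Nd K V) (i : K) :
    (map f u).1 i = (u.1 i).map f := rfl

theorem map_mono {V' : Type} (f : V → V') {u v : Nd K V} (h : u ≤ v) : map f u ≤ map f v := by
  intro i y hy
  have hy : (v.1 i).map f = some y := hy
  obtain ⟨x, hx, rfl⟩ := Option.map_eq_some_iff.1 hy
  show (u.1 i).map f = some (f x)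
  rw [h i x hx]
  rfl

section snoc

variable [WellFoundedLT K] [NoMaxOrder K]

theorem snoc_val_lt {u : Nd K V} {x : V} {i : K} (h : i < u.len) : (snoc u x).1 i = u.1 i := by
  simp [snoc, h]

theorem snoc_val (u : Nd K V) (x : V) : (snoc u x).1 u.len = some x := by
  simp [snoc]

theorem lt_snoc_len {u : Nd K V} {x : V} {i : K} : i < (snoc u x).len ↔ i ≤ u.len := by
  rw [← mem_iff]
  rcases lt_trichotomy i u.len with hi | hi | hi
  · rw [snoc_val_lt hi, mem_iff]
    exact ⟨fun h => h.le, fun _ => hi⟩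
  · subst hi
    rw [snoc_val]
    simp
  · have : (snoc u x).1 i = none := by
      simp [snoc, not_lt.2 hi.le, hi.ne']
    rw [this]
    simp [hi]

theorem snoc_le (u : Nd K V) (x : V) : snoc u x ≤ u :=
  le_of_val fun _ hi => snoc_val_lt hi

theorem snoc_lt (u : Nd K V) (x : V) : snoc u x < u :=
  (lt_iff_len (snoc_le u x)).2 (lt_snoc_len.2 le_rfl)

theorem snoc_inj {u v : Nd K V} {x y : V} (h : snoc u x = snoc v y) : u = v ∧ x = y := by
  have hl : u.len = v.len := by
    apply le_antisymm
    · exact lt_snoc_len.1 (h ▸ lt_snoc_len.2 le_rfl : u.len < (snoc v y).len)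
    · exact lt_snoc_len.1 (h.symm ▸ lt_snoc_len.2 le_rfl : v.len < (snoc u x).len)
  constructor
  · apply ext'
    intro i
    by_cases hi : i < u.len
    · rw [← snoc_val_lt (x := x) hi, h, snoc_val_lt (hl ▸ hi)]
    · have h1 : u.1 i = none := by
        by_contra hc
        exact hi (mem_iff.1 hc)
      have h2 : v.1 i = none := by
        by_contra hc
        exact hi (hl ▸ mem_iff.1 hc)
      rw [h1, h2]
  · have h1 := snoc_val u x
    rw [h, hl, snoc_val] at h1
    exact (Option.some.inj h1).symm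

theorem le_snoc {w u : Nd K V} {x : V} : w ≤ snoc u x ↔ w ≤ u ∧ w.1 u.len = some x := by
  constructor
  · intro h
    exact ⟨h.trans (snoc_le u x), h _ _ (snoc_val u x)⟩
  · rintro ⟨h1, h2⟩
    apply le_of_val
    intro i hi
    rcases lt_or_eq_of_le (lt_snoc_len.1 hi) with hi | rfl
    · rw [snoc_val_lt hi, val_eq h1 hi]
    · rw [snoc_val, h2]

theorem exists_snoc {w u : Nd K V} (h : w < u) : ∃ x, w ≤ snoc u x := by
  obtain ⟨x, hx⟩ := exists_val ((lt_iff_len h.le).1 h)
  exact ⟨x, le_snoc.2 ⟨h.le, hx⟩⟩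

theorem snoc_le_iff {u v : Nd K V} {x : V} : snoc u x ≤ v ↔ v = snoc u x ∨ u ≤ v := by
  constructor
  · intro h
    rcases comp' h (snoc_le u x) with h1 | h1
    · by_cases he : v = u
      · exact Or.inr he.ge
      · left
        have hl := (lt_iff_len h1).1 (lt_of_le_of_ne h1 he)
        refine (eq_of_le h ?_).symm
        by_contra hc
        exact lt_irrefl _ (lt_of_le_of_lt (lt_snoc_len.1 (not_le.1 hc)) hl)
    · exact Or.inr h1
  · rintro (rfl | h)
    · exact le_rfl
    · exact (snoc_le u x).trans h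

theorem snoc_len_congr {V' : Type} {u : Nd K V} {v : Nd K V'} (h : u.len = v.len) (x : V)
    (y : V') : (snoc u x).len = (snoc v y).len := by
  apply le_antisymm
  · by_contra hc
    have h1 := lt_snoc_len.1 (not_le.1 hc)
    rw [h] at h1
    exact lt_irrefl _ (lt_snoc_len.2 h1)
  · by_contra hc
    have h1 := lt_snoc_len.1 (not_le.1 hc)
    rw [← h] at h1
    exact lt_irrefl _ (lt_snoc_len.2 h1)

theorem map_snoc {V' : Type} (f : V → V') (u : Nd K V) (x : V) :
    map f (snoc u x) = snoc (map f u) (f x) := by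
  apply ext'
  intro i
  have h1 : (map f (snoc u x)).1 i = ((snoc u x).1 i).map f := rfl
  rw [h1]
  rcases lt_trichotomy i u.len with hi | hi | hi
  · rw [snoc_val_lt hi, snoc_val_lt (by rw [len_map]; exact hi)]
    rfl
  · subst hi
    rw [snoc_val]
    have := snoc_val (map f u) (f x)
    rw [len_map] at this
    rw [this]
    rfl
  · have h2 : (snoc u x).1 i = none := by
      by_contra hc
      exact absurd (lt_snoc_len.1 (mem_iff.1 hc)) (not_le.2 hi)
    have h3 : (snoc (map f u) (f x)).1 i = none := by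
      by_contra hc
      have := lt_snoc_len.1 (mem_iff.1 hc)
      rw [len_map] at this
      exact absurd this (not_le.2 hi)
    rw [h2, h3]
    rfl

theorem lim_or (u : Nd K V) : u.Lim ∨ ∃ v x, u = snoc v x := by
  by_cases h : u.Lim
  · exact Or.inl h
  · right
    unfold Lim at h
    push Not at h
    exact h

theorem Lim.between {u v : Nd K V} (hu : u.Lim) (h : u < v) : ∃ w, u < w ∧ w < v := by
  obtain ⟨x, hx⟩ := exists_snoc h
  exact ⟨snoc v x, lt_of_le_of_ne hx (hu v x), snoc_lt v x⟩

end snoc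

theorem glb {κ : Cardinal.{0}} [WellFoundedLT K] (hK : RegK κ K) (C : Set (Nd K V))
    (hne : C.Nonempty) (hC : #C < κ) (hch : ∀ x ∈ C, ∀ y ∈ C, x ≤ y ∨ y ≤ x) :
    ∃ g : Nd K V, IsGLB C g ∧ (∀ i v, g.1 i = some v ↔ ∃ p ∈ C, p.1 i = some v) ∧
      ∀ i, i < g.len ↔ ∃ p ∈ C, i < p.len := by
  have huniq : ∀ p ∈ C, ∀ q ∈ C, ∀ i v w, p.1 i = some v → q.1 i = some w → v = w := by
    intro p hp q hq i v w h1 h2
    rcases hch p hp q hq with h | h
    · have := h i w h2
      rw [h1] at this
      exact Option.some.inj this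
    · have := h i v h1
      rw [h2] at this
      exact (Option.some.inj this).symm
  have hA : {a : K | ∀ p ∈ C, p.len ≤ a}.Nonempty := by
    obtain ⟨b, hb⟩ := hK.bdd (len '' C) (lt_of_le_of_lt mk_image_le hC)
    exact ⟨b, fun p hp => (hb _ (mem_image_of_mem _ hp)).le⟩
  obtain ⟨a, ha, hmin⟩ : ∃ a : K, (∀ p ∈ C, p.len ≤ a) ∧ ∀ i, (∀ p ∈ C, p.len ≤ i) → a ≤ i := by
    refine ⟨(wellFounded_lt (α := K)).min _ hA, (wellFounded_lt (α := K)).min_mem _ hA, ?_⟩
    intro i hi
    have hi' : i ∈ {a : K | ∀ p ∈ C, p.len ≤ a} := hi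
    exact not_lt.1 ((wellFounded_lt (α := K)).not_lt_min {a : K | ∀ p ∈ C, p.len ≤ a} hi')
  have hlt : ∀ i, i < a ↔ ∃ p ∈ C, i < p.len := by
    intro i
    constructor
    · intro h
      by_contra hc
      push Not at hc
      exact absurd (hmin i hc) (not_le.2 h)
    · rintro ⟨p, hp, h⟩
      exact lt_of_lt_of_le h (ha p hp)
  let g0 : PF K V := fun i =>
    if h : ∃ v, ∃ p ∈ C, p.1 i = some v then some h.choose else none
  have hval : ∀ i v, g0 i = some v ↔ ∃ p ∈ C, p.1 i = some v := by
    intro i v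
    by_cases h : ∃ v, ∃ p ∈ C, p.1 i = some v
    · have h1 : g0 i = some h.choose := dif_pos h
      obtain ⟨p, hp, hpv⟩ := h.choose_spec
      rw [h1]
      constructor
      · intro h2
        rw [← Option.some.inj h2]
        exact ⟨p, hp, hpv⟩
      · rintro ⟨q, hq, hqv⟩
        rw [huniq p hp q hq i _ _ hpv hqv]
    · have h1 : g0 i = none := dif_neg h
      rw [h1]
      constructor
      · intro h2
        exact absurd h2 (by simp)
      · intro h2
        exact absurd ⟨v, h2⟩ h
  have hdom : g0.dom = Iio a := by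
    ext i
    rw [mem_Iio, hlt]
    constructor
    · intro h
      have h : g0 i ≠ none := h
      obtain ⟨v, hv⟩ := Option.ne_none_iff_exists'.1 h
      obtain ⟨p, hp, hpv⟩ := (hval i v).1 hv
      exact ⟨p, hp, lt_len hpv⟩
    · rintro ⟨p, hp, h⟩
      obtain ⟨v, hv⟩ := exists_val h
      show g0 i ≠ none
      rw [(hval i v).2 ⟨p, hp, hv⟩]
      simp
  refine ⟨⟨g0, a, hdom⟩, ⟨?_, ?_⟩, hval, ?_⟩
  · intro p hp i v hv
    exact (hval i v).2 ⟨p, hp, hv⟩
  · intro w hw i v hv
    obtain ⟨p, hp, hpv⟩ := (hval i v).1 hv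
    exact hw hp i v hpv
  · intro i
    rw [← hlt]
    have h1 : len (⟨g0, a, hdom⟩ : Nd K V) = a := by
      apply len_eq
      intro j
      exact Set.ext_iff.1 hdom j
    rw [h1]

end Nd

theorem cg_nd {κ : Cardinal.{0}} {K : Type} [LinearOrder K] [WellFoundedLT K] (hK : RegK κ K)
    (V : Type) : CG κ (Nd K V) := by
  intro C hne hC hch
  obtain ⟨g, hg, _⟩ := Nd.glb hK C hne hC hch
  exact ⟨g, hg⟩

end Pool.Agent.Lib.FMM
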