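import Pool.Agent.Lib.FMM.Notions
import Pool.Agent.Lib.FMM.NdB
import Pool.Agent.Lib.WkD.MCheck

/-!
# Module FMM.NdName: check names of nodes

`ndN B u = graphName` over `{p : K × K // u.1 p.1 = some p.2}` with weights `⊤`; `ck B i` the check name of `i : K`,
`lamN B K` the set of all `ck B i`. Tools: BVM/Facts.lean (app_iff, app_graph, bpair_inj, of_mem, isPair_iff,
E_mk, of_iSup, ext_mod), WkD/MCheck.lean (E_ck, ck_inj, beq_ck_ne, of_mem_ck, of_mem_lamN, E_lamN).

PROOFS.
* of_mem_ndN: `of_mem` with `X = ndN B u` (type, func, val by rfl).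
* app_ndN: app_graph; the supremum `⨆ p, ⊤ ⊓ (beq (ck i) (ck p.1) ⊓ beq (ck j) (ck p.2))` is `⊤` if `u.1 i = some j` (le_iSup,
  beq_refl) and `⊥` otherwise (beq_ck_ne).
* isFun_ndN: elements are pairs with first coordinate `ck i`, `i < u.len` (of_mem_ndN; E_ck). For `x` in
  `ck u.len`: case `x = ck i`, `i < u.len` (of_mem_ck), `u.1 i = some j`, the unique value is `ck j`: if
  `App (ndN u) (ck i) y`, `y = q U Y`, `app_iff`, of_mem_ndN for `bpair (ck i) Y`, bpair_inj, ck_inj. Values in lamN.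
  (See `isFun_fnN` in BVM/Facts.lean for the pattern.)
* sub_ndN_iff: `Sub (ndN u) X ↔ ∀ i j, u.1 i = some j → App X (ck i) (ck j)`: `→` app_iff and app_ndN. `←`: `z` in
  `ndN u`: of_mem_ndN with `P U = E z X` and `Q U = (∀ i j, u.1 i = some j → App X (ck i) (ck j))`. Q is BV: an
  infimum over the pairs: `⨅ p : {p : K × K // u.1 p.1 = some p.2}, bmem (bpair ..) X`; but membership of an infinite
  infimum in an ultrafilter is stronger than all memberships; therefore the statement for `←` uses the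
  hypothesis `(⨅ p, bmem (bpair (ck p.1) (ck p.2)) X) ∈ U` (sub_ndN_of) and `→` gives this membership
  (sub_ndN: `bv (Sub ..) ≤` each term, le_iInf).
* sub_ndN_ndN: by sub_ndN_of and app_ndN (the terms are `⊤`), and app_ndN for `→`.
* ndN_inj: sub_ndN_ndN twice, `q U (ndN u) = q U (ndN v)`, le_antisymm.
* BV lemmas: combine BV.all, BV.ex, BV.mem, BV.eq, BV.imp, BV.and, BV.or, BV.not, BV.biimp, BV.isFun, BV.isFunOn,
  BV.app, BV_isOrd (give the predicates explicitly as in BV_isClub of MCheck.lean if elaboration is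
  slow).
-/

set_option autoImplicit false

namespace Pool.Agent.Lib.FMM

open Set Cardinal Pool.Agent.Lib.WkD Pool.Agent.Lib.BVM Pool.Agent.Lib.BVM.bSet

variable {B K : Type} [CompleteBooleanAlgebra B] [LinearOrder K] [WellFoundedLT K]

theorem of_mem_ndN {u : Nd K K} {Z : bSet B} {P Q : Ultra B → Prop} (hP : BV P) (hQ : BV Q)
    (h : ∀ i j, u.1 i = some j → ∀ U, q U Z = q U (bpair (ck B i) (ck B j)) → Q U → P U)
    {U : Ultra B} (h1 : E U (q U Z) (q U (ndN B u))) (h2 : Q U) : P U :=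
  of_mem (X := ndN B u) hP hQ (fun p U _ hZ hq => h p.1.1 p.1.2 p.2 U hZ hq) h1 h2

theorem app_ndN {U : Ultra B} {u : Nd K K} {i j : K} :
    App (E U) (q U (ndN B u)) (q U (ck B i)) (q U (ck B j)) ↔ u.1 i = some j := by
  unfold ndN
  rw [app_graph]
  constructor
  · intro h
    by_contra hc
    have h0 : (⨆ p : {p : K × K // u.1 p.1 = some p.2},
        (⊤ : B) ⊓ (beq (ck B i) (ck B p.1.1) ⊓ beq (ck B j) (ck B p.1.2))) = ⊥ := by
      refine le_bot_iff.1 (iSup_le fun p => ?_)
      by_cases h1 : i = p.1.1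
      · by_cases h2 : j = p.1.2
        · exact absurd (h1 ▸ h2 ▸ p.2) hc
        · rw [beq_ck_ne h2]
          simp
      · rw [beq_ck_ne h1]
        simp
    rw [h0] at h
    exact Ultra.bot h
  · intro h
    refine Ultra.mono Ultra.top (le_iSup_of_le ⟨(i, j), h⟩ ?_)
    simp only
    rw [beq_refl, beq_refl, inf_top_eq, inf_top_eq]

theorem isFun_ndN (U : Ultra B) (u : Nd K K) :
    IsFun (E U) (q U (ndN B u)) (q U (ck B u.len)) (q U (lamN B K)) := by
  refine ⟨⟨?_, ?_⟩, ?_⟩
  · intro p hp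
    obtain ⟨Z, rfl⟩ := q_surj p
    refine of_mem_ndN (P := fun U => ∃ x y', E U x (q U (ck B u.len)) ∧ IsPair (E U) x y' (q U Z))
      (BV.ex fun x => BV.ex fun y' => (BV.mem _ _).and (BV.isPair x y' Z)) (BV.const True)
      (fun i j hij U hZ _ => ?_) hp trivial
    exact ⟨q U (ck B i), q U (ck B j), E_ck.2 (Nd.lt_len hij), isPair_iff.2 hZ⟩
  · intro x hx
    obtain ⟨X, rfl⟩ := q_surj x
    refine of_mem_ck (P := fun U => ∃! y', App (E U) (q U (ndN B u)) (q U X) y')
      (Q := fun _ => True)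
      (BV.exUnique fun y' => BV.app _ X y') (BV.const True)
      (fun i hi U hX _ => ?_) hx trivial
    rw [hX]
    obtain ⟨j, hj⟩ := Nd.exists_val hi
    refine ⟨q U (ck B j), app_ndN.2 hj, fun y' hy' => ?_⟩
    obtain ⟨Y, rfl⟩ := q_surj y'
    rw [app_iff] at hy'
    refine of_mem_ndN (Z := bpair (ck B i) Y) (P := fun U => q U Y = q U (ck B j))
      (Q := fun _ => True)
      (BV.eq _ _) (BV.const True) (fun i' j' hij U hZ _ => ?_) hy' trivial
    obtain ⟨h3, h4⟩ := bpair_inj.1 hZ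
    obtain rfl := ck_inj h3
    rw [hj] at hij
    obtain rfl := Option.some.inj hij
    exact h4
  · intro x y' hxy
    obtain ⟨X, rfl⟩ := q_surj x
    obtain ⟨Y, rfl⟩ := q_surj y'
    rw [app_iff] at hxy
    refine of_mem_ndN (Z := bpair X Y) (P := fun U => E U (q U Y) (q U (lamN B K))) (BV.mem _ _)
      (BV.const True) (fun i j _ U hZ _ => ?_) hxy trivial
    rw [(bpair_inj.1 hZ).2]
    exact E_lamN j U

theorem isNode_ndN (U : Ultra B) (u : Nd K K) :
    IsNode (E U) (q U (lamN B K)) (q U (ndN B u)) :=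
  ⟨_, E_lamN u.len U, isFun_ndN U u⟩

theorem sub_ndN_of {U : Ultra B} {u : Nd K K} {X : bSet B}
    (h : (⨅ p : {p : K × K // u.1 p.1 = some p.2}, bmem (bpair (ck B p.1.1) (ck B p.1.2)) X) ∈ U) :
    Sub (E U) (q U (ndN B u)) (q U X) := by
  intro z hz
  obtain ⟨Z, rfl⟩ := q_surj z
  refine of_mem_ndN (P := fun U => E U (q U Z) (q U X))
    (Q := fun U => (⨅ p : {p : K × K // u.1 p.1 = some p.2},
      bmem (bpair (ck B p.1.1) (ck B p.1.2)) X) ∈ U) (BV.mem _ _) (BV.of_mem _)
    (fun i j hij U hZ hq => ?_) hz h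
  rw [hZ]
  exact E_q.2 (Ultra.mono hq (iInf_le_of_le ⟨(i, j), hij⟩ le_rfl))

theorem BV_sub (x y : bSet B) : BV (fun U => Sub (E U) (q U x) (q U y)) :=
  BV.all fun _ => (BV.mem _ _).imp (BV.mem _ _)

theorem sub_ndN {U : Ultra B} {u : Nd K K} {X : bSet B}
    (h : Sub (E U) (q U (ndN B u)) (q U X)) :
    (⨅ p : {p : K × K // u.1 p.1 = some p.2}, bmem (bpair (ck B p.1.1) (ck B p.1.2)) X) ∈ U := by
  refine Ultra.mono (((BV_sub (ndN B u) X).iff U).1 h) (le_iInf fun p => Ultra.le_of_forall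
    fun U' hU' => ?_)
  have h1 := ((BV_sub (ndN B u) X).iff U').2 hU'
  exact E_q.1 (h1 _ (app_iff.1 (app_ndN.2 p.2)))

theorem sub_ndN_ndN {U : Ultra B} {u v : Nd K K} :
    Sub (E U) (q U (ndN B u)) (q U (ndN B v)) ↔ v ≤ u := by
  constructor
  · intro h i j hij
    exact app_ndN.1 (app_iff.2 (h _ (app_iff.1 (app_ndN.2 hij))))
  · intro h
    apply sub_ndN_of
    have h0 : (⨅ p : {p : K × K // u.1 p.1 = some p.2},
        bmem (bpair (ck B p.1.1) (ck B p.1.2)) (ndN B v)) = ⊤ := by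
      refine top_le_iff.1 (le_iInf fun p => Ultra.le_of_forall fun U' _ => ?_)
      exact E_q.1 (app_iff.1 (app_ndN.2 (h _ _ p.2)))
    rw [h0]
    exact Ultra.top

theorem ndN_inj {U : Ultra B} {u v : Nd K K} (h : q U (ndN B u) = q U (ndN B v)) : u = v := by
  apply le_antisymm
  · rw [← sub_ndN_ndN (U := U) (B := B), h]
    exact fun _ hz => hz
  · rw [← sub_ndN_ndN (U := U) (B := B), h]
    exact fun _ hz => hz

theorem BV_isNode (k s : bSet B) : BV (fun U => IsNode (E U) (q U k) (q U s)) :=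
  BV.ex (P := fun U a => E U a (q U k) ∧ IsFun (E U) (q U s) a (q U k)) fun a =>
    (BV.mem _ _).and (BV.isFun s a k)

theorem BV_isChild (k s t : bSet B) : BV (fun U => IsChild (E U) (q U k) (q U s) (q U t)) :=
  (BV_isNode k s).and ((BV_isNode k t).and ((BV_sub s t).and ((BV.eq s t).not.and
    (BV.all (P := fun U r => IsNode (E U) (q U k) r → Sub (E U) (q U s) r → Sub (E U) r (q U t) →
      r = q U s ∨ r = q U t) fun r => (BV_isNode k r).imp ((BV_sub s r).imp ((BV_sub r t).imp
        ((BV.eq r s).or (BV.eq r t))))))))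

theorem BV_isTree (k T : bSet B) : BV (fun U => IsTree (E U) (q U k) (q U T)) :=
  (BV.ex (P := fun U s => E U s (q U T)) fun s => BV.mem s T).and
    ((BV.all (P := fun U s => E U s (q U T) → IsNode (E U) (q U k) s) fun s =>
      (BV.mem s T).imp (BV_isNode k s)).and
    (BV.all (P := fun U s => ∀ t, E U t (q U T) → IsNode (E U) (q U k) s → Sub (E U) s t →
      E U s (q U T)) fun s =>
      BV.all (P := fun U t => E U t (q U T) → IsNode (E U) (q U k) (q U s) →
        Sub (E U) (q U s) t → E U (q U s) (q U T)) fun t =>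
        (BV.mem t T).imp ((BV_isNode k s).imp ((BV_sub s t).imp (BV.mem s T)))))

theorem BV_isClosed (k T : bSet B) : BV (fun U => IsClosed (E U) (q U k) (q U T)) :=
  BV.all (P := fun U C => ∀ s, (∀ r, E U r C → E U r (q U T)) →
      (∀ r r', E U r C → E U r' C → Sub (E U) r r' ∨ Sub (E U) r' r) →
      IsNode (E U) (q U k) s → (∀ p, E U p s ↔ ∃ r, E U r C ∧ E U p r) → E U s (q U T)) fun C =>
    BV.all (P := fun U s => (∀ r, E U r (q U C) → E U r (q U T)) →
      (∀ r r', E U r (q U C) → E U r' (q U C) → Sub (E U) r r' ∨ Sub (E U) r' r) →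
      IsNode (E U) (q U k) s → (∀ p, E U p s ↔ ∃ r, E U r (q U C) ∧ E U p r) →
        E U s (q U T)) fun s =>
      (BV.all (P := fun U r => E U r (q U C) → E U r (q U T)) fun r =>
        (BV.mem r C).imp (BV.mem r T)).imp
      ((BV.all (P := fun U r => ∀ r', E U r (q U C) → E U r' (q U C) →
          Sub (E U) r r' ∨ Sub (E U) r' r) fun r =>
        BV.all (P := fun U r' => E U (q U r) (q U C) → E U r' (q U C) →
          Sub (E U) (q U r) r' ∨ Sub (E U) r' (q U r)) fun r' =>
          (BV.mem r C).imp ((BV.mem r' C).imp ((BV_sub r r').or (BV_sub r' r)))).imp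
      ((BV_isNode k s).imp
      ((BV.all (P := fun U p => E U p (q U s) ↔ ∃ r, E U r (q U C) ∧ E U p r) fun p =>
        (BV.mem p s).biimp (BV.ex (P := fun U r => E U r (q U C) ∧ E U (q U p) r) fun r =>
          (BV.mem r C).and (BV.mem p r))).imp (BV.mem s T))))

theorem BV_isSplit (k T s : bSet B) : BV (fun U => IsSplit (E U) (q U k) (q U T) (q U s)) :=
  (BV.mem s T).and (BV.ex (P := fun U t => ∃ t', t ≠ t' ∧ IsChild (E U) (q U k) (q U s) t ∧
      IsChild (E U) (q U k) (q U s) t' ∧ E U t (q U T) ∧ E U t' (q U T)) fun t =>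
    BV.ex (P := fun U t' => q U t ≠ t' ∧ IsChild (E U) (q U k) (q U s) (q U t) ∧
      IsChild (E U) (q U k) (q U s) t' ∧ E U (q U t) (q U T) ∧ E U t' (q U T)) fun t' =>
      (BV.eq t t').not.and ((BV_isChild k s t).and ((BV_isChild k s t').and
        ((BV.mem t T).and (BV.mem t' T)))))

theorem BV_fullMiller (k T : bSet B) : BV (fun U => FullMiller (E U) (q U k) (q U T)) :=
  (BV_isTree k T).and ((BV_isClosed k T).and
    ((BV.all (P := fun U s => E U s (q U T) → ∃ t, Sub (E U) s t ∧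
        IsSplit (E U) (q U k) (q U T) t) fun s =>
      (BV.mem s T).imp (BV.ex (P := fun U t => Sub (E U) (q U s) t ∧
        IsSplit (E U) (q U k) (q U T) t) fun t => (BV_sub s t).and (BV_isSplit k T t))).and
    (BV.all (P := fun U s => ∀ t, IsSplit (E U) (q U k) (q U T) s →
        IsChild (E U) (q U k) s t → E U t (q U T)) fun s =>
      BV.all (P := fun U t => IsSplit (E U) (q U k) (q U T) (q U s) →
        IsChild (E U) (q U k) (q U s) t → E U t (q U T)) fun t =>
        (BV_isSplit k T s).imp ((BV_isChild k s t).imp (BV.mem t T)))))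

theorem BV_branch (k T x : bSet B) : BV (fun U => Branch (E U) (q U k) (q U T) (q U x)) :=
  (BV.isFun x k k).and (BV.all (P := fun U s => IsNode (E U) (q U k) s → Sub (E U) s (q U x) →
    E U s (q U T)) fun s => (BV_isNode k s).imp ((BV_sub s x).imp (BV.mem s T)))

theorem BV_isOnSeq (k y : bSet B) : BV (fun U => IsOnSeq (E U) (q U k) (q U y)) :=
  (BV.isFunOn y k).and (BV.all (P := fun U a => ∀ b, App (E U) (q U y) a b → IsOrd (E U) b)
    fun a => BV.all (P := fun U b => App (E U) (q U y) (q U a) b → IsOrd (E U) b) fun b =>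
      (BV.app y a b).imp (BV_isOrd b))

end Pool.Agent.Lib.FMM
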