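import Pool.Agent.Lib.FMM.OrdM
import Pool.Agent.Lib.FMM.NdName
import Pool.Agent.Lib.FMM.MapN
import Pool.Agent.Lib.FMM.CC

/-!
# Module FMM.RepY: functions from k to the ordinals have small support

PROOFS. Let `b` be the Boolean value of `IsOnSeq k Y` (BV_isOnSeq), `k = lamN`.
* on_matrix: there are a well-order `Θ` and `y : K → Θ → B` with: `b ⊓ y a ξ ⊓ y a ξ' = ⊥` for `ξ ≠ ξ'`, and for `U ∋ b`:
  `q U Y = q U (graphName (ι := K × Θ) (ck ·.1) (ck ·.2) (b ⊓ y ..))`. Proof: for `a : K` choose by `exists_max` a name `V a` with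
  `b ≤ bv (App Y (ck a) (V a))` (the supremum over all names is `≥ b` because `Y` is a function on `k`; the predicate is
  BV, `BV.app`, extensional as in `exists_coll` of BVM/Quot.lean). `V a` is an ordinal in every `U ∋ b`. ord_bound
  gives `μ a`; let `Θ = (Order.succ (Cardinal.sum μ)).ord.ToType`, so `μ a < #Θ` for all `a`. `y a ξ = beq (V a) (ck B ξ)`. Disjoint:
  ck_inj. For `U ∋ b`: `Y` and the graph have the same elements: `z ∈ Y`: `z` is a pair `(x, v)`, `x ∈ k`; case `x = ck a`;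
  `App Y (ck a) v` and `App Y (ck a) (V a)` so `v = V a` (app_unique); `(⨆ ξ, beq (V a) (ck ξ)) ∈ U`, of_iSup:
  `V a = ck ξ`, `z = bpair (ck a) (ck ξ)`, weight `b ⊓ y a ξ ∈ U`. Conversely an element of the graph is
  `bpair (ck a) (ck ξ)` with `b ⊓ y a ξ ∈ U` (of_mem), so `V a = ck ξ` and it is in `Y`.
* rep_y: for `B = ROP (Fn κ J Z)`. For `a : K` the nonzero `b ⊓ y a ξ` are pairwise disjoint, so there are at
  most `#Z` such `ξ` (choose `p` with `em p ≤ b ⊓ y a ξ` for each; they form an antichain; `cc`; injective). Let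
  `S = {(a, ξ) | b ⊓ y a ξ ≠ ⊥}`, `#S ≤ #K * #Z ≤ #Z`. `exists_supps` for `S`: `A₁`, `#A₁ ≤ #Z`. For `A ⊇ A₁` (supp_mono)
  choose `w a ξ : ROP (FnOn κ J Z A)` with `pb (rs A) (w a ξ) = b ⊓ y a ξ` for all `(a, ξ)` (`⊥` outside `S`; ch_pb .bot).
  `yA = graphName (K × Θ) (ck ·.1) (ck ·.2) w`; `mapN (pb (rs A)) yA` is the graph name above (mapN_graph, mapN_ck).
-/

set_option autoImplicit false

namespace Pool.Agent.Lib.FMM

open Set Cardinal Pool.Agent.Lib.WkD Pool.Agent.Lib.BVM Pool.Agent.Lib.BVM.bSet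

namespace RepYAux

theorem exists_val {B K : Type} [CompleteBooleanAlgebra B] [LinearOrder K] [WellFoundedLT K]
    (Y : bSet B) (b : B)
    (h : ∀ U : Ultra B, b ∈ U → IsOnSeq (E U) (q U (lamN B K)) (q U Y)) (a : K) :
    ∃ V : bSet B, ∀ U : Ultra B, b ∈ U → App (E U) (q U Y) (q U (ck B a)) (q U V) := by
  obtain ⟨V, hV⟩ := exists_max
    (fun y => bv (fun U => App (E U) (q U Y) (q U (ck B a)) (q U y)))
    (fun x y => Ultra.le_of_forall fun U hU => by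
      obtain ⟨h1, h2⟩ := Ultra.inf_iff.1 hU
      rw [← (BV.app Y (ck B a) y).iff U, ← q_eq.2 h1]
      exact ((BV.app Y (ck B a) x).iff U).2 h2)
  refine ⟨V, fun U hU => ?_⟩
  obtain ⟨m, hm, -⟩ := (h U hU).1.2 _ (E_lamN a U)
  have hex : ∃ m, App (E U) (q U Y) (q U (ck B a)) m := ⟨m, hm⟩
  rw [los_ex (P := fun U m => App (E U) (q U Y) (q U (ck B a)) m)
    (fun x U => (BV.app Y (ck B a) x).iff U)] at hex
  exact ((BV.app Y (ck B a) V).iff U).2 (Ultra.mono hex hV)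

/-- pairwise disjoint nonzero elements are at most `#Z` many -/
theorem card_dis {κ : Cardinal.{0}} {K J Z : Type} [LinearOrder K] [WellFoundedLT K]
    (hK : RegK κ K) (hZ : ZC κ Z) {ι : Type} (c : ι → ROP (Fn κ J Z))
    (hne : ∀ i, c i ≠ ⊥) (hdis : ∀ i j, i ≠ j → c i ⊓ c j = ⊥) : #ι ≤ #Z := by
  choose p hp using fun i => exists_em (hne i)
  have hinj : ∀ i j, ∀ r, r ≤ p i → r ≤ p j → i = j := by
    intro i j r h1 h2
    by_contra hij
    apply em_ne_bot r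
    rw [← le_bot_iff, ← hdis i j hij]
    exact le_inf ((em_mono h1).trans (hp i)) ((em_mono h2).trans (hp j))
  have h1 : #(range p) ≤ #Z := by
    apply cc hK hZ
    rintro _ ⟨i, rfl⟩ _ ⟨j, rfl⟩ hij ⟨r, hr, hr'⟩
    exact hij (congrArg p (hinj i j r hr hr'))
  have h2 : Function.Injective p := fun i j he => hinj i j (p i) le_rfl he.le
  rwa [mk_range_eq p h2] at h1

end RepYAux

theorem on_matrix {B K : Type} [CompleteBooleanAlgebra B] [LinearOrder K] [WellFoundedLT K]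
    (Y : bSet B) (b : B)
    (h : ∀ U : Ultra B, b ∈ U → IsOnSeq (E U) (q U (lamN B K)) (q U Y)) :
    ∃ (Θ : Type) (_ : LinearOrder Θ) (_ : WellFoundedLT Θ) (y : K → Θ → B),
      (∀ a ξ ξ', ξ ≠ ξ' → b ⊓ y a ξ ⊓ y a ξ' = ⊥) ∧
      ∀ U : Ultra B, b ∈ U → q U Y = q U (graphName (ι := K × Θ) (fun p => ck B p.1)
        (fun p => ck B p.2) (fun p => b ⊓ y p.1 p.2)) := by
  choose V hV using RepYAux.exists_val Y b h
  choose μ hμ using fun a => ord_bound (V a)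
  have hΘ : ∀ a, μ a < #(Order.succ (Cardinal.sum μ)).ord.ToType := by
    intro a
    rw [Cardinal.mk_ord_toType]
    exact (Cardinal.le_sum μ a).trans_lt (Order.lt_succ _)
  have hsup : ∀ (a : K) (U : Ultra B), b ∈ U →
      (⨆ ξ : (Order.succ (Cardinal.sum μ)).ord.ToType, beq (V a) (ck B ξ)) ∈ U :=
    fun a U hU => hμ a _ (hΘ a) U ((h U hU).2 _ _ (hV a U hU))
  refine ⟨(Order.succ (Cardinal.sum μ)).ord.ToType, inferInstance, inferInstance,
    fun a ξ => beq (V a) (ck B ξ), ?_, ?_⟩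
  · intro a ξ ξ' hne
    refine le_bot_iff.1 (Ultra.le_of_forall fun U hU => ?_)
    obtain ⟨h1, h2⟩ := Ultra.inf_iff.1 hU
    obtain ⟨h3, h4⟩ := Ultra.inf_iff.1 h1
    exact absurd (ck_inj ((q_eq.2 h4).symm.trans (q_eq.2 h2))) hne
  · intro U hU
    apply ext_mod
    intro z
    obtain ⟨Z, rfl⟩ := q_surj z
    constructor
    · intro hz
      obtain ⟨x, v, hx, hp⟩ := (h U hU).1.1 _ hz
      obtain ⟨X, rfl⟩ := q_surj x
      obtain ⟨W, rfl⟩ := q_surj v
      refine of_mem_lamN (Z := X)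
        (P := fun U => E U (q U Z) (q U (graphName
          (ι := K × (Order.succ (Cardinal.sum μ)).ord.ToType) (fun p => ck B p.1)
          (fun p => ck B p.2) (fun p => b ⊓ beq (V p.1) (ck B p.2)))))
        (Q := fun U => b ∈ U ∧ IsPair (E U) (q U X) (q U W) (q U Z) ∧ E U (q U Z) (q U Y))
        (BV.mem _ _) ((BV.of_mem _).and ((BV.isPair _ _ _).and (BV.mem _ _)))
        (fun a U hX hQ => ?_) hx ⟨hU, hp, hz⟩
      obtain ⟨hU, hp, hz⟩ := hQ
      rw [hX] at hp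
      have h1 : App (E U) (q U Y) (q U (ck B a)) (q U W) := ⟨_, hp, hz⟩
      have h2 : q U W = q U (V a) := app_unique (h U hU).1 (E_lamN a U) h1 (hV a U hU)
      refine of_iSup (t := fun ξ : (Order.succ (Cardinal.sum μ)).ord.ToType =>
          beq (V a) (ck B ξ))
        (P := fun U => E U (q U Z) (q U (graphName
          (ι := K × (Order.succ (Cardinal.sum μ)).ord.ToType) (fun p => ck B p.1)
          (fun p => ck B p.2) (fun p => b ⊓ beq (V p.1) (ck B p.2)))))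
        (Q := fun U => b ∈ U ∧ IsPair (E U) (q U (ck B a)) (q U W) (q U Z) ∧
          q U W = q U (V a))
        (BV.mem _ _) ((BV.of_mem _).and ((BV.isPair _ _ _).and (BV.eq _ _)))
        (fun ξ U hξ hQ => ?_) (hsup a U hU) ⟨hU, hp, h2⟩
      obtain ⟨hU, hp, h2⟩ := hQ
      rw [isPair_iff.1 hp, ← app_iff, h2, q_eq.2 hξ, app_graph]
      refine Ultra.mono (Ultra.inf_iff.2 ⟨hU, hξ⟩) (le_iSup_of_le (a, ξ) ?_)
      simp only
      rw [beq_refl, beq_refl, inf_top_eq, inf_top_eq]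
    · intro hz
      refine of_mem (X := graphName
          (ι := K × (Order.succ (Cardinal.sum μ)).ord.ToType) (fun p => ck B p.1)
          (fun p => ck B p.2) (fun p => b ⊓ beq (V p.1) (ck B p.2))) (Z := Z)
        (P := fun U => E U (q U Z) (q U Y)) (Q := fun _ => True)
        (BV.mem _ _) (BV.const True) (fun p U hp hZ _ => ?_) hz trivial
      obtain ⟨hb, hξ⟩ := Ultra.inf_iff.1 hp
      rw [hZ]
      change E U (q U (bpair (ck B p.1) (ck B p.2))) (q U Y)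
      rw [← app_iff, ← q_eq.2 hξ]
      exact hV p.1 U hb

theorem rep_y {κ : Cardinal.{0}} {K J Z : Type} [LinearOrder K] [WellFoundedLT K]
    (hK : RegK κ K) (hZ : ZC κ Z) (Y : bSet (ROP (Fn κ J Z))) (b : ROP (Fn κ J Z))
    (h : ∀ U : Ultra (ROP (Fn κ J Z)), b ∈ U → IsOnSeq (E U) (q U (lamN _ K)) (q U Y)) :
    ∃ A₁ : Set J, #A₁ ≤ #Z ∧ ∀ A : Set J, A₁ ⊆ A → ∃ yA : bSet (ROP (FnOn κ J Z A)),
      ∀ U : Ultra (ROP (Fn κ J Z)), b ∈ U → q U Y = q U (mapN (pb (rs A)) yA) := by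
  obtain ⟨Θ, iL, iW, y, hdis, hrep⟩ := on_matrix Y b h
  have h0 : ℵ₀ ≤ #Z := hK.unc.le.trans hZ.le
  have hκ : ℵ₀ ≤ κ := hK.unc.le
  have hcol : ∀ a : K, #{ξ : Θ // b ⊓ y a ξ ≠ ⊥} ≤ #Z := by
    intro a
    refine RepYAux.card_dis hK hZ (fun ξ : {ξ : Θ // b ⊓ y a ξ ≠ ⊥} => b ⊓ y a ξ.1)
      (fun ξ => ξ.2) ?_
    intro ξ ξ' hne
    have h3 : ξ.1 ≠ ξ'.1 := fun h => hne (Subtype.ext h)
    refine le_bot_iff.1 (le_trans ?_ (hdis a ξ.1 ξ'.1 h3).le)
    exact inf_le_inf_left _ inf_le_right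
  have hS : #(Σ a : K, {ξ : Θ // b ⊓ y a ξ ≠ ⊥}) ≤ #Z := by
    rw [mk_sigma]
    refine (Cardinal.sum_le_sum _ (fun _ => #Z) hcol).trans ?_
    rw [Cardinal.sum_const']
    exact mul_le_of_le h0 (hK.card.le.trans hZ.le) le_rfl
  obtain ⟨A₁, hA₁, hsup⟩ := exists_supps hK hZ hS (fun i => b ⊓ y i.1 i.2.1)
  refine ⟨A₁, hA₁, fun A hA => ?_⟩
  have hF : CH (pb (rs A) : ROP (FnOn κ J Z A) → ROP (Fn κ J Z)) := ch_pb (proj_rs hκ A)
  have hw : ∀ p : K × Θ, ∃ w : ROP (FnOn κ J Z A), pb (rs A) w = b ⊓ y p.1 p.2 := by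
    intro p
    by_cases hp : b ⊓ y p.1 p.2 = ⊥
    · exact ⟨⊥, by rw [hp]; exact hF.bot⟩
    · obtain ⟨b', hb'⟩ := hsup ⟨p.1, p.2, hp⟩
      obtain ⟨b'', hb''⟩ := supp_mono hκ hA b'
      exact ⟨b'', hb''.trans hb'⟩
  choose w hw using hw
  refine ⟨graphName (ι := K × Θ) (fun p => ck _ p.1) (fun p => ck _ p.2) w, fun U hU => ?_⟩
  rw [hrep U hU, mapN_graph hF]
  simp only [mapN_ck hF, hw]

end Pool.Agent.Lib.FMM
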