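import Pool.Agent.Lib.FMM.TreeA

/-!
# Module FMM.TreeB: full Miller trees of the model have a full Miller matrix

THEOREM. If `FullMiller k (trN t)` holds in the quotient by `U`, then `BFM t ∈ U`.

PROOF. Let `β = bv (fun U => FullMiller (E U) k (q U (trN t)))` (BV_fullMiller). It is enough: `β ≤ BFM t`
(`β ∈ U`). Use le_BFM_iff with `a = β` and Ultra.le_of_forall: for each clause let `U'` be an ultrafilter
containing the left hand side; then FullMiller holds in the quotient by `U'` ((BV_fullMiller ..).iff).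
1. `∃ s ∈ trN t`: E_mk / of_mem_trN gives `⨆ u, t u ∈ U'` (P U = this membership, BV.of_mem).
2. `v ≤ u`, `t v ∈ U'`: `ndN v ∈ T`, `Sub (ndN u) (ndN v)`, IsTree gives `ndN u ∈ T`, E_trN.
3. `u.Lim`, `(⨅ v, (u < v), t v) ∈ U'`: let `C = domN` of the names `ndN v`, `u < v` (index type
   `{v : Nd K K // u < v}`; WkD.MDefs domN, MCheck of_mem_domN, E_domN). Elements of `C` are in `T`: of_mem_domN with
   `P U = (Z ∈ T)`, `Q U = (⨅ v, t v ∈ U)`. Chain: two case analyses; `u < v`, `u < v'`: comparable (Nd.comp').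
   `ndN u` is a node. Union: `p ∈ ndN u`: of_mem_ndN: `p = bpair (ck i) (ck j)`, `u.1 i = some j`; `i < u.len`; `u < u.ini i`
   (lengths), Lim.between gives `w`, `u < w < u.ini i`, so `i < w.len` and `w.1 i = some j` (val_eq), `p ∈ ndN w` (app_ndN,
   app_iff), `ndN w ∈ C`. Conversely `r ∈ C`, `p ∈ r`: case `r = ndN v`, `Sub (ndN v) (ndN u)`. IsClosed gives
   `ndN u ∈ T`.
4. `t u ∈ U'`: there is a name `Y` with `Sub (ndN u) Y`, IsSplit k T Y. `Y ∈ T`: of_mem_trN with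
   `P U = ((⨆ v, (v ≤ u), sp t v) ∈ U)`, `Q U = Sub (ndN u) Y ∧ IsSplit k T Y`: `Y = ndN v`, `v ≤ u`, isSplit_iff.
5. `sp t v ∈ U'`: then also `t v ∈ U'` (`sp t v ≤ ⨆ t (v.snoc ξ)`; on each term clause 2; or: `β ⊓ sp t v ≤ t v` by clause
   2 and iSup), so IsSplit k T (ndN v) (isSplit_iff); `ndN (v.snoc ξ)` is a child (isChild_iff), so it is in
   `T`, E_trN.
-/

set_option autoImplicit false

namespace Pool.Agent.Lib.FMM

open Set Cardinal Pool.Agent.Lib.WkD Pool.Agent.Lib.BVM Pool.Agent.Lib.BVM.bSet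

variable {B K : Type} [CompleteBooleanAlgebra B] [LinearOrder K] [WellFoundedLT K] [NoMaxOrder K]

namespace TreeBAux

/-- The Boolean value of `FullMiller`. -/
noncomputable def bet (t : Nd K K → B) : B :=
  bv (fun U => FullMiller (E U) (q U (lamN B K)) (q U (trN t)))

omit [NoMaxOrder K] in
theorem fm_of {t : Nd K K → B} {U : Ultra B} (h : bet t ∈ U) :
    FullMiller (E U) (q U (lamN B K)) (q U (trN t)) :=
  ((BV_fullMiller (lamN B K) (trN t)).iff U).2 h

omit [NoMaxOrder K] in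
theorem cl1 (t : Nd K K → B) : bet t ≤ ⨆ u, t u := by
  refine Ultra.le_of_forall fun U hU => ?_
  obtain ⟨⟨⟨s, hs⟩, -, -⟩, -, -, -⟩ := fm_of hU
  obtain ⟨Z, rfl⟩ := q_surj s
  exact of_mem_trN (P := fun U => (⨆ u, t u) ∈ U) (Q := fun _ => True) (BV.of_mem _)
    (BV.const True) (fun u U hu _ _ => Ultra.mono hu (le_iSup t u)) hs trivial

omit [NoMaxOrder K] in
theorem cl2 (t : Nd K K → B) (v u : Nd K K) (hvu : v ≤ u) : bet t ⊓ t v ≤ t u := by
  refine Ultra.le_of_forall fun U hU => ?_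
  obtain ⟨h1, h2⟩ := Ultra.inf_iff.1 hU
  obtain ⟨⟨-, -, htr⟩, -, -, -⟩ := fm_of h1
  exact E_trN.1 (htr _ _ (E_trN.2 h2) (isNode_ndN U u) (sub_ndN_ndN.2 hvu))

/-- the name of the chain of the proper initial segments of `u` -/
noncomputable def chn (B : Type) [CompleteBooleanAlgebra B] (u : Nd K K) : bSet B :=
  domN (fun v : {v : Nd K K // u < v} => ndN B v.1)

theorem union_chn {U : Ultra B} {u : Nd K K} (hu : u.Lim) (p : Mod U) :
    E U p (q U (ndN B u)) ↔ ∃ r, E U r (q U (chn B u)) ∧ E U p r := by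
  obtain ⟨Z, rfl⟩ := q_surj p
  constructor
  · intro h
    refine of_mem_ndN (P := fun U => ∃ r, E U r (q U (chn B u)) ∧ E U (q U Z) r)
      (Q := fun _ => True) ?_ (BV.const True) ?_ h trivial
    · exact BV.ex (P := fun U r => E U r (q U (chn B u)) ∧ E U (q U Z) r) fun r =>
        (BV.mem _ _).and (BV.mem _ _)
    · intro i j hij U hZ _
      have hi : i < u.len := Nd.lt_len hij
      have hini : u < u.ini i := by
        rw [Nd.lt_iff_len (Nd.le_ini u i), Nd.len_ini hi.le]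
        exact hi
      obtain ⟨w, hw1, hw2⟩ := hu.between hini
      have hiw : i < w.len := by
        have h3 := (Nd.lt_iff_len hw2.le).1 hw2
        rwa [Nd.len_ini hi.le] at h3
      have hwi : w.1 i = some j := by
        rw [← Nd.val_eq hw1.le hiw]
        exact hij
      refine ⟨q U (ndN B w), E_domN (fun v : {v : Nd K K // u < v} => ndN B v.1) ⟨w, hw1⟩ U, ?_⟩
      show E U (q U Z) (q U (ndN B w))
      rw [hZ]
      exact app_iff.1 (app_ndN.2 hwi)
  · rintro ⟨r, hr, hp⟩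
    obtain ⟨R, rfl⟩ := q_surj r
    refine of_mem_domN (c := fun v : {v : Nd K K // u < v} => ndN B v.1) (Z := R)
      (P := fun U => E U (q U Z) (q U (ndN B u)))
      (Q := fun U => E U (q U Z) (q U R)) (BV.mem _ _) (BV.mem _ _) ?_ hr hp
    intro v U hR hq
    have hq : E U (q U Z) (q U R) := hq
    rw [hR] at hq
    exact (sub_ndN_ndN.2 v.2.le : Sub (E U) (q U (ndN B v.1)) (q U (ndN B u))) _ hq

theorem cl3 (t : Nd K K → B) (u : Nd K K) (hu : u.Lim) :
    bet t ⊓ (⨅ v : {v : Nd K K // u < v}, t v.1) ≤ t u := by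
  refine Ultra.le_of_forall fun U hU => ?_
  obtain ⟨h1, h2⟩ := Ultra.inf_iff.1 hU
  obtain ⟨-, hcl, -, -⟩ := fm_of h1
  refine E_trN.1 (hcl (q U (chn B u)) (q U (ndN B u)) ?_ ?_ (isNode_ndN U u)
    (fun p => union_chn hu p))
  · intro r hr
    obtain ⟨Z, rfl⟩ := q_surj r
    refine of_mem_domN (c := fun v : {v : Nd K K // u < v} => ndN B v.1) (Z := Z)
      (P := fun U => E U (q U Z) (q U (trN t)))
      (Q := fun U => (⨅ v : {v : Nd K K // u < v}, t v.1) ∈ U) (BV.mem _ _) (BV.of_mem _) ?_ hr h2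
    intro v U hZ hq
    show E U (q U Z) (q U (trN t))
    rw [hZ]
    exact E_trN.2 (Ultra.mono hq (iInf_le (fun v : {v : Nd K K // u < v} => t v.1) v))
  · intro r r' hr hr'
    obtain ⟨Z, rfl⟩ := q_surj r
    obtain ⟨Z', rfl⟩ := q_surj r'
    refine of_mem_domN (c := fun v : {v : Nd K K // u < v} => ndN B v.1) (Z := Z)
      (P := fun U => Sub (E U) (q U Z) (q U Z') ∨ Sub (E U) (q U Z') (q U Z))
      (Q := fun U => E U (q U Z') (q U (chn B u))) ((BV_sub _ _).or (BV_sub _ _)) (BV.mem _ _)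
      ?_ hr hr'
    intro v U hZ hq
    refine of_mem_domN (c := fun v : {v : Nd K K // u < v} => ndN B v.1) (Z := Z')
      (P := fun U => Sub (E U) (q U Z) (q U Z') ∨ Sub (E U) (q U Z') (q U Z))
      (Q := fun U => q U Z = q U (ndN B v.1)) ((BV_sub _ _).or (BV_sub _ _)) (BV.eq _ _)
      ?_ hq hZ
    intro v' U hZ' hZ
    show Sub (E U) (q U Z) (q U Z') ∨ Sub (E U) (q U Z') (q U Z)
    have hZ : q U Z = q U (ndN B v.1) := hZ
    rw [hZ, hZ']
    rcases Nd.comp' v.2.le v'.2.le with h | h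
    · exact Or.inr (sub_ndN_ndN.2 h)
    · exact Or.inl (sub_ndN_ndN.2 h)

theorem cl4 (hB : BDist B K) (t : Nd K K → B) (u : Nd K K) :
    bet t ⊓ t u ≤ ⨆ v : {v : Nd K K // v ≤ u}, sp t v.1 := by
  refine Ultra.le_of_forall fun U hU => ?_
  obtain ⟨h1, h2⟩ := Ultra.inf_iff.1 hU
  obtain ⟨-, -, hsp, -⟩ := fm_of h1
  obtain ⟨y, hy1, hy2⟩ := hsp _ (E_trN.2 h2 : E U (q U (ndN B u)) (q U (trN t)))
  obtain ⟨Y, rfl⟩ := q_surj y
  refine of_mem_trN (P := fun U => (⨆ v : {v : Nd K K // v ≤ u}, sp t v.1) ∈ U)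
    (Q := fun U => Sub (E U) (q U (ndN B u)) (q U Y) ∧
      IsSplit (E U) (q U (lamN B K)) (q U (trN t)) (q U Y)) (BV.of_mem _)
    ((BV_sub _ _).and (BV_isSplit _ _ _)) ?_ hy2.1 ⟨hy1, hy2⟩
  intro v U _ hY hq
  obtain ⟨hq1, hq2⟩ := hq
  rw [hY] at hq1 hq2
  have hv : v ≤ u := sub_ndN_ndN.1 hq1
  exact Ultra.mono (Ultra.inf_iff.1 ((isSplit_iff hB).1 hq2)).2
    (le_iSup (fun v : {v : Nd K K // v ≤ u} => sp t v.1) ⟨v, hv⟩)

theorem cl5 (hB : BDist B K) (t : Nd K K → B) (v : Nd K K) (ξ : K) :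
    bet t ⊓ sp t v ≤ t (v.snoc ξ) := by
  refine Ultra.le_of_forall fun U hU => ?_
  obtain ⟨h1, h2⟩ := Ultra.inf_iff.1 hU
  obtain ⟨-, -, -, hch⟩ := fm_of h1
  have hv : t v ∈ U := by
    have h3 : bet t ⊓ sp t v ≤ t v := by
      unfold sp
      rw [inf_iSup_eq]
      refine iSup_le fun p => ?_
      exact (inf_le_inf_left _ inf_le_left).trans (cl2 t _ _ (Nd.snoc_le v p.1.1))
    exact Ultra.mono hU h3
  exact E_trN.1 (hch _ _ ((isSplit_iff hB).2 (Ultra.inf_iff.2 ⟨hv, h2⟩))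
    ((isChild_iff hB).2 ⟨ξ, rfl⟩))

end TreeBAux

open TreeBAux

theorem bfm_of (hB : BDist B K) {t : Nd K K → B} {U : Ultra B}
    (h : FullMiller (E U) (q U (lamN B K)) (q U (trN t))) : BFM t ∈ U := by
  have hU : bet t ∈ U := ((BV_fullMiller (lamN B K) (trN t)).iff U).1 h
  exact Ultra.mono hU (le_BFM_iff.2 ⟨cl1 t, cl2 t, cl3 t, cl4 hB t, cl5 hB t⟩)

end Pool.Agent.Lib.FMM
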