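import Pool.Agent.Lib.FMM.TreeA

/-!
# Module FMM.TreeC: a full Miller matrix gives a full Miller tree of the model

THEOREM. If `BFM t ∈ U` then `FullMiller k (trN t)` holds in the quotient by `U`.

PROOF. `BFM t ∈ U` gives `BFM t ≤ ..` for all clauses (le_BFM_iff with `a = BFM t`). In case analyses
(of_mem_trN, of_node, of_mem, of_iSup) the ultrafilter changes; always put `BFM t ∈ U` (BV.of_mem) into `Q`.
* `∃ s ∈ T`: `⨆ u, t u ∈ U`; of_iSup: `ndN u ∈ T` (E_trN).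
* elements are nodes: of_mem_trN, isNode_ndN.
* closed under initial segments: `t₀ ∈ T`, `s` a node, `Sub s t₀`: of_mem_trN for `t₀` and of_node for `s`: `t v ∈ U`,
  `v ≤ u`, clause 2.
* IsClosed: `C`, `s` given with `C ⊆ T`, chain, union `= s` (call this `H U`, BV). of_node for `s` with
  `P U = (s ∈ T)`, `Q U = H U ∧ BFM t ∈ U`: `s = ndN u`, goal `t u ∈ U` (E_trN).
  FACT: for an entry `u.1 i = some j` and any `U'` with `H U'`, `BFM t ∈ U'`, `s = ndN u` in `U'`: the pair `(ck i, ck j)` is in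
  `ndN u`, so in some `r ∈ C`; `r ∈ T`, case (of_mem_trN) `r = ndN w`, `t w ∈ U'`, `w.1 i = some j` (app_ndN), and
  `Sub (ndN w) (ndN u)`, so `u ≤ w` and `i < w.len`. So: `(⨆ w : {w // u ≤ w ∧ i < w.len}, t w) ∈ U'`.
  If `u = v.snoc x`: FACT for `i = v.len`: `w` with `u ≤ w`, `v.len < w.len`, so `w = u` (lengths: lt_snoc_len,
  eq_of_le), `t u ∈ U'`. If `u.Lim`: for `v` with `u < v` FACT for `i = v.len < u.len`: `w ≤ v` (comp), `t w ≤ t v` (clause 2);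
  so `bv (H ∧ BFM t ∈ U ∧ s = ndN u) ≤ t v` for all such `v`, so `(⨅ v, (u < v), t v) ∈ U`, clause 3.
* splitting extension: `s ∈ T`, case `s = ndN u`, `t u ∈ U`, clause 4: `(⨆ v, (v ≤ u), sp t v) ∈ U`, of_iSup: `sp t v ∈ U`,
  `t v ∈ U` by bfm_node; isSplit_iff, sub_ndN_ndN.
* full: `IsSplit k T s`, `IsChild k s t₀`: `s ∈ T`, case `s = ndN v`; `t₀` is a node, of_node: `t₀ = ndN w`, isChild_iff
  `w = v.snoc ξ`, isSplit_iff: `sp t v ∈ U`, clause 5.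
-/

set_option autoImplicit false

namespace Pool.Agent.Lib.FMM

open Set Cardinal Pool.Agent.Lib.WkD Pool.Agent.Lib.BVM Pool.Agent.Lib.BVM.bSet

variable {B K : Type} [CompleteBooleanAlgebra B] [LinearOrder K] [WellFoundedLT K] [NoMaxOrder K]

namespace TreeCAux

theorem ex_mem {t : Nd K K → B} {U : Ultra B} (h : BFM t ∈ U) :
    ∃ s, E U s (q U (trN t)) := by
  obtain ⟨c1, -, -, -, -⟩ := le_BFM_iff.1 (le_refl (BFM t))
  refine of_iSup (t := t) (P := fun U => ∃ s, E U s (q U (trN t))) (Q := fun _ => True)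
    (BV.ex (P := fun U s => E U s (q U (trN t))) fun s => BV.mem _ _) (BV.const True)
    (fun u U hu _ => ⟨_, E_trN.2 hu⟩) (Ultra.mono h c1) trivial

theorem node_mem {t : Nd K K → B} {U : Ultra B} (s : Mod U) (hs : E U s (q U (trN t))) :
    IsNode (E U) (q U (lamN B K)) s := by
  obtain ⟨X, rfl⟩ := q_surj s
  refine of_mem_trN (P := fun U => IsNode (E U) (q U (lamN B K)) (q U X)) (Q := fun _ => True)
    (BV_isNode _ _) (BV.const True) (fun u U _ hX _ => ?_) hs trivial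
  rw [hX]
  exact isNode_ndN U u

theorem init (hB : BDist B K) {t : Nd K K → B} {U : Ultra B} (h : BFM t ∈ U) (s t₀ : Mod U)
    (ht : E U t₀ (q U (trN t))) (hs : IsNode (E U) (q U (lamN B K)) s)
    (hst : Sub (E U) s t₀) : E U s (q U (trN t)) := by
  obtain ⟨X, rfl⟩ := q_surj s
  obtain ⟨Z, rfl⟩ := q_surj t₀
  obtain ⟨-, c2, -, -, -⟩ := le_BFM_iff.1 (le_refl (BFM t))
  refine of_mem_trN (P := fun U => E U (q U X) (q U (trN t)))
    (Q := fun U => IsNode (E U) (q U (lamN B K)) (q U X) ∧ Sub (E U) (q U X) (q U Z) ∧ BFM t ∈ U)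
    (BV.mem _ _) ((BV_isNode _ _).and ((BV_sub _ _).and (BV.of_mem _)))
    (fun v U hv hZ hQ => ?_) ht ⟨hs, hst, h⟩
  obtain ⟨h1, h2, h3⟩ := hQ
  rw [hZ] at h2
  refine of_node hB (X := X) (P := fun U => E U (q U X) (q U (trN t)))
    (Q := fun U => Sub (E U) (q U X) (q U (ndN B v)) ∧ BFM t ∈ U ∧ t v ∈ U)
    (BV.mem _ _) ((BV_sub _ _).and ((BV.of_mem _).and (BV.of_mem _)))
    (fun u U hX hQ => ?_) h1 ⟨h2, h3, hv⟩
  obtain ⟨h4, h5, h6⟩ := hQ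
  rw [hX] at h4 ⊢
  rw [E_trN]
  exact Ultra.mono (Ultra.inf_iff.2 ⟨h5, h6⟩) (c2 v u (sub_ndN_ndN.1 h4))

/-- the hypotheses on the chain `C` with union `S` -/
def HC (t : Nd K K → B) (C S : bSet B) (U : Ultra B) : Prop :=
  (∀ r, E U r (q U C) → E U r (q U (trN t))) ∧
    ∀ p, E U p (q U S) ↔ ∃ r, E U r (q U C) ∧ E U p r

theorem BV_HC (t : Nd K K → B) (C S : bSet B) : BV (HC t C S) :=
  (BV.all (P := fun U r => E U r (q U C) → E U r (q U (trN t))) fun _ =>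
    (BV.mem _ _).imp (BV.mem _ _)).and
  (BV.all (P := fun U p => E U p (q U S) ↔ ∃ r, E U r (q U C) ∧ E U p r) fun p =>
    (BV.mem _ _).biimp (BV.ex (P := fun U r => E U r (q U C) ∧ E U (q U p) r) fun _ =>
      (BV.mem _ _).and (BV.mem _ _)))

theorem fact {t : Nd K K → B} {C S : bSet B} {u : Nd K K} {i j : K} (hij : u.1 i = some j)
    {U : Ultra B} (hH : HC t C S U) (hS : q U S = q U (ndN B u)) :
    (⨆ w : {w : Nd K K // u ≤ w ∧ i < w.len}, t w.1) ∈ U := by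
  have h1 : E U (q U (bpair (ck B i) (ck B j))) (q U (ndN B u)) :=
    app_iff.1 (app_ndN.2 hij)
  rw [← hS] at h1
  obtain ⟨r, hr1, hr2⟩ := (hH.2 _).1 h1
  have hr3 := hH.1 r hr1
  have hr4 : Sub (E U) r (q U (ndN B u)) := by
    intro z hz
    rw [← hS]
    exact (hH.2 z).2 ⟨r, hr1, hz⟩
  obtain ⟨R, rfl⟩ := q_surj r
  refine of_mem_trN (P := fun U => (⨆ w : {w : Nd K K // u ≤ w ∧ i < w.len}, t w.1) ∈ U)
    (Q := fun U => E U (q U (bpair (ck B i) (ck B j))) (q U R) ∧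
      Sub (E U) (q U R) (q U (ndN B u)))
    (BV.of_mem _) ((BV.mem _ _).and (BV_sub _ _)) (fun w U hw hR hQ => ?_) hr3 ⟨hr2, hr4⟩
  obtain ⟨h2, h3⟩ := hQ
  rw [hR] at h2 h3
  have h4 : w.1 i = some j := app_ndN.1 (app_iff.2 h2)
  exact Ultra.mono hw (le_iSup (fun w : {w : Nd K K // u ≤ w ∧ i < w.len} => t w.1)
    ⟨w, sub_ndN_ndN.1 h3, Nd.lt_len h4⟩)

theorem closed (hB : BDist B K) {t : Nd K K → B} {U : Ultra B} (h : BFM t ∈ U) :
    IsClosed (E U) (q U (lamN B K)) (q U (trN t)) := by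
  intro C S hC _ hS hU
  obtain ⟨Cn, rfl⟩ := q_surj C
  obtain ⟨Sn, rfl⟩ := q_surj S
  obtain ⟨-, c2, c3, -, -⟩ := le_BFM_iff.1 (le_refl (BFM t))
  refine of_node hB (X := Sn) (P := fun U => E U (q U Sn) (q U (trN t)))
    (Q := fun U => HC t Cn Sn U ∧ BFM t ∈ U) (BV.mem _ _) ((BV_HC _ _ _).and (BV.of_mem _))
    (fun u U hX hQ => ?_) hS ⟨⟨hC, hU⟩, h⟩
  obtain ⟨h1, h2⟩ := hQ
  rw [hX, E_trN]
  rcases Nd.lim_or u with hu | ⟨v, x, rfl⟩
  · have hb : BV (fun U => HC t Cn Sn U ∧ BFM t ∈ U ∧ q U Sn = q U (ndN B u)) :=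
      (BV_HC _ _ _).and ((BV.of_mem _).and (BV.eq _ _))
    have hbU : bv (fun U => HC t Cn Sn U ∧ BFM t ∈ U ∧ q U Sn = q U (ndN B u)) ∈ U :=
      (hb.iff U).1 ⟨h1, h2, hX⟩
    have h3 : bv (fun U => HC t Cn Sn U ∧ BFM t ∈ U ∧ q U Sn = q U (ndN B u)) ≤
        ⨅ v : {v : Nd K K // u < v}, t v.1 := by
      refine le_iInf fun v => Ultra.le_of_forall fun U' hU' => ?_
      obtain ⟨h4, h5, h6⟩ := (hb.iff U').2 hU'
      have hl : v.1.len < u.len := (Nd.lt_iff_len v.2.le).1 v.2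
      obtain ⟨j, hj⟩ := Nd.exists_val hl
      have h7 := fact hj h4 h6
      refine Ultra.mono (Ultra.inf_iff.2 ⟨h5, h7⟩) ?_
      rw [inf_iSup_eq]
      refine iSup_le fun w => ?_
      exact c2 _ _ (Nd.comp v.2.le w.2.1 w.2.2.le)
    exact Ultra.mono (Ultra.inf_iff.2 ⟨h2, Ultra.mono hbU h3⟩) (c3 u hu)
  · refine Ultra.mono (fact (Nd.snoc_val v x) h1 hX) ?_
    refine iSup_le fun w => ?_
    have h3 : v.snoc x = w.1 := by
      refine Nd.eq_of_le w.2.1 ?_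
      by_contra hc
      exact absurd (Nd.lt_snoc_len.1 (not_le.1 hc)) (not_le.2 w.2.2)
    rw [← h3]

theorem split {t : Nd K K → B} (hB : BDist B K) {U : Ultra B} (h : BFM t ∈ U) (s : Mod U)
    (hs : E U s (q U (trN t))) :
    ∃ r, Sub (E U) s r ∧ IsSplit (E U) (q U (lamN B K)) (q U (trN t)) r := by
  obtain ⟨X, rfl⟩ := q_surj s
  obtain ⟨-, -, -, c4, -⟩ := le_BFM_iff.1 (le_refl (BFM t))
  have hBV : ∀ Y : bSet B, BV (fun U => ∃ r, Sub (E U) (q U Y) r ∧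
      IsSplit (E U) (q U (lamN B K)) (q U (trN t)) r) := fun Y =>
    BV.ex (P := fun U r => Sub (E U) (q U Y) r ∧
      IsSplit (E U) (q U (lamN B K)) (q U (trN t)) r) fun r => (BV_sub _ _).and (BV_isSplit _ _ _)
  refine of_mem_trN (P := fun U => ∃ r, Sub (E U) (q U X) r ∧
      IsSplit (E U) (q U (lamN B K)) (q U (trN t)) r) (Q := fun U => BFM t ∈ U)
    (hBV X) (BV.of_mem _) (fun u U hu hX hQ => ?_) hs h
  rw [hX]
  refine of_iSup (t := fun v : {v : Nd K K // v ≤ u} => sp t v.1)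
    (P := fun U => ∃ r, Sub (E U) (q U (ndN B u)) r ∧
      IsSplit (E U) (q U (lamN B K)) (q U (trN t)) r) (Q := fun U => BFM t ∈ U)
    (hBV _) (BV.of_mem _) (fun v U hv hQ => ?_)
    (Ultra.mono (Ultra.inf_iff.2 ⟨hQ, hu⟩) (c4 u)) hQ
  refine ⟨q U (ndN B v.1), sub_ndN_ndN.2 v.2, (isSplit_iff hB).2 (Ultra.inf_iff.2 ⟨?_, hv⟩)⟩
  exact Ultra.mono (Ultra.inf_iff.2 ⟨hQ, hv⟩) (bfm_node (le_refl (BFM t)) v.1)

theorem full {t : Nd K K → B} (hB : BDist B K) {U : Ultra B} (h : BFM t ∈ U) (s t₀ : Mod U)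
    (hs : IsSplit (E U) (q U (lamN B K)) (q U (trN t)) s)
    (hc : IsChild (E U) (q U (lamN B K)) s t₀) : E U t₀ (q U (trN t)) := by
  obtain ⟨X, rfl⟩ := q_surj s
  obtain ⟨Z, rfl⟩ := q_surj t₀
  obtain ⟨-, -, -, -, c5⟩ := le_BFM_iff.1 (le_refl (BFM t))
  refine of_mem_trN (Z := X) (P := fun U => E U (q U Z) (q U (trN t)))
    (Q := fun U => IsSplit (E U) (q U (lamN B K)) (q U (trN t)) (q U X) ∧
      IsChild (E U) (q U (lamN B K)) (q U X) (q U Z) ∧ BFM t ∈ U)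
    (BV.mem _ _) ((BV_isSplit _ _ _).and ((BV_isChild _ _ _).and (BV.of_mem _)))
    (fun v U hv hX hQ => ?_) hs.1 ⟨hs, hc, h⟩
  obtain ⟨h1, h2, h3⟩ := hQ
  rw [hX] at h1 h2
  refine of_node hB (X := Z) (P := fun U => E U (q U Z) (q U (trN t)))
    (Q := fun U => IsSplit (E U) (q U (lamN B K)) (q U (trN t)) (q U (ndN B v)) ∧
      IsChild (E U) (q U (lamN B K)) (q U (ndN B v)) (q U Z) ∧ BFM t ∈ U)
    (BV.mem _ _) ((BV_isSplit _ _ _).and ((BV_isChild _ _ _).and (BV.of_mem _)))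
    (fun w U hZ hQ => ?_) h2.2.1 ⟨h1, h2, h3⟩
  obtain ⟨h4, h5, h6⟩ := hQ
  rw [hZ] at h5 ⊢
  obtain ⟨ξ, rfl⟩ := (isChild_iff hB).1 h5
  rw [E_trN]
  exact Ultra.mono (Ultra.inf_iff.2 ⟨h6, (Ultra.inf_iff.1 ((isSplit_iff hB).1 h4)).2⟩) (c5 v ξ)

end TreeCAux

open TreeCAux

theorem of_bfm (hB : BDist B K) {t : Nd K K → B} {U : Ultra B} (h : BFM t ∈ U) :
    FullMiller (E U) (q U (lamN B K)) (q U (trN t)) :=
  ⟨⟨ex_mem h, node_mem, fun s t₀ => init hB h s t₀⟩, closed hB h, split hB h, full hB h⟩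

end Pool.Agent.Lib.FMM
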