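import Pool.Agent.Lib.FMM.Mat
import Pool.Agent.Lib.FMM.TreeB
import Pool.Agent.Lib.FMM.TreeC
import Pool.Agent.Lib.FMM.BranchM
import Pool.Agent.Lib.FMM.RepY
import Pool.Agent.Lib.FMM.KapM

/-!
# FMM.Final: the theorem for the quotients of the names
-/

set_option autoImplicit false

namespace Pool.Agent.Lib.FMM

open Set Cardinal Pool.Agent.Lib.WkD Pool.Agent.Lib.BVM Pool.Agent.Lib.BVM.bSet

theorem noMax {κ : Cardinal.{0}} {K : Type} [LinearOrder K] (hK : RegK κ K) : NoMaxOrder K :=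
  ⟨fun a => by
    obtain ⟨b, hb⟩ := hK.bdd {a} (by
      rw [mk_singleton]
      exact one_lt_aleph0.trans_le hK.unc.le)
    exact ⟨b, hb a rfl⟩⟩

section

variable {B : Type} [CompleteBooleanAlgebra B]

theorem bv_sat2 (φ : Fml) (X Y : bSet B) :
    BV (fun U => Sat (E U) φ (fun n => if n = 0 then q U X else q U Y)) := by
  have h1 := BV.sat φ (fun n => if n = 0 then X else Y)
  have h2 : (fun U : Ultra B => Sat (E U) φ (fun i => q U (if i = 0 then X else Y))) =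
      fun U => Sat (E U) φ (fun n => if n = 0 then q U X else q U Y) := by
    funext U
    congr 1
    funext n
    split_ifs <;> rfl
  rw [← h2]
  exact h1

/-- the conclusion of the theorem -/
def Gl (K : Type) [LinearOrder K] [WellFoundedLT K] (φ : Fml) (Y T : bSet B) (U : Ultra B) :
    Prop :=
  ∃ T' : Mod U, FullMiller (E U) (q U (lamN B K)) T' ∧ Sub (E U) T' (q U T) ∧
    ((∀ x, Branch (E U) (q U (lamN B K)) T' x →
        Sat (E U) φ (fun n => if n = 0 then x else q U Y)) ∨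
      ∀ x, Branch (E U) (q U (lamN B K)) T' x →
        ¬ Sat (E U) φ (fun n => if n = 0 then x else q U Y))

theorem bv_Gl (K : Type) [LinearOrder K] [WellFoundedLT K] (φ : Fml) (Y T : bSet B) :
    BV (Gl K φ Y T) := by
  refine BV.ex fun T' => (BV_fullMiller _ _).and ((BV_sub _ _).and (BV.or ?_ ?_))
  · refine BV.all fun x => (BV_branch _ _ _).imp ?_
    exact bv_sat2 φ x Y
  · refine BV.all fun x => (BV_branch _ _ _).imp (BV.not ?_)
    exact bv_sat2 φ x Y

end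

variable {κ : Cardinal.{0}} {K J Z : Type} [LinearOrder K] [WellFoundedLT K]

theorem gl_of (hK : RegK κ K) (hZ : ZC κ Z) (hJ : #Z < #J) (φ : Fml)
    (Y T : bSet (ROP (Fn κ J Z))) (U : Ultra (ROP (Fn κ J Z)))
    (h1 : IsOnSeq (E U) (q U (lamN (ROP (Fn κ J Z)) K)) (q U Y))
    (h2 : FullMiller (E U) (q U (lamN (ROP (Fn κ J Z)) K)) (q U T)) : Gl K φ Y T U := by
  have hno : NoMaxOrder K := noMax hK
  have hB : BDist (ROP (Fn κ J Z)) K := bDist_of hK (cg_fn hK.reg J Z)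
  have hκ : ℵ₀ ≤ κ := hK.unc.le
  let H : Ultra (ROP (Fn κ J Z)) → Prop := fun U =>
    IsOnSeq (E U) (q U (lamN (ROP (Fn κ J Z)) K)) (q U Y) ∧
      FullMiller (E U) (q U (lamN (ROP (Fn κ J Z)) K)) (q U T)
  have hHB : BV H := (BV_isOnSeq _ _).and (BV_fullMiller _ _)
  have hGB : BV (Gl K φ Y T) := bv_Gl K φ Y T
  obtain ⟨A₁, hA₁, hy⟩ := rep_y hK hZ Y (bv H) (fun U hU => ((hHB.iff U).2 hU).1)
  obtain ⟨A₂, hA₂, ht⟩ := exists_supps hK hZ (card_nd hK hZ)
    (fun u : Nd K K => bmem (ndN (ROP (Fn κ J Z)) u) T)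
  have hA : #↥(A₁ ∪ A₂) ≤ #Z := (mk_union_le _ _).trans (add_le_of_le (hκ.trans hZ.le) hA₁ hA₂)
  obtain ⟨yA, hyA⟩ := hy (A₁ ∪ A₂) subset_union_left
  have ht' : ∀ u : Nd K K, ∃ b : ROP (FnOn κ J Z (A₁ ∪ A₂)),
      pb (rs (A₁ ∪ A₂)) b = bmem (ndN (ROP (Fn κ J Z)) u) T := fun u => by
    obtain ⟨b', hb'⟩ := ht u
    obtain ⟨b'', hb''⟩ := supp_mono hκ (subset_union_right : A₂ ⊆ A₁ ∪ A₂) b'
    exact ⟨b'', hb''.trans hb'⟩
  choose t ht using ht'
  suffices hle : bv H ≤ bv (Gl K φ Y T) from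
    (hGB.iff U).2 (Ultra.mono ((hHB.iff U).1 ⟨h1, h2⟩) hle)
  apply le_of_em
  intro p hp
  have hpt : em p ≤ pb (rs (A₁ ∪ A₂)) (BFM t) := by
    rw [pb_BFM (proj_rs hκ (A₁ ∪ A₂))]
    have e1 : (fun u => pb (rs (A₁ ∪ A₂)) (t u)) =
      fun u => bmem (ndN (ROP (Fn κ J Z)) u) T := funext ht
    rw [e1]
    refine Ultra.le_of_forall fun V hV => ?_
    have hV' : H V := (hHB.iff V).2 (Ultra.mono hV hp)
    have e2 := rep_trN hB (T := T) (U := V) hV'.2.1.2.1
    apply bfm_of hB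
    rw [← e2]
    exact hV'.2
  obtain ⟨q₁, hq, t', ε, h3, h4, h5⟩ := mat hK hZ hJ hA t yA φ p hpt
  refine ⟨q₁, hq, le_bv hGB fun V hV => ?_⟩
  refine ⟨q V (trN t'), of_bfm hB (Ultra.mono hV h3), ?_, ?_⟩
  · intro z hz
    obtain ⟨z, rfl⟩ := q_surj z
    refine of_mem_trN (P := fun U => E U (q U z) (q U T)) (Q := fun _ => True) (BV.mem _ _)
      (BV.const _) ?_ hz trivial
    intro u U' hu hz' _
    rw [hz']
    show bmem (ndN (ROP (Fn κ J Z)) u) T ∈ U'
    rw [← ht]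
    exact Ultra.mono hu (h4 u)
  · have key : ∀ X : bSet (ROP (Fn κ J Z)),
        Branch (E V) (q V (lamN (ROP (Fn κ J Z)) K)) (q V (trN t')) (q V X) →
        (Sat (E V) φ (fun n => if n = 0 then q V X else q V Y) ↔ ε) := by
      intro X hX
      by_contra hcon
      let Q : Ultra (ROP (Fn κ J Z)) → Prop := fun U =>
        Branch (E U) (q U (lamN (ROP (Fn κ J Z)) K)) (q U (trN t')) (q U X) ∧
          ¬ (Sat (E U) φ (fun n => if n = 0 then q U X else q U Y) ↔ ε)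
      have hQB : BV Q := (BV_branch _ _ _).and (BV.not ((bv_sat2 φ X Y).biimp (BV.const ε)))
      have hne : em q₁ ⊓ bv Q ≠ ⊥ := by
        intro h
        have h6 : em q₁ ⊓ bv Q ∈ V := Ultra.inf_iff.2 ⟨hV, (hQB.iff V).1 ⟨hX, hcon⟩⟩
        rw [h] at h6
        exact Ultra.bot h6
      obtain ⟨q', hq', hq'Q⟩ := exists_em_le hne
      have hbr : ∀ U : Ultra (ROP (Fn κ J Z)), em q' ∈ U → Q U := fun U hU =>
        (hQB.iff U).2 (Ultra.mono hU hq'Q)
      obtain ⟨U', hU', hiff⟩ := h5 q' hq' (xm X) (fun i => branch_tot (fun U hU => (hbr U hU).1) i)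
        (fun i j j' hj => branch_uniq (fun U hU => (hbr U hU).1) i j j' hj)
        (fun u => branch_br (fun U hU => (hbr U hU).1) u)
      apply (hbr U' hU').2
      rw [← hiff]
      unfold Tr
      rw [branch_eq (hbr U' hU').1, hyA U' (Ultra.mono hU' ((em_mono (hq'.trans hq)).trans hp))]
    by_cases hε : ε
    · left
      intro x hx
      obtain ⟨X, rfl⟩ := q_surj x
      exact (key X hx).2 hε
    · right
      intro x hx h
      obtain ⟨X, rfl⟩ := q_surj x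
      exact hε ((key X hx).1 h)

/-- All sets definable from a sequence of ordinals are measurable. -/
theorem measurable (hK : RegK κ K) (hZ : ZC κ Z) (hJ : #Z < #J) (U : Ultra (ROP (Fn κ J Z)))
    (φ : Fml) (y : Mod U) (hy : IsOnSeq (E U) (q U (lamN (ROP (Fn κ J Z)) K)) y) :
    Measurable (E U) (q U (lamN (ROP (Fn κ J Z)) K))
      (fun x => Sat (E U) φ (fun n => if n = 0 then x else y)) := by
  intro T hT
  obtain ⟨Y, rfl⟩ := q_surj y
  obtain ⟨T, rfl⟩ := q_surj T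
  exact gl_of hK hZ hJ φ Y T U hy hT

end Pool.Agent.Lib.FMM
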