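import Pool.Agent.Lib.FMM.NdB
import Pool.Agent.Lib.FMM.FnB

/-!
# Module FMM.Merge: sequences and conditions

THEOREM. For bijections `θ : K ⊕ J ≃ J'` and `l : L ≃ Z` the map
`m (s, g) (θ (inl i)) = (s i).map l`, `m (s, g) (θ (inr j)) = g j` is a dense embedding of
`Nd K L × Fn κ J Z` into `Fn κ J' Z`.

PROOF. The domain of `m (s, g)` is the image of `Iio s.len ⊕ dom g`, of size `< κ` (`hK.small`, `g.2`,
`add_lt_of_lt`). Monotone: clear. inc: if `p` extends `m (s, g)` and `m (s', g')` then `s`, `s'` agree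
where both are defined (`l` injective), so one extends the other; `g`, `g'` are compatible (Fn.glb2).
The common extension is the longer of `s`, `s'` with the union of `g`, `g'`. lift and dense: let `p` be
a condition (and `p ≤ m (s, g)` for lift; for dense take `s = nil`, `g` empty, or repeat the
argument). The set of the `i : K` with `p (θ (inl i)) ≠ none` has size `< κ`, so it has a strict bound `b` (`bdd`),
`b ≥ s.len`. Let `s'` have length `b` and the values `l⁻¹ (p (θ (inl i)))` if this is defined, otherwise an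
arbitrary value (`L` is nonempty if this case occurs: if `L` is empty, `Z` is empty, all conditions are
empty and all sequences have length `⊥`; treat this case separately or note that then `Nd K L`, `Fn κ J Z`,
`Fn κ J' Z` have only one element). `g' j = p (θ (inr j))`. Then `m (s', g')` extends `p`, `s' ≤ s`, `g' ≤ g`.
-/

set_option autoImplicit false

namespace Pool.Agent.Lib.FMM

open Set Cardinal Classical

namespace MergeAux

variable {κ : Cardinal.{0}} {K J J' L Z : Type} [LinearOrder K]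

theorem card_pre {A B V : Type} (p : PF B V) (hp : #p.dom < κ) (e : A → B)
    (he : Function.Injective e) : #(PF.dom (fun a => p (e a))) < κ := by
  refine lt_of_le_of_lt (mk_le_of_injective
    (f := fun a : PF.dom (fun a => p (e a)) => (⟨e a.1, a.2⟩ : p.dom)) ?_) hp
  intro a b hab
  exact Subtype.ext (he (congrArg Subtype.val hab))

theorem card_mf (hK : RegK κ K) (θ : K ⊕ J ≃ J') (l : L ≃ Z) (s : Nd K L) (g : Fn κ J Z) :
    #(PF.dom (fun j' => Sum.elim (fun i => (s.1 i).map l) g.1 (θ.symm j'))) < κ := by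
  have h1 : PF.dom (fun j' => Sum.elim (fun i => (s.1 i).map l) g.1 (θ.symm j')) ⊆
      (fun i => θ (Sum.inl i)) '' (Iio s.len) ∪ (fun j => θ (Sum.inr j)) '' g.1.dom := by
    intro j' hj'
    have hj : Sum.elim (fun i => (s.1 i).map l) g.1 (θ.symm j') ≠ none := hj'
    rcases h : θ.symm j' with i | j
    · left
      rw [h] at hj
      refine ⟨i, ?_, ?_⟩
      · rw [← Nd.dom_eq]
        intro hc
        apply hj
        show (s.1 i).map l = none
        rw [hc]
        rfl
      · show θ (Sum.inl i) = j'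
        rw [← h, Equiv.apply_symm_apply]
    · right
      rw [h] at hj
      refine ⟨j, hj, ?_⟩
      show θ (Sum.inr j) = j'
      rw [← h, Equiv.apply_symm_apply]
  refine lt_of_le_of_lt (mk_le_mk_of_subset h1) ((mk_union_le _ _).trans_lt
    (add_lt_of_lt hK.unc.le (mk_image_le.trans_lt (hK.small _)) (mk_image_le.trans_lt g.2)))

/-- the merged condition -/
noncomputable def mf (hK : RegK κ K) (θ : K ⊕ J ≃ J') (l : L ≃ Z) (w : Nd K L × Fn κ J Z) :
    Fn κ J' Z :=
  ⟨fun j' => Sum.elim (fun i => (w.1.1 i).map l) w.2.1 (θ.symm j'), card_mf hK θ l w.1 w.2⟩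

theorem mf_inl (hK : RegK κ K) (θ : K ⊕ J ≃ J') (l : L ≃ Z) (w : Nd K L × Fn κ J Z) (i : K) :
    (mf hK θ l w).1 (θ (Sum.inl i)) = (w.1.1 i).map l := by
  show Sum.elim (fun i => (w.1.1 i).map l) w.2.1 (θ.symm (θ (Sum.inl i))) = _
  rw [Equiv.symm_apply_apply]
  rfl

theorem mf_inr (hK : RegK κ K) (θ : K ⊕ J ≃ J') (l : L ≃ Z) (w : Nd K L × Fn κ J Z) (j : J) :
    (mf hK θ l w).1 (θ (Sum.inr j)) = w.2.1 j := by
  show Sum.elim (fun i => (w.1.1 i).map l) w.2.1 (θ.symm (θ (Sum.inr j))) = _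
  rw [Equiv.symm_apply_apply]
  rfl

theorem le_mf (hK : RegK κ K) (θ : K ⊕ J ≃ J') (l : L ≃ Z) (w : Nd K L × Fn κ J Z)
    (p : Fn κ J' Z) : p ≤ mf hK θ l w ↔
      (∀ i x, w.1.1 i = some x → p.1 (θ (Sum.inl i)) = some (l x)) ∧
      ∀ j z, w.2.1 j = some z → p.1 (θ (Sum.inr j)) = some z := by
  constructor
  · intro h
    refine ⟨fun i x hx => h _ _ ?_, fun j z hz => h _ _ ?_⟩
    · rw [mf_inl, hx]
      rfl
    · rw [mf_inr, hz]
  · rintro ⟨h1, h2⟩ j' z hz
    obtain ⟨c, rfl⟩ := θ.surjective j'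
    rcases c with i | j
    · rw [mf_inl] at hz
      obtain ⟨x, hx, rfl⟩ := Option.map_eq_some_iff.1 hz
      exact h1 i x hx
    · rw [mf_inr] at hz
      exact h2 j z hz

theorem fill (hK : RegK κ K) (θ : K ⊕ J ≃ J') (l : L ≃ Z) (x0 : L) (p : Fn κ J' Z) (c : K) :
    ∃ w : Nd K L × Fn κ J Z, c ≤ w.1.len ∧ mf hK θ l w ≤ p ∧
      (∀ i x, i < c → p.1 (θ (Sum.inl i)) = some (l x) → w.1.1 i = some x) ∧
      ∀ j z, p.1 (θ (Sum.inr j)) = some z → w.2.1 j = some z := by
  have hA := card_pre p.1 p.2 (fun i : K => θ (Sum.inl i))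
    (fun a b h => Sum.inl_injective (θ.injective h))
  have hB := card_pre p.1 p.2 (fun j : J => θ (Sum.inr j))
    (fun a b h => Sum.inr_injective (θ.injective h))
  obtain ⟨b, hb⟩ := hK.bdd _ hA
  have hval : ∀ i x, p.1 (θ (Sum.inl i)) = some (l x) →
      ((p.1 (θ (Sum.inl i))).map l.symm).getD x0 = x := by
    intro i x h
    rw [h]
    simp
  refine ⟨(Nd.ofFun (max b c) (fun i => ((p.1 (θ (Sum.inl i))).map l.symm).getD x0),
    ⟨fun j => p.1 (θ (Sum.inr j)), hB⟩), ?_, ?_, ?_, ?_⟩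
  · show c ≤ (Nd.ofFun _ _).len
    rw [Nd.len_ofFun]
    exact le_max_right _ _
  · intro j' z hz
    obtain ⟨d, rfl⟩ := θ.surjective j'
    rcases d with i | j
    · rw [mf_inl]
      show ((Nd.ofFun _ _).1 i).map l = some z
      have hi : i < max b c := lt_of_lt_of_le (hb i (by
        show p.1 (θ (Sum.inl i)) ≠ none
        rw [hz]
        simp)) (le_max_left _ _)
      rw [Nd.ofFun_val hi, hval i (l.symm z) (by rw [hz, Equiv.apply_symm_apply])]
      simp
    · rw [mf_inr]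
      exact hz
  · intro i x hi hx
    show (Nd.ofFun _ _).1 i = some x
    rw [Nd.ofFun_val (lt_of_lt_of_le hi (le_max_right _ _)), hval i x hx]
  · intro j z hz
    exact hz

end MergeAux

open MergeAux in
theorem exists_merge {κ : Cardinal.{0}} {K J J' L Z : Type} [LinearOrder K] [WellFoundedLT K]
    (hK : RegK κ K) (θ : K ⊕ J ≃ J') (l : L ≃ Z) :
    ∃ m : Nd K L × Fn κ J Z → Fn κ J' Z, DEmb m := by
  have hKne : Nonempty K := by
    rw [← mk_ne_zero_iff, hK.card]
    exact (lt_trans aleph0_pos hK.unc).ne'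
  refine ⟨mf hK θ l, ⟨⟨⟨?_, ?_⟩, ?_⟩, ?_⟩⟩
  · intro w w' h
    rw [le_mf]
    obtain ⟨h1, h2⟩ := h
    refine ⟨fun i x hx => ?_, fun j z hz => ?_⟩
    · rw [mf_inl, h1 i x hx]
      rfl
    · rw [mf_inr]
      exact h2 j z hz
  · intro w p hp
    obtain ⟨h1, h2⟩ := (le_mf hK θ l w p).1 hp
    by_cases hL : Nonempty L
    · obtain ⟨x0⟩ := hL
      obtain ⟨w', hl, hm, h3, h4⟩ := fill hK θ l x0 p w.1.len
      refine ⟨w', ⟨fun i x hx => h3 i x (Nd.lt_len hx) (h1 i x hx),
        fun j z hz => h4 j z (h2 j z hz)⟩, hm⟩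
    · exact ⟨w, le_rfl, fun j z _ => absurd ⟨l.symm z⟩ hL⟩
  · intro w w' p hp hp'
    obtain ⟨h1, h2⟩ := (le_mf hK θ l w p).1 hp
    obtain ⟨h1', h2'⟩ := (le_mf hK θ l w' p).1 hp'
    obtain ⟨g, hg, hg', -, -⟩ := Fn.glb2 hK.unc.le w.2 w'.2 (by
      intro j v v' hv hv'
      have e1 := h2 j v hv
      rw [h2' j v' hv'] at e1
      exact (Option.some.inj e1).symm)
    have key : ∀ i x x', w.1.1 i = some x → w'.1.1 i = some x' → x = x' := by
      intro i x x' hx hx'
      have e1 := h1 i x hx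
      rw [h1' i x' hx'] at e1
      exact (l.injective (Option.some.inj e1)).symm
    rcases le_total w.1.len w'.1.len with hl | hl
    · refine ⟨(w'.1, g), ⟨Nd.le_of_val fun i hi => ?_, hg⟩, ⟨le_rfl, hg'⟩⟩
      obtain ⟨x, hx⟩ := Nd.exists_val hi
      obtain ⟨x', hx'⟩ := Nd.exists_val (lt_of_lt_of_le hi hl)
      show w'.1.1 i = w.1.1 i
      rw [hx, hx', key i x x' hx hx']
    · refine ⟨(w.1, g), ⟨le_rfl, hg⟩, ⟨Nd.le_of_val fun i hi => ?_, hg'⟩⟩
      obtain ⟨x', hx'⟩ := Nd.exists_val hi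
      obtain ⟨x, hx⟩ := Nd.exists_val (lt_of_lt_of_le hi hl)
      show w.1.1 i = w'.1.1 i
      rw [hx, hx', key i x x' hx hx']
  · intro p
    by_cases hL : Nonempty L
    · obtain ⟨x0⟩ := hL
      obtain ⟨w', -, hm, -, -⟩ := fill hK θ l x0 p hKne.some
      exact ⟨w', hm⟩
    · obtain ⟨a, -, ha⟩ := WellFounded.has_min (wellFounded_lt (α := K)) univ
        ⟨hKne.some, trivial⟩
      refine ⟨(⟨fun _ => none, a, ?_⟩, ⟨fun _ => none, ?_⟩), fun j z _ => absurd ⟨l.symm z⟩ hL⟩
      · ext i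
        simp only [PF.dom, mem_setOf_eq, mem_Iio]
        exact ⟨fun h => absurd rfl h, fun h => absurd h (ha i trivial)⟩
      · have h0 : PF.dom (fun _ : J => (none : Option Z)) = ∅ := by
          ext i
          simp [PF.dom]
        rw [h0, mk_emptyCollection]
        exact lt_trans aleph0_pos hK.unc

end Pool.Agent.Lib.FMM
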