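import Pool.Agent.Lib.FMM.QuotB

/-!
# Module FMM.Quot: the quotient of a branch

THEOREM. Let `h : Br t σ c dc B x q`. There are `d₀ : DD B x c` with `d₀.1.1.1 ≤ q`, `d₀.1.2 ≤ σ`, `r₀ = (rs A d₀, u₀) : RR t`
and `π : Iic d₀ → Iic r₀`, `π (d, u) = (rs A d, u)`, such that `Ab κ π` and the nodes of `Iic d₀` are cofinal.

PROOF. `d₀`: dd_dense for `rs B q` (`(rs B q).1 = q` because `dom q ⊆ B`; prove by ext) and `i = σ.len`; dd_sigma. `r₀`: dd_em_t.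
`π`: every `d ≤ d₀` has `d.1.1.1 ≤ d₀.1.1.1 ≤ q`; dd_em_t; `π d ≤ r₀` by rs_mono. mono: rs_mono. lift: dd_lift (the given
`r ≤ π d`; the new `d' ≤ d ≤ d₀`). top: `π ⊤ = ⊤`, `⊤ = ⟨d₀, _⟩`, by Subtype.ext. cgD: a chain `C` in `Iic d₀` gives a
chain in `DD`, dd_glb; the glb is `≤ d₀` as `C` is nonempty; it is the glb in `Iic d₀`. cgR: rr_glb (with
`h2`: for a member `r₁` of the chain, `em r₁.1.1 ≤ em (rs A d₀) ≤ BFM t` by h.bfm and em_le_pb). cont: `g` the glb of `C`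
in `Iic d₀`; by uniqueness it is the glb of dd_glb, whose values are the unions. `π g` is a lower bound of
`π '' C` by mono; let `r` be a lower bound of `π '' C`: `r.1.1 ≤ rs A g`: a value of `rs A g` at `i ∈ A` is a value of
some member `p ∈ C`, so a value of `(π p).1.1.1`, so of `r`; the same for the nodes.
cofinality: dd_dense' for `d.1.1.1.1`, the node of `d` and `i`: `e ≤ d` (componentwise).
-/

set_option autoImplicit false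

namespace Pool.Agent.Lib.FMM

open Set Cardinal Pool.Agent.Lib.WkD

variable {κ : Cardinal.{0}} {K J Z : Type} [LinearOrder K] [WellFoundedLT K] [NoMaxOrder K]
  {A B : Set J} {t : Nd K K → ROP (FnOn κ J Z A)} {σ : Nd K K} {c : Nd K K → J}
  {dc : Z → Option K} {x : K → K → ROP (Fn κ J Z)} {q : Fn κ J Z}

theorem exists_quot (hK : RegK κ K) (h : Br t σ c dc B x q) :
    ∃ (d₀ : DD B x c) (r₀ : RR t) (π : Iic d₀ → Iic r₀), d₀.1.1.1 ≤ q ∧ d₀.1.2 ≤ σ ∧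
      r₀.1 = (rs A d₀.1.1.1, d₀.1.2) ∧ (∀ d : Iic d₀, (π d).1.1 = (rs A d.1.1.1.1, d.1.1.2)) ∧
      Ab κ π ∧ ∀ (d : Iic d₀) (i : K), ∃ d', d' ≤ d ∧ i < d'.1.1.2.len := by
  have hκ : ℵ₀ ≤ κ := hK.unc.le
  obtain ⟨d₀, hd1, hd2⟩ := dd_dense hK h (⟨q, h.dom⟩ : FnOn κ J Z B) le_rfl σ.len
  have hd0q : d₀.1.1.1 ≤ q := hd1
  have hd0σ : d₀.1.2 ≤ σ := dd_sigma hK h d₀ hd0q hd2.le
  have hq' : ∀ d : Iic d₀, d.1.1.1.1 ≤ q := fun d =>
    le_trans (show d.1.1.1.1 ≤ d₀.1.1.1 from d.2.1) hd0q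
  have hσ' : ∀ d : Iic d₀, d.1.1.2 ≤ σ := fun d =>
    le_trans (show d.1.1.2 ≤ d₀.1.2 from d.2.2) hd0σ
  let r₀ : RR t := ⟨(rs A d₀.1.1.1, d₀.1.2), dd_em_t hK h d₀ hd0q⟩
  let π : Iic d₀ → Iic r₀ := fun d =>
    ⟨⟨(rs A d.1.1.1.1, d.1.1.2), dd_em_t hK h d.1 (hq' d)⟩,
      ⟨rs_mono A (show d.1.1.1.1 ≤ d₀.1.1.1 from d.2.1), d.2.2⟩⟩
  have hb0 : em (rs A d₀.1.1.1) ≤ BFM t := by
    rw [← em_le_pb (proj_rs hκ A)]
    exact (em_mono hd0q).trans h.bfm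
  have hmono : Monotone π := fun d e hde =>
    ⟨rs_mono A (show d.1.1.1.1 ≤ e.1.1.1.1 from hde.1), hde.2⟩
  -- greatest lower bounds of chains in the cone
  have hglb : ∀ C : Set (Iic d₀), C.Nonempty → #C < κ → (∀ x ∈ C, ∀ y ∈ C, x ≤ y ∨ y ≤ x) →
      ∃ g : Iic d₀, IsGLB C g ∧ (∀ i v, g.1.1.1.1.1 i = some v ↔
        ∃ p ∈ C, p.1.1.1.1.1 i = some v) ∧
        ∀ i v, g.1.1.2.1 i = some v ↔ ∃ p ∈ C, p.1.1.2.1 i = some v := by
    intro C hne hC hch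
    obtain ⟨g, hg, hv1, hv2⟩ := dd_glb hK (Subtype.val '' C) (hne.image _)
      (mk_image_le.trans_lt hC) (by
        rintro _ ⟨p, hp, rfl⟩ _ ⟨p', hp', rfl⟩
        exact hch p hp p' hp')
    obtain ⟨p₀, hp₀⟩ := hne
    refine ⟨⟨g, (hg.1 ⟨p₀, hp₀, rfl⟩).trans p₀.2⟩, ⟨?_, ?_⟩, ?_, ?_⟩
    · intro p hp
      exact hg.1 ⟨p, hp, rfl⟩
    · intro b hb
      refine hg.2 ?_
      rintro _ ⟨p, hp, rfl⟩
      exact hb hp
    · intro i v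
      rw [hv1]
      constructor
      · rintro ⟨_, ⟨p, hp, rfl⟩, hpv⟩
        exact ⟨p, hp, hpv⟩
      · rintro ⟨p, hp, hpv⟩
        exact ⟨p.1, ⟨p, hp, rfl⟩, hpv⟩
    · intro i v
      rw [hv2]
      constructor
      · rintro ⟨_, ⟨p, hp, rfl⟩, hpv⟩
        exact ⟨p, hp, hpv⟩
      · rintro ⟨p, hp, hpv⟩
        exact ⟨p.1, ⟨p, hp, rfl⟩, hpv⟩
  refine ⟨d₀, r₀, π, hd0q, hd0σ, rfl, fun _ => rfl, ⟨⟨hmono, ?_⟩, ?_, ?_, ?_, ?_⟩, ?_⟩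
  · -- lift
    intro d r hr
    obtain ⟨d', h1, h2, h3⟩ := dd_lift hK h d.1 (hq' d) (hσ' d) r.1 hr.1 hr.2
    exact ⟨⟨d', h1.trans d.2⟩, h1, ⟨h2, h3⟩⟩
  · -- top
    rfl
  · -- chains in the cone of `D`
    intro C hne hC hch
    obtain ⟨g, hg, -⟩ := hglb C hne hC hch
    exact ⟨g, hg⟩
  · -- chains in the cone of `R`
    intro C hne hC hch
    obtain ⟨r₁, hr₁⟩ := hne
    obtain ⟨g, hg, -⟩ := rr_glb hK (Subtype.val '' C) (mk_image_le.trans_lt hC) (by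
        rintro _ ⟨p, hp, rfl⟩ _ ⟨p', hp', rfl⟩
        exact hch p hp p' hp') (r₁ := r₁.1) ⟨r₁, hr₁, rfl⟩
        ((em_mono (show r₁.1.1.1 ≤ rs A d₀.1.1.1 from r₁.2.1)).trans hb0)
    refine ⟨⟨g, (hg.1 ⟨r₁, hr₁, rfl⟩).trans r₁.2⟩, ?_, ?_⟩
    · intro p hp
      exact hg.1 ⟨p, hp, rfl⟩
    · intro b hb
      refine hg.2 ?_
      rintro _ ⟨p, hp, rfl⟩
      exact hb hp
  · -- continuity
    intro C hne hC hch g hg
    obtain ⟨g', hg', hv1, hv2⟩ := hglb C hne hC hch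
    obtain rfl : g = g' := hg.unique hg'
    refine ⟨?_, ?_⟩
    · rintro _ ⟨p, hp, rfl⟩
      exact hmono (hg.1 hp)
    · intro r hr
      refine ⟨?_, ?_⟩
      · intro i v hi
        have hi' : (rs A g.1.1.1.1).1.1 i = some v := hi
        rw [rs_val] at hi'
        by_cases hiA : i ∈ A
        · rw [if_pos hiA, hv1] at hi'
          obtain ⟨p, hp, hpv⟩ := hi'
          have h1 : r ≤ π p := hr ⟨p, hp, rfl⟩
          refine h1.1 i v ?_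
          show (rs A p.1.1.1.1).1.1 i = some v
          rw [rs_val, if_pos hiA, hpv]
        · rw [if_neg hiA] at hi'
          cases hi'
      · intro i v hi
        have hi' : g.1.1.2.1 i = some v := hi
        rw [hv2] at hi'
        obtain ⟨p, hp, hpv⟩ := hi'
        have h1 : r ≤ π p := hr ⟨p, hp, rfl⟩
        exact h1.2 i v hpv
  · -- cofinality
    intro d i
    obtain ⟨e, h1, h2, h3⟩ := dd_dense' hK h d.1.1.1 (hq' d) d.1.2.1 i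
    exact ⟨⟨e, le_trans (show e ≤ d.1 from ⟨h1, h2⟩) d.2⟩, ⟨h1, h2⟩, h3⟩

end Pool.Agent.Lib.FMM
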