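import Pool.Agent.Lib.FMM.Tp
import Pool.Agent.Lib.FMM.Quot
import Pool.Agent.Lib.FMM.EP
import Pool.Agent.Lib.FMM.Dich
import Pool.Agent.Lib.FMM.Merge
import Pool.Agent.Lib.FMM.Absorb

/-!
# FMM.Mat: the theorem for Boolean valued trees
-/

set_option autoImplicit false

namespace Pool.Agent.Lib.FMM

open Set Cardinal Pool.Agent.Lib.WkD Pool.Agent.Lib.BVM

variable {κ : Cardinal.{0}} {K J Z : Type} [LinearOrder K] [WellFoundedLT K] [NoMaxOrder K]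

theorem transfer {A : Set J} {S W₁ W₂ P Q : Type} [Preorder S] [Preorder W₁] [Preorder W₂]
    [Preorder P] [Preorder Q] (s : S) {g₁ : W₁ → S} {g₂ : W₂ → S} {f₁ : W₁ → P} {f₂ : W₂ → Q}
    (hg₁ : DEmb g₁) (hg₂ : DEmb g₂) (hf₁ : Emb f₁) (hf₂ : Emb f₂)
    {αS : S → FnOn κ J Z A} {αP : P → FnOn κ J Z A} {αQ : Q → FnOn κ J Z A}
    (hαS : Proj αS) (hαP : Proj αP) (hαQ : Proj αQ) {xS : K → K → ROP S} {xP : K → K → ROP P}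
    {xQ : K → K → ROP Q} (h1 : ∀ w, αP (f₁ w) = αS (g₁ w)) (h2 : ∀ w, αQ (f₂ w) = αS (g₂ w))
    (h3 : ∀ i j, pb f₁ (xP i j) = pb g₁ (xS i j)) (h4 : ∀ i j, pb f₂ (xQ i j) = pb g₂ (xS i j))
    (φ : Fml) (y : bSet (ROP (FnOn κ J Z A))) :
    ∃ (UP : Ultra (ROP P)) (UQ : Ultra (ROP Q)), (∀ b, pb f₁ b = ⊤ → b ∈ UP) ∧
      (∀ b, pb f₂ b = ⊤ → b ∈ UQ) ∧ (Tr φ y αP xP UP ↔ Tr φ y αQ xQ UQ) := by
  obtain ⟨U, -⟩ := Ultra.exists_mem (em_ne_bot s)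
  obtain ⟨U₁, hU₁⟩ := exists_push (ch_pb hg₁.toProj) (pb_inj hg₁) (pb_surj hg₁.toEmb) U
  obtain ⟨U₂, hU₂⟩ := exists_push (ch_pb hg₂.toProj) (pb_inj hg₂) (pb_surj hg₂.toEmb) U
  refine ⟨pullU (pb f₁) (ch_pb hf₁.toProj).top (ch_pb hf₁.toProj).inf (ch_pb hf₁.toProj).compl U₁,
    pullU (pb f₂) (ch_pb hf₂.toProj).top (ch_pb hf₂.toProj).inf (ch_pb hf₂.toProj).compl U₂,
    ?_, ?_, ?_⟩
  · intro b hb
    show pb f₁ b ∈ U₁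
    rw [hb]
    exact Ultra.top
  · intro b hb
    show pb f₂ b ∈ U₂
    rw [hb]
    exact Ultra.top
  · rw [tr_pb hf₁ hαP, tr_pb hf₂ hαQ]
    have e1 : Tr φ y αS xS U ↔ Tr φ y (fun w => αP (f₁ w)) (fun i j => pb f₁ (xP i j)) U₁ := by
      rw [← hU₁, tr_pb hg₁.toEmb hαS]
      have a1 : (fun w => αP (f₁ w)) = fun w => αS (g₁ w) := funext h1
      have a2 : (fun i j => pb f₁ (xP i j)) = fun i j => pb g₁ (xS i j) := by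
        funext i j
        exact h3 i j
      rw [a1, a2]
    have e2 : Tr φ y αS xS U ↔ Tr φ y (fun w => αQ (f₂ w)) (fun i j => pb f₂ (xQ i j)) U₂ := by
      rw [← hU₂, tr_pb hg₂.toEmb hαS]
      have a1 : (fun w => αQ (f₂ w)) = fun w => αS (g₂ w) := funext h2
      have a2 : (fun i j => pb f₂ (xQ i j)) = fun i j => pb g₂ (xS i j) := by
        funext i j
        exact h4 i j
      rw [a1, a2]
    rw [← e1, ← e2]

theorem mk_prod_same (X Y : Type) : #(X × Y) = #X * #Y := by simp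

theorem exists_onto (hZ' : ℵ₀ ≤ #Z) {D : Type} (hD : #D ≤ #Z) :
    ∃ f : Z → Option D, Function.Surjective f := by
  have h1 : #(Option D) ≤ #Z := by
    rw [mk_option]
    exact add_le_of_le hZ' hD (one_le_aleph0.trans hZ')
  obtain ⟨g⟩ := h1
  exact ⟨Function.invFun g, Function.invFun_surjective g.injective⟩

theorem mat (hK : RegK κ K) (hZ : ZC κ Z) (hJ : #Z < #J) {A : Set J} (hA : #A ≤ #Z)
    (t : Nd K K → ROP (FnOn κ J Z A)) (y : bSet (ROP (FnOn κ J Z A))) (φ : Fml) (p : Fn κ J Z)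
    (hp : em p ≤ pb (rs A) (BFM t)) :
    ∃ q : Fn κ J Z, q ≤ p ∧ ∃ (t' : Nd K K → ROP (Fn κ J Z)) (ε : Prop), em q ≤ BFM t' ∧
      (∀ u, t' u ≤ pb (rs A) (t u)) ∧
      ∀ q', q' ≤ q → ∀ x : K → K → ROP (Fn κ J Z), (∀ i, em q' ≤ ⨆ j, x i j) →
        (∀ i j j', j ≠ j' → em q' ⊓ x i j ⊓ x i j' = ⊥) →
        (∀ u : Nd K K, em q' ⊓ (⨅ p : {p : K × K // u.1 p.1 = some p.2}, x p.1.1 p.1.2) ≤
          t' u) →
        ∃ U : Ultra (ROP (Fn κ J Z)), em q' ∈ U ∧ (Tr φ y (rs A) x U ↔ ε) := by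
  have hκ : ℵ₀ ≤ κ := hK.unc.le
  have hZ' : ℵ₀ ≤ #Z := hκ.trans hZ.le
  have hrs : Proj (rs A : Fn κ J Z → FnOn κ J Z A) := proj_rs hκ A
  have hp' : em (rs A p) ≤ BFM t := (em_le_pb hrs).1 hp
  -- the first condition
  obtain ⟨a, ha, u, hau⟩ := exists_em_iSup ((le_BFM_iff.1 hp').1)
  have hr₁ : em (⟨(a, u), hau⟩ : RR t).1.1 ≤ BFM t := (em_mono ha).trans hp'
  obtain ⟨r₂, ε, hdich⟩ := dich hK hZ hJ (⟨(a, u), hau⟩ : RR t) hr₁ φ y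
  obtain ⟨c, cinj, cA⟩ := exists_c hK hZ hJ hA
  obtain ⟨dc, dcs⟩ := exists_dc hK hZ
  have hr₂ : r₂.1.1.1 ≤ a := (r₂.2 : r₂.1 ≤ _).1
  obtain ⟨q, hqp, hqa, hqrs, -, -⟩ := union_rs hκ p r₂.1.1.1 (hr₂.trans ha)
  have hqσ : em q ≤ pb (rs A) (t r₂.1.1.2) := by
    rw [em_le_pb hrs, hqrs]
    exact r₂.1.2
  have hqb : em q ≤ pb (rs A) (BFM t) := (em_mono hqp).trans hp
  refine ⟨q, hqp, tp t r₂.1.1.2 c dc, ε, tp_bfm hK cA cinj dcs hqb hqσ, fun u => tp_le u, ?_⟩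
  intro q' hq' x htot huniq hbr
  -- the support
  obtain ⟨S, hS, hSx⟩ := exists_supps hK hZ (ι := K × K) (by
    rw [mk_prod_same, hK.card]
    exact (mul_eq_self hκ).le.trans hZ.le) (fun p => x p.1 p.2)
  set B : Set J := A ∪ range c ∪ S ∪ q'.1.dom with hB
  have hBcard : #B ≤ #Z := by
    refine (mk_union_le _ _).trans (add_le_of_le hZ' ?_ (q'.2.le.trans hZ.le))
    refine (mk_union_le _ _).trans (add_le_of_le hZ' ?_ hS)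
    refine (mk_union_le _ _).trans (add_le_of_le hZ' hA ?_)
    exact mk_range_le.trans (card_nd hK hZ)
  have hBr : Br t r₂.1.1.2 c dc B x q' := by
    refine ⟨?_, ?_, cA, cinj, dcs, ?_, (em_mono hq').trans hqb, ?_, htot, huniq, hbr⟩
    · exact fun j hj => Or.inl (Or.inl (Or.inl hj))
    · exact fun s => Or.inl (Or.inl (Or.inr (mem_range_self s)))
    · exact fun j hj => Or.inr hj
    · intro i j
      obtain ⟨b', hb'⟩ := hSx (i, j)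
      obtain ⟨b'', hb''⟩ := supp_mono hκ (A := S) (B := B)
        (fun j hj => Or.inl (Or.inr hj)) b'
      exact ⟨b'', hb''.trans hb'⟩
  obtain ⟨d₀, r₀, π, hd₀, hd₀σ, hr₀, hπ, hab, hcof⟩ := exists_quot hK hBr
  obtain ⟨eP, heP, heA, hed, hex⟩ := exists_eP hK hBr d₀ hd₀
  have hDcard : #(Iic d₀) ≤ #Z := by
    have h1 : #(Iic d₀) ≤ #(FnOn κ J Z B × Nd K K) :=
      mk_le_of_injective (f := fun d : Iic d₀ => d.1.1) (fun d d' h => Subtype.ext (Subtype.ext h))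
    refine h1.trans ?_
    rw [mk_prod_same]
    refine (mul_le_mul' (card_FnOn hK hZ hBcard) (card_nd hK hZ)).trans ?_
    exact (mul_eq_self hZ').le
  have hDne : Nonempty (Iic d₀) := ⟨⟨d₀, mem_Iic.2 le_rfl⟩⟩
  obtain ⟨⟨l⟩, ⟨l'⟩⟩ := exists_equiv_L hK hZ (Iic d₀) hDcard
  obtain ⟨θ'⟩ := exists_equiv_compl hK hZ hJ hBcard
  obtain ⟨θ⟩ := exists_equiv_J hK hZ hJ
  obtain ⟨m', hm'⟩ := exists_merge hK θ' l'
  obtain ⟨m, hm⟩ := exists_merge hK θ l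
  obtain ⟨W, _, e₁, e₂, he₁, he₂, hee⟩ := absorb hK hab (exists_onto hZ' hDcard)
  -- the inclusion of the cone of `r₀`
  have hr₀₂ : r₀ ≤ r₂.1 := by
    show r₀.1 ≤ r₂.1.1
    rw [hr₀]
    refine ⟨?_, hd₀σ⟩
    show rs A d₀.1.1.1 ≤ r₂.1.1.1
    rw [← hqrs]
    exact rs_mono A (hd₀.trans hq')
  let ic : Iic r₀ → Iic (⟨(a, u), hau⟩ : RR t) := fun r => ⟨r.1, r.2.trans (hr₀₂.trans r₂.2)⟩
  have hic : Emb ic := by
    refine ⟨⟨fun r r' h => h, fun r r' h => ?_⟩, fun r r' s h h' => ?_⟩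
    · exact ⟨⟨r'.1, (show r'.1 ≤ r.1 from h).trans r.2⟩, h, le_rfl⟩
    · exact ⟨⟨s.1, (show s.1 ≤ r.1 from h).trans r.2⟩, h, h'⟩
  -- the orders
  let G := Fn κ J Z
  let L := ℕ → Z × Iic d₀
  let L' := Z × (ℕ → Z × Iic d₀)
  let g₁ : (Iic d₀ × Nd K L') × G → (DR π × Nd K L') × G :=
    Prod.map (Prod.map (fun d => (⟨(d, π d), le_rfl⟩ : DR π)) (fun k => k)) (fun g => g)
  have hg₁ : DEmb g₁ := ((dEmb_DR hab.toProj).prod dEmb_id).prod dEmb_id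
  let g₂ : W × G → (DR π × Nd K L') × G := Prod.map e₁ (fun g => g)
  have hg₂ : DEmb g₂ := he₁.prod dEmb_id
  let k₁ : (Iic d₀ × Nd K L') × G → Iic d₀ × Fn κ ↥Bᶜ Z := fun x => (x.1.1, m' (x.1.2, x.2))
  have hk₁ : Emb k₁ := (dEmb_id.toEmb.prod hm'.toEmb).comp dEmb_assoc.toEmb
  let f₁ : (Iic d₀ × Nd K L') × G → Fn κ J Z := eP ∘ k₁
  have hf₁ : Emb f₁ := heP.comp hk₁
  let f₂ : W × G → Iic (⟨(a, u), hau⟩ : RR t) × G :=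
    (Prod.map (fun r => r) m) ∘ (fun x => (x.1.1, (x.1.2, x.2))) ∘
      (Prod.map (Prod.map ic (fun k : Nd K L => k) ∘ e₂) (fun g => g))
  have hf₂ : Emb f₂ := (dEmb_id.toEmb.prod hm.toEmb).comp (dEmb_assoc.toEmb.comp
    (((hic.prod dEmb_id.toEmb).comp he₂).prod dEmb_id.toEmb))
  let αS : (DR π × Nd K L') × G → FnOn κ J Z A := fun s => s.1.1.1.2.1.1.1
  let νS : (DR π × Nd K L') × G → Nd K K := fun s => s.1.1.1.2.1.1.2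
  let νQ : Iic (⟨(a, u), hau⟩ : RR t) × G → Nd K K := fun x => x.1.1.1.2
  have hνS : Monotone νS := fun s s' h => h.1.1.2.2
  have hνQ : Monotone νQ := fun s s' h => h.1.2
  have hαS : Proj αS := by
    refine ⟨fun s s' h => h.1.1.2.1, fun s a' h => ?_⟩
    have h1 := s.1.1.1.2.1.2
    let r'' : RR t := ⟨(a', s.1.1.1.2.1.1.2), (em_mono h).trans h1⟩
    have h3 : r'' ≤ s.1.1.1.2.1 := show r''.1 ≤ s.1.1.1.2.1.1 from ⟨h, le_rfl⟩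
    let r' : Iic r₀ := ⟨r'', h3.trans s.1.1.1.2.2⟩
    have h2 : r' ≤ s.1.1.1.2 := h3
    exact ⟨((⟨(s.1.1.1.1, r'), h2.trans s.1.1.2⟩, s.1.2), s.2), ⟨⟨⟨le_rfl, h2⟩, le_rfl⟩, le_rfl⟩,
      le_rfl⟩
  have hαQ : Proj (fun x : Iic (⟨(a, u), hau⟩ : RR t) × G => (x.1.1.1.1 : FnOn κ J Z A)) :=
    proj_rr _ _
  have hcofR : ∀ (r : RR t), r ≤ (⟨(a, u), hau⟩ : RR t) → ∀ i, ∃ r', r' ≤ r ∧ i < r'.1.2.len :=
    fun r hr i => rr_cof hK ((em_mono hr.1).trans hr₁) i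
  have hcS : ∀ (s : (DR π × Nd K L') × G) (i : K), ∃ s', s' ≤ s ∧ i < (νS s').len := by
    intro s i
    obtain ⟨r', hr'1, hr'2⟩ := hcofR s.1.1.1.2.1
      (s.1.1.1.2.2.trans (hr₀₂.trans r₂.2)) i
    let r'' : Iic r₀ := ⟨r', hr'1.trans s.1.1.1.2.2⟩
    have h2 : r'' ≤ s.1.1.1.2 := hr'1
    exact ⟨((⟨(s.1.1.1.1, r''), h2.trans s.1.1.2⟩, s.1.2), s.2), ⟨⟨⟨le_rfl, h2⟩, le_rfl⟩, le_rfl⟩,
      hr'2⟩
  have hcomp₁ : ∀ w, νS (g₁ w) = w.1.1.1.1.2 := by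
    intro w
    show (π w.1.1).1.1.2 = _
    rw [hπ]
  have hcg₁ : ∀ w i, ∃ w', w' ≤ w ∧ i < (νS (g₁ w')).len := by
    intro w i
    obtain ⟨d', hd'1, hd'2⟩ := hcof w.1.1 i
    refine ⟨((d', w.1.2), w.2), ⟨⟨hd'1, le_rfl⟩, le_rfl⟩, ?_⟩
    rw [hcomp₁]
    exact hd'2
  have hcg₂ : ∀ w i, ∃ w', w' ≤ w ∧ i < (νS (g₂ w')).len := by
    intro w i
    obtain ⟨s, hs1, hs2⟩ := hcS (g₂ w) i
    obtain ⟨w', hw'1, hw'2⟩ := hg₂.lift w s hs1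
    exact ⟨w', hw'1, hs2.trans_le (Nd.len_mono (hνS hw'2))⟩
  have hνf₂ : ∀ w, νQ (f₂ w) = νS (g₂ w) := by
    intro w
    show (e₂ w.1).1.1.1.2 = (e₁ w.1).1.1.2.1.1.2
    rw [hee]
  have hZne : Nonempty Z := mk_ne_zero_iff.1 (aleph0_pos.trans_le hZ').ne'
  obtain ⟨z₀⟩ := hZne
  let w₀ : (Iic d₀ × Nd K L') × G := ((⟨d₀, mem_Iic.2 le_rfl⟩,
    Nd.ofFun r₂.1.1.2.len (fun _ => (z₀, fun _ => (z₀, ⟨d₀, mem_Iic.2 le_rfl⟩)))), q')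
  have hA1 : ∀ w, rs A (f₁ w) = αS (g₁ w) := by
    intro w
    show rs A (eP (w.1.1, m' (w.1.2, w.2))) = (π w.1.1).1.1.1
    rw [heA, hπ]
  have hA2 : ∀ w, (f₂ w).1.1.1.1 = αS (g₂ w) := by
    intro w
    show (e₂ w.1).1.1.1.1 = (e₁ w.1).1.1.2.1.1.1
    rw [hee]
  have hx1 : ∀ i j, pb f₁ (x i j) = pb g₁ (gm νS i j) := by
    intro i j
    have e1 : pb f₁ (x i j) = pb k₁ (pb eP (x i j)) := pb_comp heP.toProj hk₁.toProj _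
    have hνP : Monotone (fun w : Iic d₀ × Fn κ ↥Bᶜ Z => w.1.1.1.2) := fun a b h => h.1.2
    have e2 : pb k₁ (gm (fun w : Iic d₀ × Fn κ ↥Bᶜ Z => w.1.1.1.2) i j) =
        gm (fun w : (Iic d₀ × Nd K L') × G => w.1.1.1.1.2) i j :=
      gm_pb hk₁.toProj hνP (fun w i => by
        obtain ⟨d', hd'1, hd'2⟩ := hcof w.1.1 i
        exact ⟨((d', w.1.2), w.2), ⟨⟨hd'1, le_rfl⟩, le_rfl⟩, hd'2⟩) i j
    have e3 : pb g₁ (gm νS i j) = gm (fun w => νS (g₁ w)) i j := gm_pb hg₁.toProj hνS hcg₁ i j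
    rw [e1, hex, e2, e3]
    have e4 : (fun w => νS (g₁ w)) = fun w : (Iic d₀ × Nd K L') × G => w.1.1.1.1.2 :=
      funext hcomp₁
    rw [e4]
  have hx2 : ∀ i j, pb f₂ (gm νQ i j) = pb g₂ (gm νS i j) := by
    intro i j
    have e1 : pb g₂ (gm νS i j) = gm (fun w => νS (g₂ w)) i j := gm_pb hg₂.toProj hνS hcg₂ i j
    have e2 : pb f₂ (gm νQ i j) = gm (fun w => νQ (f₂ w)) i j :=
      gm_pb hf₂.toProj hνQ (fun w i => by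
        obtain ⟨w', h1, h2⟩ := hcg₂ w i
        exact ⟨w', h1, by rw [hνf₂]; exact h2⟩) i j
    have e3 : (fun w => νQ (f₂ w)) = fun w => νS (g₂ w) := funext hνf₂
    rw [e1, e2, e3]
  obtain ⟨UP, UQ, hUP, hUQ, hTr⟩ := transfer (g₁ w₀) hg₁ hg₂ hf₁ hf₂ hαS hrs hαQ hA1 hA2 hx1 hx2
    φ y
  refine ⟨UP, ?_, ?_⟩
  · refine hUP _ (eq_top_of_em fun w => ⟨w, le_rfl, ?_⟩)
    rw [em_le_pb hf₁.toProj]
    refine em_mono ((hed _).trans ?_)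
    exact (show (w.1.1.1 : DD B x c).1.1.1 ≤ d₀.1.1.1 from (w.1.1.2 : w.1.1.1 ≤ d₀).1).trans hd₀
  · rw [hTr]
    refine hdich UQ (hUQ _ (eq_top_of_em fun w => ⟨w, le_rfl, ?_⟩))
    have h5 : (f₂ w).1 ≤ r₂ := by
      show (f₂ w).1.1 ≤ r₂.1
      exact LE.le.trans (show (f₂ w).1.1 ≤ r₀ from (e₂ w.1).1.2) hr₀₂
    exact (em_le_pb hf₂.toProj).2 ((em_le_pb proj_fst).2 (em_mono h5))

end Pool.Agent.Lib.FMM
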