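import Pool.Agent.Lib.FMM.NdB
import Pool.Agent.Lib.FMM.FnB
import Pool.Agent.Lib.FMM.PB

/-!
# Module FMM.Miller: Boolean valued full Miller trees

PROOFS.
* le_BFM_iff: unfold BFM, `le_inf_iff`, `le_iInf_iff`, `le_himp_iff`, subtypes.
* bfm_child: by clause 4 `a ⊓ t u ≤ ⨆ v ≤ u, sp t v`; (distribute) for `v = u`: `sp t u ≤ ⨆ ξ, t (u.snoc ξ)`.
  For `v < u` there is `ξ` with `v ≤ u.snoc ξ` (Nd.exists_snoc); `sp t v ≤ t (v.snoc η)` for some `η` in the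
  supremum, and `v.snoc η ≤ v ≤ u.snoc ξ`, so by clause 2 `a ⊓ t (v.snoc η) ≤ t (u.snoc ξ)`.
* bfm_node: `a ⊓ sp t v ≤ t v`: `sp t v ≤ ⨆ t (v.snoc ξ)`, clause 2 with `snoc_le`.
* pb_sp, pb_BFM: `ch_pb`, CH.inf, CH.iInf, CH.himp, CH.sup.
-/

set_option autoImplicit false

namespace Pool.Agent.Lib.FMM

open Set Cardinal Pool.Agent.Lib.WkD

section

variable {K V B : Type} [LinearOrder K] [WellFoundedLT K] [NoMaxOrder K] [CompleteBooleanAlgebra B]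
  {t : Nd K V → B} {a : B}

theorem le_BFM_iff : a ≤ BFM t ↔ (a ≤ ⨆ u, t u) ∧ (∀ v u : Nd K V, v ≤ u → a ⊓ t v ≤ t u) ∧
    (∀ u : Nd K V, u.Lim → a ⊓ (⨅ v : {v : Nd K V // u < v}, t v.1) ≤ t u) ∧
    (∀ u : Nd K V, a ⊓ t u ≤ ⨆ v : {v : Nd K V // v ≤ u}, sp t v.1) ∧
    ∀ (v : Nd K V) (ξ : V), a ⊓ sp t v ≤ t (v.snoc ξ) := by
  unfold BFM
  simp only [le_inf_iff, le_iInf_iff, le_himp_iff, Subtype.forall, Prod.forall, and_assoc]

theorem bfm_node (h : a ≤ BFM t) (v : Nd K V) : a ⊓ sp t v ≤ t v := by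
  obtain ⟨-, h2, -, -, -⟩ := le_BFM_iff.1 h
  unfold sp
  rw [inf_iSup_eq]
  refine iSup_le fun p => ?_
  exact (inf_le_inf_left a inf_le_left).trans (h2 _ _ (Nd.snoc_le v p.1.1))

theorem bfm_child (h : a ≤ BFM t) (u : Nd K V) : a ⊓ t u ≤ ⨆ ξ, t (u.snoc ξ) := by
  obtain ⟨-, h2, -, h4, -⟩ := le_BFM_iff.1 h
  have h0 : a ⊓ t u ≤ a ⊓ ⨆ v : {v : Nd K V // v ≤ u}, sp t v.1 :=
    le_inf inf_le_left (h4 u)
  refine h0.trans ?_
  rw [inf_iSup_eq]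
  refine iSup_le fun v => ?_
  unfold sp
  rw [inf_iSup_eq]
  refine iSup_le fun p => ?_
  rcases eq_or_lt_of_le v.2 with hv | hv
  · rw [hv]
    exact (inf_le_right.trans inf_le_left).trans (le_iSup (fun ξ => t (u.snoc ξ)) p.1.1)
  · obtain ⟨ξ, hξ⟩ := Nd.exists_snoc hv
    exact ((inf_le_inf_left a inf_le_left).trans (h2 _ _ ((Nd.snoc_le v.1 p.1.1).trans hξ))).trans
      (le_iSup (fun ξ => t (u.snoc ξ)) ξ)

theorem bfm_two (v : Nd K V) {ξ η : V} (h : ξ ≠ η) :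
    t (v.snoc ξ) ⊓ t (v.snoc η) ≤ sp t v :=
  le_iSup (fun p : {p : V × V // p.1 ≠ p.2} => t (v.snoc p.1.1) ⊓ t (v.snoc p.1.2)) ⟨(ξ, η), h⟩

theorem sp_mono {t' : Nd K V → B} (h : ∀ u, t u ≤ t' u) (v : Nd K V) : sp t v ≤ sp t' v :=
  iSup_mono fun _ => inf_le_inf (h _) (h _)

end

section

variable {K V W P : Type} [LinearOrder K] [WellFoundedLT K] [NoMaxOrder K] [Preorder W] [Preorder P]

theorem pb_sp {e : W → P} (he : Proj e) (t : Nd K V → ROP P) (v : Nd K V) :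
    pb e (sp t v) = sp (fun u => pb e (t u)) v := by
  unfold sp
  rw [(ch_pb he).sup]
  exact iSup_congr fun p => (ch_pb he).inf _ _

theorem pb_BFM {e : W → P} (he : Proj e) (t : Nd K V → ROP P) :
    pb e (BFM t) = BFM (fun u => pb e (t u)) := by
  unfold BFM
  simp only [(ch_pb he).inf, (ch_pb he).iInf, (ch_pb he).himp, (ch_pb he).sup, pb_sp he]

end

end Pool.Agent.Lib.FMM
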