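import Pool.Agent.Lib.FMM.NdName
import Pool.Agent.Lib.FMM.Climb

/-!
# Module FMM.NoNew: no new nodes

`BDist B K`: distributivity for families indexed by `Iio α`.

PROOFS.
* bDist_of: le_of_em: `em p ≤ ⨅ i, ⨆ j, x i j`; `dist` (Climb.lean) with `I = Iio α` (`hK.small`): `q ≤ p` and `f` with
  `em q ≤ x i (f i)` for all `i`, so `em q ≤ ⨆ f, ⨅ i, x i (f i)`.
* bRegular_of (for WkD.regular_mod): `α`, `h : Iio α → K → B` with `⨆ η, h ξ η = ⊤`: `⊤ = ⨅ ξ, ⨆ η, h ξ η ≤ ⨆ f, ⨅ ξ, h ξ (f ξ)`, and for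
  each `f` there is `η` above all `f ξ` (hK.bdd: the range has size `< κ`), so `⨅ ξ, h ξ (f ξ) ≤ ⨅ ξ, ⨆ η' < η, h ξ η'`.
* node_le: Boolean form: for every name `X`: if `IsNode (E U) (q lamN) (q X)` then `(⨆ u, beq X (ndN B u)) ∈ U`. Proof:
  `∃ a ∈ lamN, IsFun X a lamN`: case `a = ck α` (of_mem_lamN; P, Q are BV). Let `x i j = bmem (bpair (ck i) (ck j)) X` for
  `i : Iio α`, and `b = bv (IsFun X (ck α) lamN)`. `b ≤ ⨆ j, x i j` for each `i` (for `U ∋ b`: `X` has a value at `ck i`, in lamN, case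
  `= ck j`), so `b ≤ ⨅ i, ⨆ j, x i j ≤ ⨆ f, ⨅ i, x i (f i)`; for `f` let `u = Nd.ofFun α f'` (`f'` any extension of `f`). On
  `b ⊓ ⨅ i, x i (f i)`: `X = ndN u`: ext_mod: an element `z` of `X` is a pair `(x, y)` with `x` in `ck α`; case
  `x = ck i`; `App X (ck i) y` and `App X (ck i) (ck (f i))` give `y = ck (f i)` (app_unique), so `z` is in `ndN u`
  (isPair_iff, app_iff, app_ndN). Conversely of_mem_ndN. (`fun_repr` in BVM/Facts.lean is the same argument.)
* of_node: from node_le by of_iSup with `t u = beq X (ndN u)`.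
-/

set_option autoImplicit false

namespace Pool.Agent.Lib.FMM

open Set Cardinal Pool.Agent.Lib.WkD Pool.Agent.Lib.BVM Pool.Agent.Lib.BVM.bSet

/-- distributivity for families indexed by initial segments of `K` -/
def BDist (B K : Type) [CompleteBooleanAlgebra B] [LinearOrder K] : Prop :=
  ∀ (α : K) (x : Iio α → K → B), ⨅ i, ⨆ j, x i j ≤ ⨆ f : Iio α → K, ⨅ i, x i (f i)

variable {K : Type} [LinearOrder K] [WellFoundedLT K]

theorem bDist_of {κ : Cardinal.{0}} (hK : RegK κ K) {P : Type} [PartialOrder P] (hP : CG κ P) :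
    BDist (ROP P) K := by
  intro α x
  apply le_of_em
  intro p hp
  obtain ⟨q, hq, f, hf⟩ := dist hK hP (hK.small α) (Y := fun _ => K) x p
    (fun i => hp.trans (iInf_le _ i))
  exact ⟨q, hq, (le_iInf fun i => hf i).trans
    (le_iSup (fun f : Iio α → K => ⨅ i, x i (f i)) f)⟩

theorem bRegular_of {κ : Cardinal.{0}} (hK : RegK κ K) {B : Type} [CompleteBooleanAlgebra B]
    (hB : BDist B K) : BRegular B K := by
  intro α h hh
  apply top_le_iff.1
  have h1 : (⊤ : B) ≤ ⨅ ξ, ⨆ η, h ξ η := le_iInf fun ξ => (hh ξ).ge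
  refine h1.trans ((hB α h).trans (iSup_le fun f => ?_))
  obtain ⟨η, hη⟩ := hK.bdd (range f) (mk_range_le.trans_lt (hK.small α))
  refine le_iSup_of_le η (le_iInf fun ξ => (iInf_le _ ξ).trans ?_)
  exact le_iSup_of_le (f ξ) (le_iSup_of_le (hη _ ⟨ξ, rfl⟩) le_rfl)

variable {B : Type} [CompleteBooleanAlgebra B]

namespace NoNewAux

open Classical in
/-- the extension of a function on an initial segment -/
noncomputable def ext (α : K) (f : Iio α → K) (i : K) : K := if h : i < α then f ⟨i, h⟩ else i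

end NoNewAux

theorem node_le (hB : BDist B K) {X : bSet B} {U : Ultra B}
    (h : IsNode (E U) (q U (lamN B K)) (q U X)) : (⨆ u : Nd K K, beq X (ndN B u)) ∈ U := by
  obtain ⟨a, ha, hf⟩ := h
  obtain ⟨A, rfl⟩ := q_surj a
  refine of_mem_lamN (Z := A) (P := fun U => (⨆ u : Nd K K, beq X (ndN B u)) ∈ U)
    (Q := fun U => IsFun (E U) (q U X) (q U A) (q U (lamN B K))) (BV.of_mem _)
    (BV.isFun _ _ _) (fun α U hA hq => ?_) ha hf
  rw [hA] at hq
  have hbv := BV.isFun X (ck B α) (lamN B K)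
  have hb := (hbv.iff U).1 hq
  have h1 : ∀ i : Iio α, bv (fun U => IsFun (E U) (q U X) (q U (ck B α)) (q U (lamN B K))) ≤
      ⨆ j : K, bmem (bpair (ck B i.1) (ck B j)) X := by
    intro i
    apply Ultra.le_of_forall
    intro U' hU'
    have hf' := (hbv.iff U').2 hU'
    obtain ⟨y, hy, -⟩ := hf'.1.2 (q U' (ck B i.1)) (E_ck.2 i.2)
    obtain ⟨Y, rfl⟩ := q_surj y
    have hY : E U' (q U' Y) (q U' (lamN B K)) := hf'.2 _ _ hy
    refine of_mem_lamN (P := fun U => (⨆ j : K, bmem (bpair (ck B i.1) (ck B j)) X) ∈ U)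
      (Q := fun U => App (E U) (q U X) (q U (ck B i.1)) (q U Y)) (BV.of_mem _) (BV.app _ _ _)
      (fun j U'' hj hq' => ?_) hY hy
    rw [hj, app_iff] at hq'
    exact Ultra.mono (E_q.1 hq') (le_iSup (fun j : K => bmem (bpair (ck B i.1) (ck B j)) X) j)
  have h3 := Ultra.mono hb ((le_iInf h1).trans
    (hB α (fun (i : Iio α) (j : K) => bmem (bpair (ck B i.1) (ck B j)) X)))
  refine Ultra.mono (Ultra.inf_iff.2 ⟨h3, hb⟩) ?_
  rw [iSup_inf_eq]
  refine iSup_le fun f => ?_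
  have hg : ∀ i (hi : i < α), NoNewAux.ext α f i = f ⟨i, hi⟩ := fun i hi => dif_pos hi
  refine le_iSup_of_le (Nd.ofFun α (NoNewAux.ext α f)) (Ultra.le_of_forall fun U' hU' => ?_)
  have key : ∀ U' : Ultra B, (⨅ i : Iio α, bmem (bpair (ck B i.1) (ck B (f i))) X) ∈ U' →
      ∀ i (_ : i < α), App (E U') (q U' X) (q U' (ck B i))
        (q U' (ck B (NoNewAux.ext α f i))) := by
    intro U' h4 i hi
    rw [app_iff, hg i hi]
    exact E_q.2 (Ultra.mono h4 (iInf_le (fun i : Iio α =>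
      bmem (bpair (ck B i.1) (ck B (f i))) X) ⟨i, hi⟩))
  rw [← q_eq]
  apply ext_mod
  intro z
  obtain ⟨Z, rfl⟩ := q_surj z
  obtain ⟨h4, h5⟩ := Ultra.inf_iff.1 hU'
  have hf' := (hbv.iff U').2 h5
  constructor
  · intro hz
    obtain ⟨x', y', hx', hp⟩ := hf'.1.1 _ hz
    obtain ⟨X', rfl⟩ := q_surj x'
    obtain ⟨Y', rfl⟩ := q_surj y'
    refine of_mem_ck (Z := X')
      (P := fun U => E U (q U Z) (q U (ndN B (Nd.ofFun α (NoNewAux.ext α f)))))
      (Q := fun U => (⨅ i : Iio α, bmem (bpair (ck B i.1) (ck B (f i))) X) ∈ U ∧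
        IsFun (E U) (q U X) (q U (ck B α)) (q U (lamN B K)) ∧
        IsPair (E U) (q U X') (q U Y') (q U Z) ∧ E U (q U Z) (q U X)) (BV.mem _ _)
      ((BV.of_mem _).and (hbv.and ((BV.isPair _ _ _).and (BV.mem _ _))))
      (fun i hi U'' hn hQ => ?_) hx' ⟨h4, hf', hp, hz⟩
    obtain ⟨h6, h7, h8, h9⟩ := hQ
    rw [hn] at h8
    have e3 : q U'' Y' = q U'' (ck B (NoNewAux.ext α f i)) :=
      app_unique h7.1 (E_ck.2 hi) ⟨_, h8, h9⟩ (key U'' h6 i hi)
    rw [isPair_iff.1 h8, bpair_inj.2 ⟨rfl, e3⟩, ← app_iff, app_ndN]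
    exact Nd.ofFun_val hi
  · intro hz
    refine of_mem_ndN (P := fun U => E U (q U Z) (q U X))
      (Q := fun U => (⨅ i : Iio α, bmem (bpair (ck B i.1) (ck B (f i))) X) ∈ U) (BV.mem _ _)
      (BV.of_mem _) (fun i j hij U'' hZ hq' => ?_) hz h4
    have hi : i < α := by
      have := Nd.lt_len hij
      rwa [Nd.len_ofFun] at this
    rw [Nd.ofFun_val hi] at hij
    rw [hZ, ← Option.some.inj hij]
    exact app_iff.1 (key U'' hq' i hi)

theorem of_node (hB : BDist B K) {X : bSet B} {P Q : Ultra B → Prop} (hP : BV P) (hQ : BV Q)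
    (h : ∀ (u : Nd K K) U, q U X = q U (ndN B u) → Q U → P U) {U : Ultra B}
    (h1 : IsNode (E U) (q U (lamN B K)) (q U X)) (h2 : Q U) : P U :=
  of_iSup (t := fun u => beq X (ndN B u)) hP hQ (fun u U hu hq => h u U (q_eq.2 hu) hq)
    (node_le hB h1) h2

end Pool.Agent.Lib.FMM
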