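import Pool.Agent.Lib.WkD.Notions

/-!
# Full Miller trees inside a structure `(M, E)`

`k` is an ordinal of the model (a regular uncountable cardinal). Nodes are the functions from an element
of `k` to `k` (the elements of `k^{<k}`); for nodes `s`, `t` the inclusion of graphs `s ⊆ t` says that `s` is an
initial segment of `t`.
-/

namespace Pool.Agent.Lib.FMM

open Pool.Agent.Lib.BVM Pool.Agent.Lib.WkD

universe u

variable {M : Type u} (E : M → M → Prop)

/-- `x ⊆ y` in the model. -/
def Sub (x y : M) : Prop := ∀ z, E z x → E z y

/-- `s` is a node: a function from an element of `k` to `k`. -/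
def IsNode (k s : M) : Prop := ∃ a, E a k ∧ IsFun E s a k

/-- The node `t` is an immediate successor of the node `s`. -/
def IsChild (k s t : M) : Prop :=
  IsNode E k s ∧ IsNode E k t ∧ Sub E s t ∧ s ≠ t ∧
    ∀ r, IsNode E k r → Sub E s r → Sub E r t → r = s ∨ r = t

/-- `T` is a tree: a nonempty set of nodes closed under initial segments. -/
def IsTree (k T : M) : Prop :=
  (∃ s, E s T) ∧ (∀ s, E s T → IsNode E k s) ∧
    ∀ s t, E t T → IsNode E k s → Sub E s t → E s T

/-- `T` is closed: if the union of a chain of elements of `T` is a node (that is, has length `< k`),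
then this union is in `T`. -/
def IsClosed (k T : M) : Prop :=
  ∀ C s, (∀ r, E r C → E r T) → (∀ r r', E r C → E r' C → Sub E r r' ∨ Sub E r' r) →
    IsNode E k s → (∀ p, E p s ↔ ∃ r, E r C ∧ E p r) → E s T

/-- `s` is a splitting node of `T`: it has at least two immediate successors in `T`. -/
def IsSplit (k T s : M) : Prop :=
  E s T ∧ ∃ t t', t ≠ t' ∧ IsChild E k s t ∧ IsChild E k s t' ∧ E t T ∧ E t' T

/-- `T` is a full Miller tree: a closed tree, every element has an extension which is a
splitting node, and all immediate successors (in `k^{<k}`) of splitting nodes are in `T`. -/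
def FullMiller (k T : M) : Prop :=
  IsTree E k T ∧ IsClosed E k T ∧ (∀ s, E s T → ∃ t, Sub E s t ∧ IsSplit E k T t) ∧
    ∀ s t, IsSplit E k T s → IsChild E k s t → E t T

/-- `x` is a branch of `T`: a function from `k` to `k` all of whose initial segments are in `T`. -/
def Branch (k T x : M) : Prop := IsFun E x k k ∧ ∀ s, IsNode E k s → Sub E s x → E s T

/-- `y` is a function from `k` to the ordinals. -/
def IsOnSeq (k y : M) : Prop := IsFunOn E y k ∧ ∀ a b, App E y a b → IsOrd E b

/-- The class `X` of functions from `k` to `k` is full-Miller measurable. -/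
def Measurable (k : M) (X : M → Prop) : Prop :=
  ∀ T, FullMiller E k T → ∃ T', FullMiller E k T' ∧ Sub E T' T ∧
    ((∀ x, Branch E k T' x → X x) ∨ ∀ x, Branch E k T' x → ¬ X x)

/-- `k` is a regular uncountable cardinal: an ordinal above omega such that every function from
an element of `k` to `k` is bounded in `k`. -/
def RegUnc (k : M) : Prop :=
  IsOrd E k ∧ (∃ w, IsOmega E w ∧ E w k) ∧
    ∀ a f, E a k → IsFun E f a k → ∃ b, E b k ∧ ∀ x y, App E f x y → E y b

/-- `k^{<k} = k`: the set of the nodes is the image of a function on `k`. -/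
def PowLt (k : M) : Prop := ∃ N f, (∀ s, E s N ↔ IsNode E k s) ∧ IsSurj E f k N

end Pool.Agent.Lib.FMM
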