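import Pool.Agent.Lib.WkD.MCheck

/-!
# Module FMM.OrdM: ordinals of the model are check ordinals

THEOREM ord_bound. For every name `X` there is a cardinal `μ` such that for every well-order `Θ` with
`μ < #Θ` and every ultrafilter `U` in whose quotient `X` is an ordinal, `(⨆ ξ : Θ, beq X (ck B ξ)) ∈ U`.

PROOF. Induction on the name `X = mk α A w`. Let `μ a` be the cardinals for `A a` and
`μ = max (#(α × B)) (Cardinal.sum μ)` (or any cardinal above all `μ a` and `#(α × B)`; universe 0). Let `μ < #Θ` and let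
`X` be an ordinal in the quotient by `U`. Elements of ordinals are ordinals (`IsOrd`: transitive set of
transitive sets). FACT 1: if `Y` is a name with `Y ∈ X` in `U` and `X` is an ordinal in `U` then
`(⨆ ξ, beq Y (ck ξ)) ∈ U`: case analysis (of_mem with X): `Y = A a`, an ordinal; induction hypothesis.
Let `z ξ = bmem (ck B ξ) X`, `β = bv (IsOrd X)`. For `η < ξ`: `β ⊓ z ξ ≤ z η` (transitive, E_ck).
FACT 2: `β ⊓ ⨅ ξ, z ξ = ⊥`. Suppose it is not `⊥`, call it `b`. For each `ξ`: `b ≤ bmem (ck ξ) X = ⨆ a, w a ⊓ beq (ck ξ) (A a)`, so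
there is `a ξ` with `b ⊓ beq (ck ξ) (A (a ξ)) ≠ ⊥`. The map `ξ ↦ (a ξ, b ⊓ beq (ck ξ) (A (a ξ)))` into `α × B` is injective: if
`ξ ≠ ξ'` have the same image `(a, c)`, `c ≠ ⊥`, then in an ultrafilter containing `c` `ck ξ = A a = ck ξ'`, so `ξ = ξ'`
(ck_inj). So `#Θ ≤ #(α × B) ≤ μ`, contradiction.
FACT 3: `⊤ = (⨅ ξ, z ξ) ⊔ ⨆ ξ, ((⨅ η, (η < ξ), z η) ⊓ (z ξ)ᶜ)` (well-foundedness: let `c` be the complement of the second
term; by induction `c ≤ z ξ` for all `ξ`).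
So `(⨆ ξ, ((⨅ η < ξ, z η) ⊓ (z ξ)ᶜ)) ∈ U` (as `β ∈ U`); of_iSup with `P U = (⨆ ξ, beq X (ck ξ)) ∈ U`, `Q U = IsOrd X`: fix `ξ`,
`(⨅ η < ξ, z η) ∈ U`, `z ξ ∉ U`. Claim `X = ck ξ` (ext_mod): an element of `ck ξ` is `ck η`, `η < ξ` (of_mem_ck; keep
`(⨅ ..) ∈ U` in Q), so in `X`. Let `Y ∈ X`; FACT 1 and of_iSup: `Y = ck η`; if `ξ ≤ η`, then `z η ∈ U` gives `z ξ ∈ U`,
contradiction (keep `IsOrd X ∧ ¬ z ξ ∈ U` in Q). So `η < ξ`, `Y ∈ ck ξ` (E_ck).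
-/

set_option autoImplicit false

namespace Pool.Agent.Lib.FMM

open Set Cardinal Pool.Agent.Lib.WkD Pool.Agent.Lib.BVM Pool.Agent.Lib.BVM.bSet

namespace OrdMAux

variable {B : Type} [CompleteBooleanAlgebra B]

theorem isOrd_of_mem {U : Ultra B} {x y : Mod U} (hx : IsOrd (E U) x) (h : E U y x) :
    IsOrd (E U) y :=
  ⟨hx.2 y h, fun z hz => hx.2 z (hx.1 y h z hz)⟩

/-- FACT 1: elements of the ordinal `X` are check ordinals. -/
theorem fact1 {α : Type} {A : α → bSet B} {w : α → B} {Θ : Type} [LinearOrder Θ]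
    [WellFoundedLT Θ]
    (ih : ∀ a (U : Ultra B), IsOrd (E U) (q U (A a)) → (⨆ ξ : Θ, beq (A a) (ck B ξ)) ∈ U)
    (Y : bSet B) (U : Ultra B) (hX : IsOrd (E U) (q U (bSet.mk α A w)))
    (hY : E U (q U Y) (q U (bSet.mk α A w))) : (⨆ ξ : Θ, beq Y (ck B ξ)) ∈ U := by
  refine of_mem (X := bSet.mk α A w) (Z := Y) (P := fun U => (⨆ ξ : Θ, beq Y (ck B ξ)) ∈ U)
    (Q := fun U => IsOrd (E U) (q U (bSet.mk α A w))) (BV.of_mem _) (BV_isOrd _)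
    (fun a U hval hYa hQ => ?_) hY hX
  have h1 : E U (q U (A a)) (q U (bSet.mk α A w)) := E_func (X := bSet.mk α A w) a hval
  have h2 := ih a U (isOrd_of_mem hQ h1)
  refine of_iSup (t := fun ξ : Θ => beq (A a) (ck B ξ))
    (P := fun U => (⨆ ξ : Θ, beq Y (ck B ξ)) ∈ U)
    (Q := fun U => q U Y = q U (A a)) (BV.of_mem _) (BV.eq _ _) (fun ξ U ht hq => ?_) h2 hYa
  refine Ultra.mono ?_ (le_iSup (fun ξ : Θ => beq Y (ck B ξ)) ξ)
  rw [← q_eq, hq, q_eq]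
  exact ht

/-- FACT 2: not all check ordinals are in `X`. -/
theorem fact2 {α : Type} {A : α → bSet B} {w : α → B} {Θ : Type} [LinearOrder Θ]
    [WellFoundedLT Θ] (hΘ : #(α × B) < #Θ) : (⨅ ξ : Θ, bmem (ck B ξ) (bSet.mk α A w)) = ⊥ := by
  by_contra hb
  have h1 : ∀ ξ : Θ, ∃ a : α, (⨅ ξ : Θ, bmem (ck B ξ) (bSet.mk α A w)) ⊓
      beq (ck B ξ) (A a) ≠ ⊥ := by
    intro ξ
    by_contra hcon
    push Not at hcon
    apply hb
    rw [← le_bot_iff]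
    have h2 : (⨅ ξ : Θ, bmem (ck B ξ) (bSet.mk α A w)) ≤
        (⨅ ξ : Θ, bmem (ck B ξ) (bSet.mk α A w)) ⊓ bmem (ck B ξ) (bSet.mk α A w) :=
      le_inf le_rfl (iInf_le _ ξ)
    refine h2.trans ?_
    rw [bmem_mk, inf_iSup_eq]
    refine iSup_le fun a => ?_
    rw [← hcon a]
    exact inf_le_inf_left _ inf_le_right
  choose f hf using h1
  have hinj : Function.Injective (fun ξ : Θ =>
      ((f ξ, (⨅ ξ : Θ, bmem (ck B ξ) (bSet.mk α A w)) ⊓ beq (ck B ξ) (A (f ξ))) : α × B)) := by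
    intro ξ ξ' h
    obtain ⟨h3, h4⟩ := Prod.mk.inj h
    obtain ⟨U, hU⟩ := Ultra.exists_mem (hf ξ)
    have h5 := hU
    rw [h4] at h5
    have h6 : q U (ck B ξ) = q U (A (f ξ)) := q_eq.2 (Ultra.mono hU inf_le_right)
    have h7 : q U (ck B ξ') = q U (A (f ξ')) := q_eq.2 (Ultra.mono h5 inf_le_right)
    rw [← h3] at h7
    exact ck_inj (h6.trans h7.symm)
  exact absurd (Cardinal.mk_le_of_injective hinj) (not_le.2 hΘ)

/-- FACT 3: there is a least check ordinal which is not in `X`. -/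
theorem fact3 {Θ : Type} [LinearOrder Θ] [WellFoundedLT Θ] (z : Θ → B) (hz : (⨅ ξ, z ξ) = ⊥) :
    (⨆ ξ : Θ, (⨅ η : Θ, ⨅ _ : η < ξ, z η) ⊓ (z ξ)ᶜ) = ⊤ := by
  rw [← compl_eq_bot, ← le_bot_iff, ← hz]
  refine le_iInf fun ξ => ?_
  induction ξ using WellFoundedLT.induction with
  | ind ξ ih =>
    have h1 : (⨆ ξ : Θ, (⨅ η : Θ, ⨅ _ : η < ξ, z η) ⊓ (z ξ)ᶜ)ᶜ ≤
        ((⨅ η : Θ, ⨅ _ : η < ξ, z η) ⊓ (z ξ)ᶜ)ᶜ :=
      compl_le_compl (le_iSup (fun ξ : Θ => (⨅ η : Θ, ⨅ _ : η < ξ, z η) ⊓ (z ξ)ᶜ) ξ)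
    have h2 : (⨆ ξ : Θ, (⨅ η : Θ, ⨅ _ : η < ξ, z η) ⊓ (z ξ)ᶜ)ᶜ ≤
        ⨅ η : Θ, ⨅ _ : η < ξ, z η := le_iInf fun η => le_iInf fun hη => ih η hη
    refine (le_inf h1 h2).trans ?_
    rw [compl_inf, compl_compl, inf_comm, inf_sup_left, inf_compl_self, bot_sup_eq]
    exact inf_le_right

end OrdMAux

open OrdMAux in
theorem ord_bound {B : Type} [CompleteBooleanAlgebra B] (X : bSet B) :
    ∃ μ : Cardinal.{0}, ∀ (Θ : Type) [LinearOrder Θ] [WellFoundedLT Θ], μ < #Θ →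
      ∀ U : Ultra B, IsOrd (E U) (q U X) → (⨆ ξ : Θ, beq X (ck B ξ)) ∈ U := by
  induction X with
  | mk α A w ih =>
    choose μ hμ using ih
    refine ⟨max #(α × B) (Cardinal.sum μ), fun Θ _ _ hΘ U hU => ?_⟩
    have ih' : ∀ a (U : Ultra B), IsOrd (E U) (q U (A a)) →
        (⨆ ξ : Θ, beq (A a) (ck B ξ)) ∈ U := fun a =>
      hμ a Θ (lt_of_le_of_lt ((Cardinal.le_sum μ a).trans (le_max_right _ _)) hΘ)
    have h3 := fact3 (fun ξ : Θ => bmem (ck B ξ) (bSet.mk α A w))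
      (fact2 (lt_of_le_of_lt (le_max_left _ _) hΘ))
    refine of_iSup
      (t := fun ξ : Θ => (⨅ η : Θ, ⨅ _ : η < ξ, bmem (ck B η) (bSet.mk α A w)) ⊓
        (bmem (ck B ξ) (bSet.mk α A w))ᶜ)
      (P := fun U => (⨆ ξ : Θ, beq (bSet.mk α A w) (ck B ξ)) ∈ U)
      (Q := fun U => IsOrd (E U) (q U (bSet.mk α A w))) (BV.of_mem _) (BV_isOrd _)
      (fun ξ U ht hQ => ?_) (h3 ▸ Ultra.top) hU
    refine Ultra.mono ?_ (le_iSup (fun ξ : Θ => beq (bSet.mk α A w) (ck B ξ)) ξ)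
    rw [← q_eq]
    apply ext_mod
    intro z
    obtain ⟨Z, rfl⟩ := q_surj z
    constructor
    · intro hZ
      refine of_iSup (t := fun η : Θ => beq Z (ck B η))
        (P := fun U => E U (q U Z) (q U (ck B ξ)))
        (Q := fun U => IsOrd (E U) (q U (bSet.mk α A w)) ∧ E U (q U Z) (q U (bSet.mk α A w)) ∧
          (⨅ η : Θ, ⨅ _ : η < ξ, bmem (ck B η) (bSet.mk α A w)) ⊓
            (bmem (ck B ξ) (bSet.mk α A w))ᶜ ∈ U)
        (BV.mem _ _) ((BV_isOrd _).and ((BV.mem _ _).and (BV.of_mem _)))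
        (fun η U hη hq => ?_) (fact1 ih' Z U hQ hZ) ⟨hQ, hZ, ht⟩
      obtain ⟨hO, hZX, hxi⟩ := hq
      have hZη : q U Z = q U (ck B η) := q_eq.2 hη
      rw [hZη] at hZX ⊢
      have hnot : ¬ E U (q U (ck B ξ)) (q U (bSet.mk α A w)) :=
        Ultra.not_iff.1 (Ultra.inf_iff.1 hxi).2
      rcases lt_trichotomy η ξ with hlt | rfl | hgt
      · exact E_ck.2 hlt
      · exact absurd hZX hnot
      · exact absurd (hO.1 _ hZX _ (E_ck.2 hgt)) hnot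
    · intro hZ
      refine of_mem_ck (P := fun U => E U (q U Z) (q U (bSet.mk α A w)))
        (Q := fun U => (⨅ η : Θ, ⨅ _ : η < ξ, bmem (ck B η) (bSet.mk α A w)) ⊓
            (bmem (ck B ξ) (bSet.mk α A w))ᶜ ∈ U)
        (BV.mem _ _) (BV.of_mem _) (fun η hη U hZη hq => ?_) hZ ht
      rw [hZη]
      exact Ultra.mono (Ultra.inf_iff.1 hq).1 ((iInf_le _ η).trans (iInf_le _ hη))

end Pool.Agent.Lib.FMM
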