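import Pool.Agent.Lib.FMM.Miller
import Pool.Agent.Lib.FMM.Climb

/-!
# Module FMM.RRb: the order `P_A * T`

`RR t` are the pairs `(a, u)` with `em a ≤ t u` in `ROP (FnOn κ J Z A)`.

PROOFS.
* rr_glb: `C` a nonempty chain of size `< κ` with a member `r₁` such that `em r₁.1.1 ≤ BFM t`. Let `a` be the union
  of the first components (FnOn.glb), `u` the union of the second components (Nd.glb). `em a ≤ t u`: if `u` is
  the second component of a member `r` then `em a ≤ em r.1.1 ≤ t u`. Otherwise `u` is `Lim`: if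
  `u = v.snoc x` then `v.len < u.len`, so `v.len < r.1.2.len` for some `r ∈ C`, `r.1.2.len ≥ u.len` and `u ≤ r.1.2`, so
  `u = r.1.2` (Nd.eq_of_le), contradiction. Use clause 3 of le_BFM_iff with `a := em a ≤ em r₁.1.1 ≤ BFM t`: for
  `u < v` there is a member `r` with `v.len < r.1.2.len` or `v.len ≤ ..` (as `v.len < u.len`), so `r.1.2 ≤ v` (Nd.comp), and
  `em a ≤ em r.1.1 ≤ t r.1.2`, clause 2. The pair is the glb (componentwise).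
* rr_child: `(a, u) ∈ RR t`, `em a ≤ BFM t`: bfm_child and exists_em_iSup give `a' ≤ a`, `ξ` with
  `em a' ≤ t (u.snoc ξ)`.
* rr_cof: climb with `X = {r' : RR t // r' ≤ r}`, `ρ r' = r'.1.2.len`, `lt r' r'' := r'' ≤ r' ∧ ρ r' < ρ r''`, `γ` greater than `i`
  and `≥ r.1.2.len`. Step: rr_child (`(u.snoc ξ).len ≤ γ` if `u.len < γ`, by lt_snoc_len). Limit: rr_glb
  (`#C ≤ #(Iic γ) < κ`).
-/

set_option autoImplicit false

namespace Pool.Agent.Lib.FMM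

open Set Cardinal Pool.Agent.Lib.WkD

variable {κ : Cardinal.{0}} {K J Z : Type} [LinearOrder K] [WellFoundedLT K] [NoMaxOrder K]
  {A : Set J} {t : Nd K K → ROP (FnOn κ J Z A)}

theorem rr_glb (hK : RegK κ K) (C : Set (RR t)) (hC : #C < κ)
    (hch : ∀ x ∈ C, ∀ y ∈ C, x ≤ y ∨ y ≤ x) {r₁ : RR t} (h1 : r₁ ∈ C)
    (h2 : em r₁.1.1 ≤ BFM t) : ∃ g : RR t, IsGLB C g ∧
      (∀ i v, g.1.1.1.1 i = some v ↔ ∃ p ∈ C, p.1.1.1.1 i = some v) ∧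
      ∀ i v, g.1.2.1 i = some v ↔ ∃ p ∈ C, p.1.2.1 i = some v := by
  obtain ⟨a, ha, hav⟩ := FnOn.glb hK.reg ((fun r : RR t => r.1.1) '' C)
    (mk_image_le.trans_lt hC) (by
      rintro _ ⟨p, hp, rfl⟩ _ ⟨q, hq, rfl⟩ i v w e1 e2
      rcases hch p hp q hq with h | h
      · have h' : p.1.1 ≤ q.1.1 := h.1
        exact Fn.agree (r := p.1.1.1) le_rfl h' e1 e2
      · have h' : q.1.1 ≤ p.1.1 := h.1
        exact Fn.agree (r := q.1.1.1) h' le_rfl e1 e2)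
  obtain ⟨u, hu, huv, hul⟩ := Nd.glb hK ((fun r : RR t => r.1.2) '' C) ⟨_, r₁, h1, rfl⟩
    (mk_image_le.trans_lt hC) (by
      rintro _ ⟨p, hp, rfl⟩ _ ⟨q, hq, rfl⟩
      rcases hch p hp q hq with h | h
      · exact Or.inl h.2
      · exact Or.inr h.2)
  have haC : ∀ r ∈ C, a ≤ r.1.1 := fun r hr => ha.1 ⟨r, hr, rfl⟩
  have huC : ∀ r ∈ C, u ≤ r.1.2 := fun r hr => hu.1 ⟨r, hr, rfl⟩
  have hB : em a ≤ BFM t := (em_mono (haC r₁ h1)).trans h2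
  have key : em a ≤ t u := by
    by_cases hex : ∃ r ∈ C, r.1.2 = u
    · obtain ⟨r, hr, hru⟩ := hex
      rw [← hru]
      exact (em_mono (haC r hr)).trans r.2
    · obtain ⟨-, c2, c3, -, -⟩ := le_BFM_iff.1 hB
      have hlim : u.Lim := by
        intro v x hvx
        apply hex
        have hl : v.len < u.len := by rw [hvx]; exact Nd.lt_snoc_len.2 le_rfl
        obtain ⟨_, ⟨r, hr, rfl⟩, hlr⟩ := (hul _).1 hl
        refine ⟨r, hr, ?_⟩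
        have hle : u.len ≤ r.1.2.len := by
          by_contra hc
          rw [not_le, hvx, Nd.lt_snoc_len] at hc
          exact absurd hlr (not_lt.2 hc)
        exact (Nd.eq_of_le (huC r hr) hle).symm
      refine (le_inf le_rfl (le_iInf fun v => ?_)).trans (c3 u hlim)
      obtain ⟨_, ⟨r, hr, rfl⟩, hlr⟩ := (hul _).1 ((Nd.lt_iff_len v.2.le).1 v.2)
      have h3 : r.1.2 ≤ v.1 := Nd.comp v.2.le (huC r hr) hlr.le
      exact (le_inf le_rfl ((em_mono (haC r hr)).trans r.2)).trans (c2 _ _ h3)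
  refine ⟨⟨(a, u), key⟩, ⟨fun r hr => ⟨haC r hr, huC r hr⟩, fun s hs => ⟨ha.2 ?_, hu.2 ?_⟩⟩,
    ?_, ?_⟩
  · rintro _ ⟨r, hr, rfl⟩
    exact (hs hr).1
  · rintro _ ⟨r, hr, rfl⟩
    exact (hs hr).2
  · intro i v
    rw [hav i v]
    constructor
    · rintro ⟨_, ⟨r, hr, rfl⟩, h⟩
      exact ⟨r, hr, h⟩
    · rintro ⟨r, hr, h⟩
      exact ⟨_, ⟨r, hr, rfl⟩, h⟩
  · intro i v
    rw [huv i v]
    constructor
    · rintro ⟨_, ⟨r, hr, rfl⟩, h⟩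
      exact ⟨r, hr, h⟩
    · rintro ⟨r, hr, h⟩
      exact ⟨_, ⟨r, hr, rfl⟩, h⟩

theorem rr_child {r : RR t} (h : em r.1.1 ≤ BFM t) :
    ∃ r' : RR t, r' ≤ r ∧ ∃ ξ, r'.1.2 = r.1.2.snoc ξ := by
  have h1 : em r.1.1 ≤ ⨆ ξ, t (r.1.2.snoc ξ) := (le_inf le_rfl r.2).trans (bfm_child h r.1.2)
  obtain ⟨q, hq, ξ, hξ⟩ := exists_em_iSup h1
  exact ⟨⟨(q, r.1.2.snoc ξ), hξ⟩, ⟨hq, Nd.snoc_le _ _⟩, ξ, rfl⟩

theorem rr_cof (hK : RegK κ K) {r : RR t} (h : em r.1.1 ≤ BFM t) (i : K) :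
    ∃ r' : RR t, r' ≤ r ∧ i < r'.1.2.len := by
  classical
  obtain ⟨γ, hγ⟩ := hK.bdd {i, r.1.2.len} (by
    refine lt_of_lt_of_le ?_ hK.unc.le
    exact (Set.toFinite {i, r.1.2.len}).lt_aleph0)
  have hi : i < γ := hγ i (by simp)
  have hr : r.1.2.len < γ := hγ _ (by simp)
  have hB : ∀ x : RR t, x ≤ r → em x.1.1 ≤ BFM t := fun x hx => (em_mono hx.1).trans h
  let X : Type := {x : RR t // x ≤ r}
  let lt : X → X → Prop := fun x y => y.1 ≤ x.1 ∧ x.1.1.2.len < y.1.1.2.len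
  suffices hmain : ∃ y : X, (y = ⟨r, le_rfl⟩ ∨ lt ⟨r, le_rfl⟩ y) ∧ y.1.1.2.len = γ by
    obtain ⟨y, -, hy⟩ := hmain
    exact ⟨y.1, y.2, by rw [hy]; exact hi⟩
  refine climb lt (fun a b c hab hbc => ⟨hbc.1.trans hab.1, hab.2.trans hbc.2⟩)
    (fun y : X => y.1.1.2.len) (fun a b hab => hab.2) γ ?_ ?_ ⟨r, le_rfl⟩ hr.le
  · intro x hx
    obtain ⟨r', hr', ξ, hξ⟩ := rr_child (hB x.1 x.2)
    refine ⟨⟨r', hr'.trans x.2⟩, ⟨hr', ?_⟩, ?_⟩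
    · show x.1.1.2.len < r'.1.2.len
      rw [hξ]
      exact Nd.lt_snoc_len.2 le_rfl
    · show r'.1.2.len ≤ γ
      rw [hξ]
      by_contra hc
      exact absurd hx (not_lt.2 (Nd.lt_snoc_len.1 (not_le.1 hc)))
  · intro C hne hcard hchain hnomax hlt
    obtain ⟨x₁, hx₁⟩ := hne
    obtain ⟨g, hg, -, hgv⟩ := rr_glb hK (Subtype.val '' C)
      ((mk_image_le.trans hcard).trans_lt (card_Iic hK γ)) (by
        rintro _ ⟨x, hx, rfl⟩ _ ⟨y, hy, rfl⟩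
        rcases hchain x hx y hy with h1 | h1 | h1
        · rw [h1]
          exact Or.inl le_rfl
        · exact Or.inr h1.1
        · exact Or.inl h1.1) ⟨x₁, hx₁, rfl⟩ (hB x₁.1 x₁.2)
    have hgC : ∀ x ∈ C, g ≤ x.1 := fun x hx => hg.1 ⟨x, hx, rfl⟩
    refine ⟨⟨g, (hgC x₁ hx₁).trans x₁.2⟩, fun x hx => ⟨hgC x hx, ?_⟩, ?_⟩
    · obtain ⟨y, hy, hxy⟩ := hnomax x hx
      exact lt_of_lt_of_le hxy.2 (Nd.len_mono (hgC y hy).2)
    · show g.1.2.len ≤ γ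
      by_contra hc
      obtain ⟨v, hv⟩ := Nd.exists_val (not_le.1 hc)
      obtain ⟨_, ⟨x, hx, rfl⟩, hxv⟩ := (hgv _ _).1 hv
      exact absurd (Nd.lt_len hxv) (not_lt.2 (hlt x hx).le)

end Pool.Agent.Lib.FMM
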