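import Pool.Agent.Lib.FMM.Tp1
import Pool.Agent.Lib.FMM.RRb
import Pool.Agent.Lib.FMM.CC
import Pool.Agent.Lib.FMM.TDefs

/-!
# Module FMM.QuotA: the order D of a branch

`h : Br t σ c dc B x q`: `q` forces that `x` is a branch of `tp t σ c dc`. `DD B x c` are the pairs `(d, u)`, `d` a
condition with domain in `B`, `em d ≤ x i j` whenever `u i = some j`, and no `c v`, `v ≤ u`, in the domain of `d`.
For `e : DD B x c`: `e.1.1 : FnOn κ J Z B`, `e.1.1.1 : Fn κ J Z`, `e.1.2 : Nd K K`.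

PROOFS. `hκ : ℵ₀ ≤ κ`.
* br_uniq: `em p ≤ x i j`, `em p ≤ x i j'`, `p ≤ q` imply `j = j'` (h.uniq, em_ne_bot).
* br_em: for `p ≤ q` and a node `u` with `em p ≤ x i j` for all entries: `em p ≤ tp t σ c dc u` (h.br, le_iInf).
* br_comp: two nodes decided by the same `p ≤ q` are comparable: (br_uniq, values agree where both are
  defined; by lengths, Nd.le_of_val).
* decide_ini: `d : FnOn B`, `d.1 ≤ q`, `γ : K`: there are `d' ≤ d` and `u` with `u.len = γ`, `em d'.1 ≤ x i j` for all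
  entries of `u`. For `i < γ` let `b i j` with `pb (rs B) (b i j) = x i j` (h.supp); `em d ≤ ⨆ j, b i j` in
  `ROP (FnOn κ J Z B)`: from h.tot: `em d.1 ≤ ⨆ j, pb (rs B) (b i j) = pb (rs B) (⨆ j, b i j)` (ch_pb .sup), em_le_pb,
  rs_eq. `dist` (FMM/Climb.lean) with `I = Iio γ`, `cg_fnOn`: `d' ≤ d`, `f`; `u = Nd.ofFun γ f'`. Then
  `em d' ≤ b i (f i)` so `em d'.1 ≤ x i (f i)` (em_le_pb, rs_eq).
* dd_dense: recursion of length ω: `s n : {p : FnOn B × Nd | p.1.1 ≤ q, entries decided}`, `s 0` from decide_ini with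
  `γ > i`, `s (n+1)` from `s n` by decide_ini with `γ` above all `v.len` with `c v ∈ dom (s n).1` (`bdd`; `c` injective,
  fewer than κ such `v`) and above `(s n).2.len`. By br_comp `(s (n+1)).2 < (s n).2`. `d'`, `u'` the unions
  (FnOn.glb, Nd.glb, chains; countable sets, `hK.unc`). If `c v ∈ dom d'` then `c v ∈ dom (s n).1` for some `n`, so
  `v.len < (s (n+1)).2.len ≤ u'.len` and `v ≤ u'` is impossible (Nd.len_mono).
* dd_dense': `i` at least `u.len`; br_comp and lengths.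
* dd_em_t: br_em, tp_le, em_le_pb.
* dd_sigma: br_em gives `em ≤ tp .. e.1.2 ≠ ⊥`, so `e.1.2` is comparable with `σ` (tp_bot); by length.
* dd_glb: FnOn.glb and Nd.glb for the components (chains; sizes `≤ #C`).
-/

set_option autoImplicit false

namespace Pool.Agent.Lib.FMM

open Set Cardinal Pool.Agent.Lib.WkD

variable {κ : Cardinal.{0}} {K J Z : Type} [LinearOrder K] [WellFoundedLT K] [NoMaxOrder K]
  {A B : Set J} {t : Nd K K → ROP (FnOn κ J Z A)} {σ : Nd K K} {c : Nd K K → J}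
  {dc : Z → Option K} {x : K → K → ROP (Fn κ J Z)} {q : Fn κ J Z}

theorem br_uniq (h : Br t σ c dc B x q) {p : Fn κ J Z} (hp : p ≤ q) {i j j' : K}
    (h1 : em p ≤ x i j) (h2 : em p ≤ x i j') : j = j' := by
  by_contra hne
  apply em_ne_bot p
  rw [← le_bot_iff, ← h.uniq i j j' hne]
  exact le_inf (le_inf (em_mono hp) h1) h2

theorem br_em (h : Br t σ c dc B x q) {p : Fn κ J Z} (hp : p ≤ q) {u : Nd K K}
    (hu : ∀ i j, u.1 i = some j → em p ≤ x i j) : em p ≤ tp t σ c dc u :=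
  le_trans (le_inf (em_mono hp) (le_iInf fun p' => hu _ _ p'.2)) (h.br u)

theorem br_comp (h : Br t σ c dc B x q) {p : Fn κ J Z} (hp : p ≤ q) {u v : Nd K K}
    (hu : ∀ i j, u.1 i = some j → em p ≤ x i j) (hv : ∀ i j, v.1 i = some j → em p ≤ x i j)
    (hl : v.len ≤ u.len) : u ≤ v := by
  apply Nd.le_of_val
  intro i hi
  obtain ⟨j, hj⟩ := Nd.exists_val hi
  obtain ⟨j', hj'⟩ := Nd.exists_val (hi.trans_le hl)
  rw [hj, hj', br_uniq h hp (hv i j hj) (hu i j' hj')]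

namespace QuotAAux

theorem decide_ini (hK : RegK κ K) (h : Br t σ c dc B x q) (d : FnOn κ J Z B) (hd : d.1 ≤ q)
    (γ : K) : ∃ d' : FnOn κ J Z B, d' ≤ d ∧ ∃ u : Nd K K, u.len = γ ∧
      ∀ i j, u.1 i = some j → em d'.1 ≤ x i j := by
  classical
  have hκ : ℵ₀ ≤ κ := hK.reg.aleph0_le
  have hpr := proj_rs (Z := Z) hκ B
  choose b hb using h.supp
  have h1 : ∀ i, em d ≤ ⨆ j, b i j := by
    intro i
    have h2 := (em_mono hd).trans (h.tot i)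
    have h3 : (⨆ j, x i j) = pb (rs B) (⨆ j, b i j) := by
      rw [(ch_pb hpr).sup]
      simp_rw [hb]
    rw [h3, em_le_pb hpr, rs_eq] at h2
    exact h2
  obtain ⟨d', hd', f, hf⟩ := dist hK (cg_fnOn hK.reg B) (I := Iio γ) (hK.small γ)
    (Y := fun _ => K) (fun i j => b i j) d (fun i => h1 i)
  refine ⟨d', hd', Nd.ofFun γ (fun i => if hi : i < γ then f ⟨i, hi⟩ else i), Nd.len_ofFun _ _, ?_⟩
  intro i j hij
  have hi : i < γ := by
    have := Nd.lt_len hij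
    rwa [Nd.len_ofFun] at this
  rw [Nd.ofFun_val hi, dif_pos hi] at hij
  rw [← Option.some.inj hij, ← hb, em_le_pb hpr, rs_eq]
  exact hf ⟨i, hi⟩

theorem extend (hK : RegK κ K) (h : Br t σ c dc B x q) (d : FnOn κ J Z B) (hd : d.1 ≤ q)
    {u : Nd K K} (hu : ∀ i j, u.1 i = some j → em d.1 ≤ x i j) (i : K) :
    ∃ d' : FnOn κ J Z B, d' ≤ d ∧ ∃ u' : Nd K K, u' ≤ u ∧ i ≤ u'.len ∧
      ∀ i j, u'.1 i = some j → em d'.1 ≤ x i j := by
  obtain ⟨d', hd', u', hl, hu'⟩ := decide_ini hK h d hd (max i u.len)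
  have hd2 : em d'.1 ≤ em d.1 := em_mono hd'
  refine ⟨d', hd', u', ?_, ?_, hu'⟩
  · refine br_comp h ((show d'.1 ≤ d.1 from hd').trans hd) hu' (fun i j hij => hd2.trans (hu i j hij)) ?_
    rw [hl]
    exact le_max_right _ _
  · rw [hl]
    exact le_max_left _ _

/-- decided pairs -/
def St (B : Set J) (x : K → K → ROP (Fn κ J Z)) (q : Fn κ J Z) : Type :=
  {p : FnOn κ J Z B × Nd K K // p.1.1 ≤ q ∧ ∀ i j, p.2.1 i = some j → em p.1.1 ≤ x i j}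

theorem step (hK : RegK κ K) (h : Br t σ c dc B x q) (s : St B x q) :
    ∃ s' : St B x q, s'.1.1 ≤ s.1.1 ∧ s'.1.2 ≤ s.1.2 ∧
      ∀ v, c v ∈ s.1.1.1.1.dom → v.len < s'.1.2.len := by
  have hcard : #(Nd.len '' (c ⁻¹' s.1.1.1.1.dom)) < κ :=
    (mk_image_le.trans (mk_preimage_of_injective c _ h.cinj)).trans_lt s.1.1.1.2
  obtain ⟨γ, hγ⟩ := hK.bdd _ hcard
  obtain ⟨d', hd', u', h1, h2, h3⟩ := extend hK h s.1.1 s.2.1 s.2.2 γ
  refine ⟨⟨(d', u'), (show d'.1 ≤ s.1.1.1 from hd').trans s.2.1, h3⟩, hd', h1, ?_⟩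
  intro v hv
  exact (hγ _ ⟨v, hv, rfl⟩).trans_le h2

end QuotAAux

open QuotAAux in
theorem dd_dense' (hK : RegK κ K) (h : Br t σ c dc B x q) (d : FnOn κ J Z B) (hd : d.1 ≤ q)
    {u : Nd K K} (hu : ∀ i j, u.1 i = some j → em d.1 ≤ x i j) (i : K) :
    ∃ e : DD B x c, e.1.1 ≤ d ∧ e.1.2 ≤ u ∧ i < e.1.2.len := by
  obtain ⟨i', hi'⟩ := exists_gt i
  obtain ⟨d0, hd0, u0, h1, h2, h3⟩ := extend hK h d hd hu i'
  choose f hf using step hK h
  let s0 : St B x q := ⟨(d0, u0), (show d0.1 ≤ d.1 from hd0).trans hd, h3⟩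
  let s : ℕ → St B x q := fun n => Nat.rec s0 (fun _ a => f a) n
  have hs0 : s 0 = s0 := rfl
  have hs1 : ∀ n, s (n + 1) = f (s n) := fun n => rfl
  have ha1 : Antitone (fun n => (s n).1.1) := by
    apply antitone_nat_of_succ_le
    intro n
    show (s (n + 1)).1.1 ≤ (s n).1.1
    rw [hs1]
    exact (hf (s n)).1
  have ha2 : Antitone (fun n => (s n).1.2) := by
    apply antitone_nat_of_succ_le
    intro n
    show (s (n + 1)).1.2 ≤ (s n).1.2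
    rw [hs1]
    exact (hf (s n)).2.1
  obtain ⟨g1, hg1, hv1⟩ := FnOn.glb hK.reg (range fun n => (s n).1.1)
    ((mk_range_le.trans mk_nat.le).trans_lt hK.unc) (by
      rintro _ ⟨m, rfl⟩ _ ⟨n, rfl⟩ i v w hv hw
      rcases le_total m n with hmn | hmn
      · exact Fn.agree (r := (s n).1.1.1) (ha1 hmn) le_rfl hv hw
      · exact Fn.agree (r := (s m).1.1.1) le_rfl (ha1 hmn) hv hw)
  obtain ⟨g2, hg2, hv2, hl2⟩ := Nd.glb hK (range fun n => (s n).1.2) (range_nonempty _)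
    ((mk_range_le.trans mk_nat.le).trans_lt hK.unc) (by
      rintro _ ⟨m, rfl⟩ _ ⟨n, rfl⟩
      rcases le_total m n with hmn | hmn
      · exact Or.inr (ha2 hmn)
      · exact Or.inl (ha2 hmn))
  have hb1 : ∀ n, g1 ≤ (s n).1.1 := fun n => hg1.1 ⟨n, rfl⟩
  have hb2 : ∀ n, g2 ≤ (s n).1.2 := fun n => hg2.1 ⟨n, rfl⟩
  refine ⟨⟨(g1, g2), ?_, ?_⟩, (hb1 0).trans hd0, (hb2 0).trans h1, ?_⟩
  · intro i j hij
    obtain ⟨_, ⟨n, rfl⟩, hn⟩ := (hv2 i j).1 hij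
    exact (em_mono (show g1.1 ≤ (s n).1.1.1 from hb1 n)).trans ((s n).2.2 i j hn)
  · intro v hv hle
    obtain ⟨z, hz⟩ := Option.ne_none_iff_exists'.1 (hv : g1.1.1 (c v) ≠ none)
    obtain ⟨_, ⟨n, rfl⟩, hn⟩ := (hv1 (c v) z).1 hz
    have hn : (s n).1.1.1.1 (c v) = some z := hn
    have h4 : v.len < (s (n + 1)).1.2.len := by
      rw [hs1]
      refine (hf (s n)).2.2 v ?_
      show (s n).1.1.1.1 (c v) ≠ none
      rw [hn]
      simp
    exact absurd (h4.trans_le (Nd.len_mono (hb2 (n + 1)))) (not_lt.2 (Nd.len_mono hle))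
  · exact (hi'.trans_le h2).trans_le (Nd.len_mono (hb2 0))

theorem dd_dense (hK : RegK κ K) (h : Br t σ c dc B x q) (d : FnOn κ J Z B) (hd : d.1 ≤ q)
    (i : K) : ∃ e : DD B x c, e.1.1 ≤ d ∧ i < e.1.2.len := by
  obtain ⟨d', hd', u, -, hu⟩ := QuotAAux.decide_ini hK h d hd i
  obtain ⟨e, he, -, hi⟩ := dd_dense' hK h d' ((show d'.1 ≤ d.1 from hd').trans hd) hu i
  exact ⟨e, he.trans hd', hi⟩

theorem dd_em_t (hK : RegK κ K) (h : Br t σ c dc B x q) (d : DD B x c) (hd : d.1.1.1 ≤ q) :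
    em (rs A d.1.1.1) ≤ t d.1.2 := by
  have h1 := (br_em h hd d.2.1).trans (tp_le d.1.2)
  exact (em_le_pb (proj_rs hK.reg.aleph0_le A)).1 h1

theorem dd_sigma (hK : RegK κ K) (h : Br t σ c dc B x q) (d : DD B x c) (hd : d.1.1.1 ≤ q)
    (hl : σ.len ≤ d.1.2.len) : d.1.2 ≤ σ := by
  have _ := hK
  by_cases hc : d.1.2 ≤ σ ∨ σ ≤ d.1.2
  · rcases hc with hc | hc
    · exact hc
    · exact (Nd.eq_of_le hc hl).ge
  · have h1 := br_em h hd d.2.1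
    rw [tp_bot hc, le_bot_iff] at h1
    exact absurd h1 (em_ne_bot _)

theorem dd_glb (hK : RegK κ K) (C : Set (DD B x c)) (hne : C.Nonempty) (hC : #C < κ)
    (hch : ∀ x ∈ C, ∀ y ∈ C, x ≤ y ∨ y ≤ x) : ∃ g : DD B x c, IsGLB C g ∧
      (∀ i v, g.1.1.1.1 i = some v ↔ ∃ p ∈ C, p.1.1.1.1 i = some v) ∧
      ∀ i v, g.1.2.1 i = some v ↔ ∃ p ∈ C, p.1.2.1 i = some v := by
  obtain ⟨g1, hg1, hv1⟩ := FnOn.glb hK.reg ((fun e : DD B x c => e.1.1) '' C)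
    (mk_image_le.trans_lt hC) (by
      rintro _ ⟨a, ha, rfl⟩ _ ⟨b, hb, rfl⟩ i v w hv hw
      rcases hch a ha b hb with hab | hab
      · exact Fn.agree (r := a.1.1.1) le_rfl (show a.1.1 ≤ b.1.1 from hab.1) hv hw
      · exact Fn.agree (r := b.1.1.1) (show b.1.1 ≤ a.1.1 from hab.1) le_rfl hv hw)
  obtain ⟨g2, hg2, hv2, -⟩ := Nd.glb hK ((fun e : DD B x c => e.1.2) '' C) (hne.image _)
    (mk_image_le.trans_lt hC) (by
      rintro _ ⟨a, ha, rfl⟩ _ ⟨b, hb, rfl⟩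
      rcases hch a ha b hb with hab | hab
      · exact Or.inl hab.2
      · exact Or.inr hab.2)
  have hb1 : ∀ p ∈ C, g1 ≤ p.1.1 := fun p hp => hg1.1 ⟨p, hp, rfl⟩
  have hb2 : ∀ p ∈ C, g2 ≤ p.1.2 := fun p hp => hg2.1 ⟨p, hp, rfl⟩
  refine ⟨⟨(g1, g2), ?_, ?_⟩, ⟨?_, ?_⟩, ?_, ?_⟩
  · intro i j hij
    obtain ⟨_, ⟨p, hp, rfl⟩, hn⟩ := (hv2 i j).1 hij
    exact (em_mono (show g1.1 ≤ p.1.1.1 from hb1 p hp)).trans (p.2.1 i j hn)
  · intro v hv hle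
    obtain ⟨z, hz⟩ := Option.ne_none_iff_exists'.1 (hv : g1.1.1 (c v) ≠ none)
    obtain ⟨_, ⟨p, hp, rfl⟩, hn⟩ := (hv1 (c v) z).1 hz
    have hn : p.1.1.1.1 (c v) = some z := hn
    refine p.2.2 v ?_ (hle.trans (hb2 p hp))
    show p.1.1.1.1 (c v) ≠ none
    rw [hn]
    simp
  · intro p hp
    exact ⟨hb1 p hp, hb2 p hp⟩
  · intro w hw
    refine ⟨hg1.2 ?_, hg2.2 ?_⟩
    · rintro _ ⟨p, hp, rfl⟩
      exact (hw hp).1
    · rintro _ ⟨p, hp, rfl⟩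
      exact (hw hp).2
  · intro i v
    show g1.1.1 i = some v ↔ _
    rw [hv1]
    constructor
    · rintro ⟨_, ⟨p, hp, rfl⟩, hn⟩
      exact ⟨p, hp, hn⟩
    · rintro ⟨p, hp, hn⟩
      exact ⟨_, ⟨p, hp, rfl⟩, hn⟩
  · intro i v
    show g2.1 i = some v ↔ _
    rw [hv2]
    constructor
    · rintro ⟨_, ⟨p, hp, rfl⟩, hn⟩
      exact ⟨p, hp, hn⟩
    · rintro ⟨p, hp, hn⟩
      exact ⟨_, ⟨p, hp, rfl⟩, hn⟩

end Pool.Agent.Lib.FMM
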