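import Pool.Agent.Lib.FMM.Tp1
import Pool.Agent.Lib.FMM.Climb

/-!
# Module FMM.Tp2a: one step in the generic subtree

PROOFS. `hκ : ℵ₀ ≤ κ` from hK. Proj (rs A): proj_rs.
* set_coord: if `c s ∉ dom p`, `z : Z`, there is `p' ≤ p` with value `z` at `c s` and no other new coordinates:
  Fn.exists_ext.
* set_coords: for `v, w` with `w ≤ v` and `c s ∉ dom p` for all `s` with `s ≤ v`: let `f (c s) = z_s`, `dc z_s = w.1 s.len`, for
  `s ≤ v`, `w < s` (fewer than κ such `s`: they are initial segments of `w`, `s = w.ini s.len`, at most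
  `#(Iio w.len)`); `c` injective. Fn.exists_ext.
* ext_A: `em p ≤ pb (rs A) b`, or more generally: if `a ≤ rs A p` then union_rs gives `g ≤ p` with `rs A g = a`
  and the same values outside `A`.
* tp_step: `v ≤ σ`, `em p ≤ tp v`. By bfm_child for `t` (pulled back: `em (rs A p) ≤ t v`), exists_em_iSup in
  `ROP (FnOn κ J Z A)`: `a ≤ rs A p` and `ξ₀` with `em a ≤ t (v.snoc ξ₀)`; exists_decide: `a' ≤ a` with `em a' ≤ sp t v` or
  `em a' ≤ (sp t v)ᶜ`. `g` = union_rs of `p` and `a'`. Case complement: `em g ≤ tp (v.snoc ξ₀)` by em_le_tp_snoc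
  (the implication holds as `em g ≤ (pb (sp t v))ᶜ`). Case `em a' ≤ sp t v`: then `em a' ≤ t (v.snoc ξ)` for all `ξ` (fullness).
  If `g.1 (c v) = some z`: if `dc z = none` take `ξ = ξ₀` else `dc z = some ξ`, take this `ξ`; `em g ≤ hh c dc v (dc z)`.
  If `g.1 (c v) = none`: set_coord with `z`, `dc z = some ξ₀`, take `ξ₀`. The only new coordinate outside `A` is
  `c v`.
-/

set_option autoImplicit false

namespace Pool.Agent.Lib.FMM

open Set Cardinal Pool.Agent.Lib.WkD

variable {κ : Cardinal.{0}} {K J Z : Type} [LinearOrder K] [WellFoundedLT K] [NoMaxOrder K]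
  {A : Set J} {t : Nd K K → ROP (FnOn κ J Z A)} {σ : Nd K K} {c : Nd K K → J} {dc : Z → Option K}

/-- decide the generic values along a segment of a node -/
theorem set_coords (hK : RegK κ K) (cinj : Function.Injective c) (dcs : Function.Surjective dc)
    (p : Fn κ J Z) {v w : Nd K K} (hw : w ≤ v) (hc : ∀ s, s ≤ v → c s ∉ p.1.dom) :
    ∃ q : Fn κ J Z, q ≤ p ∧ (∀ s, s ≤ v → w < s → ∃ z, q.1 (c s) = some z ∧ dc z = w.1 s.len) ∧
      ∀ j, q.1 j ≠ none → p.1 j ≠ none ∨ ∃ s, s ≤ v ∧ w < s ∧ c s = j := by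
  classical
  let S : Set (Nd K K) := {s | s ≤ v ∧ w < s}
  choose z hz using dcs
  let f : PF J Z := fun j =>
    if h : ∃ s, s ≤ v ∧ w < s ∧ c s = j then some (z (w.1 h.choose.len)) else none
  have hfs : ∀ s, s ≤ v → w < s → f (c s) = some (z (w.1 s.len)) := by
    intro s h1 h2
    have h : ∃ s', s' ≤ v ∧ w < s' ∧ c s' = c s := ⟨s, h1, h2, rfl⟩
    have h3 : f (c s) = some (z (w.1 h.choose.len)) := dif_pos h
    rw [h3, cinj h.choose_spec.2.2]
  have hfd : ∀ j, f j ≠ none → ∃ s, s ≤ v ∧ w < s ∧ c s = j := by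
    intro j hj
    by_contra hcon
    exact hj (dif_neg hcon)
  have hcard : #f.dom < κ := by
    have h1 : f.dom ⊆ c '' S := by
      intro j hj
      obtain ⟨s, h1, h2, h3⟩ := hfd j hj
      exact ⟨s, ⟨h1, h2⟩, h3⟩
    have h2 : #S ≤ #(Iio w.len) := by
      have hinj : Function.Injective (fun s : S =>
          (⟨s.1.len, (Nd.lt_iff_len s.2.2.le).1 s.2.2⟩ : Iio w.len)) := by
        rintro ⟨s, hs⟩ ⟨s', hs'⟩ he
        have he : s.len = s'.len := congrArg Subtype.val he
        apply Subtype.ext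
        show s = s'
        rw [Nd.eq_ini hs.2.le, Nd.eq_ini hs'.2.le, he]
      exact mk_le_of_injective hinj
    exact ((mk_le_mk_of_subset h1).trans (mk_image_le.trans h2)).trans_lt (hK.small w.len)
  obtain ⟨g, hg1, hg2, hg3⟩ := Fn.exists_ext hK.unc.le p f hcard (by
    intro i hi
    by_contra hcon
    obtain ⟨s, h1, h2, h3⟩ := hfd i hcon
    exact hc s h1 (by rw [h3]; exact hi))
  refine ⟨g, hg1, ?_, ?_⟩
  · intro s h1 h2
    refine ⟨z (w.1 s.len), ?_, hz _⟩
    rw [hg3]
    exact Or.inr (hfs s h1 h2)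
  · intro j hj
    obtain ⟨x, hx⟩ := Option.ne_none_iff_exists'.1 hj
    rcases (hg3 j x).1 hx with h | h
    · left
      rw [h]
      simp
    · right
      exact hfd j (by rw [h]; simp)

theorem tp_step (hK : RegK κ K) (cA : ∀ s, c s ∉ A) (cinj : Function.Injective c)
    (dcs : Function.Surjective dc) {p : Fn κ J Z} (hb : em p ≤ pb (rs A) (BFM t)) {v : Nd K K}
    (hv : v ≤ σ) (hp : em p ≤ tp t σ c dc v) : ∃ q, q ≤ p ∧ ∃ ξ, em q ≤ tp t σ c dc (v.snoc ξ) ∧
      ∀ s, c s ∈ q.1.dom → c s ∈ p.1.dom ∨ s = v := by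
  classical
  have hκ : ℵ₀ ≤ κ := hK.unc.le
  have hpr : Proj (rs A : Fn κ J Z → FnOn κ J Z A) := proj_rs hκ A
  have hb' : em (rs A p) ≤ BFM t := (em_le_pb hpr).1 hb
  have hpt : em (rs A p) ≤ t v := (em_le_pb hpr).1 (hp.trans (tp_le v))
  obtain ⟨a, ha, ξ₀, haξ⟩ := exists_em_iSup ((le_inf le_rfl hpt).trans (bfm_child hb' v))
  obtain ⟨a', ha', hdec⟩ := exists_decide a (sp t v)
  obtain ⟨g, hgp, -, hga, hgA, -⟩ := union_rs hκ p a' (ha'.trans ha)
  have hgv : em g ≤ tp t σ c dc v := (em_mono hgp).trans hp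
  have hold : ∀ s, g.1 (c s) ≠ none → c s ∈ p.1.dom := by
    intro s hs
    rw [hgA (c s) (cA s)] at hs
    exact hs
  rcases hdec with hsp | hsp
  · have hall : ∀ ξ, em a' ≤ t (v.snoc ξ) := by
      intro ξ
      have h1 := (le_BFM_iff.1 ((em_mono (ha'.trans ha)).trans hb')).2.2.2.2 v ξ
      exact (le_inf le_rfl hsp).trans h1
    have hall' : ∀ ξ, em g ≤ pb (rs A) (t (v.snoc ξ)) := by
      intro ξ
      rw [em_le_pb hpr, hga]
      exact hall ξ
    cases hz : g.1 (c v) with
    | some z =>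
      have h1 : em g ≤ hh c dc v (dc z) := em_le_hh hz
      have h2 : ∃ ξ, dc z = none ∨ dc z = some ξ := by
        cases hdz : dc z with
        | none => exact ⟨ξ₀, Or.inl rfl⟩
        | some ξ => exact ⟨ξ, Or.inr rfl⟩
      obtain ⟨ξ, hξ⟩ := h2
      refine ⟨g, hgp, ξ, (em_le_tp_snoc hv ξ hgv).2 ⟨hall' ξ, ?_⟩, fun s hs =>
        Or.inl (hold s hs)⟩
      rw [le_himp_iff]
      refine inf_le_left.trans ?_
      rcases hξ with h | h
      · rw [h] at h1
        exact h1.trans le_sup_left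
      · rw [h] at h1
        exact h1.trans le_sup_right
    | none =>
      obtain ⟨z, hdz⟩ := dcs (some ξ₀)
      obtain ⟨q, hqg, -, hqv⟩ := Fn.exists_ext hκ g (fun j => if j = c v then some z else none)
        (by
          refine lt_of_le_of_lt (mk_le_mk_of_subset (t := {c v}) ?_)
            (by rw [mk_singleton]; exact one_lt_aleph0.trans_le hκ)
          intro j hj
          by_contra h
          exact hj (if_neg h))
        (by
          intro i hi
          by_cases h : i = c v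
          · subst h
            exact absurd hz hi
          · exact if_neg h)
      have h1 : q.1 (c v) = some z := by
        rw [hqv]
        exact Or.inr (if_pos rfl)
      have h2 : em q ≤ hh c dc v (some ξ₀) := by
        rw [← hdz]
        exact em_le_hh h1
      refine ⟨q, hqg.trans hgp, ξ₀, (em_le_tp_snoc hv ξ₀ ((em_mono hqg).trans hgv)).2
        ⟨(em_mono hqg).trans (hall' ξ₀), ?_⟩, ?_⟩
      · rw [le_himp_iff]
        exact inf_le_left.trans (h2.trans le_sup_right)
      · intro s hs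
        have hs : q.1 (c s) ≠ none := hs
        obtain ⟨x, hx⟩ := Option.ne_none_iff_exists'.1 hs
        rcases (hqv (c s) x).1 hx with h | h
        · left
          exact hold s (by rw [h]; simp)
        · right
          by_contra hne
          have h3 : c s ≠ c v := fun h4 => hne (cinj h4)
          rw [if_neg h3] at h
          cases h
  · refine ⟨g, hgp, ξ₀, (em_le_tp_snoc hv ξ₀ hgv).2 ⟨?_, ?_⟩, fun s hs => Or.inl (hold s hs)⟩
    · rw [em_le_pb hpr, hga]
      exact (em_mono ha').trans haξ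
    · have h1 : em g ≤ (pb (rs A) (sp t v))ᶜ := by
        rw [← (ch_pb hpr).compl, em_le_pb hpr, hga]
        exact hsp
      rw [le_himp_iff]
      have h2 : em g ⊓ pb (rs A) (sp t v) ≤ ⊥ := by
        refine (inf_le_inf_right _ h1).trans ?_
        rw [compl_inf_self]
      exact h2.trans bot_le

end Pool.Agent.Lib.FMM
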