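import Pool.Agent.Lib.FMM.QuotA
import Pool.Agent.Lib.FMM.Tp2a

/-!
# Module FMM.QuotB: the projection property of D

See QuotA.lean for the notions. PROOF.
* dd_lift: `d₁ = d ∪ a ∪ f`, `f (c s) = z_s`, `dc z_s = u'.1 s.len` for the `s` with `s ≤ d.1.2`, `u' < s` (`a = r.1.1`,
  `u' = r.1.2`): first union_rs of `d.1.1.1` and `a` (domain inside `B` as `A ⊆ B`), then the new coordinates by
  set_coords (Tp2a.lean; `c s ∉ A`, `c s ∉ dom d` for `s ≤ d.1.2`); `d₁ : FnOn B`. Show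
  `em d₁ ≤ x i j` for all entries `u'.1 i = some j`, by strong induction on `i`: for `i < d.1.2.len` clear. Let
  `i ≥ d.1.2.len`, `s = u'.ini i`, so `s ≤ d.1.2`, `u' < s`, and all entries of `s` are decided by `d₁`. em_le_of_dense:
  let `p ≤ d₁`; h.tot, exists_em_iSup: `p' ≤ p`, `η` with `em p' ≤ x i η`. Claim `η = j`. The node `s.snoc η` is
  decided by `p'` so `em p' ≤ tp .. (s.snoc η)` (br_em); if `η ≠ j`: `em p' ≤ pb (t (s.snoc η))` and
  `em p' ≤ pb (t (s.snoc j))` (`u' ≤ s.snoc j`, `em a ≤ t u'`, tree), so `em p' ≤ pb (sp t s)`; em_le_tp_snoc (`s ≤ σ`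
  since `s ≤ d.1.2 ≤ σ`): `em p' ≤ hh c dc s none ⊔ hh c dc s (some η)`, but `em p' ≤ hh c dc s (some j)` (em_le_hh), contradiction
  to hh_disj. Then dd_dense' for `d₁` and `u'`.
-/

set_option autoImplicit false

namespace Pool.Agent.Lib.FMM

open Set Cardinal Pool.Agent.Lib.WkD

variable {κ : Cardinal.{0}} {K J Z : Type} [LinearOrder K] [WellFoundedLT K] [NoMaxOrder K]
  {A B : Set J} {t : Nd K K → ROP (FnOn κ J Z A)} {σ : Nd K K} {c : Nd K K → J}
  {dc : Z → Option K} {x : K → K → ROP (Fn κ J Z)} {q : Fn κ J Z}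

namespace QuotBAux

/-- one step of the claim that all entries of `w` are decided -/
theorem step (hκ : ℵ₀ ≤ κ) (h : Br t σ c dc B x q) {g : Fn κ J Z} (hg : g ≤ q) {w s : Nd K K}
    (hws : w ≤ s) (hsσ : s ≤ σ) (hw : em (rs A g) ≤ t w) {j : K} (hj : w.1 s.len = some j)
    (hs : ∀ i j, s.1 i = some j → em g ≤ x i j) {z : Z} (hz : g.1 (c s) = some z)
    (hz' : dc z = some j) : em g ≤ x s.len j := by
  apply em_le_of_dense
  intro p hp
  have hpq : p ≤ q := hp.trans hg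
  obtain ⟨p', hp', η, hη⟩ := exists_em_iSup (p := p) (t := fun j => x s.len j)
    ((em_mono hpq).trans (h.tot s.len))
  refine ⟨p', hp', ?_⟩
  have hpg : p' ≤ g := hp'.trans hp
  have hpq' : p' ≤ q := hpg.trans hg
  by_cases hηj : η = j
  · rw [← hηj]
    exact hη
  exfalso
  have hs' : ∀ i j, s.1 i = some j → em p' ≤ x i j := fun i j hij =>
    (em_mono hpg).trans (hs i j hij)
  have h1 : em p' ≤ tp t σ c dc s := br_em h hpq' hs'
  have h2 : em p' ≤ tp t σ c dc (s.snoc η) := by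
    apply br_em h hpq'
    intro i k hik
    have hi : i ≤ s.len := Nd.lt_snoc_len.1 (Nd.lt_len hik)
    rcases lt_or_eq_of_le hi with hi | hi
    · rw [Nd.snoc_val_lt hi] at hik
      exact hs' i k hik
    · subst hi
      rw [Nd.snoc_val] at hik
      rw [← Option.some.inj hik]
      exact hη
  obtain ⟨h3, h4⟩ := (em_le_tp_snoc hsσ η h1).1 h2
  have hb : em p' ≤ BFM (fun u => pb (rs A) (t u)) := by
    rw [← pb_BFM (proj_rs hκ A)]
    exact (em_mono hpq').trans h.bfm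
  have h5 : em p' ≤ pb (rs A) (t w) := by
    rw [em_le_pb (proj_rs hκ A)]
    exact (em_mono (rs_mono A hpg)).trans hw
  have h6 : em p' ≤ pb (rs A) (t (s.snoc j)) :=
    (le_inf le_rfl h5).trans ((le_BFM_iff.1 hb).2.1 w (s.snoc j) (Nd.le_snoc.2 ⟨hws, hj⟩))
  have h7 : em p' ≤ pb (rs A) (sp t s) := by
    rw [pb_sp (proj_rs hκ A)]
    exact (le_inf h3 h6).trans (bfm_two (t := fun u => pb (rs A) (t u)) s hηj)
  have h8 : em p' ≤ hh c dc s none ⊔ hh c dc s (some η) := by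
    have h9 := le_himp_iff.1 h4
    exact (le_inf le_rfl h7).trans h9
  have h10 : em p' ≤ hh c dc s (some j) := by
    rw [← hz']
    exact em_le_hh (hpg (c s) z hz)
  have h11 : em p' ≤ (⊥ : ROP (Fn κ J Z)) := by
    refine (le_inf h8 h10).trans ?_
    rw [inf_sup_right, hh_disj s (by simp), hh_disj s (by simpa using hηj), sup_bot_eq]
  exact em_ne_bot p' (le_bot_iff.1 h11)

end QuotBAux

theorem dd_lift (hK : RegK κ K) (h : Br t σ c dc B x q) (d : DD B x c) (hd : d.1.1.1 ≤ q)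
    (hσ : d.1.2 ≤ σ) (r : RR t) (hr1 : r.1.1 ≤ rs A d.1.1.1) (hr2 : r.1.2 ≤ d.1.2) :
    ∃ d' : DD B x c, d' ≤ d ∧ rs A d'.1.1.1 ≤ r.1.1 ∧ d'.1.2 ≤ r.1.2 := by
  have hκ : ℵ₀ ≤ κ := hK.unc.le
  obtain ⟨g, hg1, -, hg3, hg4, -⟩ := union_rs hκ d.1.1.1 r.1.1 hr1
  have hc : ∀ s, s ≤ d.1.2 → c s ∉ g.1.dom := by
    intro s hs hcs
    have hcs' : g.1 (c s) ≠ none := hcs
    rw [hg4 (c s) (h.cA s)] at hcs'
    exact d.2.2 s hcs' hs
  obtain ⟨e, he1, he2, he3⟩ := set_coords hK h.cinj h.dcs g hr2 hc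
  have heB : e.1.dom ⊆ B := by
    intro j hj
    rcases he3 j hj with hj | ⟨s, -, -, rfl⟩
    · by_cases hjA : j ∈ A
      · exact h.AB hjA
      · rw [hg4 j hjA] at hj
        exact d.1.1.2 hj
    · exact h.cB s
  have heq : e ≤ q := (he1.trans hg1).trans hd
  have hea : rs A e ≤ r.1.1 := by
    rw [← hg3]
    exact rs_mono A he1
  have hr : em (rs A e) ≤ t r.1.2 := (em_mono hea).trans r.2
  have key : ∀ i j, r.1.2.1 i = some j → em e ≤ x i j := by
    intro i
    induction i using WellFoundedLT.induction with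
    | ind i ih =>
      intro j hij
      have hi : i < r.1.2.len := Nd.lt_len hij
      by_cases hid : i < d.1.2.len
      · rw [Nd.val_eq hr2 hid] at hij
        exact (em_mono (he1.trans hg1)).trans (d.2.1 i j hij)
      · have hsl : (r.1.2.ini i).len = i := Nd.len_ini hi.le
        have hus : r.1.2 ≤ r.1.2.ini i := Nd.le_ini _ _
        have hsd : r.1.2.ini i ≤ d.1.2 := Nd.comp hr2 hus (by rw [hsl]; exact not_lt.1 hid)
        have hlt : r.1.2 < r.1.2.ini i := (Nd.lt_iff_len hus).2 (by rw [hsl]; exact hi)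
        obtain ⟨z, hz1, hz2⟩ := he2 _ hsd hlt
        rw [hsl, hij] at hz2
        have h1 := QuotBAux.step hκ h heq hus (hsd.trans hσ) hr (j := j) (by rw [hsl]; exact hij)
          (by
            intro i' j' h'
            have h2 : i' < i := by
              have := Nd.lt_len h'
              rwa [hsl] at this
            rw [Nd.ini_val h2] at h'
            exact ih i' h2 j' h') hz1 hz2
        rwa [hsl] at h1
  obtain ⟨d', hd1, hd2, -⟩ := dd_dense' hK h ⟨e, heB⟩ heq key r.1.2.len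
  refine ⟨d', ⟨?_, hd2.trans hr2⟩, (rs_mono A hd1).trans hea, hd2⟩
  exact hd1.trans (he1.trans hg1)

end Pool.Agent.Lib.FMM
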