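import Pool.Agent.Lib.FMM.Tp2

/-!
# FMM.Tp: the generic subtree is full Miller
-/

set_option autoImplicit false

namespace Pool.Agent.Lib.FMM

open Set Cardinal Pool.Agent.Lib.WkD

variable {κ : Cardinal.{0}} {K J Z : Type} [LinearOrder K] [WellFoundedLT K] [NoMaxOrder K]
  {A : Set J} {t : Nd K K → ROP (FnOn κ J Z A)} {σ : Nd K K} {c : Nd K K → J} {dc : Z → Option K}

theorem tp_bfm (hK : RegK κ K) (cA : ∀ s, c s ∉ A) (cinj : Function.Injective c)
    (dcs : Function.Surjective dc) {p : Fn κ J Z} (hb : em p ≤ pb (rs A) (BFM t))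
    (hσ : em p ≤ pb (rs A) (t σ)) : em p ≤ BFM (tp t σ c dc) := by
  have hκ : ℵ₀ ≤ κ := hK.unc.le
  rw [le_BFM_iff]
  have hσ' : em p ≤ tp t σ c dc σ := by
    rw [tp_above le_rfl]
    exact hσ
  refine ⟨hσ'.trans (le_iSup _ σ), fun v u h => tp_tree hκ hb h, fun u hu => tp_lim hκ hb hσ hu,
    fun u => ?_, fun v ξ => tp_full hκ hb v ξ⟩
  by_cases hu : u ≤ σ ∨ σ ≤ u
  · rw [← le_himp_iff, em_le_himp_iff]
    intro q hq hqu
    have hbq : em q ≤ pb (rs A) (BFM t) := (em_mono hq).trans hb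
    -- move to a node extending `σ`
    obtain ⟨v, hv1, hv2, hv3⟩ : ∃ v, v ≤ u ∧ v ≤ σ ∧ em q ≤ tp t σ c dc v := by
      rcases hu with hu | hu
      · exact ⟨u, le_rfl, hu, hqu⟩
      · exact ⟨σ, hu, le_rfl, (em_mono hq).trans hσ'⟩
    refine em_le_of_dense fun r hr => ?_
    obtain ⟨r', hr', w, hw, hrw⟩ := tp_split hK cA cinj dcs ((em_mono hr).trans hbq) hv2
      ((em_mono hr).trans hv3)
    exact ⟨r', hr', hrw.trans (le_iSup (fun v : {v : Nd K K // v ≤ u} => sp (tp t σ c dc) v.1)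
      ⟨w, hw.trans hv1⟩)⟩
  · rw [tp_bot hu, inf_bot_eq]
    exact bot_le

end Pool.Agent.Lib.FMM
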