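import Pool.Agent.Lib.FMM.Miller

/-!
# Module FMM.Tp1: the generic subtree, first facts

`hh c dc s o` is the value of: the generic value at `c s` is decoded to `o`.

PROOFS.
* em_le_hh: le_iSup. hh_disj: if the infimum is not `⊥` there is `em p` below it (exists_em); by exists_em_iSup
  twice and compat_of `p' ≤ p` extends a condition with value decoded to `o` at `c s` and one with value
  decoded to `o'`, so `o = o'`.
* of_em_le_hh: `em p ≤ hh c dc s o` and `p.1 (c s) = some z` give `dc z = o`: em_le_hh and hh_disj.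
* tp_le: by definition. tp_bot: if_neg. tp_above: for `σ ≤ v` (`v` is an initial segment of `σ`): the infimum
  is over `s ≤ σ`, `v < s`: then `v < s ≤ σ ≤ v`, impossible, so it is `⊤`.
* em_le_tp_iff: if_pos, `le_inf_iff`, `le_iInf_iff`.
* em_le_tp_snoc: for `v ≤ σ`: em_le_tp_iff for `v.snoc ξ` and `v`. For `s ≤ σ` with `v.snoc ξ < s`: either `s = v`, with
  value `(v.snoc ξ).1 v.len = some ξ`, or `v < s` (Nd.snoc_le_iff), and then the value of `v.snoc ξ` at
  `s.len < v.len` is the value of `v`.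
* tp_tree: `v ≤ u`, `a ⊓ tp v ≤ tp u` where `a ≤ pb (rs A) (BFM t)`: if `tp v = ⊥` clear; if `v ≤ σ ∨ σ ≤ v` then also
  `u ≤ σ ∨ σ ≤ u` (comp'), `pb (t v) ⊓ a ≤ pb (t u)` by pb_BFM and le_BFM_iff, and the infimum for `u` is over fewer
  `s` with the same values (`s.len < u.len`, Nd.val_eq). (Case `u ≤ σ`, then `v ≤ σ`; case `σ ≤ u`: tp_above.)
* tp_lim: `u` is Lim: `a ⊓ ⨅ v, (u < v), tp v ≤ tp u`, for `a ≤ pb (rs A) (BFM t)`, `a ≤ pb (rs A) (t σ)`: if `σ ≤ u`: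
  `tp u = pb (t u) ≥ a ⊓ pb (t σ)` (tree). If `u` is not comparable with `σ`: there is `i < u.len, σ.len` where the values
  differ (otherwise comparable); `v = u.ini i'` with `i'` the successor of `i` is `< ` in length than
  `u.len` (use Lim.between: with `v₀ = u.ini i`, `u < v₀`, `w` between has `i < w.len`) and incomparable with `σ`, `tp w = ⊥`. If
  `u ≤ σ`, `u ≠ σ`: `pb (t u)` from clause 3 (tp v ≤ pb (t v)); for `s ≤ σ`, `u < s`: Lim.between gives `w`, `u < w < s`, and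
  `tp w` is below the clause for `s` (`w ≤ σ` since `w < s ≤ σ`; the value at `s.len < w.len` is the same).
* tp_full: `a ⊓ sp tp v ≤ tp (v.snoc ξ)` for `a ≤ pb (rs A) (BFM t)`. For `η ≠ η'`: show
  `a ⊓ tp (v.snoc η) ⊓ tp (v.snoc η') ≤ tp (v.snoc ξ)`. If `v ≤ σ`: use le_of_em: `em p` below the left side; by
  em_le_tp_snoc for `η`, `η'`: `em p ≤ pb (t (v.snoc η))`, `pb (t (v.snoc η'))`, so `em p ≤ pb (sp t v)` (bfm_two, pb_sp),
  so `em p ≤ hh v none ⊔ hh v (some η)` and `≤ hh v none ⊔ hh v (some η')`, so `em p ≤ hh v none`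
  (distributivity, hh_disj); `em p ≤ pb (t (v.snoc ξ))` by fullness (clause 5, pb_BFM); em_le_tp_snoc. If not
  `v ≤ σ`: at most one child of `v` is comparable with `σ` (`v.snoc η ≤ σ` implies `v ≤ σ` or `σ = v.snoc η`;
  `σ ≤ v.snoc η` fixes `η`), so one of the two values is `⊥`.
-/

set_option autoImplicit false

namespace Pool.Agent.Lib.FMM

open Set Cardinal Pool.Agent.Lib.WkD

variable {κ : Cardinal.{0}} {K J Z : Type} [LinearOrder K] [WellFoundedLT K] [NoMaxOrder K]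
  {A : Set J} {t : Nd K K → ROP (FnOn κ J Z A)} {σ : Nd K K} {c : Nd K K → J} {dc : Z → Option K}

theorem em_le_hh {p : Fn κ J Z} {s : Nd K K} {z : Z} (h : p.1 (c s) = some z) :
    em p ≤ hh c dc s (dc z) := by
  unfold hh
  exact le_iSup (fun q : {q : Fn κ J Z // ∃ z', q.1 (c s) = some z' ∧ dc z' = dc z} => em q.1)
    ⟨p, z, h, rfl⟩

theorem hh_disj (s : Nd K K) {o o' : Option K} (h : o ≠ o') :
    (hh c dc s o ⊓ hh c dc s o' : ROP (Fn κ J Z)) = ⊥ := by
  by_contra hne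
  obtain ⟨p, hp⟩ := exists_em hne
  obtain ⟨q, hq, ⟨p1, z1, h1, h1'⟩, h2⟩ := exists_em_iSup
    (t := fun q : {q : Fn κ J Z // ∃ z', q.1 (c s) = some z' ∧ dc z' = o} => em q.1)
    (hp.trans inf_le_left)
  obtain ⟨q', hq', ⟨p2, z2, h3, h3'⟩, h4⟩ := exists_em_iSup
    (t := fun q : {q : Fn κ J Z // ∃ z', q.1 (c s) = some z' ∧ dc z' = o'} => em q.1)
    (((em_mono hq).trans hp).trans inf_le_right)
  obtain ⟨r, hr1, hr2⟩ := compat_of (p := q') (q := p1) (by
    rw [inf_eq_left.2 ((em_mono hq').trans h2)]; exact em_ne_bot _)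
  obtain ⟨r', hr1', hr2'⟩ := compat_of (p := r) (q := p2) (by
    rw [inf_eq_left.2 ((em_mono hr1).trans h4)]; exact em_ne_bot _)
  have hz : z1 = z2 := Fn.agree (hr1'.trans hr2) hr2' h1 h3
  subst hz
  exact h (h1'.symm.trans h3')

theorem of_em_le_hh {p : Fn κ J Z} {s : Nd K K} {z : Z} {o : Option K}
    (h : p.1 (c s) = some z) (h' : em p ≤ hh c dc s o) : dc z = o := by
  by_contra hne
  apply em_ne_bot p
  rw [← le_bot_iff, ← hh_disj (κ := κ) (c := c) (dc := dc) s hne]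
  exact le_inf (em_le_hh h) h'

theorem tp_le (v : Nd K K) : tp t σ c dc v ≤ pb (rs A) (t v) := by
  unfold tp
  split_ifs
  · exact inf_le_left
  · exact bot_le

theorem tp_bot {v : Nd K K} (h : ¬ (v ≤ σ ∨ σ ≤ v)) : tp t σ c dc v = ⊥ := by
  unfold tp
  exact if_neg h

theorem tp_above {v : Nd K K} (h : σ ≤ v) : tp t σ c dc v = pb (rs A) (t v) := by
  unfold tp
  rw [if_pos (Or.inr h)]
  refine inf_eq_left.2 (le_iInf fun s => ?_)
  exact absurd (lt_of_lt_of_le s.2.2 (s.2.1.trans h)) (lt_irrefl v)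

theorem em_le_tp_iff {p : Fn κ J Z} {v : Nd K K} (hv : v ≤ σ) : em p ≤ tp t σ c dc v ↔
    em p ≤ pb (rs A) (t v) ∧ ∀ s : Nd K K, s ≤ σ → v < s → em p ≤
      (pb (rs A) (sp t s) ⇨ (hh c dc s none ⊔ hh c dc s (v.1 s.len))) := by
  unfold tp
  rw [if_pos (Or.inl hv), le_inf_iff, le_iInf_iff]
  constructor
  · rintro ⟨h1, h2⟩
    exact ⟨h1, fun s hs hvs => h2 ⟨s, hs, hvs⟩⟩
  · rintro ⟨h1, h2⟩
    exact ⟨h1, fun s => h2 s.1 s.2.1 s.2.2⟩

theorem em_le_tp_snoc {p : Fn κ J Z} {v : Nd K K} (hv : v ≤ σ) (ξ : K)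
    (h : em p ≤ tp t σ c dc v) : em p ≤ tp t σ c dc (v.snoc ξ) ↔
      em p ≤ pb (rs A) (t (v.snoc ξ)) ∧
        em p ≤ (pb (rs A) (sp t v) ⇨ (hh c dc v none ⊔ hh c dc v (some ξ))) := by
  rw [em_le_tp_iff ((Nd.snoc_le v ξ).trans hv)]
  constructor
  · rintro ⟨h1, h2⟩
    refine ⟨h1, ?_⟩
    have h3 := h2 v hv (Nd.snoc_lt v ξ)
    rwa [Nd.snoc_val] at h3
  · rintro ⟨h1, h2⟩
    refine ⟨h1, fun s hs hvs => ?_⟩
    rcases Nd.snoc_le_iff.1 hvs.le with h3 | h3
    · exact absurd h3.symm hvs.ne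
    · rcases eq_or_lt_of_le h3 with h4 | h4
      · subst h4
        rw [Nd.snoc_val]
        exact h2
      · rw [Nd.snoc_val_lt ((Nd.lt_iff_len h3).1 h4)]
        exact ((em_le_tp_iff hv).1 h).2 s hs h4

theorem tp_tree (hκ : ℵ₀ ≤ κ) {a : ROP (Fn κ J Z)} (ha : a ≤ pb (rs A) (BFM t)) {v u : Nd K K}
    (h : v ≤ u) : a ⊓ tp t σ c dc v ≤ tp t σ c dc u := by
  rw [pb_BFM (proj_rs hκ A), le_BFM_iff] at ha
  obtain ⟨-, htree, -, -, -⟩ := ha
  by_cases hv : v ≤ σ ∨ σ ≤ v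
  · have hu : u ≤ σ ∨ σ ≤ u := by
      rcases hv with hv | hv
      · exact Nd.comp' h hv
      · exact Or.inr (hv.trans h)
    unfold tp
    rw [if_pos hv, if_pos hu]
    refine le_inf ?_ (le_iInf fun s => ?_)
    · exact (inf_le_inf_left a inf_le_left).trans (htree v u h)
    · refine inf_le_right.trans (inf_le_right.trans ?_)
      have h1 : v < s.1 := lt_of_le_of_lt h s.2.2
      have h2 : v.1 s.1.len = u.1 s.1.len := Nd.val_eq h ((Nd.lt_iff_len s.2.2.le).1 s.2.2)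
      rw [← h2]
      exact iInf_le (fun s : {s : Nd K K // s ≤ σ ∧ v < s} =>
        (pb (rs A) (sp t s.1) ⇨ (hh c dc s.1 none ⊔ hh c dc s.1 (v.1 s.1.len)) :
          ROP (Fn κ J Z))) ⟨s.1, s.2.1, h1⟩
  · rw [tp_bot hv, inf_bot_eq]
    exact bot_le

theorem tp_lim (hκ : ℵ₀ ≤ κ) {a : ROP (Fn κ J Z)} (ha : a ≤ pb (rs A) (BFM t))
    (hσ : a ≤ pb (rs A) (t σ)) {u : Nd K K} (hu : u.Lim) :
    a ⊓ (⨅ v : {v : Nd K K // u < v}, tp t σ c dc v.1) ≤ tp t σ c dc u := by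
  rw [pb_BFM (proj_rs hκ A), le_BFM_iff] at ha
  obtain ⟨-, htree, hlim, -, -⟩ := ha
  by_cases h1 : σ ≤ u
  · rw [tp_above h1]
    exact (inf_le_left.trans (le_inf le_rfl hσ)).trans (htree σ u h1)
  by_cases h2 : u ≤ σ
  · have hpos : u ≤ σ ∨ σ ≤ u := Or.inl h2
    have hunf : tp t σ c dc u = pb (rs A) (t u) ⊓
        ⨅ s : {s : Nd K K // s ≤ σ ∧ u < s},
          (pb (rs A) (sp t s.1) ⇨ (hh c dc s.1 none ⊔ hh c dc s.1 (u.1 s.1.len))) := by
      unfold tp
      rw [if_pos hpos]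
    rw [hunf]
    refine le_inf ?_ (le_iInf fun s => ?_)
    · refine le_trans ?_ (hlim u hu)
      exact inf_le_inf_left a (iInf_mono fun v => tp_le v.1)
    · obtain ⟨w, hw1, hw2⟩ := Nd.Lim.between hu s.2.2
      refine inf_le_right.trans ((iInf_le (fun v : {v : Nd K K // u < v} => tp t σ c dc v.1)
        ⟨w, hw1⟩).trans ?_)
      have hwσ : w ≤ σ := hw2.le.trans s.2.1
      have h3 : u.1 s.1.len = w.1 s.1.len := Nd.val_eq hw1.le ((Nd.lt_iff_len hw2.le).1 hw2)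
      rw [h3]
      show tp t σ c dc w ≤ _
      unfold tp
      rw [if_pos (Or.inl hwσ)]
      exact inf_le_right.trans (iInf_le (fun s : {s : Nd K K // s ≤ σ ∧ w < s} =>
        (pb (rs A) (sp t s.1) ⇨ (hh c dc s.1 none ⊔ hh c dc s.1 (w.1 s.1.len)) :
          ROP (Fn κ J Z))) ⟨s.1, s.2.1, hw2⟩)
  · obtain ⟨i, hi1, hi2, hi3⟩ : ∃ i, i < u.len ∧ i < σ.len ∧ u.1 i ≠ σ.1 i := by
      by_contra hcon
      push Not at hcon
      rcases le_total u.len σ.len with hl | hl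
      · exact h1 (Nd.le_of_val fun i hi => (hcon i hi (lt_of_lt_of_le hi hl)).symm)
      · exact h2 (Nd.le_of_val fun i hi => hcon i (lt_of_lt_of_le hi hl) hi)
    have hlen : (u.ini i).len = i := Nd.len_ini hi1.le
    have hlt : u < u.ini i := (Nd.lt_iff_len (Nd.le_ini u i)).2 (by rw [hlen]; exact hi1)
    obtain ⟨w, hw1, hw2⟩ := Nd.Lim.between hu hlt
    have hiw : i < w.len := by
      have h3 := (Nd.lt_iff_len hw2.le).1 hw2
      rwa [hlen] at h3
    have hval : u.1 i = w.1 i := Nd.val_eq hw1.le hiw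
    have hinc : ¬ (w ≤ σ ∨ σ ≤ w) := by
      rintro (h3 | h3)
      · exact hi3 (hval.trans (Nd.val_eq h3 hi2))
      · exact hi3 (hval.trans (Nd.val_eq h3 hiw).symm)
    refine inf_le_right.trans ((iInf_le (fun v : {v : Nd K K // u < v} => tp t σ c dc v.1)
        ⟨w, hw1⟩).trans ?_)
    show tp t σ c dc w ≤ _
    rw [tp_bot hinc]
    exact bot_le

theorem tp_full (hκ : ℵ₀ ≤ κ) {a : ROP (Fn κ J Z)} (ha : a ≤ pb (rs A) (BFM t))
    (v : Nd K K) (ξ : K) : a ⊓ sp (tp t σ c dc) v ≤ tp t σ c dc (v.snoc ξ) := by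
  have ha' := ha
  rw [pb_BFM (proj_rs hκ A), le_BFM_iff] at ha'
  obtain ⟨-, -, -, -, hfull⟩ := ha'
  have key : ∀ η η' : K, η ≠ η' →
      a ⊓ (tp t σ c dc (v.snoc η) ⊓ tp t σ c dc (v.snoc η')) ≤ tp t σ c dc (v.snoc ξ) := by
    intro η η' hne
    by_cases hv : v ≤ σ
    · apply le_of_em
      intro p hp
      refine ⟨p, le_rfl, ?_⟩
      have hpa : em p ≤ a := hp.trans inf_le_left
      have hpη : em p ≤ tp t σ c dc (v.snoc η) := hp.trans (inf_le_right.trans inf_le_left)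
      have hpη' : em p ≤ tp t σ c dc (v.snoc η') := hp.trans (inf_le_right.trans inf_le_right)
      have hpv : em p ≤ tp t σ c dc v :=
        (le_inf hpa hpη).trans (tp_tree hκ ha (Nd.snoc_le v η))
      obtain ⟨h1, h2⟩ := (em_le_tp_snoc hv η hpv).1 hpη
      obtain ⟨h3, h4⟩ := (em_le_tp_snoc hv η' hpv).1 hpη'
      have hsp : em p ≤ sp (fun u => pb (rs A) (t u)) v :=
        (le_inf h1 h3).trans (bfm_two (t := fun u => pb (rs A) (t u)) v hne)
      have hsp' : em p ≤ pb (rs A) (sp t v) := by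
        rw [pb_sp (proj_rs hκ A)]
        exact hsp
      have h5 : em p ≤ hh c dc v none ⊔ hh c dc v (some η) := by
        rw [le_himp_iff, inf_eq_left.2 hsp'] at h2
        exact h2
      have h6 : em p ≤ hh c dc v none ⊔ hh c dc v (some η') := by
        rw [le_himp_iff, inf_eq_left.2 hsp'] at h4
        exact h4
      have h7 : em p ≤ (hh c dc v none : ROP (Fn κ J Z)) := by
        have h8 := le_inf h5 h6
        rw [← sup_inf_left, hh_disj v (fun he => hne (Option.some.inj he)), sup_bot_eq] at h8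
        exact h8
      refine (em_le_tp_snoc hv ξ hpv).2 ⟨(le_inf hpa hsp).trans (hfull v ξ), ?_⟩
      rw [le_himp_iff]
      exact inf_le_left.trans (h7.trans le_sup_left)
    · have hco : ∀ ζ : K, (v.snoc ζ ≤ σ ∨ σ ≤ v.snoc ζ) → σ.1 v.len = some ζ := by
        intro ζ hζ
        have h1 : σ ≤ v.snoc ζ := by
          rcases hζ with h1 | h1
          · rcases Nd.snoc_le_iff.1 h1 with h2 | h2
            · exact h2.le
            · exact absurd h2 hv
          · exact h1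
        exact (Nd.le_snoc.1 h1).2
      by_cases hc1 : v.snoc η ≤ σ ∨ σ ≤ v.snoc η
      · by_cases hc2 : v.snoc η' ≤ σ ∨ σ ≤ v.snoc η'
        · exact absurd (Option.some.inj ((hco η hc1).symm.trans (hco η' hc2))) hne
        · rw [tp_bot hc2, inf_bot_eq, inf_bot_eq]
          exact bot_le
      · rw [tp_bot hc1, bot_inf_eq, inf_bot_eq]
        exact bot_le
  unfold sp
  rw [inf_iSup_eq]
  exact iSup_le fun p => key p.1.1 p.1.2 p.2

end Pool.Agent.Lib.FMM
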