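import Pool.Agent.Lib.FMM.Tp2a
import Pool.Agent.Lib.FMM.Climb

/-!

# Module FMM.Tp2: the generic subtree has splitting nodes

PROOFS. `set_coords`, `tp_step`: see Tp2a.lean. union_rs (FnB): if `a ≤ rs A p` there is `g ≤ p` with
`rs A g = a` and the same values outside `A`. Proj (rs A): proj_rs. set_coord (one coordinate): Fn.exists_ext.
* tp_climb: `γ : K`, `v ≤ σ`, `v.len ≤ γ`, `em p ≤ tp v`, `c s ∈ dom p → s.len < γ` for all `s`. Then there are `q ≤ p`,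
  `w ≤ v` with `w.len = γ`, `em q ≤ tp w` and `c s ∈ dom q → s.len < γ`. climb with
  `X = {(q, w) | q ≤ p, w ≤ v, em q ≤ tp w, w.len ≤ γ, ∀ s, c s ∈ dom q → s.len < γ}`, `ρ = w.len`,
  `lt x y := y.1 ≤ x.1 ∧ y.2 ≤ x.2 ∧ ρ x < ρ y`. Step: tp_step. Limit: unions (Fn.glb, Nd.glb): the union `w` of the
  nodes is Lim or equal to a member (as in RRb.rr_glb; there is no maximum), `em q ≤ tp w'` for all members,
  hence for all `w'` with `w < w'` (tp_tree, comp), and tp_lim (`σ`: `em q ≤ pb (t σ)` by tree from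
  `em q ≤ pb (t w')`, `w' ≤ v ≤ σ`).
* tp_split: choose `γ` above `v.len` and above all `s.len` with `c s ∈ dom p` (`bdd`; there are fewer than κ such
  `s`, `c` is injective). tp_climb: `q`, `w`. As `em q ≤ pb (t w)`, clause 4: `a ≤ rs A q` and `w' ≤ w` with
  `em a ≤ sp t w'` (exists_em_iSup for `em (rs A q) ≤ ⨆ ..`). `q₁` = union of `q` and `a` (dom outside `A`
  unchanged). All `s ≤ w` have `s.len ≥ γ`, so `c s ∉ dom q₁`. set_coords for `w, w'`: `q₂ ≤ q₁` with `c s` decoded to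
  `w'.1 s.len` for `s ≤ w`, `w' < s`; then set_coord at `c w'` with `z`, `dc z = none`: `q₃`. Now `em q₃ ≤ tp w'`: em_le_tp_iff:
  for `s ≤ σ`, `w' < s`: `s` and `w` are comparable (comp'); if `w < s` (`s` shorter than `w`) use
  `em q ≤ tp w` (same value at `s.len`); if `s ≤ w`: em_le_hh. `em q₃ ≤ pb (t w')`: bfm_node. Then for all `ξ`:
  `em q₃ ≤ tp (w'.snoc ξ)` by em_le_tp_snoc (`em q₃ ≤ hh c dc w' none`, and fullness of `t`). So
  `em q₃ ≤ sp tp w'` (bfm_two with two different elements of `K`).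
-/

set_option autoImplicit false

namespace Pool.Agent.Lib.FMM

open Set Cardinal Pool.Agent.Lib.WkD

variable {κ : Cardinal.{0}} {K J Z : Type} [LinearOrder K] [WellFoundedLT K] [NoMaxOrder K]
  {A : Set J} {t : Nd K K → ROP (FnOn κ J Z A)} {σ : Nd K K} {c : Nd K K → J} {dc : Z → Option K}

theorem tp_climb (hK : RegK κ K) (cA : ∀ s, c s ∉ A) (cinj : Function.Injective c)
    (dcs : Function.Surjective dc) {p : Fn κ J Z} (hb : em p ≤ pb (rs A) (BFM t)) {v : Nd K K}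
    (hv : v ≤ σ) (hp : em p ≤ tp t σ c dc v) {γ : K} (hγ : v.len ≤ γ)
    (hγ' : ∀ s, c s ∈ p.1.dom → s.len < γ) :
    ∃ q, q ≤ p ∧ ∃ w, w ≤ v ∧ w.len = γ ∧ em q ≤ tp t σ c dc w ∧
      ∀ s, c s ∈ q.1.dom → s.len < γ := by
  have hκ : ℵ₀ ≤ κ := hK.unc.le
  let X : Type := {x : Fn κ J Z × Nd K K // x.1 ≤ p ∧ x.2 ≤ v ∧ em x.1 ≤ tp t σ c dc x.2 ∧
    x.2.len ≤ γ ∧ ∀ s, c s ∈ x.1.1.dom → s.len < γ}
  let ρ : X → K := fun x => x.1.2.len
  let lt : X → X → Prop := fun x y => y.1.1 ≤ x.1.1 ∧ y.1.2 ≤ x.1.2 ∧ ρ x < ρ y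
  let x₀ : X := ⟨(p, v), le_rfl, le_rfl, hp, hγ, hγ'⟩
  suffices hmain : ∃ y : X, (y = x₀ ∨ lt x₀ y) ∧ ρ y = γ by
    obtain ⟨y, _, hy⟩ := hmain
    exact ⟨y.1.1, y.2.1, y.1.2, y.2.2.1, hy, y.2.2.2.1, y.2.2.2.2.2⟩
  refine climb lt (fun a b d hab hbd => ⟨hbd.1.trans hab.1, hbd.2.1.trans hab.2.1,
    hab.2.2.trans hbd.2.2⟩) ρ (fun a b hab => hab.2.2) γ ?_ ?_ x₀ hγ
  · intro x hx
    obtain ⟨q, hq, ξ, h1, h2⟩ := tp_step hK cA cinj dcs ((em_mono x.2.1).trans hb)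
      (x.2.2.1.trans hv) x.2.2.2.1
    have hx : x.1.2.len < γ := hx
    have h3 : (x.1.2.snoc ξ).len ≤ γ := by
      by_contra hcon
      exact absurd hx (not_lt.2 (Nd.lt_snoc_len.1 (not_le.1 hcon)))
    refine ⟨⟨(q, x.1.2.snoc ξ), hq.trans x.2.1, (Nd.snoc_le _ _).trans x.2.2.1, h1, h3, ?_⟩,
      ⟨hq, Nd.snoc_le _ _, Nd.lt_snoc_len.2 le_rfl⟩, h3⟩
    intro s hs
    rcases h2 s hs with h4 | h4
    · exact x.2.2.2.2.2 s h4
    · rw [h4]; exact hx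
  · intro C hCne hCcard hchain hnomax hlt
    have hCκ : #C < κ := hCcard.trans_lt (card_Iic hK γ)
    have hch1 : ∀ x ∈ C, ∀ y ∈ C, x.1.1 ≤ y.1.1 ∨ y.1.1 ≤ x.1.1 := by
      intro x hx y hy
      rcases hchain x hx y hy with h1 | h1 | h1
      · subst h1; exact Or.inl le_rfl
      · exact Or.inr h1.1
      · exact Or.inl h1.1
    have hch2 : ∀ x ∈ C, ∀ y ∈ C, x.1.2 ≤ y.1.2 ∨ y.1.2 ≤ x.1.2 := by
      intro x hx y hy
      rcases hchain x hx y hy with h1 | h1 | h1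
      · subst h1; exact Or.inl le_rfl
      · exact Or.inr h1.2.1
      · exact Or.inl h1.2.1
    obtain ⟨q, hq, hqv⟩ := Fn.glb hK.reg ((fun x : X => x.1.1) '' C) (mk_image_le.trans_lt hCκ) (by
      rintro _ ⟨x, hx, rfl⟩ _ ⟨y, hy, rfl⟩ i a b h1 h2
      rcases hch1 x hx y hy with h | h
      · exact Fn.agree le_rfl h h1 h2
      · exact Fn.agree h le_rfl h1 h2)
    obtain ⟨w, hw, -, hwl⟩ := Nd.glb hK ((fun x : X => x.1.2) '' C) (hCne.image _)
      (mk_image_le.trans_lt hCκ) (by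
      rintro _ ⟨x, hx, rfl⟩ _ ⟨y, hy, rfl⟩
      exact hch2 x hx y hy)
    have hq' : ∀ x ∈ C, q ≤ x.1.1 := fun x hx => hq.1 ⟨x, hx, rfl⟩
    have hw' : ∀ x ∈ C, w ≤ x.1.2 := fun x hx => hw.1 ⟨x, hx, rfl⟩
    have hwl' : ∀ i, i < w.len → ∃ x ∈ C, i < x.1.2.len := by
      intro i hi
      obtain ⟨_, ⟨x, hx, rfl⟩, h⟩ := (hwl i).1 hi
      exact ⟨x, hx, h⟩
    obtain ⟨x₁, hx₁⟩ := hCne
    have hqp : q ≤ p := (hq' x₁ hx₁).trans x₁.2.1
    have hwv : w ≤ v := (hw' x₁ hx₁).trans x₁.2.2.1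
    have hqb : em q ≤ pb (rs A) (BFM t) := (em_mono hqp).trans hb
    have hqσ : em q ≤ pb (rs A) (t σ) := by
      have h1 : em q ≤ pb (rs A) (t v) := ((em_mono hqp).trans hp).trans (tp_le v)
      have h2 := hqb
      rw [pb_BFM (proj_rs hκ A), le_BFM_iff] at h2
      have h3 := h2.2.1 v σ hv
      rwa [inf_eq_left.2 h1] at h3
    have hwγ : w.len ≤ γ := by
      by_contra hcon
      obtain ⟨x, hx, h⟩ := hwl' γ (not_le.1 hcon)
      exact absurd h (not_lt.2 x.2.2.2.2.1)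
    have hlim : w.Lim := by
      intro v' ξ he
      obtain ⟨x, hx, h1⟩ := hwl' v'.len (by rw [he]; exact Nd.lt_snoc_len.2 le_rfl)
      obtain ⟨y, hy, hxy⟩ := hnomax x hx
      have h2 : x.1.2.len < w.len := lt_of_lt_of_le hxy.2.2 (Nd.len_mono (hw' y hy))
      rw [he] at h2
      exact absurd h1 (not_lt.2 (Nd.lt_snoc_len.1 h2))
    have hqw : em q ≤ tp t σ c dc w := by
      refine le_trans (le_inf le_rfl (le_iInf ?_)) (tp_lim hκ hqb hqσ hlim)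
      rintro ⟨v', hv'⟩
      obtain ⟨x, hx, h1⟩ := hwl' v'.len ((Nd.lt_iff_len hv'.le).1 hv')
      have h2 : x.1.2 ≤ v' := Nd.comp hv'.le (hw' x hx) h1.le
      have h3 : em q ≤ tp t σ c dc x.1.2 := (em_mono (hq' x hx)).trans x.2.2.2.1
      exact le_trans (le_inf le_rfl h3) (tp_tree hκ hqb h2)
    refine ⟨⟨(q, w), hqp, hwv, hqw, hwγ, ?_⟩, ?_, hwγ⟩
    · intro s hs
      obtain ⟨z, hz⟩ := Option.ne_none_iff_exists'.1 (hs : q.1 (c s) ≠ none)
      obtain ⟨_, ⟨x, hx, rfl⟩, h⟩ := (hqv (c s) z).1 hz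
      refine x.2.2.2.2.2 s ?_
      show x.1.1.1 (c s) ≠ none
      rw [h]
      exact Option.some_ne_none z
    · intro x hx
      obtain ⟨y, hy, hxy⟩ := hnomax x hx
      exact ⟨hq' x hx, hw' x hx, lt_of_lt_of_le hxy.2.2 (Nd.len_mono (hw' y hy))⟩

theorem tp_split (hK : RegK κ K) (cA : ∀ s, c s ∉ A) (cinj : Function.Injective c)
    (dcs : Function.Surjective dc) {p : Fn κ J Z} (hb : em p ≤ pb (rs A) (BFM t)) {v : Nd K K}
    (hv : v ≤ σ) (hp : em p ≤ tp t σ c dc v) :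
    ∃ q, q ≤ p ∧ ∃ w, w ≤ v ∧ em q ≤ sp (tp t σ c dc) w := by
  classical
  have hκ : ℵ₀ ≤ κ := hK.unc.le
  have hpr : Proj (rs A : Fn κ J Z → FnOn κ J Z A) := proj_rs hκ A
  -- a bound for the coordinates of `p`
  obtain ⟨γ, hγ⟩ := hK.bdd ({v.len} ∪ Nd.len '' {s | c s ∈ p.1.dom}) (by
    refine (mk_union_le _ _).trans_lt (add_lt_of_lt hκ ?_ ?_)
    · rw [mk_singleton]
      exact one_lt_aleph0.trans_le hκ
    · refine mk_image_le.trans_lt (lt_of_le_of_lt ?_ p.2)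
      refine mk_le_of_injective (f := fun s : {s | c s ∈ p.1.dom} =>
        (⟨c s.1, s.2⟩ : p.1.dom)) ?_
      intro s s' h
      exact Subtype.ext (cinj (congrArg Subtype.val h)))
  obtain ⟨q, hq, w, hw, hwl, hqw, hqγ⟩ := tp_climb hK cA cinj dcs hb hv hp (γ := γ)
    (hγ _ (Or.inl rfl)).le (fun s hs => hγ _ (Or.inr ⟨s, hs, rfl⟩))
  have hbq : em (rs A q) ≤ BFM t := (em_le_pb hpr).1 ((em_mono hq).trans hb)
  have htq : em (rs A q) ≤ t w := (em_le_pb hpr).1 (hqw.trans (tp_le w))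
  have h4 := (le_BFM_iff.1 hbq).2.2.2.1 w
  rw [inf_eq_left.2 htq] at h4
  obtain ⟨a, ha, ⟨w', hw'⟩, haw⟩ := exists_em_iSup h4
  have haw : em a ≤ sp t w' := haw
  obtain ⟨q₁, hq₁, -, hr₁, hv₁, -⟩ := union_rs hκ q a ha
  have hc₁ : ∀ s, s ≤ w → c s ∉ q₁.1.dom := by
    intro s hs hcs
    have h5 : q₁.1 (c s) ≠ none := hcs
    rw [hv₁ _ (cA s)] at h5
    have h6 := hqγ s h5
    rw [← hwl] at h6
    exact absurd h6 (not_lt.2 (Nd.len_mono hs))
  obtain ⟨q₂, hq₂, hz₂, hn₂⟩ := set_coords (dc := dc) hK cinj dcs q₁ hw' hc₁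
  have hc₂ : q₂.1 (c w') = none := by
    by_contra h5
    rcases hn₂ _ h5 with h6 | ⟨s, _, h6, h7⟩
    · exact hc₁ w' hw' h6
    · rw [cinj h7] at h6
      exact lt_irrefl _ h6
  obtain ⟨z, hz⟩ := dcs none
  obtain ⟨q₃, hq₃, -, hq₃v⟩ := Fn.exists_ext hκ q₂ (fun j => if j = c w' then some z else none) (by
    refine lt_of_le_of_lt (mk_le_mk_of_subset (t := {c w'}) ?_)
      (by rw [mk_singleton]; exact one_lt_aleph0.trans_le hκ)
    intro j hj
    by_contra h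
    exact hj (if_neg h)) (by
    intro j hj
    refine if_neg ?_
    rintro rfl
    exact hj hc₂)
  have hz₃ : q₃.1 (c w') = some z := (hq₃v _ _).2 (Or.inr (if_pos rfl))
  have h31 : q₃ ≤ q₁ := hq₃.trans hq₂
  have h3q : q₃ ≤ q := h31.trans hq₁
  have hsp : em q₃ ≤ pb (rs A) (sp t w') := by
    refine (em_mono h31).trans ((em_le_pb hpr).2 ?_)
    rw [hr₁]
    exact haw
  have hba : em a ≤ BFM t := (em_mono ha).trans hbq
  have htw : em q₃ ≤ pb (rs A) (t w') := by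
    refine (em_mono h31).trans ((em_le_pb hpr).2 ?_)
    rw [hr₁]
    have h5 := bfm_node hba w'
    rwa [inf_eq_left.2 haw] at h5
  have hwσ : w ≤ σ := hw.trans hv
  have hw'σ : w' ≤ σ := hw'.trans hwσ
  have h8 : em q₃ ≤ tp t σ c dc w' := by
    rw [em_le_tp_iff hw'σ]
    refine ⟨htw, ?_⟩
    intro s hs hws
    have hcase : s ≤ w ∨ w < s := by
      rcases Nd.comp' hws.le hw' with h | h
      · exact Or.inl h
      · rcases eq_or_lt_of_le h with h | h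
        · exact Or.inl h.ge
        · exact Or.inr h
    rcases hcase with h | h
    · obtain ⟨z', hz', hdz⟩ := hz₂ s h hws
      have h9 : em q₃ ≤ hh c dc s (dc z') := em_le_hh (hq₃ _ _ hz')
      rw [hdz] at h9
      exact (h9.trans le_sup_right).trans le_himp
    · have h9 := ((em_le_tp_iff hwσ).1 hqw).2 s hs h
      rw [← Nd.val_eq hw' ((Nd.lt_iff_len h.le).1 h)] at h9
      exact (em_mono h3q).trans h9
  have h10 : ∀ ξ, em q₃ ≤ tp t σ c dc (w'.snoc ξ) := by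
    intro ξ
    rw [em_le_tp_snoc hw'σ ξ h8]
    constructor
    · refine (em_mono h31).trans ((em_le_pb hpr).2 ?_)
      rw [hr₁]
      have h5 := (le_BFM_iff.1 hba).2.2.2.2 w' ξ
      rwa [inf_eq_left.2 haw] at h5
    · have h9 : em q₃ ≤ hh c dc w' (dc z) := em_le_hh hz₃
      rw [hz] at h9
      exact (h9.trans le_sup_left).trans le_himp
  obtain ⟨η, hη⟩ := exists_gt γ
  exact ⟨q₃, h3q.trans hq, w', hw'.trans hw,
    (le_inf (h10 γ) (h10 η)).trans (bfm_two w' hη.ne)⟩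

end Pool.Agent.Lib.FMM
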