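import Pool.Agent.Lib.FMM.NoNew
import Pool.Agent.Lib.FMM.Miller

/-!
# Module FMM.TreeA: names of trees, children, splitting nodes

`trN t` is the name of the set of nodes `u` with Boolean value `t u`. Abbreviate `k = q U (lamN B K)`. `of_node`
reduces a node of the model to some `ndN B u` (in a new ultrafilter), `of_mem_trN` an element of `trN t`.
For nodes: `Sub (ndN u) (ndN v) ↔ v ≤ u` (sub_ndN_ndN), equality by ndN_inj, isNode_ndN.

PROOFS.
* of_mem_trN: BVM.of_mem with `X = trN t`. E_trN: `E_mk`: the supremum `⨆ a, t a ⊓ beq (ndN u) (ndN a)` is `t u`: `≤`: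
  `beq (ndN u) (ndN a) = ⊥` for `a ≠ u` (ndN_inj, Ultra.le_of_forall), beq_refl.
* rep_trN: let all elements of `q U T` be nodes of the model. ext_mod: `z ∈ T`: case `z = ndN u` (of_node with
  `P U = (z ∈ trN t)`, `Q U = z ∈ T`), `t u = bmem (ndN u) T ∈ U`; conversely of_mem_trN. (The statement has a
  hypothesis only for the given `U`.)
* isChild_iff: `IsChild k (ndN u) (ndN v) ↔ ∃ ξ, v = u.snoc ξ`. `→`: `v < u` (Sub, `≠`), exists_snoc: `v ≤ u.snoc ξ ≤ u`, the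
  clause for `r = ndN (u.snoc ξ)` gives `u.snoc ξ = u` (impossible, snoc_lt) or `= v`. `←`: `r` a node of the model
  between: of_node with `P U = (r = s ∨ r = t)`, `Q U = Sub s r ∧ Sub r t`: `r = ndN w`, `w ≤ u`, `u.snoc ξ ≤ w`,
  snoc_le_iff.
* isSplit_iff: `IsSplit k (trN t) (ndN v) ↔ t v ⊓ sp t v ∈ U`. `←`: `sp t v ∈ U`, i.e. a supremum over pairs `ξ ≠ η`; of_iSup with
  `P U = IsSplit ..`, `Q U = t v ∈ U`. `→`: `∃ t t'`: names `X`, `X'` in `trN t` with IsChild; case analysis by of_mem_trN for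
  `X` and then `X'` (`P U = t v ⊓ sp t v ∈ U`, Q the rest): `X = ndN w`, `X' = ndN w'`, `w = v.snoc ξ`, `w' = v.snoc η` (isChild_iff),
  `w ≠ w'`, `t w, t w' ∈ U`, bfm_two.
-/

set_option autoImplicit false

namespace Pool.Agent.Lib.FMM

open Set Cardinal Pool.Agent.Lib.WkD Pool.Agent.Lib.BVM Pool.Agent.Lib.BVM.bSet

variable {B K : Type} [CompleteBooleanAlgebra B] [LinearOrder K] [WellFoundedLT K]

/-- the name of the set of the nodes `u` with Boolean value `t u` -/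
noncomputable def trN (t : Nd K K → B) : bSet B :=
  bSet.mk (Nd K K) (fun u : Nd K K => ndN B u) t

theorem of_mem_trN {t : Nd K K → B} {Z : bSet B} {P Q : Ultra B → Prop} (hP : BV P) (hQ : BV Q)
    (h : ∀ (u : Nd K K) U, t u ∈ U → q U Z = q U (ndN B u) → Q U → P U)
    {U : Ultra B} (h1 : E U (q U Z) (q U (trN t))) (h2 : Q U) : P U :=
  of_mem (X := trN t) hP hQ (fun u U hu hZ hq => h u U hu hZ hq) h1 h2

theorem E_trN {t : Nd K K → B} {U : Ultra B} {u : Nd K K} :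
    E U (q U (ndN B u)) (q U (trN t)) ↔ t u ∈ U := by
  unfold trN
  rw [E_mk]
  have h : (⨆ a, t a ⊓ beq (ndN B u) (ndN B a)) = t u := by
    apply le_antisymm
    · refine iSup_le fun a => Ultra.le_of_forall fun U' hU' => ?_
      obtain ⟨h1, h2⟩ := Ultra.inf_iff.1 hU'
      rw [ndN_inj (q_eq.2 h2)]
      exact h1
    · refine le_iSup_of_le u ?_
      rw [beq_refl, inf_top_eq]
  rw [h]

theorem rep_trN (hB : BDist B K) {T : bSet B} {U : Ultra B}
    (h : ∀ s, E U s (q U T) → IsNode (E U) (q U (lamN B K)) s) :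
    q U T = q U (trN (fun u : Nd K K => bmem (ndN B u) T)) := by
  apply ext_mod
  intro z
  obtain ⟨Z, rfl⟩ := q_surj z
  constructor
  · intro hz
    refine of_node hB (X := Z)
      (P := fun U => E U (q U Z) (q U (trN (fun u : Nd K K => bmem (ndN B u) T))))
      (Q := fun U => E U (q U Z) (q U T)) (BV.mem _ _) (BV.mem _ _)
      (fun u U' hu hq => ?_) (h _ hz) hz
    rw [hu] at hq ⊢
    exact E_trN.2 (E_q.1 hq)
  · intro hz
    refine of_mem_trN (P := fun U => E U (q U Z) (q U T)) (Q := fun _ => True) (BV.mem _ _)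
      (BV.const True) (fun u U' hu hZ _ => ?_) hz trivial
    rw [hZ]
    exact E_q.2 hu

variable [NoMaxOrder K]

theorem isChild_iff (hB : BDist B K) {U : Ultra B} {u v : Nd K K} :
    IsChild (E U) (q U (lamN B K)) (q U (ndN B u)) (q U (ndN B v)) ↔ ∃ ξ, v = u.snoc ξ := by
  constructor
  · rintro ⟨-, -, h3, h4, h5⟩
    have hle : v ≤ u := sub_ndN_ndN.1 h3
    have hne : v ≠ u := fun h => h4 (by rw [h])
    obtain ⟨ξ, hξ⟩ := Nd.exists_snoc (lt_of_le_of_ne hle hne)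
    refine ⟨ξ, ?_⟩
    rcases h5 _ (isNode_ndN U (u.snoc ξ)) (sub_ndN_ndN.2 (Nd.snoc_le u ξ))
      (sub_ndN_ndN.2 hξ) with h6 | h6
    · exact absurd (ndN_inj h6) (Nd.snoc_lt u ξ).ne
    · exact (ndN_inj h6).symm
  · rintro ⟨ξ, rfl⟩
    refine ⟨isNode_ndN _ _, isNode_ndN _ _, sub_ndN_ndN.2 (Nd.snoc_le u ξ),
      fun h => (Nd.snoc_lt u ξ).ne' (ndN_inj h), ?_⟩
    intro r hr h1 h2
    obtain ⟨R, rfl⟩ := q_surj r
    refine of_node hB (X := R)
      (P := fun U => q U R = q U (ndN B u) ∨ q U R = q U (ndN B (u.snoc ξ)))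
      (Q := fun U => Sub (E U) (q U (ndN B u)) (q U R) ∧
        Sub (E U) (q U R) (q U (ndN B (u.snoc ξ))))
      ((BV.eq _ _).or (BV.eq _ _)) ((BV_sub _ _).and (BV_sub _ _))
      (fun w U' hw hq => ?_) hr ⟨h1, h2⟩
    rw [hw] at hq ⊢
    have hwu : w ≤ u := sub_ndN_ndN.1 hq.1
    have huw : u.snoc ξ ≤ w := sub_ndN_ndN.1 hq.2
    rcases Nd.snoc_le_iff.1 huw with h | h
    · right; rw [h]
    · left; rw [le_antisymm hwu h]

theorem isSplit_iff (hB : BDist B K) {t : Nd K K → B} {U : Ultra B} {v : Nd K K} :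
    IsSplit (E U) (q U (lamN B K)) (q U (trN t)) (q U (ndN B v)) ↔ t v ⊓ sp t v ∈ U := by
  constructor
  · rintro ⟨h1, t1, t2, h2, h3, h4, h5, h6⟩
    obtain ⟨X, rfl⟩ := q_surj t1
    obtain ⟨X', rfl⟩ := q_surj t2
    rw [E_trN] at h1
    refine of_mem_trN (Z := X) (P := fun U => t v ⊓ sp t v ∈ U)
      (Q := fun U => t v ∈ U ∧ q U X ≠ q U X' ∧
        IsChild (E U) (q U (lamN B K)) (q U (ndN B v)) (q U X) ∧
        IsChild (E U) (q U (lamN B K)) (q U (ndN B v)) (q U X') ∧ E U (q U X') (q U (trN t)))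
      (BV.of_mem _) ((BV.of_mem _).and ((BV.eq _ _).not.and ((BV_isChild _ _ _).and
        ((BV_isChild _ _ _).and (BV.mem _ _))))) (fun w U1 hw hX hq => ?_) h5
      ⟨h1, h2, h3, h4, h6⟩
    obtain ⟨k1, k2, k3, k4, k5⟩ := hq
    rw [hX] at k2 k3
    refine of_mem_trN (Z := X') (P := fun U => t v ⊓ sp t v ∈ U)
      (Q := fun U => t v ∈ U ∧ t w ∈ U ∧ q U (ndN B w) ≠ q U X' ∧
        IsChild (E U) (q U (lamN B K)) (q U (ndN B v)) (q U (ndN B w)) ∧
        IsChild (E U) (q U (lamN B K)) (q U (ndN B v)) (q U X'))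
      (BV.of_mem _) ((BV.of_mem _).and ((BV.of_mem _).and ((BV.eq _ _).not.and
        ((BV_isChild _ _ _).and (BV_isChild _ _ _))))) (fun w' U2 hw' hX' hq => ?_) k5
      ⟨k1, hw, k2, k3, k4⟩
    obtain ⟨l1, l2, l3, l4, l5⟩ := hq
    rw [hX'] at l3 l5
    obtain ⟨ξ, rfl⟩ := (isChild_iff hB).1 l4
    obtain ⟨η, rfl⟩ := (isChild_iff hB).1 l5
    have hne : ξ ≠ η := fun h => l3 (by rw [h])
    refine Ultra.inf_iff.2 ⟨l1, Ultra.mono (Ultra.inf_iff.2 ⟨l2, hw'⟩) ?_⟩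
    exact le_iSup (fun p : {p : K × K // p.1 ≠ p.2} => t (v.snoc p.1.1) ⊓ t (v.snoc p.1.2))
      ⟨(ξ, η), hne⟩
  · intro h
    obtain ⟨h1, h2⟩ := Ultra.inf_iff.1 h
    refine of_iSup (t := fun p : {p : K × K // p.1 ≠ p.2} => t (v.snoc p.1.1) ⊓ t (v.snoc p.1.2))
      (P := fun U => IsSplit (E U) (q U (lamN B K)) (q U (trN t)) (q U (ndN B v)))
      (Q := fun U => t v ∈ U) (BV_isSplit _ _ _) (BV.of_mem _) (fun p U' hp hq => ?_) h2 h1
    obtain ⟨h3, h4⟩ := Ultra.inf_iff.1 hp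
    exact ⟨E_trN.2 hq, q U' (ndN B (v.snoc p.1.1)), q U' (ndN B (v.snoc p.1.2)),
      fun h => p.2 (Nd.snoc_inj (ndN_inj h)).2, (isChild_iff hB).2 ⟨_, rfl⟩,
      (isChild_iff hB).2 ⟨_, rfl⟩, E_trN.2 h3, E_trN.2 h4⟩

end Pool.Agent.Lib.FMM
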